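import Mathlib
import Pool.Agent.Helper278.DefsG
import Pool.Agent.Helper278.TrAlg
import Pool.Agent.Helper278.CEStmt
import Pool.Agent.Helper278.Trace
import Pool.Agent.Helper436.SM.Stmt
import Pool.Agent.Helper436.SM.Pauli

set_option autoImplicit false

open scoped ComplexConjugate Topology
open Filter

namespace Pool.Agent.H146R2.SD

open Pool.Agent.Helper278 Pool.Agent.Helper436.SM

/-- phases -/
abbrev TT : Type := AddCircle (1 : ℝ)

/-- the complex number of modulus one of a phase -/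
noncomputable def e (x : TT) : ℂ := (AddCircle.toCircle x : ℂ)

/-- Data of a twisted group algebra of `V × G`. -/
structure Dat (V G : Type) [AddCommGroup V] [Group G] where
  β : V →+ V →+ TT
  χ : V →+ (Additive G →+ TT)

section

variable {V G : Type} [AddCommGroup V] [Group G]

/-- `W t * (u g * W v) * star (W t) = e (co t (g, v)) • (u g * W v)` -/
def Dat.co (D : Dat V G) (t : V) (b : G × V) : TT :=
  D.β t b.2 - D.β b.2 t - D.χ t (Additive.ofMul b.1)

/-- the elements of `G × V` that commute with all `W t`, `t ∈ T` -/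
def perp (D : Dat V G) (T : AddSubgroup V) : Set (G × V) := {b | ∀ t ∈ T, D.co t b = 0}

/-- `T` as a subset of `G × V` -/
def tl (T : AddSubgroup V) : Set (G × V) := {b | b.1 = 1 ∧ b.2 ∈ T}

/-- `b` has the same class as `x` modulo `T` and its commutant -/
def cls (D : Dat V G) (T : AddSubgroup V) (x b : G × V) : Prop :=
  ∃ s ∈ T, ∀ t ∈ T, D.co t b = D.co t x + D.co t (1, s)

variable {A : Type} [Ring A] [StarRing A] [Algebra ℂ A]

/-- A twisted group algebra of `V × G`: unitaries `u g`, `W v`, such that the products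
`u g * W v` are an orthonormal basis. -/
structure TW (D : Dat V G) (τ : A →ₗ[ℂ] ℂ) (u : G →* A) (W : V → A) : Prop where
  tr : TrAlg τ
  star_u : ∀ g, star (u g) = u g⁻¹
  zero : W 0 = 1
  mul : ∀ v w, W v * W w = e (D.β v w) • W (v + w)
  unit_left : ∀ v, star (W v) * W v = 1
  unit_right : ∀ v, W v * star (W v) = 1
  comm : ∀ g v, u g * W v = e (D.χ v (Additive.ofMul g)) • (W v * u g)
  parseval : ∀ x : A, HasSum (fun b : G × V => ‖τ (star (u b.1 * W b.2) * x)‖ ^ 2) (n2 τ x ^ 2)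

/-- Fourier coefficients -/
def hat (τ : A →ₗ[ℂ] ℂ) (u : G →* A) (W : V → A) (x : A) (b : G × V) : ℂ :=
  τ (star (u b.1 * W b.2) * x)

/-- the mass of `x` on `S` -/
noncomputable def mass (τ : A →ₗ[ℂ] ℂ) (u : G →* A) (W : V → A) (S : Set (G × V)) (x : A) : ℝ :=
  ∑' b, S.indicator (fun b => ‖hat τ u W x b‖ ^ 2) b

/-- tails -/
structure Lev (D : Dat V G) (T : ℕ → AddSubgroup V) : Prop where
  anti : Antitone T
  exh : ∀ b : G × V, ∃ m, ∀ t ∈ T m, D.co t b = 0
  nondeg : ∀ m, ∀ t ∈ T m, (∀ s ∈ T m, D.co s (1, t) = 0) → t = 0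
  ne : ∀ m, ∃ t ∈ T m, t ≠ 0
  tors : ∀ v : V, ∃ n : ℕ, 0 < n ∧ n • v = 0

/-- the element `c` and the vectors `w m`, `δ m` of order `p` -/
structure HasP (D : Dat V G) (T : ℕ → AddSubgroup V) (p : ℕ) (c : G) (w δ : ℕ → V)
    (α γ : G × V → TT) (θ : TT) : Prop where
  w_tors : ∀ m, p • w m = 0
  w_iso : ∀ m, D.β (w m) (w m) = 0
  δ_tors : ∀ m, p • δ m = 0
  δ_iso : ∀ m, D.β (δ m) (δ m) = 0
  co_w : ∀ m, ∀ b ∈ perp D (T m), D.co (w m) b = α b
  co_δ : ∀ m, ∀ b ∈ perp D (T m), D.co (δ m) b = γ b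
  α_one : ∀ v, α (1, v) = 0
  γ_one : ∀ v, D.χ v (Additive.ofMul c) = 0 → γ (1, v) = 0
  γ_w : ∀ m, γ (1, w m) = θ
  θ_ne : θ ≠ 0
  c_tors : ∀ v, p • D.χ v (Additive.ofMul c) = 0

/-- classes modulo `T m` and its commutant are separated by phases that are not `p`-torsion -/
def NotP (D : Dat V G) (T : ℕ → AddSubgroup V) (p : ℕ) : Prop :=
  ∀ (m : ℕ) (x : G × V) (F : Finset (G × V)), (∀ b ∈ F, cls D (T m) x b) →
    ¬ cls D (T m) (1, 0) x →
    ∃ s : V, (∀ b ∈ F, D.co s b = D.co s x) ∧ 1 ≤ ‖e (D.co s x) ^ p - 1‖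

end

section

variable {H : Type} [NormedAddCommGroup H] [InnerProductSpace ℂ H] [CompleteSpace H]
variable {N : VonNeumannAlgebra H}
variable {V G : Type} [AddCommGroup V] [Group G]

/-- `F m 0, …, F m 4` are unitaries that commute with the `W t`, `t ∈ T m`, and have a uniform
spectral gap. -/
structure GapT (T0 : TracialState N) (u : G →* Elt N) (W : V → Elt N) (T : ℕ → AddSubgroup V)
    (C : ℝ) (F : ℕ → Fin 5 → Elt N) : Prop where
  un : ∀ m j, F m j ∈ unitary (Elt N)
  comm : ∀ m j, ∀ t ∈ T m, W t * F m j = F m j * W t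
  gap : ∀ m x, mass T0.τ u W (tl (T m))ᶜ x ≤ C * ∑ j, n2 T0.τ (F m j * x - x * F m j) ^ 2

end

/-- The property of a star algebra that distinguishes the factors. -/
def PropP (p : ℕ) (Q : Type*) [Ring Q] [StarRing Q] : Prop :=
  ∃ y : Fin 3 → Q, ∀ y' : Fin 5 → Q, (∀ z, (∀ j, z * y' j = y' j * z) → ∀ j, z * y j = y j * z) →
    ∃ u ∈ unitary Q, u ^ p = 1 ∧
      (∀ z, (∀ j, z * y' j = y' j * z) → ∀ j, (u * z * star u) * y' j = y' j * (u * z * star u)) ∧
      ¬ ∃ w ∈ unitary Q, ∃ z ∈ unitary Q, u = w * z ∧ (∀ j, z * y' j = y' j * z) ∧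
        ∀ x, (∀ j, x * y' j = y' j * x) → w * x = x * w

section

universe w

variable {H : Type} [NormedAddCommGroup H] [InnerProductSpace ℂ H] [CompleteSpace H]
variable {N : VonNeumannAlgebra H}
variable {V G : Type} [AddCommGroup V] [Group G]
variable {I : Type w} {Q : Type w} [Ring Q] [StarRing Q] [Algebra ℂ Q]

/-- the element of the ultrapower given by a sequence of vectors -/
def Wq (π : (I → Elt N) → Q) (W : V → Elt N) (t : I → V) : Q := π (fun i => W (t i))

/-- `x` commutes with all sequences of `W t`, `t ∈ T (m i)`: `x` has level `m` -/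
def InP (π : (I → Elt N) → Q) (W : V → Elt N) (T : ℕ → AddSubgroup V) (m : I → ℕ) (x : Q) : Prop :=
  ∀ t : I → V, (∀ i, t i ∈ T (m i)) → Wq π W t * x = x * Wq π W t

end

end Pool.Agent.H146R2.SD
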