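import Mathlib
import Pool.Agent.H146R2.SD.Defs

set_option autoImplicit false
set_option linter.unusedSectionVars false

open scoped ComplexConjugate Topology
open Filter

namespace Pool.Agent.H146R2.SD

open Pool.Agent.Helper278 Pool.Agent.Helper436.SM

theorem e_zero : e 0 = 1 := by simp [e]

theorem e_add (x y : TT) : e (x + y) = e x * e y := by simp [e, AddCircle.toCircle_add]

theorem norm_e (x : TT) : ‖e x‖ = 1 := Circle.norm_coe _

theorem e_neg (x : TT) : e (-x) = conj (e x) := by
  unfold e
  rw [AddCircle.toCircle_neg, Circle.coe_inv_eq_conj]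

theorem e_mul_neg (x : TT) : e x * e (-x) = 1 := by
  rw [← e_add, add_neg_cancel, e_zero]

theorem e_nsmul (n : ℕ) (x : TT) : e (n • x) = e x ^ n := by
  induction n with
  | zero => rw [zero_smul, e_zero, pow_zero]
  | succ n ih => rw [succ_nsmul, e_add, ih, pow_succ]

theorem e_inj (x y : TT) : e x = e y ↔ x = y := by
  constructor
  · intro h
    exact AddCircle.injective_toCircle one_ne_zero (Circle.ext h)
  · rintro rfl
    rfl

theorem e_eq_one_iff (x : TT) : e x = 1 ↔ x = 0 := by
  rw [← e_zero, e_inj]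

/-- orthogonality of characters of a finite group -/
theorem sum_e {F : Type} [AddCommGroup F] [Fintype F] (f : F →+ TT) (hf : f ≠ 0) :
    ∑ x, e (f x) = 0 := by
  obtain ⟨y, hy⟩ : ∃ y, f y ≠ 0 := by
    by_contra hcon
    push Not at hcon
    exact hf (AddMonoidHom.ext hcon)
  have h1 : ∑ x, e (f (x + y)) = ∑ x, e (f x) :=
    Fintype.sum_equiv (Equiv.addRight y) _ _ fun x => rfl
  have h2 : ∑ x, e (f (x + y)) = (∑ x, e (f x)) * e (f y) := by
    rw [Finset.sum_mul]
    exact Finset.sum_congr rfl fun x _ => by rw [map_add, e_add]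
  have h3 : e (f y) ≠ 1 := fun h => hy ((e_eq_one_iff _).mp h)
  have h4 : (∑ x, e (f x)) * (e (f y) - 1) = 0 := by
    rw [mul_sub, mul_one, ← h2, h1, sub_self]
  exact (mul_eq_zero.mp h4).resolve_right (sub_ne_zero.mpr h3)

end Pool.Agent.H146R2.SD
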