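import Mathlib
import Pool.Agent.H146R2.SD.Defs
import Pool.Agent.H146R2.SD.BEA

set_option autoImplicit false
set_option linter.unusedSectionVars false

open scoped ComplexConjugate Topology
open Filter

namespace Pool.Agent.H146R2.SD

open Pool.Agent.Helper278 Pool.Agent.Helper436.SM

section

variable {V G : Type} [AddCommGroup V] [Group G] (D : Dat V G)

theorem co_add_left (s t : V) (b : G × V) : D.co (s + t) b = D.co s b + D.co t b := by
  simp only [Dat.co, map_add, AddMonoidHom.add_apply]
  abel

theorem co_zero_left (b : G × V) : D.co 0 b = 0 := by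
  simp only [Dat.co, map_zero, AddMonoidHom.zero_apply, sub_zero]

theorem co_neg_left (s : V) (b : G × V) : D.co (-s) b = - D.co s b := by
  simp only [Dat.co, map_neg, AddMonoidHom.neg_apply]
  abel

/-- `t ↦ co t b` as a homomorphism -/
def coHom (b : G × V) : V →+ TT where
  toFun t := D.co t b
  map_zero' := co_zero_left D b
  map_add' s t := co_add_left D s t b

theorem co_one_zero (s : V) : D.co s (1, 0) = 0 := by
  simp only [Dat.co, map_zero, AddMonoidHom.zero_apply, ofMul_one, sub_zero]

theorem co_mul (s : V) (g g' : G) (v v' : V) :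
    D.co s (g * g', v + v') = D.co s (g, v) + D.co s (g', v') := by
  simp only [Dat.co, map_add, AddMonoidHom.add_apply, ofMul_mul]
  abel

theorem co_inv (s : V) (g : G) (v : V) : D.co s (g⁻¹, -v) = - D.co s (g, v) := by
  simp only [Dat.co, map_neg, AddMonoidHom.neg_apply, ofMul_inv]
  abel

theorem co_one_symm (s t : V) : D.co s (1, t) = - D.co t (1, s) := by
  simp only [Dat.co, ofMul_one, map_zero]
  abel

/-- a finitely generated subgroup of a torsion group is finite -/
theorem exists_finite_sub (htor : ∀ v : V, ∃ n : ℕ, 0 < n ∧ n • v = 0) (S : Finset V)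
    (T : AddSubgroup V) (hS : ∀ v ∈ S, v ∈ T) :
    ∃ F : AddSubgroup V, F ≤ T ∧ Finite F ∧ ∀ v ∈ S, v ∈ F := by
  refine ⟨AddSubgroup.closure (S : Set V), ?_, ?_, ?_⟩
  · rw [AddSubgroup.closure_le]
    exact fun v hv => hS v hv
  · have htor' : IsAddTorsion V := by
      intro v
      obtain ⟨n, hn, hv⟩ := htor v
      exact isOfFinAddOrder_iff_nsmul_eq_zero.2 ⟨n, hn, hv⟩
    exact AddCommGroup.finite_of_fg_isAddTorsion _ (htor'.addSubgroup _)
  · exact fun v hv => AddSubgroup.subset_closure hv

end

end Pool.Agent.H146R2.SD
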