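import Mathlib
import Pool.Agent.H146R2.SD.Defs
import Pool.Agent.H146R2.SD.BEA
import Pool.Agent.H146R2.SD.BEB

set_option autoImplicit false
set_option linter.unusedSectionVars false

open scoped ComplexConjugate Topology
open Filter

namespace Pool.Agent.H146R2.SD

open Pool.Agent.Helper278 Pool.Agent.Helper436.SM

section

variable {A : Type} [Ring A] [StarRing A] [Algebra ℂ A] [StarModule ℂ A] {τ : A →ₗ[ℂ] ℂ}
variable {V G : Type} [AddCommGroup V] [Group G] {D : Dat V G} {u : G →* A} {W : V → A}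

namespace TW

theorem W_mem (h : TW D τ u W) (v : V) : W v ∈ unitary A :=
  Unitary.mem_iff.2 ⟨h.unit_left v, h.unit_right v⟩

theorem u_mem (h : TW D τ u W) (g : G) : u g ∈ unitary A := by
  refine Unitary.mem_iff.2 ⟨?_, ?_⟩
  · rw [h.star_u, ← map_mul, inv_mul_cancel, map_one]
  · rw [h.star_u, ← map_mul, mul_inv_cancel, map_one]

theorem uW_mem (h : TW D τ u W) (g : G) (v : V) : u g * W v ∈ unitary A :=
  mul_mem (h.u_mem g) (h.W_mem v)

theorem star_W (h : TW D τ u W) (v : V) : star (W v) = e (D.β v v) • W (-v) := by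
  have h1 : W v * W (-v) = e (-(D.β v v)) • (1 : A) := by
    rw [h.mul, add_neg_cancel, h.zero, map_neg]
  have h2 : W (-v) = e (-(D.β v v)) • star (W v) := by
    have h3 : star (W v) * (W v * W (-v)) = W (-v) := by
      rw [← mul_assoc, h.unit_left, one_mul]
    rw [← h3, h1, mul_smul_comm, mul_one]
  rw [h2, smul_smul, e_mul_neg, one_smul]

theorem W_u (h : TW D τ u W) (g : G) (v : V) :
    W v * u g = e (- D.χ v (Additive.ofMul g)) • (u g * W v) := by
  rw [h.comm, smul_smul, mul_comm, e_mul_neg, one_smul]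

theorem W_pow (h : TW D τ u W) (v : V) (hv : D.β v v = 0) (p : ℕ) (hp : p • v = 0) :
    W v ^ p = 1 := by
  have h1 : ∀ n : ℕ, W v ^ n = W (n • v) := by
    intro n
    induction n with
    | zero => rw [pow_zero, zero_smul, h.zero]
    | succ n ih =>
      have h2 : D.β (n • v) v = 0 := by
        rw [map_nsmul, AddMonoidHom.nsmul_apply, hv, smul_zero]
      rw [pow_succ, ih, h.mul, h2, e_zero, one_smul, succ_nsmul]
  rw [h1, hp, h.zero]

/-- commutation of `W t` with the basis -/
theorem W_basis (h : TW D τ u W) (t : V) (b : G × V) :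
    W t * (u b.1 * W b.2) = e (D.co t b) • ((u b.1 * W b.2) * W t) := by
  have h1 : W t * W b.2 = e (D.β t b.2 - D.β b.2 t) • (W b.2 * W t) := by
    rw [h.mul, h.mul, smul_smul, ← e_add, sub_add_cancel, add_comm t b.2]
  rw [← mul_assoc, h.W_u, smul_mul_assoc, mul_assoc, h1, mul_smul_comm, smul_smul, ← e_add,
    mul_assoc]
  congr 2
  unfold Dat.co
  abel

/-- the product of two basis elements -/
theorem basis_mul (h : TW D τ u W) (g g' : G) (v v' : V) :
    (u g * W v) * (u g' * W v') =
      e (D.β v v' - D.χ v (Additive.ofMul g')) • (u (g * g') * W (v + v')) := by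
  have h1 : (u g * W v) * (u g' * W v') = u g * ((W v * u g') * W v') := by
    simp only [mul_assoc]
  rw [h1, h.W_u, smul_mul_assoc, mul_assoc, h.mul, mul_smul_comm, mul_smul_comm, mul_smul_comm,
    smul_smul, ← e_add, ← mul_assoc, ← map_mul]
  congr 2
  abel

theorem basis_star (h : TW D τ u W) (g : G) (v : V) :
    ∃ c : ℂ, ‖c‖ = 1 ∧ star (u g * W v) = c • (u g⁻¹ * W (-v)) := by
  refine ⟨e (D.β v v) * e (- D.χ (-v) (Additive.ofMul g⁻¹)), ?_, ?_⟩
  · rw [norm_mul, norm_e, norm_e, one_mul]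
  · rw [star_mul, h.star_W, h.star_u, smul_mul_assoc, h.W_u, smul_smul]

end TW

end

end Pool.Agent.H146R2.SD
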