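import Mathlib
import Pool.Agent.H146R2.SD.Defs
import Pool.Agent.H146R2.SD.BEA
import Pool.Agent.H146R2.SD.BEB
import Pool.Agent.H146R2.SD.BTA

set_option autoImplicit false
set_option linter.unusedSectionVars false

open scoped ComplexConjugate Topology
open Filter

namespace Pool.Agent.H146R2.SD

open Pool.Agent.Helper278 Pool.Agent.Helper436.SM

section

variable {A : Type} [Ring A] [StarRing A] [Algebra ℂ A] [StarModule ℂ A] {τ : A →ₗ[ℂ] ℂ}
variable {V G : Type} [AddCommGroup V] [Group G] {D : Dat V G} {u : G →* A} {W : V → A}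

namespace TW

theorem hat_add (x y : A) (b : G × V) : hat τ u W (x + y) b = hat τ u W x b + hat τ u W y b := by
  simp only [hat, mul_add, map_add]

theorem hat_sub (x y : A) (b : G × V) : hat τ u W (x - y) b = hat τ u W x b - hat τ u W y b := by
  simp only [hat, mul_sub, map_sub]

theorem hat_smul (c : ℂ) (x : A) (b : G × V) : hat τ u W (c • x) b = c * hat τ u W x b := by
  simp only [hat, mul_smul_comm, map_smul, smul_eq_mul]

theorem hat_sum {ι : Type} (S : Finset ι) (f : ι → A) (b : G × V) :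
    hat τ u W (∑ i ∈ S, f i) b = ∑ i ∈ S, hat τ u W (f i) b := by
  simp only [hat, Finset.mul_sum, map_sum]

theorem btb_uW (h : TW D τ u W) (c : G × V) :
    star (u c.1 * W c.2) * (u c.1 * W c.2) = 1 :=
  (Unitary.mem_iff.1 (h.uW_mem c.1 c.2)).1

open scoped Classical in
theorem hat_basis (h : TW D τ u W) (b b' : G × V) :
    hat τ u W (u b'.1 * W b'.2) b = if b = b' then 1 else 0 := by
  have hp := h.parseval (u b'.1 * W b'.2)
  have hn : n2 τ (u b'.1 * W b'.2) ^ 2 = 1 := by
    rw [h.tr.n2_sq, h.btb_uW b', h.tr.one, Complex.one_re]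
  rw [hn] at hp
  by_cases hb : b = b'
  · subst hb
    rw [if_pos rfl]
    show τ (star (u b.1 * W b.2) * (u b.1 * W b.2)) = 1
    rw [h.btb_uW, h.tr.one]
  · rw [if_neg hb]
    have h2 := sum_le_hasSum {b, b'} (fun i _ => sq_nonneg _) hp
    rw [Finset.sum_pair hb] at h2
    have h3 : ‖τ (star (u b'.1 * W b'.2) * (u b'.1 * W b'.2))‖ ^ 2 = 1 := by
      rw [h.btb_uW, h.tr.one]; simp
    rw [h3] at h2
    have h4 : ‖τ (star (u b.1 * W b.2) * (u b'.1 * W b'.2))‖ ^ 2 = 0 := by
      have := sq_nonneg ‖τ (star (u b.1 * W b.2) * (u b'.1 * W b'.2))‖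
      linarith
    show τ (star (u b.1 * W b.2) * (u b'.1 * W b'.2)) = 0
    exact norm_eq_zero.1 (pow_eq_zero_iff two_ne_zero |>.1 h4)

theorem hat_one_zero (h : TW D τ u W) (x : A) : hat τ u W x (1, 0) = τ x := by
  show τ (star (u (1 : G) * W (0 : V)) * x) = τ x
  rw [map_one, h.zero, one_mul, star_one, one_mul]

theorem norm_hat_le (h : TW D τ u W) (x : A) (b : G × V) : ‖hat τ u W x b‖ ≤ n2 τ x := by
  have h1 := h.tr.cauchy (u b.1 * W b.2) x
  have hn : n2 τ (u b.1 * W b.2) = 1 := by
    unfold n2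
    rw [h.btb_uW, h.tr.one, Complex.one_re, Real.sqrt_one]
  rw [hn, one_mul] at h1
  exact h1

theorem summable_hat (h : TW D τ u W) (x : A) : Summable (fun b => ‖hat τ u W x b‖ ^ 2) :=
  (h.parseval x).summable

theorem summable_ind (h : TW D τ u W) (S : Set (G × V)) (x : A) :
    Summable (S.indicator (fun b => ‖hat τ u W x b‖ ^ 2)) :=
  (h.summable_hat x).indicator S

theorem hat_star (h : TW D τ u W) (x : A) (g : G) (v : V) :
    ‖hat τ u W (star x) (g, v)‖ = ‖hat τ u W x (g⁻¹, -v)‖ := by
  show ‖τ (star (u g * W v) * star x)‖ = ‖τ (star (u g⁻¹ * W (-v)) * x)‖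
  obtain ⟨c, hc, h1⟩ := h.basis_star g⁻¹ (-v)
  rw [h1, inv_inv, neg_neg, smul_mul_assoc, map_smul, norm_smul, hc, one_mul, ← star_mul,
    h.tr.conj, norm_star, h.tr.comm]

theorem btb_self (h : TW D τ u W) (x : A) :
    HasSum (fun b => conj (hat τ u W x b) * hat τ u W x b) (τ (star x * x)) := by
  have h1 := (h.parseval x)
  have h2 : HasSum (fun b : G × V => ((‖τ (star (u b.1 * W b.2) * x)‖ ^ 2 : ℝ) : ℂ))
      ((n2 τ x ^ 2 : ℝ) : ℂ) := Complex.hasSum_ofReal.2 h1
  have h3 : ((n2 τ x ^ 2 : ℝ) : ℂ) = τ (star x * x) := by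
    rw [h.tr.n2_sq]
    apply Complex.ext
    · simp
    · simp [h.tr.im_zero x]
  rw [h3] at h2
  convert h2 using 2 with b
  show conj (hat τ u W x b) * hat τ u W x b = ((‖hat τ u W x b‖ ^ 2 : ℝ) : ℂ)
  rw [mul_comm, Complex.mul_conj, Complex.normSq_eq_norm_sq]

/-- the inner product in terms of Fourier coefficients -/
theorem hasSum_inner (h : TW D τ u W) (x y : A) :
    HasSum (fun b => conj (hat τ u W x b) * hat τ u W y b) (τ (star x * y)) := by
  have h1 := h.btb_self (x + y)
  have h2 := h.btb_self (x - y)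
  have h3 := h.btb_self (x + Complex.I • y)
  have h4 := h.btb_self (x - Complex.I • y)
  have h5 := ((h1.sub h2).add ((h3.sub h4).mul_left (-Complex.I))).mul_left (1 / 4)
  have hI : Complex.I * Complex.I = -1 := Complex.I_mul_I
  have e1 : (fun b => conj (hat τ u W x b) * hat τ u W y b) = fun b => 1 / 4 *
      ((conj (hat τ u W (x + y) b) * hat τ u W (x + y) b -
        conj (hat τ u W (x - y) b) * hat τ u W (x - y) b) +
      -Complex.I * (conj (hat τ u W (x + Complex.I • y) b) * hat τ u W (x + Complex.I • y) b -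
        conj (hat τ u W (x - Complex.I • y) b) * hat τ u W (x - Complex.I • y) b)) := by
    funext b
    simp only [hat_add, hat_sub, hat_smul, map_add, map_sub, map_mul, Complex.conj_I]
    linear_combination (1 / 2) * (conj (hat τ u W x b) * hat τ u W y b
      - conj (hat τ u W y b) * hat τ u W x b) * hI
  have e2 : τ (star x * y) = 1 / 4 *
      ((τ (star (x + y) * (x + y)) - τ (star (x - y) * (x - y))) +
      -Complex.I * (τ (star (x + Complex.I • y) * (x + Complex.I • y)) -
        τ (star (x - Complex.I • y) * (x - Complex.I • y)))) := by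
    simp only [star_add, star_sub, star_smul, mul_add, mul_sub, add_mul, sub_mul, smul_mul_assoc,
      mul_smul_comm, map_add, map_sub, map_smul, smul_eq_mul, Complex.star_def, Complex.conj_I]
    linear_combination (1 / 2) * (τ (star x * y) - τ (star y * x)) * hI
  rw [e1, e2]
  exact h5

end TW

end

end Pool.Agent.H146R2.SD
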