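import Mathlib
import Pool.Agent.H146R2.SD.Defs
import Pool.Agent.H146R2.SD.BEA
import Pool.Agent.H146R2.SD.BEB
import Pool.Agent.H146R2.SD.BTA
import Pool.Agent.H146R2.SD.BTB

set_option autoImplicit false
set_option linter.unusedSectionVars false

open scoped ComplexConjugate Topology
open Filter

namespace Pool.Agent.H146R2.SD

open Pool.Agent.Helper278 Pool.Agent.Helper436.SM

section

variable {A : Type} [Ring A] [StarRing A] [Algebra ℂ A] [StarModule ℂ A] {τ : A →ₗ[ℂ] ℂ}
variable {V G : Type} [AddCommGroup V] [Group G] {D : Dat V G} {u : G →* A} {W : V → A}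

namespace TW

theorem mass_univ (h : TW D τ u W) (x : A) : mass τ u W Set.univ x = n2 τ x ^ 2 := by
  unfold mass
  rw [Set.indicator_univ]
  exact (h.parseval x).tsum_eq

theorem mass_nonneg (S : Set (G × V)) (x : A) : 0 ≤ mass τ u W S x :=
  tsum_nonneg fun _ => Set.indicator_nonneg (fun _ _ => sq_nonneg _) _

theorem mass_mono (h : TW D τ u W) {S S' : Set (G × V)} (hS : S ⊆ S') (x : A) :
    mass τ u W S x ≤ mass τ u W S' x :=
  (h.summable_ind S x).tsum_le_tsum
    (fun b => Set.indicator_le_indicator_of_subset hS (fun _ => sq_nonneg _) b)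
    (h.summable_ind S' x)

theorem mass_le (h : TW D τ u W) (S : Set (G × V)) (x : A) : mass τ u W S x ≤ n2 τ x ^ 2 := by
  rw [← h.mass_univ]
  exact h.mass_mono (Set.subset_univ _) x

theorem mass_compl (h : TW D τ u W) (S : Set (G × V)) (x : A) :
    mass τ u W S x + mass τ u W Sᶜ x = n2 τ x ^ 2 := by
  rw [← h.mass_univ]
  unfold mass
  rw [← (h.summable_ind S x).tsum_add (h.summable_ind Sᶜ x)]
  refine tsum_congr fun b => ?_
  rw [Set.indicator_univ, Set.indicator_self_add_compl_apply]

theorem mass_union_le (h : TW D τ u W) (S S' : Set (G × V)) (x : A) :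
    mass τ u W (S ∪ S') x ≤ mass τ u W S x + mass τ u W S' x := by
  unfold mass
  rw [← (h.summable_ind S x).tsum_add (h.summable_ind S' x)]
  refine (h.summable_ind _ x).tsum_le_tsum (fun b => ?_)
    ((h.summable_ind S x).add (h.summable_ind S' x))
  have h0 : ∀ b : G × V, 0 ≤ ‖hat τ u W x b‖ ^ 2 := fun b => sq_nonneg _
  have h1 := Set.indicator_nonneg (s := S) (fun b _ => h0 b) b
  have h2 := Set.indicator_nonneg (s := S') (fun b _ => h0 b) b
  by_cases hb : b ∈ S
  · rw [Set.indicator_of_mem (Set.mem_union_left _ hb), Set.indicator_of_mem hb]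
    linarith
  · by_cases hb' : b ∈ S'
    · rw [Set.indicator_of_mem (Set.mem_union_right _ hb'), Set.indicator_of_mem hb']
      linarith
    · rw [Set.indicator_of_notMem (fun hc => hc.elim hb hb')]
      linarith

theorem mass_add_le (h : TW D τ u W) (S : Set (G × V)) (x y : A) :
    mass τ u W S (x + y) ≤ 2 * mass τ u W S x + 2 * mass τ u W S y := by
  unfold mass
  rw [← tsum_mul_left, ← tsum_mul_left,
    ← ((h.summable_ind S x).mul_left 2).tsum_add ((h.summable_ind S y).mul_left 2)]
  refine (h.summable_ind _ _).tsum_le_tsum (fun b => ?_)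
    (((h.summable_ind S x).mul_left 2).add ((h.summable_ind S y).mul_left 2))
  by_cases hb : b ∈ S
  · rw [Set.indicator_of_mem hb, Set.indicator_of_mem hb, Set.indicator_of_mem hb]
    rw [hat_add]
    have h1 := norm_add_le (hat τ u W x b) (hat τ u W y b)
    have h2 := norm_nonneg (hat τ u W x b + hat τ u W y b)
    nlinarith [sq_nonneg (‖hat τ u W x b‖ - ‖hat τ u W y b‖), norm_nonneg (hat τ u W x b),
      norm_nonneg (hat τ u W y b)]
  · rw [Set.indicator_of_notMem hb, Set.indicator_of_notMem hb, Set.indicator_of_notMem hb]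
    simp

theorem mass_eq_zero_iff (h : TW D τ u W) (S : Set (G × V)) (x : A) :
    mass τ u W S x = 0 ↔ ∀ b ∈ S, hat τ u W x b = 0 := by
  unfold mass
  rw [← (h.summable_ind S x).hasSum_iff,
    hasSum_zero_iff_of_nonneg (fun b => Set.indicator_nonneg (fun _ _ => sq_nonneg _) b)]
  constructor
  · intro h0 b hb
    have h1 := congrFun h0 b
    rw [Set.indicator_of_mem hb] at h1
    simpa using h1
  · intro h0
    funext b
    by_cases hb : b ∈ S
    · rw [Set.indicator_of_mem hb, h0 b hb]
      simp
    · rw [Set.indicator_of_notMem hb]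
      rfl

theorem mass_le_of_near (h : TW D τ u W) (S : Set (G × V)) (x y : A) (hy : mass τ u W S y = 0) :
    mass τ u W S x ≤ n2 τ (x - y) ^ 2 := by
  rw [h.mass_eq_zero_iff] at hy
  have h1 : mass τ u W S x = mass τ u W S (x - y) := by
    unfold mass
    refine tsum_congr fun b => ?_
    by_cases hb : b ∈ S
    · rw [Set.indicator_of_mem hb, Set.indicator_of_mem hb, hat_sub, hy b hb, sub_zero]
    · rw [Set.indicator_of_notMem hb, Set.indicator_of_notMem hb]
  rw [h1]
  exact h.mass_le _ _

/-- the mass of a finite set is almost everything -/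
theorem exists_finset_mass (h : TW D τ u W) (x : A) (ε : ℝ) (hε : 0 < ε) :
    ∃ F : Finset (G × V), mass τ u W (F : Set (G × V))ᶜ x < ε := by
  obtain ⟨F, hF⟩ := ((h.parseval x).eventually (gt_mem_nhds
    (show n2 τ x ^ 2 < n2 τ x ^ 2 + 1 by linarith))).and
    ((h.parseval x).eventually (lt_mem_nhds (show n2 τ x ^ 2 - ε < n2 τ x ^ 2 by linarith)))
    |>.exists
  refine ⟨F, ?_⟩
  have h1 := h.mass_compl (F : Set (G × V)) x
  have h2 : mass τ u W (F : Set (G × V)) x = ∑ b ∈ F, ‖hat τ u W x b‖ ^ 2 := by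
    unfold mass
    rw [tsum_eq_sum (s := F) (fun b hb => Set.indicator_of_notMem (by simpa using hb) _)]
    exact Finset.sum_congr rfl fun b hb => Set.indicator_of_mem (by simpa using hb) _
  have h3 := hF.2
  change _ < ∑ b ∈ F, ‖hat τ u W x b‖ ^ 2 at h3
  linarith

end TW

end

end Pool.Agent.H146R2.SD
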