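import Mathlib
import Pool.Agent.H146R2.SD.Defs
import Pool.Agent.H146R2.SD.BEA
import Pool.Agent.H146R2.SD.BEB
import Pool.Agent.H146R2.SD.BTA
import Pool.Agent.H146R2.SD.BTB
import Pool.Agent.H146R2.SD.BTC

set_option autoImplicit false
set_option linter.unusedSectionVars false

open scoped ComplexConjugate Topology
open Filter

namespace Pool.Agent.H146R2.SD

open Pool.Agent.Helper278 Pool.Agent.Helper436.SM

section

variable {A : Type} [Ring A] [StarRing A] [Algebra ℂ A] [StarModule ℂ A] {τ : A →ₗ[ℂ] ℂ}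
variable {V G : Type} [AddCommGroup V] [Group G] {D : Dat V G} {u : G →* A} {W : V → A}

namespace TW

theorem btd_mul_right (h : TrAlg τ) (a x : A) (ha : a * star a = 1) :
    n2 τ (x * a) = n2 τ x := by
  unfold n2
  rw [star_mul, h.comm, mul_assoc, ← mul_assoc a, ha, one_mul, h.comm]

theorem btd_n2_sq (h : TW D τ u W) (x : A) :
    n2 τ x ^ 2 = ∑' b, ‖hat τ u W x b‖ ^ 2 := ((h.parseval x).tsum_eq).symm

theorem btd_e_conj (x : TT) : e x * conj (e x) = 1 := by
  rw [← e_neg, e_mul_neg]

/-- approximation by finite sums with support in the given set -/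
theorem exists_approx (h : TW D τ u W) (x : A) (F : Finset (G × V)) :
    n2 τ (x - ∑ b ∈ F, hat τ u W x b • (u b.1 * W b.2)) ^ 2 =
      mass τ u W (F : Set (G × V))ᶜ x := by
  classical
  rw [h.btd_n2_sq]
  unfold mass
  refine tsum_congr fun b => ?_
  have h1 : hat τ u W (∑ b ∈ F, hat τ u W x b • (u b.1 * W b.2)) b =
      if b ∈ F then hat τ u W x b else 0 := by
    rw [hat_sum]
    by_cases hb : b ∈ F
    · rw [if_pos hb, Finset.sum_eq_single b]
      · rw [hat_smul, h.hat_basis, if_pos rfl, mul_one]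
      · intro c _ hc
        rw [hat_smul, h.hat_basis, if_neg (fun h' => hc h'.symm), mul_zero]
      · intro h'
        exact absurd hb h'
    · rw [if_neg hb]
      refine Finset.sum_eq_zero fun c hc => ?_
      rw [hat_smul, h.hat_basis, if_neg, mul_zero]
      rintro rfl
      exact hb hc
  rw [hat_sub, h1]
  by_cases hb : b ∈ F
  · rw [if_pos hb, Set.indicator_of_notMem (by simpa using hb)]
    simp
  · rw [if_neg hb, Set.indicator_of_mem (by simpa using hb), sub_zero]

/-- conjugation by `W t` -/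
theorem hat_conj (h : TW D τ u W) (t : V) (x : A) (b : G × V) :
    hat τ u W (W t * x * star (W t)) b = e (D.co t b) * hat τ u W x b := by
  unfold hat
  have h1 := h.W_basis t b
  generalize u b.1 * W b.2 = B at h1 ⊢
  have h2 : star B * star (W t) = conj (e (D.co t b)) • (star (W t) * star B) := by
    have := congrArg star h1
    rw [star_mul, star_smul, star_mul] at this
    exact this
  have h3 : star B = conj (e (D.co t b)) • (star (W t) * star B * W t) := by
    calc star B = star B * (star (W t) * W t) := by rw [h.unit_left, mul_one]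
      _ = (star B * star (W t)) * W t := by rw [mul_assoc]
      _ = _ := by rw [h2, smul_mul_assoc]
  have h4 : star (W t) * star B * W t = e (D.co t b) • star B := by
    conv_rhs => rw [h3]
    rw [smul_smul, btd_e_conj, one_smul]
  rw [h.tr.comm]
  have h5 : W t * x * star (W t) * star B = W t * (x * (star (W t) * star B)) := by
    simp only [mul_assoc]
  rw [h5, h.tr.comm]
  have h6 : x * (star (W t) * star B) * W t = x * (star (W t) * star B * W t) := by
    simp only [mul_assoc]
  rw [h6, h4, mul_smul_comm, map_smul, h.tr.comm, smul_eq_mul]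

theorem n2_comm_W (h : TW D τ u W) (t : V) (x : A) :
    n2 τ (W t * x - x * W t) ^ 2 = ∑' b, ‖e (D.co t b) - 1‖ ^ 2 * ‖hat τ u W x b‖ ^ 2 := by
  have h1 : n2 τ (W t * x - x * W t) = n2 τ (W t * x * star (W t) - x) := by
    have h2 : W t * x * star (W t) - x = (W t * x - x * W t) * star (W t) := by
      rw [sub_mul, mul_assoc x, h.unit_right, mul_one]
    rw [h2, btd_mul_right h.tr]
    rw [star_star, h.unit_left]
  rw [h1, h.btd_n2_sq]
  refine tsum_congr fun b => ?_
  rw [hat_sub, h.hat_conj, ← mul_pow, ← norm_mul, sub_mul, one_mul]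

/-- conjugation by two vectors -/
theorem n2_conj_sub (h : TW D τ u W) (s t : V) (x : A) :
    n2 τ (W s * x * star (W s) - W t * x * star (W t)) ^ 2 =
      ∑' b, ‖e (D.co s b) - e (D.co t b)‖ ^ 2 * ‖hat τ u W x b‖ ^ 2 := by
  rw [h.btd_n2_sq]
  refine tsum_congr fun b => ?_
  rw [hat_sub, h.hat_conj, h.hat_conj, ← mul_pow, ← norm_mul, sub_mul]

theorem btd_le (h : TW D τ u W) (x : A) (S : Set (G × V)) (f : G × V → ℂ)
    (hf : ∀ b, ‖f b‖ ≤ 2) (hS : ∀ b ∉ S, f b = 0) :
    ∑' b, ‖f b‖ ^ 2 * ‖hat τ u W x b‖ ^ 2 ≤ 4 * mass τ u W S x := by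
  unfold mass
  rw [← tsum_mul_left]
  have hle : ∀ b, ‖f b‖ ^ 2 * ‖hat τ u W x b‖ ^ 2 ≤
      4 * S.indicator (fun b => ‖hat τ u W x b‖ ^ 2) b := by
    intro b
    by_cases hb : b ∈ S
    · rw [Set.indicator_of_mem hb]
      have h1 : ‖f b‖ ^ 2 ≤ 4 := by nlinarith [hf b, norm_nonneg (f b)]
      exact mul_le_mul_of_nonneg_right h1 (by positivity)
    · rw [Set.indicator_of_notMem hb, hS b hb]
      simp
  have hsum : Summable (fun b => 4 * S.indicator (fun b => ‖hat τ u W x b‖ ^ 2) b) :=
    (h.summable_ind S x).mul_left 4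
  exact Summable.tsum_le_tsum hle
    (Summable.of_nonneg_of_le (fun b => by positivity) hle hsum) hsum

theorem n2_comm_W_le (h : TW D τ u W) (t : V) (x : A) (S : Set (G × V))
    (hS : ∀ b ∉ S, D.co t b = 0) : n2 τ (W t * x - x * W t) ^ 2 ≤ 4 * mass τ u W S x := by
  rw [h.n2_comm_W]
  refine h.btd_le x S (fun b => e (D.co t b) - 1) (fun b => ?_) (fun b hb => ?_)
  · refine (norm_sub_le _ _).trans ?_
    rw [norm_e, norm_one]
    norm_num
  · simp only [hS b hb, e_zero, sub_self]

theorem n2_conj_sub_le (h : TW D τ u W) (s t : V) (x : A) (S : Set (G × V))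
    (hS : ∀ b ∉ S, D.co s b = D.co t b) :
    n2 τ (W s * x * star (W s) - W t * x * star (W t)) ^ 2 ≤ 4 * mass τ u W S x := by
  rw [h.n2_conj_sub]
  refine h.btd_le x S (fun b => e (D.co s b) - e (D.co t b)) (fun b => ?_) (fun b hb => ?_)
  · refine (norm_sub_le _ _).trans ?_
    rw [norm_e, norm_e]
    norm_num
  · simp only [hS b hb, sub_self]

end TW

end

end Pool.Agent.H146R2.SD
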