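import Mathlib
import Pool.Agent.H146R2.SD.Defs
import Pool.Agent.H146R2.SD.BEA
import Pool.Agent.H146R2.SD.BEB
import Pool.Agent.H146R2.SD.BTA
import Pool.Agent.H146R2.SD.BTB
import Pool.Agent.H146R2.SD.BTC
import Pool.Agent.H146R2.SD.BTD
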