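import Mathlib
import Pool.Agent.H146R2.SD.BAS

set_option autoImplicit false
set_option linter.unusedSectionVars false

open scoped ComplexConjugate Topology
open Filter

namespace Pool.Agent.H146R2.SD

open Pool.Agent.Helper278 Pool.Agent.Helper436.SM

variable {A : Type} [Ring A] [StarRing A] [Algebra ℂ A] [StarModule ℂ A] {τ : A →ₗ[ℂ] ℂ}
variable {V G : Type} [AddCommGroup V] [Group G] {D : Dat V G} {u : G →* A} {W : V → A}

theorem ava_norm_sub_one (x : TT) : ‖e x - 1‖ ^ 2 = 2 - 2 * (e x).re := by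
  have h1 : ‖e x‖ ^ 2 = 1 := by rw [norm_e, one_pow]
  rw [← Complex.normSq_eq_norm_sq] at h1 ⊢
  rw [Complex.normSq_apply] at h1 ⊢
  simp only [Complex.sub_re, Complex.one_re, Complex.sub_im, Complex.one_im]
  nlinarith

theorem ava_sum_K {K : Type} [AddCommGroup K] [Fintype K] (f : K →+ TT) (hf : f ≠ 0) :
    ∑ t, ‖e (f t) - 1‖ ^ 2 = 2 * (Fintype.card K : ℝ) := by
  have h1 : ∑ t, (e (f t)).re = 0 := by
    rw [← Complex.re_sum, sum_e f hf, Complex.zero_re]
  calc ∑ t, ‖e (f t) - 1‖ ^ 2 = ∑ t, (2 - 2 * (e (f t)).re) :=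
        Finset.sum_congr rfl fun t _ => ava_norm_sub_one _
    _ = 2 * (Fintype.card K : ℝ) := by
        rw [Finset.sum_sub_distrib, ← Finset.mul_sum, h1]
        simp
        ring

/-- some `W t`, `t ∈ T`, sees all the mass outside the commutant of `T` -/
theorem TW.exists_t (h : TW D τ u W) (htor : ∀ v : V, ∃ n : ℕ, 0 < n ∧ n • v = 0)
    (T : AddSubgroup V) (x : A) :
    ∃ t ∈ T, mass τ u W (perp D T)ᶜ x ≤ n2 τ (W t * x - x * W t) ^ 2 := by
  classical
  set M := mass τ u W (perp D T)ᶜ x with hM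
  by_cases hM0 : M ≤ 0
  · exact ⟨0, T.zero_mem, hM0.trans (sq_nonneg _)⟩
  push Not at hM0
  -- a finite set with half of the mass
  have hs := (h.summable_ind (perp D T)ᶜ x).hasSum
  have hs' : ∃ F : Finset (G × V), M / 2 <
      ∑ b ∈ F, (perp D T)ᶜ.indicator (fun b => ‖hat τ u W x b‖ ^ 2) b := by
    have h1 : M / 2 < ∑' b, (perp D T)ᶜ.indicator (fun b => ‖hat τ u W x b‖ ^ 2) b := by
      have : M = ∑' b, (perp D T)ᶜ.indicator (fun b => ‖hat τ u W x b‖ ^ 2) b := rfl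
      rw [← this]
      linarith
    exact (hs.eventually (lt_mem_nhds h1)).exists
  obtain ⟨F₀, hF₀⟩ := hs'
  set F := F₀.filter (fun b => b ∈ (perp D T)ᶜ) with hF
  have hF' : M / 2 < ∑ b ∈ F, ‖hat τ u W x b‖ ^ 2 := by
    rw [hF, Finset.sum_filter]
    refine hF₀.trans_le (le_of_eq ?_)
    apply Finset.sum_congr rfl
    intro b _
    rw [Set.indicator_apply]
  have hFp : ∀ b ∈ F, ∃ t ∈ T, D.co t b ≠ 0 := by
    intro b hb
    have h1 := (Finset.mem_filter.1 hb).2
    by_contra hcon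
    push Not at hcon
    exact h1 hcon
  choose! tb htb1 htb2 using hFp
  obtain ⟨K, hKT, hKf, hK⟩ := exists_finite_sub htor (F.image tb) T (by
    intro v hv
    obtain ⟨b, hb, rfl⟩ := Finset.mem_image.1 hv
    exact htb1 b hb)
  haveI : Fintype K := Fintype.ofFinite K
  have hsumK : ∀ b ∈ F, ∑ t : K, ‖e (D.co (t : V) b) - 1‖ ^ 2 = 2 * (Fintype.card K : ℝ) := by
    intro b hb
    apply ava_sum_K ((coHom D b).comp K.subtype)
    intro h0
    apply htb2 b hb
    have h1 := DFunLike.congr_fun h0 (⟨tb b, hK _ (Finset.mem_image_of_mem _ hb)⟩ : K)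
    exact h1
  have hdouble : ∑ t : K, M ≤
      ∑ t : K, ∑ b ∈ F, ‖e (D.co (t : V) b) - 1‖ ^ 2 * ‖hat τ u W x b‖ ^ 2 := by
    rw [Finset.sum_comm]
    have h1 : ∑ b ∈ F, ∑ t : K, ‖e (D.co (t : V) b) - 1‖ ^ 2 * ‖hat τ u W x b‖ ^ 2 =
        2 * (Fintype.card K : ℝ) * ∑ b ∈ F, ‖hat τ u W x b‖ ^ 2 := by
      rw [Finset.mul_sum]
      apply Finset.sum_congr rfl
      intro b hb
      rw [← Finset.sum_mul, hsumK b hb]
    rw [h1, Finset.sum_const, Finset.card_univ, nsmul_eq_mul]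
    have h2 : (0 : ℝ) ≤ Fintype.card K := Nat.cast_nonneg _
    nlinarith
  obtain ⟨t, -, ht⟩ := Finset.exists_le_of_sum_le (Finset.univ_nonempty) hdouble
  refine ⟨t, hKT t.2, ht.trans ?_⟩
  rw [h.n2_comm_W]
  apply Summable.sum_le_tsum
  · intro b _
    positivity
  · apply Summable.of_nonneg_of_le (fun b => by positivity) _ ((h.summable_hat x).mul_left 4)
    intro b
    apply mul_le_mul_of_nonneg_right _ (by positivity)
    have h1 : ‖e (D.co (t : V) b) - 1‖ ≤ 2 := by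
      refine (norm_sub_le _ _).trans ?_
      rw [norm_e, norm_one]
      norm_num
    have h2 := norm_nonneg (e (D.co (t : V) b) - 1)
    nlinarith

end Pool.Agent.H146R2.SD
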