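import Mathlib
import Pool.Agent.H146R2.SD.BAS

set_option autoImplicit false
set_option linter.unusedSectionVars false

open scoped ComplexConjugate Topology
open Filter

namespace Pool.Agent.H146R2.SD

open Pool.Agent.Helper278 Pool.Agent.Helper436.SM

variable {A : Type} [Ring A] [StarRing A] [Algebra ℂ A] [StarModule ℂ A] {τ : A →ₗ[ℂ] ℂ}
variable {V G : Type} [AddCommGroup V] [Group G] {D : Dat V G} {u : G →* A} {W : V → A}

theorem TW.comm_perp_le (h : TW D τ u W) (T : AddSubgroup V) (t : V) (ht : t ∈ T) (x : A) :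
    n2 τ (W t * x - x * W t) ^ 2 ≤ 4 * mass τ u W (perp D T)ᶜ x := by
  refine h.n2_comm_W_le t x _ fun b hb => ?_
  rw [Set.mem_compl_iff, not_not] at hb
  exact hb t ht

/-- independence of `T` and its commutant -/
theorem TW.indep (h : TW D τ u W) (T : AddSubgroup V)
    (hnd : ∀ t ∈ T, (∀ s ∈ T, D.co s (1, t) = 0) → t = 0) (c d : A)
    (hc : mass τ u W (tl T)ᶜ c = 0) (hd : mass τ u W (perp D T)ᶜ d = 0) :
    τ (c * d) = τ c * τ d := by
  rw [h.mass_eq_zero_iff] at hc hd
  have h1 := h.hasSum_inner (star c) d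
  have h2 : HasSum (fun b => conj (hat τ u W (star c) b) * hat τ u W d b)
      (conj (hat τ u W (star c) (1, 0)) * hat τ u W d (1, 0)) := by
    refine hasSum_single (1, 0) ?_
    rintro ⟨g, v⟩ hb
    by_cases ht : ((g, v) : G × V) ∈ tl T
    · have hp : ((g, v) : G × V) ∉ perp D T := by
        intro hp
        obtain ⟨hg, hv⟩ := ht
        simp only at hg hv
        subst hg
        exact hb (by rw [hnd v hv fun s hs => hp s hs])
      rw [hd _ hp, mul_zero]
    · have h3 : ((g⁻¹, -v) : G × V) ∉ tl T := by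
        rintro ⟨hg, hv⟩
        simp only [inv_eq_one, neg_mem_iff] at hg hv
        exact ht ⟨hg, hv⟩
      have h4 := h.hat_star c g v
      rw [hc _ h3, norm_zero, norm_eq_zero] at h4
      rw [h4, map_zero, zero_mul]
  have h5 := h1.unique h2
  rw [star_star, h.hat_one_zero, h.hat_one_zero, h.tr.conj] at h5
  have h6 : (starRingEnd ℂ) (star (τ c)) = τ c := star_star (τ c)
  rw [h6] at h5
  exact h5

end Pool.Agent.H146R2.SD
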