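import Mathlib
import Pool.Agent.H146R2.SD.BAS
import Pool.Agent.H146R2.SD.AVA
import Pool.Agent.H146R2.SD.AVB

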