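import Mathlib
import Pool.Agent.H146R2.SD.Defs

set_option autoImplicit false
set_option linter.unusedSectionVars false

open scoped ComplexConjugate Topology
open Filter

namespace Pool.Agent.H146R2.SD

open Pool.Agent.Helper278 Pool.Agent.Helper436.SM

/-- the `k`-th prime -/
noncomputable def pk (k : ℕ) : ℕ := Nat.nth Nat.Prime k

theorem pk_prime (k : ℕ) : (pk k).Prime := Nat.prime_nth_prime k

instance (k : ℕ) : Fact (pk k).Prime := ⟨pk_prime k⟩

instance (k : ℕ) : NeZero (pk k) := ⟨(pk_prime k).ne_zero⟩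

theorem pk_inj : Function.Injective pk := Nat.nth_injective Nat.infinite_setOfPred_prime

/-- phases of order `pk k` -/
noncomputable def tt (k : ℕ) : ZMod (pk k) →+ TT := ZMod.toAddCircle

theorem tt_inj (k : ℕ) : Function.Injective (tt k) := ZMod.toAddCircle_injective _

/-- one component -/
abbrev Vk (k : ℕ) : Type := ℕ →₀ (ZMod (pk k) × ZMod (pk k))

/-- the space `V`: finitely many positions `(k, j)`, with values `(x, z)` modulo the `k`-th prime -/
abbrev VP : Type := Π₀ k : ℕ, Vk k

/-- the group `C = ⊕_k ℤ/p_k` -/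
abbrev CC : Type := Π₀ k : ℕ, ZMod (pk k)

/-- the free group on a countable set of letters and one letter for each element of `C` -/
abbrev GF : Type := FreeGroup (ℕ ⊕ CC)

/-- `∑ z_j(v) x_j(w)` -/
noncomputable def bk (k : ℕ) (v w : Vk k) : ZMod (pk k) := v.sum fun j a => a.2 * (w j).1

theorem bk_add_left (k : ℕ) (v v' w : Vk k) : bk k (v + v') w = bk k v w + bk k v' w := by
  unfold bk
  refine Finsupp.sum_add_index' (fun i => ?_) (fun i a b => ?_)
  · simp
  · rw [Prod.snd_add, add_mul]

theorem bk_add_right (k : ℕ) (v w w' : Vk k) : bk k v (w + w') = bk k v w + bk k v w' := by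
  unfold bk Finsupp.sum
  rw [← Finset.sum_add_distrib]
  refine Finset.sum_congr rfl (fun i _ => ?_)
  show (v i).2 * ((w + w') i).1 = (v i).2 * (w i).1 + (v i).2 * (w' i).1
  rw [Finsupp.add_apply, Prod.fst_add, mul_add]

noncomputable def bkHom (k : ℕ) : Vk k →+ Vk k →+ TT :=
  AddMonoidHom.mk' (fun v => AddMonoidHom.mk' (fun w => tt k (bk k v w))
    (fun w w' => by rw [bk_add_right, map_add])) (fun v v' => by
      refine DFunLike.ext _ _ fun w => ?_
      show tt k (bk k (v + v') w) = tt k (bk k v w) + tt k (bk k v' w)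
      rw [bk_add_left, map_add])

/-- the cocycle -/
noncomputable def betaP : VP →+ VP →+ TT :=
  DFinsupp.sumAddHom fun k =>
    (AddMonoidHom.compHom' (DFinsupp.evalAddMonoidHom k : VP →+ Vk k)).comp (bkHom k)

/-- the functional `ℓ_k(v) = ∑ x_j(v)` -/
noncomputable def ell (k : ℕ) : Vk k →+ ZMod (pk k) :=
  Finsupp.liftAddHom fun _ => AddMonoidHom.fst (ZMod (pk k)) (ZMod (pk k))

/-- the homomorphism of the free group to `C` -/
noncomputable def piG : GF →* Multiplicative CC :=
  FreeGroup.lift (Sum.elim (fun _ => 1) (fun c => Multiplicative.ofAdd c))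

/-- `g ↦ a * (π g)_k / p_k` -/
noncomputable def chk (k : ℕ) : ZMod (pk k) →+ (Additive GF →+ TT) :=
  AddMonoidHom.mk' (fun a => AddMonoidHom.mk'
    (fun g => tt k (a * (Multiplicative.toAdd (piG (Additive.toMul g))) k))
    (fun g g' => by
      have h : piG (Additive.toMul (g + g')) = piG (Additive.toMul g) * piG (Additive.toMul g') :=
        map_mul piG _ _
      rw [h, toAdd_mul, DFinsupp.add_apply, mul_add, map_add])) (fun a a' => by
      refine DFunLike.ext _ _ fun g => ?_
      show tt k ((a + a') * _) = tt k (a * _) + tt k (a' * _)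
      rw [add_mul, map_add])

open scoped Classical in
/-- the pairing of `V` with the free group: only the primes with index in `S` -/
noncomputable def chiP (S : Set ℕ) : VP →+ (Additive GF →+ TT) :=
  DFinsupp.sumAddHom fun k => if k ∈ S then (chk k).comp (ell k) else 0

/-- the data of the factor `M_S` -/
noncomputable def DP (S : Set ℕ) : Dat VP GF := ⟨betaP, chiP S⟩

/-- the tails -/
def TS (S : Set ℕ) (m : ℕ) : AddSubgroup VP where
  carrier := {v | (∀ k < m, ∀ j < m, v k j = 0) ∧ ∀ k < m, k ∈ S → ell k (v k) = 0}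
  zero_mem' := ⟨fun k _ j _ => rfl, fun k _ _ => by simp⟩
  add_mem' := by
    rintro a b ⟨h1, h2⟩ ⟨h3, h4⟩
    refine ⟨fun k hk j hj => ?_, fun k hk hS => ?_⟩
    · rw [DFinsupp.add_apply, Finsupp.add_apply, h1 k hk j hj, h3 k hk j hj, add_zero]
    · rw [DFinsupp.add_apply, map_add, h2 k hk hS, h4 k hk hS, add_zero]
  neg_mem' := by
    rintro a ⟨h1, h2⟩
    refine ⟨fun k hk j hj => ?_, fun k hk hS => ?_⟩
    · rw [DFinsupp.neg_apply, Finsupp.neg_apply, h1 k hk j hj, neg_zero]
    · rw [DFinsupp.neg_apply, map_neg, h2 k hk hS, neg_zero]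

/-- the letters -/
def la : GF := FreeGroup.of (Sum.inl 0)
def lb : GF := FreeGroup.of (Sum.inl 1)
def lc (c : CC) : GF := FreeGroup.of (Sum.inr c)

end Pool.Agent.H146R2.SD
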