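import Mathlib
import Pool.Agent.H146R2.SD.Defs
import Pool.Agent.Helper278.Trace

set_option autoImplicit false
set_option linter.unusedSectionVars false

open scoped ComplexConjugate Topology
open Filter

namespace Pool.Agent.H146R2.SD

open Pool.Agent.Helper278 Pool.Agent.Helper436.SM

variable {H : Type} [NormedAddCommGroup H] [InnerProductSpace ℂ H] [CompleteSpace H]
variable {N : VonNeumannAlgebra H}

theorem cf_mem (N : VonNeumannAlgebra H) (g : ℝ → ℝ) (a : H →L[ℂ] H) (ha : a ∈ N)
    (hs : IsSelfAdjoint a) : cfc g a ∈ N := by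
  have h1 : cfc g a ∈ Set.centralizer (Set.centralizer (N : Set (H →L[ℂ] H))) := by
    intro t ht
    have h2 : Commute a t := (ht a ha)
    exact (IsSelfAdjoint.commute_cfc hs h2 g).symm
  rw [VonNeumannAlgebra.centralizer_centralizer] at h1
  exact h1

theorem cf_re_nonneg (T : TracialState N) (z : Elt N) (hz : 0 ≤ (z : H →L[ℂ] H)) :
    0 ≤ (T.τ z).re := by
  obtain ⟨ξ, hξ, hT⟩ := T.normal
  rw [hT, Complex.re_tsum (summable_inner ξ ξ hξ hξ _)]
  refine tsum_nonneg fun k => ?_
  have h1 := (ContinuousLinearMap.nonneg_iff_isPositive _).1 hz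
  have := h1.inner_nonneg_right (ξ k)
  exact (Complex.nonneg_iff.1 this).1

/-- the positive operator `b * star b` -/
noncomputable def cfT (b : Elt N) : H →L[ℂ] H := (b : H →L[ℂ] H) * star (b : H →L[ℂ] H)

theorem cfT_nonneg (b : Elt N) : 0 ≤ cfT b := mul_star_self_nonneg _

theorem cfT_sa (b : Elt N) : IsSelfAdjoint (cfT b) := IsSelfAdjoint.of_nonneg (cfT_nonneg b)

theorem cfT_mem (b : Elt N) : cfT b ∈ N := (b * star b : Elt N).2

theorem cfT_spec (b : Elt N) (s : ℝ) (hs : s ∈ spectrum ℝ (cfT b)) : 0 ≤ s :=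
  spectrum_nonneg_of_nonneg (cfT_nonneg b) hs

/-- functional calculus of `b * star b` -/
noncomputable def cfE (b : Elt N) (f : ℝ → ℝ) : Elt N :=
  ⟨cfc f (cfT b), cf_mem N f _ (cfT_mem b) (cfT_sa b)⟩

theorem cfE_mul (b : Elt N) (f g : ℝ → ℝ) (hf : Continuous f) (hg : Continuous g) :
    cfE b f * cfE b g = cfE b (fun s => f s * g s) := by
  apply Subtype.ext
  show cfc f (cfT b) * cfc g (cfT b) = cfc (fun s => f s * g s) (cfT b)
  rw [cfc_mul _ _ _ hf.continuousOn hg.continuousOn]

theorem cfE_sub (b : Elt N) (f g : ℝ → ℝ) (hf : Continuous f) (hg : Continuous g) :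
    cfE b f - cfE b g = cfE b (fun s => f s - g s) := by
  apply Subtype.ext
  show cfc f (cfT b) - cfc g (cfT b) = cfc (fun s => f s - g s) (cfT b)
  rw [cfc_sub _ _ _ hf.continuousOn hg.continuousOn]

theorem cfE_star (b : Elt N) (f : ℝ → ℝ) : star (cfE b f) = cfE b f := by
  apply Subtype.ext
  exact (cfc_predicate f (cfT b) : IsSelfAdjoint (cfc f (cfT b))).star_eq

theorem cfE_id (b : Elt N) : cfE b (fun s => s) = b * star b := by
  apply Subtype.ext
  show cfc (fun s : ℝ => s) (cfT b) = cfT b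
  exact cfc_id' ℝ _ (cfT_sa b)

theorem cfE_one (b : Elt N) : cfE b (fun _ => 1) = 1 := by
  apply Subtype.ext
  show cfc (fun _ : ℝ => (1 : ℝ)) (cfT b) = 1
  exact cfc_const_one ℝ _ (cfT_sa b)

theorem cfE_congr (b : Elt N) (f g : ℝ → ℝ) (h : ∀ s, 0 ≤ s → f s = g s) :
    cfE b f = cfE b g := by
  apply Subtype.ext
  show cfc f (cfT b) = cfc g (cfT b)
  exact cfc_congr fun s hs => h s (cfT_spec b s hs)

theorem cfE_norm (b : Elt N) (f : ℝ → ℝ) (h : ∀ s, 0 ≤ s → |f s| ≤ 1) :
    ‖(cfE b f : H →L[ℂ] H)‖ ≤ 1 := by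
  show ‖cfc f (cfT b)‖ ≤ 1
  refine norm_cfc_le zero_le_one fun s hs => ?_
  rw [Real.norm_eq_abs]
  exact h s (cfT_spec b s hs)

theorem cfE_re_nonneg (T : TracialState N) (b : Elt N) (f : ℝ → ℝ) (h : ∀ s, 0 ≤ s → 0 ≤ f s) :
    0 ≤ (T.τ (cfE b f)).re := by
  apply cf_re_nonneg
  exact cfc_nonneg fun s hs => h s (cfT_spec b s hs)

theorem cf_comm_star (b y : Elt N) (hy : y ∈ unitary (Elt N)) (h : y * b = b * y) :
    y * star b = star b * y := by
  have h1 : star b * star y = star y * star b := by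
    rw [← star_mul, ← star_mul, h]
  have h2 : star y * y = 1 := (Unitary.mem_iff.1 hy).1
  have h3 : y * star y = 1 := (Unitary.mem_iff.1 hy).2
  calc y * star b = y * star b * (star y * y) := by rw [h2, mul_one]
    _ = y * (star b * star y) * y := by simp only [mul_assoc]
    _ = (y * star y) * star b * y := by rw [h1]; simp only [mul_assoc]
    _ = star b * y := by rw [h3, one_mul]

theorem cfE_comm (b y : Elt N) (f : ℝ → ℝ) (hy : y ∈ unitary (Elt N)) (h : y * b = b * y) :
    y * cfE b f = cfE b f * y := by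
  have h1 := cf_comm_star b y hy h
  have h2 : (y : H →L[ℂ] H) * cfT b = cfT b * (y : H →L[ℂ] H) := by
    have h3 : y * (b * star b) = (b * star b) * y := by
      rw [← mul_assoc, h, mul_assoc, h1, mul_assoc]
    exact congrArg Subtype.val h3
  apply Subtype.ext
  show (y : H →L[ℂ] H) * cfc f (cfT b) = cfc f (cfT b) * (y : H →L[ℂ] H)
  have h4 : Commute (cfT b) (y : H →L[ℂ] H) := h2.symm
  exact (IsSelfAdjoint.commute_cfc (cfT_sa b) h4 f).symm

theorem cf_n2_unitary (T0 : TracialState N) (x : Elt N) (hx : x ∈ unitary (Elt N)) :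
    n2 T0.τ x = 1 := by
  unfold n2
  rw [(Unitary.mem_iff.1 hx).1, T0.map_one]
  simp

/-- the key estimate -/
theorem cf_key (T0 : TracialState N) (x a b : Elt N) (hx : x ∈ unitary (Elt N)) (ε : ℝ)
    (hε : 0 < ε) (hε1 : ε ≤ 1) (hxa : n2 T0.τ (x - b * a) ≤ ε)
    (hind : ∀ c : Elt N, (∀ y ∈ unitary (Elt N), y * b = b * y → y * c = c * y) →
      T0.τ (c * (a * star a)) = T0.τ c)
    (f : ℝ → ℝ) (hf : Continuous f) (hf1 : ∀ s, 0 ≤ s → |f s| ≤ 1) :
    ‖T0.τ (cfE b (fun s => f s * (s - 1)))‖ ≤ 3 * ε := by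
  have hA := trAlg T0
  set h := cfE b f with hh
  have hid : Continuous (fun s : ℝ => s) := continuous_id
  have e1 : cfE b (fun s => f s * (s - 1)) = h * (b * star b) - h := by
    rw [← cfE_id b, cfE_mul b f _ hf hid, hh,
      cfE_sub b (fun s => f s * s) f (hf.mul hid) hf]
    congr 1
    funext s
    ring
  have hn : ‖(h : H →L[ℂ] H)‖ ≤ 1 := cfE_norm b f hf1
  have hc : T0.τ (star b * h * b * (a * star a)) = T0.τ (star b * h * b) := by
    apply hind
    intro y hy hyb
    have h1 := cf_comm_star b y hy hyb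
    have h2 : y * h = h * y := cfE_comm b y f hy hyb
    calc y * (star b * h * b) = (y * star b) * h * b := by simp only [mul_assoc]
      _ = star b * (y * h) * b := by rw [h1]; simp only [mul_assoc]
      _ = star b * h * (y * b) := by rw [h2]; simp only [mul_assoc]
      _ = star b * h * b * y := by rw [hyb]; simp only [mul_assoc]
  have e2 : T0.τ (h * (b * star b)) = T0.τ (h * ((b * a) * star (b * a))) := by
    have e3 : T0.τ (h * (b * star b)) = T0.τ (star b * h * b) := by
      rw [show h * (b * star b) = (h * b) * star b by simp only [mul_assoc], T0.tracial]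
      simp only [mul_assoc]
    have e4 : T0.τ (h * ((b * a) * star (b * a))) = T0.τ (star b * h * b * (a * star a)) := by
      rw [star_mul, show h * (b * a * (star a * star b)) = (h * b * (a * star a)) * star b by
        simp only [mul_assoc], T0.tracial]
      simp only [mul_assoc]
    rw [e3, e4, hc]
  have e5 : h = h * (x * star x) := by
    rw [(Unitary.mem_iff.1 hx).2, mul_one]
  have e6 : T0.τ (h * (b * star b) - h) =
      T0.τ ((h * (b * a - x)) * star (b * a)) + T0.τ ((h * x) * star (b * a - x)) := by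
    have e7 : (h * (b * a - x)) * star (b * a) + (h * x) * star (b * a - x) =
        h * ((b * a) * star (b * a)) - h * (x * star x) := by
      rw [star_sub]
      noncomm_ring
    rw [map_sub, e2, ← map_add, e7, map_sub, ← e5]
  rw [e1, e6]
  have hba : n2 T0.τ (b * a) ≤ 1 + ε := by
    have h1 := hA.n2_tri (b * a) x 0
    rw [sub_zero, sub_zero, cf_n2_unitary T0 x hx, hA.n2_sub_comm] at h1
    linarith
  have hxa' : n2 T0.τ (b * a - x) ≤ ε := by rw [hA.n2_sub_comm]; exact hxa
  have k1 : ‖T0.τ ((h * (b * a - x)) * star (b * a))‖ ≤ ε * (1 + ε) := by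
    refine (hA.cauchy' _ _).trans ?_
    rw [hA.n2_star]
    refine mul_le_mul ?_ hba (n2_nonneg _ _) hε.le
    refine (n2_mul_le T0 _ _).trans ?_
    calc _ ≤ 1 * ε := mul_le_mul hn hxa' (n2_nonneg _ _) zero_le_one
      _ = ε := one_mul _
  have k2 : ‖T0.τ ((h * x) * star (b * a - x))‖ ≤ 1 * ε := by
    refine (hA.cauchy' _ _).trans ?_
    rw [hA.n2_star]
    refine mul_le_mul ?_ hxa' (n2_nonneg _ _) zero_le_one
    refine (n2_mul_le T0 _ _).trans ?_
    rw [cf_n2_unitary T0 x hx, mul_one]
    exact hn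
  refine (norm_add_le _ _).trans ?_
  nlinarith

theorem cf_sqrt3 (ε u : ℝ) (hε : 0 < ε) (hu : 0 ≤ u) (h : u ^ 2 ≤ 3 * ε) :
    u ≤ 7 / 4 * Real.sqrt ε := by
  have h1 := Real.sq_sqrt hε.le
  have h2 := Real.sqrt_nonneg ε
  by_contra h3
  rw [not_le] at h3
  nlinarith

/-- truncation: if the unitary `x` is close to `b * a`, where `b` and `a * star a` are independent
and `a` has norm one, then `b` is close to a contraction `r` that is almost unitary, and
`star r * x` is close to `a`. -/
theorem truncate (T0 : TracialState N) (x a b : Elt N) (hx : x ∈ unitary (Elt N)) (ε : ℝ)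
    (hε : 0 < ε) (hε1 : ε ≤ 1) (hxa : n2 T0.τ (x - b * a) ≤ ε) (ha : n2 T0.τ a = 1)
    (hb : n2 T0.τ b ≤ 1)
    (hind : ∀ c : Elt N, (∀ y ∈ unitary (Elt N), y * b = b * y → y * c = c * y) →
      T0.τ (c * (a * star a)) = T0.τ c) :
    ∃ r : Elt N, ‖r‖ ≤ 1 ∧ (∀ y ∈ unitary (Elt N), y * b = b * y → y * r = r * y) ∧
      n2 T0.τ (1 - r * star r) ≤ 2 * Real.sqrt ε ∧ n2 T0.τ (1 - star r * r) ≤ 2 * Real.sqrt ε ∧
      n2 T0.τ (star r * x - a) ≤ 5 * Real.sqrt ε := by
  have hA := trAlg T0
  have hsε := Real.sqrt_nonneg ε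
  have hsq := Real.sq_sqrt hε.le
  have hεs : ε ≤ Real.sqrt ε := by
    apply Real.le_sqrt_of_sq_le
    nlinarith
  -- the function
  set g : ℝ → ℝ := fun s => (max 1 (Real.sqrt s))⁻¹ with hg
  have hm : ∀ s : ℝ, 0 < max 1 (Real.sqrt s) := fun s => lt_of_lt_of_le one_pos (le_max_left _ _)
  have hgc : Continuous g := by
    refine Continuous.inv₀ (by fun_prop) fun s => (hm s).ne'
  have hg1 : ∀ s, g s ≤ 1 := fun s => inv_le_one_of_one_le₀ (le_max_left _ _)
  have hg0 : ∀ s, 0 < g s := fun s => inv_pos.2 (hm s)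
  have hid : Continuous (fun s : ℝ => s) := continuous_id
  have hone : Continuous (fun _ : ℝ => (1 : ℝ)) := continuous_const
  -- case distinction
  have hcase : ∀ s : ℝ, 0 ≤ s → (s ≤ 1 ∧ g s = 1) ∨
      (1 ≤ s ∧ 1 ≤ Real.sqrt s ∧ Real.sqrt s * Real.sqrt s = s ∧ g s = (Real.sqrt s)⁻¹) := by
    intro s hs
    rcases le_total s 1 with h | h
    · left
      refine ⟨h, ?_⟩
      have h1 : Real.sqrt s ≤ 1 := Real.sqrt_le_one.2 h
      simp only [hg]
      rw [max_eq_left h1, inv_one]
    · right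
      have h1 : 1 ≤ Real.sqrt s := Real.one_le_sqrt.2 h
      refine ⟨h, h1, Real.mul_self_sqrt hs, ?_⟩
      simp only [hg]
      rw [max_eq_right h1]
  set r : Elt N := cfE b g * b with hr
  have hrr : r * star r = cfE b (fun s => g s * s * g s) := by
    rw [hr, star_mul, cfE_star, show cfE b g * b * (star b * cfE b g) =
      cfE b g * (b * star b) * cfE b g by simp only [mul_assoc], ← cfE_id b,
      cfE_mul b g _ hgc hid,
      cfE_mul b (fun s => g s * s) g (hgc.mul hid) hgc]
  have hmin : ∀ s : ℝ, 0 ≤ s → g s * s * g s = min s 1 := by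
    intro s hs
    rcases hcase s hs with ⟨h1, h2⟩ | ⟨h1, h2, h3, h4⟩
    · rw [h2, min_eq_left h1]; ring
    · rw [h4, min_eq_right h1]
      have h5 : Real.sqrt s ≠ 0 := by positivity
      field_simp
      nlinarith
  -- 3: n2 (1 - r r*)
  set p : ℝ → ℝ := fun s => 1 - min s 1 with hp
  have hpc : Continuous p := by
    simp only [hp]
    fun_prop
  have hrr1 : 1 - r * star r = cfE b p := by
    rw [hrr, ← cfE_one b, cfE_sub b _ (fun s => g s * s * g s) hone ((hgc.mul hid).mul hgc)]
    apply cfE_congr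
    intro s hs
    rw [hmin s hs]
  have hp1 : ∀ s, 0 ≤ s → |p s| ≤ 1 := by
    intro s hs
    simp only [hp]
    rw [abs_le]
    rcases le_total s 1 with h | h
    · rw [min_eq_left h]; constructor <;> linarith
    · rw [min_eq_right h]; constructor <;> linarith
  have k1 : n2 T0.τ (1 - r * star r) ^ 2 ≤ 3 * ε := by
    rw [hA.n2_sq, hrr1, cfE_star, cfE_mul b p p hpc hpc]
    have h1 := cf_key T0 x a b hx ε hε hε1 hxa hind p hpc hp1
    have h2 : cfE b (fun s => p s * p s) = - cfE b (fun s => p s * (s - 1)) := by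
      have h3 : - cfE b (fun s => p s * (s - 1)) = cfE b (fun _ => 0) - cfE b (fun s => p s * (s - 1)) := by
        have h4 : cfE b (fun _ => (0 : ℝ)) = 0 := by
          have := cfE_sub b (fun _ => (1 : ℝ)) (fun _ => 1) hone hone
          simp only [sub_self] at this
          exact this.symm
        rw [h4, zero_sub]
      rw [h3, cfE_sub b (fun _ => 0) (fun s => p s * (s - 1)) continuous_const
        (hpc.mul (hid.sub hone))]
      apply cfE_congr
      intro s hs
      simp only [hp]
      rcases le_total s 1 with h | h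
      · rw [min_eq_left h]; ring
      · rw [min_eq_right h]; ring
    rw [h2, map_neg, Complex.neg_re]
    have h3 := Complex.abs_re_le_norm (T0.τ (cfE b (fun s => p s * (s - 1))))
    have h4 := neg_abs_le (T0.τ (cfE b (fun s => p s * (s - 1)))).re
    linarith
  have k1' := cf_sqrt3 ε _ hε (n2_nonneg _ _) k1
  -- 4
  have k2 : n2 T0.τ (1 - star r * r) ^ 2 = n2 T0.τ (1 - r * star r) ^ 2 := by
    rw [hA.n2_sq, hA.n2_sq]
    congr 1
    have e1 : star (1 - star r * r) * (1 - star r * r) = 1 - star r * r - star r * r +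
        star r * (r * star r * r) := by
      rw [star_sub, star_one, star_mul, star_star]
      noncomm_ring
    have e2 : star (1 - r * star r) * (1 - r * star r) = 1 - r * star r - r * star r +
        (r * star r * r) * star r := by
      rw [star_sub, star_one, star_mul, star_star]
      noncomm_ring
    rw [e1, e2, map_add, map_sub, map_sub, map_add, map_sub, map_sub, T0.tracial (star r) r,
      T0.tracial (star r) (r * star r * r)]
  have k2' : n2 T0.τ (1 - star r * r) ≤ 7 / 4 * Real.sqrt ε :=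
    cf_sqrt3 ε _ hε (n2_nonneg _ _) (k2 ▸ k1)
  -- norm of r
  have hrn : ‖(r : H →L[ℂ] H)‖ ≤ 1 := by
    have h1 : ‖((r * star r : Elt N) : H →L[ℂ] H)‖ ≤ 1 := by
      rw [hrr]
      apply cfE_norm
      intro s hs
      rw [hmin s hs, abs_of_nonneg (le_min hs zero_le_one)]
      exact min_le_right _ _
    have h2 : ((r * star r : Elt N) : H →L[ℂ] H) = (r : H →L[ℂ] H) * star (r : H →L[ℂ] H) := rfl
    rw [h2, CStarRing.norm_self_mul_star] at h1
    nlinarith [norm_nonneg (r : H →L[ℂ] H)]
  have hrsn : ‖((star r : Elt N) : H →L[ℂ] H)‖ ≤ 1 := by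
    have h2 : ((star r : Elt N) : H →L[ℂ] H) = star (r : H →L[ℂ] H) := rfl
    rw [h2, norm_star]
    exact hrn
  -- commutation
  have hrc : ∀ y ∈ unitary (Elt N), y * b = b * y → y * r = r * y := by
    intro y hy hyb
    have h1 := cfE_comm b y g hy hyb
    calc y * r = y * cfE b g * b := by rw [hr, mul_assoc]
      _ = cfE b g * (y * b) := by rw [h1, mul_assoc]
      _ = cfE b g * b * y := by rw [hyb, mul_assoc]
  -- 2: n2 (b - r)
  set q : ℝ → ℝ := fun s => 1 - g s with hq
  have hqc : Continuous q := by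
    simp only [hq]
    exact hone.sub hgc
  have hq1 : ∀ s, 0 ≤ s → |q s| ≤ 1 := by
    intro s _
    simp only [hq]
    rw [abs_le]
    have := hg1 s
    have := hg0 s
    constructor <;> linarith
  have k3 : n2 T0.τ (b - r) ^ 2 ≤ 3 * ε := by
    rw [hA.n2_sq]
    have e1 : b - r = cfE b q * b := by
      have h1 : cfE b q = 1 - cfE b g := by
        rw [← cfE_one b, cfE_sub b _ _ hone hgc]
      rw [h1, sub_mul, one_mul]
    rw [e1, T0.tracial, star_mul, cfE_star, show cfE b q * b * (star b * cfE b q) =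
      cfE b q * (b * star b) * cfE b q by simp only [mul_assoc], ← cfE_id b,
      cfE_mul b q _ hqc hid,
      cfE_mul b (fun s => q s * s) q (hqc.mul hid) hqc]
    have h1 := cf_key T0 x a b hx ε hε hε1 hxa hind q hqc hq1
    have h2 := cfE_re_nonneg T0 b (fun s => q s * (s - 1) - q s * s * q s) (by
      intro s hs
      simp only [hq]
      rcases hcase s hs with ⟨h1, h2⟩ | ⟨h1, h2, h3, h4⟩
      · rw [h2]; simp
      · rw [h4]
        have h5 : 0 < Real.sqrt s := by positivity
        have h6 : (Real.sqrt s)⁻¹ * Real.sqrt s = 1 := inv_mul_cancel₀ h5.ne'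
        have h7 : 0 ≤ 1 - (Real.sqrt s)⁻¹ := by
          have := inv_le_one_of_one_le₀ h2
          linarith
        have h8 : s - 1 - s * (1 - (Real.sqrt s)⁻¹) = Real.sqrt s - 1 := by
          have h10 : s * (Real.sqrt s)⁻¹ = Real.sqrt s := by
            calc s * (Real.sqrt s)⁻¹ = Real.sqrt s * Real.sqrt s * (Real.sqrt s)⁻¹ := by rw [h3]
              _ = Real.sqrt s * ((Real.sqrt s)⁻¹ * Real.sqrt s) := by ring
              _ = Real.sqrt s := by rw [h6, mul_one]
          linarith
        have h9 : (1 - (Real.sqrt s)⁻¹) * (s - 1) -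
            (1 - (Real.sqrt s)⁻¹) * s * (1 - (Real.sqrt s)⁻¹) =
            (1 - (Real.sqrt s)⁻¹) * (s - 1 - s * (1 - (Real.sqrt s)⁻¹)) := by ring
        rw [h9, h8]
        exact mul_nonneg h7 (by linarith))
    rw [← cfE_sub b (fun s => q s * (s - 1)) (fun s => q s * s * q s) (hqc.mul (hid.sub hone))
      ((hqc.mul hid).mul hqc), map_sub,
      Complex.sub_re] at h2
    have h3 := Complex.abs_re_le_norm (T0.τ (cfE b (fun s => q s * (s - 1))))
    have h4 := le_abs_self (T0.τ (cfE b (fun s => q s * (s - 1)))).re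
    linarith
  have k3' := cf_sqrt3 ε _ hε (n2_nonneg _ _) k3
  -- 5
  have k4 : n2 T0.τ (star r * b - 1) ≤ 7 / 2 * Real.sqrt ε := by
    have e1 : star r * b - 1 = star r * (b - r) - (1 - star r * r) := by noncomm_ring
    rw [e1]
    refine (hA.n2_sub_le _ _).trans ?_
    have h1 : n2 T0.τ (star r * (b - r)) ≤ 1 * n2 T0.τ (b - r) :=
      (n2_mul_le T0 _ _).trans (mul_le_mul_of_nonneg_right hrsn (n2_nonneg _ _))
    linarith
  have k5 : n2 T0.τ ((star r * b - 1) * a) = n2 T0.τ (star r * b - 1) := by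
    unfold n2
    congr 2
    have e1 : star ((star r * b - 1) * a) * ((star r * b - 1) * a) =
        star a * (star (star r * b - 1) * (star r * b - 1) * a) := by
      rw [star_mul]
      simp only [mul_assoc]
    rw [e1, T0.tracial, show star (star r * b - 1) * (star r * b - 1) * a * star a =
      star (star r * b - 1) * (star r * b - 1) * (a * star a) by simp only [mul_assoc]]
    apply hind
    intro y hy hyb
    have h1 := hrc y hy hyb
    have h2 := cf_comm_star r y hy h1
    have h3 := cf_comm_star b y hy hyb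
    have h4 : y * (star r * b - 1) = (star r * b - 1) * y := by
      rw [mul_sub, sub_mul, ← mul_assoc, h2, mul_assoc, hyb, mul_assoc, mul_one, one_mul]
    have h5 := cf_comm_star _ y hy h4
    calc y * (star (star r * b - 1) * (star r * b - 1)) =
        y * star (star r * b - 1) * (star r * b - 1) := by rw [mul_assoc]
      _ = star (star r * b - 1) * (y * (star r * b - 1)) := by rw [h5, mul_assoc]
      _ = star (star r * b - 1) * (star r * b - 1) * y := by rw [h4, mul_assoc]
  refine ⟨r, hrn, hrc, by linarith, by linarith, ?_⟩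
  have e1 : star r * x - a = star r * (x - b * a) + (star r * b - 1) * a := by noncomm_ring
  rw [e1]
  refine (hA.n2_add_le _ _).trans ?_
  have h1 : n2 T0.τ (star r * (x - b * a)) ≤ 1 * ε := by
    refine (n2_mul_le T0 _ _).trans ?_
    exact mul_le_mul hrsn hxa (n2_nonneg _ _) zero_le_one
  rw [k5]
  linarith

end Pool.Agent.H146R2.SD
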