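import Mathlib
import Pool.Agent.H146R2.SD.CD
import Pool.Agent.H146R2.SD.BAS

set_option autoImplicit false
set_option linter.unusedSectionVars false

open scoped ComplexConjugate Topology
open Filter

namespace Pool.Agent.H146R2.SD

open Pool.Agent.Helper278 Pool.Agent.Helper436.SM

theorem cna_bk_zero_right (k : ℕ) (v : Vk k) : bk k v 0 = 0 := by
  unfold bk Finsupp.sum
  refine Finset.sum_eq_zero fun i _ => ?_
  show (v i).2 * ((0 : Vk k) i).1 = 0
  rw [Finsupp.zero_apply, Prod.fst_zero, mul_zero]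

theorem cna_bk_zero_left (k : ℕ) (w : Vk k) : bk k 0 w = 0 := by
  unfold bk
  exact Finsupp.sum_zero_index

theorem betaP_apply (v w : VP) :
    betaP v w = ∑ k ∈ v.support, tt k (bk k (v k) (w k)) := by
  unfold betaP
  rw [DFinsupp.sumAddHom_apply, DFinsupp.sum, AddMonoidHom.finset_sum_apply]
  rfl

theorem betaP_single (k : ℕ) (a : Vk k) (w : VP) :
    betaP (DFinsupp.single k a) w = tt k (bk k a (w k)) := by
  unfold betaP
  rw [DFinsupp.sumAddHom_single]
  rfl

theorem betaP_single_right (k : ℕ) (a : Vk k) (w : VP) :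
    betaP w (DFinsupp.single k a) = tt k (bk k (w k) a) := by
  rw [betaP_apply, Finset.sum_eq_single k]
  · rw [DFinsupp.single_eq_same]
  · intro k' _ hk'
    rw [DFinsupp.single_eq_of_ne hk', cna_bk_zero_right, map_zero]
  · intro hk
    rw [DFinsupp.notMem_support_iff] at hk
    rw [hk, cna_bk_zero_left, map_zero]

open scoped Classical in
theorem chiP_single (S : Set ℕ) (k : ℕ) (a : Vk k) (g : GF) :
    chiP S (DFinsupp.single k a) (Additive.ofMul g) =
      if k ∈ S then tt k (ell k a * (Multiplicative.toAdd (piG g)) k) else 0 := by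
  unfold chiP
  rw [DFinsupp.sumAddHom_single]
  by_cases hk : k ∈ S
  · rw [if_pos hk, if_pos hk]
    rfl
  · rw [if_neg hk, if_neg hk]
    rfl

theorem chiP_eq_zero (S : Set ℕ) (v : VP) (g : GF)
    (h : ∀ k ∈ S, ell k (v k) = 0 ∨ (Multiplicative.toAdd (piG g)) k = 0) :
    chiP S v (Additive.ofMul g) = 0 := by
  classical
  unfold chiP
  rw [DFinsupp.sumAddHom_apply, DFinsupp.sum, AddMonoidHom.finset_sum_apply]
  refine Finset.sum_eq_zero fun k _ => ?_
  by_cases hk : k ∈ S
  · rw [if_pos hk]
    show tt k (ell k (v k) * (Multiplicative.toAdd (piG g)) k) = 0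
    rcases h k hk with h | h
    · rw [h, zero_mul, map_zero]
    · rw [h, mul_zero, map_zero]
  · rw [if_neg hk]
    rfl

end Pool.Agent.H146R2.SD
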