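import Mathlib
import Pool.Agent.H146R2.SD.CD
import Pool.Agent.H146R2.SD.BAS
import Pool.Agent.H146R2.SD.CNA

set_option autoImplicit false
set_option linter.unusedSectionVars false

open scoped ComplexConjugate Topology
open Filter

namespace Pool.Agent.H146R2.SD

open Pool.Agent.Helper278 Pool.Agent.Helper436.SM

theorem cnb_left (k j : ℕ) (x z : ZMod (pk k)) (w : Vk k) :
    bk k (Finsupp.single j (x, z)) w = z * (w j).1 := by
  unfold bk
  rw [Finsupp.sum_single_index]
  simp

theorem cnb_right (k j : ℕ) (x z : ZMod (pk k)) (w : Vk k) :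
    bk k w (Finsupp.single j (x, z)) = (w j).2 * x := by
  unfold bk Finsupp.sum
  rw [Finset.sum_eq_single j]
  · show (w j).2 * ((Finsupp.single j (x, z) : Vk k) j).1 = _
    rw [Finsupp.single_eq_same]
  · intro i _ hi
    show (w i).2 * ((Finsupp.single j (x, z) : Vk k) i).1 = _
    rw [Finsupp.single_eq_of_ne hi]
    simp
  · intro hj
    rw [Finsupp.notMem_support_iff] at hj
    rw [hj]
    simp

theorem cnb_ell (k j : ℕ) (x z : ZMod (pk k)) : ell k (Finsupp.single j (x, z)) = x := by
  unfold ell
  rw [Finsupp.liftAddHom_apply_single]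
  rfl

theorem cnb_mem (S : Set ℕ) (m k : ℕ) (a : Vk k)
    (h : k < m → (∀ j < m, a j = 0) ∧ (k ∈ S → ell k a = 0)) :
    (DFinsupp.single k a : VP) ∈ TS S m := by
  refine ⟨fun k' hk' j hj => ?_, fun k' hk' hS => ?_⟩
  · by_cases hk : k = k'
    · subst hk
      rw [DFinsupp.single_eq_same]
      exact (h hk').1 j hj
    · rw [DFinsupp.single_eq_of_ne (fun h' => hk h'.symm)]
      rfl
  · by_cases hk : k = k'
    · subst hk
      rw [DFinsupp.single_eq_same]
      exact (h hk').2 hS
    · rw [DFinsupp.single_eq_of_ne (fun h' => hk h'.symm), map_zero]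

open scoped Classical in
theorem cnb_test (S : Set ℕ) (m : ℕ) (g : GF) (v : VP) (hp : (g, v) ∈ perp (DP S) (TS S m))
    (k : ℕ) (a : Vk k) (h : k < m → (∀ j < m, a j = 0) ∧ (k ∈ S → ell k a = 0)) :
    bk k a (v k) - bk k (v k) a -
      (if k ∈ S then ell k a * (Multiplicative.toAdd (piG g)) k else 0) = 0 := by
  have h1 := hp _ (cnb_mem S m k a h)
  have h2 : (DP S).co (DFinsupp.single k a) (g, v) =
      betaP (DFinsupp.single k a) v - betaP v (DFinsupp.single k a) -
        chiP S (DFinsupp.single k a) (Additive.ofMul g) := rfl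
  rw [h2, betaP_single, betaP_single_right, chiP_single] at h1
  apply tt_inj k
  rw [map_sub, map_sub, map_zero, ← h1]
  split_ifs <;> simp

/-- description of the commutant of a tail -/
theorem mem_perp (S : Set ℕ) (m : ℕ) (g : GF) (v : VP) :
    (g, v) ∈ perp (DP S) (TS S m) ↔
      (∀ k j, (m ≤ k ∨ m ≤ j) → v k j = 0) ∧
        ∀ k ∈ S, m ≤ k → (Multiplicative.toAdd (piG g)) k = 0 := by
  classical
  constructor
  · intro hp
    -- the `x` components
    have hx : ∀ k j, (m ≤ k ∨ m ≤ j) → (v k j).1 = 0 := by
      intro k j hkj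
      have := cnb_test S m g v hp k (Finsupp.single j (0, 1)) ?_
      · rw [cnb_left, cnb_right, cnb_ell] at this
        simpa using this
      · intro hk
        refine ⟨fun j' hj' => ?_, fun _ => cnb_ell k j 0 1⟩
        rw [Finsupp.single_eq_of_ne (by omega)]
    -- large `k`
    have hk1 : ∀ k, m ≤ k → ∀ j, (v k j).2 +
        (if k ∈ S then (Multiplicative.toAdd (piG g)) k else 0) = 0 := by
      intro k hk j
      have := cnb_test S m g v hp k (Finsupp.single j (1, 0)) (fun h => by omega)
      rw [cnb_left, cnb_right, cnb_ell] at this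
      have h2 := congrArg Neg.neg this
      split_ifs at h2 ⊢ with hS
      · linear_combination h2
      · linear_combination h2
    have hpi : ∀ k, m ≤ k → (if k ∈ S then (Multiplicative.toAdd (piG g)) k else 0) = 0 := by
      intro k hk
      obtain ⟨j, hj⟩ := Infinite.exists_notMem_finset (v k).support
      have h1 := hk1 k hk j
      rw [Finsupp.notMem_support_iff.1 hj] at h1
      simpa using h1
    refine ⟨?_, ?_⟩
    · intro k j hkj
      refine Prod.ext (hx k j hkj) ?_
      by_cases hk : m ≤ k
      · have h1 := hk1 k hk j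
        rw [hpi k hk, add_zero] at h1
        exact h1
      · have hj : m ≤ j := by omega
        obtain ⟨j', hj'⟩ := Infinite.exists_notMem_finset ((v k).support ∪ Finset.range (m + j + 1))
        rw [Finset.mem_union, not_or, Finsupp.notMem_support_iff, Finset.mem_range] at hj'
        have hsum : ∀ (a b : Vk k), bk k (a - b) (v k) = bk k a (v k) - bk k b (v k) := by
          intro a b
          rw [eq_sub_iff_add_eq, ← bk_add_left, sub_add_cancel]
        have hsum' : ∀ (a b : Vk k), bk k (v k) (a - b) = bk k (v k) a - bk k (v k) b := by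
          intro a b
          rw [eq_sub_iff_add_eq, ← bk_add_right, sub_add_cancel]
        have hell : ell k (Finsupp.single j (1, 0) - Finsupp.single j' (1, 0)) = 0 := by
          rw [map_sub, cnb_ell, cnb_ell, sub_self]
        have := cnb_test S m g v hp k (Finsupp.single j (1, 0) - Finsupp.single j' (1, 0)) ?_
        · rw [hsum, hsum', cnb_left, cnb_left, cnb_right, cnb_right, hell, hj'.1] at this
          simpa using this
        · intro _
          refine ⟨fun i hi => ?_, fun _ => hell⟩
          rw [Finsupp.sub_apply, Finsupp.single_eq_of_ne (by omega),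
            Finsupp.single_eq_of_ne (by omega), sub_zero]
    · intro k hS hk
      have := hpi k hk
      rwa [if_pos hS] at this
  · rintro ⟨h1, h2⟩ t ⟨ht1, ht2⟩
    have e1 : (DP S).co t (g, v) = betaP t v - betaP v t - chiP S t (Additive.ofMul g) := rfl
    rw [e1]
    have hz : ∀ k j, t k j = 0 ∨ v k j = 0 := by
      intro k j
      by_cases h : k < m ∧ j < m
      · exact Or.inl (ht1 k h.1 j h.2)
      · exact Or.inr (h1 k j (by omega))
    have b1 : betaP t v = 0 := by
      rw [betaP_apply]
      refine Finset.sum_eq_zero fun k _ => ?_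
      have : bk k (t k) (v k) = 0 := by
        unfold bk Finsupp.sum
        refine Finset.sum_eq_zero fun j _ => ?_
        show (t k j).2 * (v k j).1 = 0
        rcases hz k j with h | h <;> rw [h] <;> simp
      rw [this, map_zero]
    have b2 : betaP v t = 0 := by
      rw [betaP_apply]
      refine Finset.sum_eq_zero fun k _ => ?_
      have : bk k (v k) (t k) = 0 := by
        unfold bk Finsupp.sum
        refine Finset.sum_eq_zero fun j _ => ?_
        show (v k j).2 * (t k j).1 = 0
        rcases hz k j with h | h <;> rw [h] <;> simp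
      rw [this, map_zero]
    have b3 : chiP S t (Additive.ofMul g) = 0 := by
      apply chiP_eq_zero
      intro k hS
      by_cases hk : k < m
      · exact Or.inl (ht2 k hk hS)
      · exact Or.inr (h2 k hS (by omega))
    rw [b1, b2, b3]
    simp

end Pool.Agent.H146R2.SD
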