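import Mathlib
import Pool.Agent.H146R2.SD.CD
import Pool.Agent.H146R2.SD.BAS
import Pool.Agent.H146R2.SD.CNA
import Pool.Agent.H146R2.SD.CNB

set_option autoImplicit false
set_option linter.unusedSectionVars false

open scoped ComplexConjugate Topology
open Filter

namespace Pool.Agent.H146R2.SD

open Pool.Agent.Helper278 Pool.Agent.Helper436.SM

theorem cnd_mem {S : Set ℕ} {m : ℕ} {v : VP} : v ∈ TS S m ↔
    (∀ k < m, ∀ j < m, v k j = 0) ∧ ∀ k < m, k ∈ S → ell k (v k) = 0 := Iff.rfl

open scoped Classical in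
theorem cnd_bound_V (v : VP) : ∃ m : ℕ, ∀ k j, (m ≤ k ∨ m ≤ j) → v k j = 0 := by
  refine ⟨(v.support.sup fun k => k + 1) ⊔
    (v.support.sup fun k => (v k).support.sup fun j => j + 1), ?_⟩
  intro k j h
  by_contra hne
  have hk : k ∈ v.support := by
    rw [DFinsupp.mem_support_iff]
    intro h0
    apply hne
    rw [h0]
    rfl
  have hj : j ∈ (v k).support := Finsupp.mem_support_iff.2 hne
  have h1 : k + 1 ≤ v.support.sup fun k => k + 1 := Finset.le_sup (f := fun k => k + 1) hk
  have h2 : j + 1 ≤ (v k).support.sup fun j => j + 1 := Finset.le_sup (f := fun j => j + 1) hj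
  have h3 : ((v k).support.sup fun j => j + 1) ≤
      v.support.sup fun k => (v k).support.sup fun j => j + 1 :=
    Finset.le_sup (f := fun k => (v k).support.sup fun j => j + 1) hk
  rcases h with h | h
  · have := le_trans le_sup_left h
    omega
  · have := le_trans le_sup_right h
    omega

open scoped Classical in
theorem cnd_bound_C (c : CC) : ∃ m : ℕ, ∀ k, m ≤ k → c k = 0 := by
  refine ⟨c.support.sup fun k => k + 1, ?_⟩
  intro k h
  by_contra hne
  have hk : k ∈ c.support := (DFinsupp.mem_support_iff).2 hne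
  have h1 : k + 1 ≤ c.support.sup fun k => k + 1 := Finset.le_sup (f := fun k => k + 1) hk
  omega

open scoped Classical in
theorem cnd_tors (v : VP) : ∃ n : ℕ, 0 < n ∧ n • v = 0 := by
  refine ⟨∏ k ∈ v.support, pk k, Finset.prod_pos fun k _ => (pk_prime k).pos, ?_⟩
  refine DFinsupp.ext fun k => Finsupp.ext fun j => ?_
  rw [DFinsupp.smul_apply, Finsupp.smul_apply, DFinsupp.zero_apply, Finsupp.zero_apply]
  by_cases hk : k ∈ v.support
  · obtain ⟨n, hn⟩ := Finset.dvd_prod_of_mem pk hk
    rw [hn]
    refine Prod.ext ?_ ?_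
    · rw [Prod.smul_fst, nsmul_eq_mul, Nat.cast_mul, ZMod.natCast_self, zero_mul, zero_mul]
      rfl
    · rw [Prod.smul_snd, nsmul_eq_mul, Nat.cast_mul, ZMod.natCast_self, zero_mul, zero_mul]
      rfl
  · have h0 : v k = 0 := by
      by_contra h
      exact hk ((DFinsupp.mem_support_iff).2 h)
    rw [h0, Finsupp.zero_apply, smul_zero]

theorem lev (S : Set ℕ) : Lev (DP S) (TS S) := by
  refine ⟨?_, ?_, ?_, ?_, cnd_tors⟩
  · intro m m' hm v hv
    rw [cnd_mem] at hv ⊢
    exact ⟨fun k hk j hj => hv.1 k (by omega) j (by omega), fun k hk hS => hv.2 k (by omega) hS⟩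
  · rintro ⟨g, v⟩
    obtain ⟨m1, h1⟩ := cnd_bound_V v
    obtain ⟨m2, h2⟩ := cnd_bound_C (Multiplicative.toAdd (piG g))
    refine ⟨max m1 m2, ?_⟩
    have h := (mem_perp S (max m1 m2) g v).2 ⟨?_, ?_⟩
    · exact h
    · intro k j hkj
      apply h1
      rcases hkj with h | h
      · exact Or.inl (le_trans (le_max_left _ _) h)
      · exact Or.inr (le_trans (le_max_left _ _) h)
    · intro k _ hk
      exact h2 k (le_trans (le_max_right _ _) hk)
  · intro m t ht hs
    have h := ((mem_perp S m 1 t).1 hs).1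
    rw [cnd_mem] at ht
    refine DFinsupp.ext fun k => Finsupp.ext fun j => ?_
    by_cases hk : m ≤ k
    · exact h k j (Or.inl hk)
    · by_cases hj : m ≤ j
      · exact h k j (Or.inr hj)
      · exact ht.1 k (by omega) j (by omega)
  · intro m
    refine ⟨DFinsupp.single m (Finsupp.single 0 (0, 1)), ?_, ?_⟩
    · have h0 : ∀ k < m, (DFinsupp.single m (Finsupp.single 0 (0, 1)) : VP) k = 0 := by
        intro k hk
        exact DFinsupp.single_eq_of_ne (by omega)
      rw [cnd_mem]
      refine ⟨fun k hk j hj => ?_, fun k hk hS => ?_⟩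
      · rw [h0 k hk]
        rfl
      · rw [h0 k hk, map_zero]
    · intro h
      have h1 := DFunLike.congr_fun h m
      rw [DFinsupp.single_eq_same] at h1
      have h2 := DFunLike.congr_fun h1 0
      rw [Finsupp.single_eq_same] at h2
      have h3 : (1 : ZMod (pk m)) = 0 := congrArg Prod.snd h2
      exact one_ne_zero h3

end Pool.Agent.H146R2.SD
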