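import Mathlib
import Pool.Agent.H146R2.SD.CD
import Pool.Agent.H146R2.SD.BAS
import Pool.Agent.H146R2.SD.CNA
import Pool.Agent.H146R2.SD.CNB

set_option autoImplicit false
set_option linter.unusedSectionVars false

open scoped ComplexConjugate Topology
open Filter

namespace Pool.Agent.H146R2.SD

open Pool.Agent.Helper278 Pool.Agent.Helper436.SM

private theorem cne_bk_single_left (k j : ℕ) (a : ZMod (pk k) × ZMod (pk k)) (w : Vk k) :
    bk k (Finsupp.single j a) w = a.2 * (w j).1 := by
  unfold bk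
  rw [Finsupp.sum_single_index]
  simp

private theorem cne_bk_single_right (k j : ℕ) (a : ZMod (pk k) × ZMod (pk k)) (w : Vk k) :
    bk k w (Finsupp.single j a) = (w j).2 * a.1 := by
  unfold bk Finsupp.sum
  rw [Finset.sum_eq_single j]
  · simp
  · intro b _ hb
    show (w b).2 * ((Finsupp.single j a : Vk k) b).1 = 0
    rw [Finsupp.single_eq_of_ne hb]
    simp
  · intro h
    rw [Finsupp.notMem_support_iff.1 h]
    simp

private theorem cne_bk_zero_left (k : ℕ) (w : Vk k) : bk k 0 w = 0 := by
  unfold bk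
  exact Finsupp.sum_zero_index

private theorem cne_bk_zero_right (k : ℕ) (w : Vk k) : bk k w 0 = 0 := by
  unfold bk Finsupp.sum
  refine Finset.sum_eq_zero (fun i _ => ?_)
  simp

/-- the vector with `z` coordinates one -/
private noncomputable def cne_d (k m : ℕ) : Vk k :=
  ∑ j ∈ Finset.range m, Finsupp.single j ((0, 1) : ZMod (pk k) × ZMod (pk k))

private theorem cne_d_succ (k m : ℕ) :
    cne_d k (m + 1) = cne_d k m + Finsupp.single m (0, 1) := by
  unfold cne_d
  rw [Finset.sum_range_succ]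

private theorem cne_d_left (k m : ℕ) (w : Vk k) :
    bk k (cne_d k m) w = ∑ j ∈ Finset.range m, (w j).1 := by
  induction m with
  | zero => simp [cne_d, cne_bk_zero_left]
  | succ m ih =>
    rw [cne_d_succ, bk_add_left, ih, Finset.sum_range_succ, cne_bk_single_left]
    simp

private theorem cne_d_right (k m : ℕ) (w : Vk k) : bk k w (cne_d k m) = 0 := by
  induction m with
  | zero => simp [cne_d, cne_bk_zero_right]
  | succ m ih =>
    rw [cne_d_succ, bk_add_right, ih, cne_bk_single_right]
    simp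

private theorem cne_ell_single (k j : ℕ) (a : ZMod (pk k) × ZMod (pk k)) :
    ell k (Finsupp.single j a) = a.1 := by
  unfold ell
  rw [Finsupp.liftAddHom_apply, Finsupp.sum_single_index]
  · rfl
  · simp

private theorem cne_ell_d (k m : ℕ) : ell k (cne_d k m) = 0 := by
  unfold cne_d
  rw [map_sum]
  refine Finset.sum_eq_zero (fun j _ => ?_)
  rw [cne_ell_single]

private theorem cne_ell_eq (k m : ℕ) (v : Vk k) (h : ∀ j, m ≤ j → v j = 0) :
    ell k v = ∑ j ∈ Finset.range m, (v j).1 := by
  unfold ell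
  rw [Finsupp.liftAddHom_apply, Finsupp.sum]
  refine Finset.sum_subset ?_ ?_
  · intro j hj
    rw [Finset.mem_range]
    by_contra hc
    exact (Finsupp.mem_support_iff.1 hj) (h j (not_lt.1 hc))
  · intro j _ hj
    rw [Finsupp.notMem_support_iff.1 hj]
    simp

private theorem cne_tors_zmod (k : ℕ) (x : ZMod (pk k)) : pk k • x = 0 := by
  rw [nsmul_eq_mul, ZMod.natCast_self, zero_mul]

private theorem cne_tors (k : ℕ) (a : Vk k) : pk k • a = 0 := by
  refine Finsupp.ext fun j => ?_
  rw [Finsupp.smul_apply, Finsupp.zero_apply]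
  refine Prod.ext ?_ ?_
  · rw [Prod.smul_fst]
    exact cne_tors_zmod k _
  · rw [Prod.smul_snd]
    exact cne_tors_zmod k _

private theorem cne_tors_single (k : ℕ) (a : Vk k) :
    pk k • (DFinsupp.single k a : VP) = 0 := by
  have h := map_nsmul (DFinsupp.singleAddHom (fun k : ℕ => Vk k) k) (pk k) a
  rw [DFinsupp.singleAddHom_apply, DFinsupp.singleAddHom_apply, cne_tors,
    DFinsupp.single_zero] at h
  exact h.symm

private theorem cne_piG_lc (c : CC) : piG (lc c) = Multiplicative.ofAdd c := by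
  unfold piG lc
  rw [FreeGroup.lift_apply_of]
  rfl

private theorem cne_chi (S : Set ℕ) (k₀ : ℕ) (hk : k₀ ∈ S) (v : VP) :
    chiP S v (Additive.ofMul (lc (DFinsupp.single k₀ 1))) = tt k₀ (ell k₀ (v k₀)) := by
  classical
  have h1 : chiP S (v - DFinsupp.single k₀ (v k₀))
      (Additive.ofMul (lc (DFinsupp.single k₀ 1))) = 0 := by
    apply chiP_eq_zero
    intro k _
    by_cases h : k = k₀
    · left
      subst h
      rw [DFinsupp.sub_apply, DFinsupp.single_eq_same, sub_self, map_zero]
    · right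
      rw [cne_piG_lc, toAdd_ofAdd]
      exact DFinsupp.single_eq_of_ne h
  have h2 := chiP_single S k₀ (v k₀) (lc (DFinsupp.single k₀ 1))
  rw [if_pos hk, cne_piG_lc, toAdd_ofAdd, DFinsupp.single_eq_same, mul_one] at h2
  have h3 : chiP S v = chiP S (v - DFinsupp.single k₀ (v k₀)) +
      chiP S (DFinsupp.single k₀ (v k₀)) := by
    rw [← AddMonoidHom.map_add]
    refine congrArg (chiP S) (DFinsupp.ext fun i => ?_)
    rw [DFinsupp.add_apply, DFinsupp.sub_apply, sub_add_cancel]
  have h4 := DFunLike.congr_fun h3 (Additive.ofMul (lc (DFinsupp.single k₀ 1)))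
  rw [h4, AddMonoidHom.add_apply, h1, h2, zero_add]

/-- the data for `k₀ ∈ S` -/
theorem hasP (S : Set ℕ) (k₀ : ℕ) (hk : k₀ ∈ S) :
    ∃ (w δ : ℕ → VP) (α γ : GF × VP → TT) (θ : TT),
      HasP (DP S) (TS S) (pk k₀) (lc (DFinsupp.single k₀ 1)) w δ α γ θ := by
  classical
  refine ⟨fun m => DFinsupp.single k₀ (Finsupp.single m (1, 0)),
    fun m => DFinsupp.single k₀ (cne_d k₀ m),
    fun b => - tt k₀ ((Multiplicative.toAdd (piG b.1)) k₀),
    fun b => tt k₀ (ell k₀ (b.2 k₀)), tt k₀ 1, ?_⟩
  constructor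
  · intro m
    exact cne_tors_single k₀ _
  · intro m
    show betaP _ _ = 0
    rw [betaP_single, cne_bk_single_left, zero_mul, map_zero]
  · intro m
    exact cne_tors_single k₀ _
  · intro m
    show betaP _ _ = 0
    rw [betaP_single, DFinsupp.single_eq_same, cne_d_right, map_zero]
  · rintro m ⟨g, v⟩ hb
    have hp := ((mem_perp S m g v).1 hb).1
    show betaP (DFinsupp.single k₀ (Finsupp.single m (1, 0))) v -
      betaP v (DFinsupp.single k₀ (Finsupp.single m (1, 0))) -
      chiP S (DFinsupp.single k₀ (Finsupp.single m (1, 0))) (Additive.ofMul g) =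
      - tt k₀ ((Multiplicative.toAdd (piG g)) k₀)
    rw [betaP_single, betaP_single_right, chiP_single, if_pos hk, cne_bk_single_left,
      cne_bk_single_right, cne_ell_single, hp k₀ m (Or.inr le_rfl)]
    simp
  · rintro m ⟨g, v⟩ hb
    have hp := ((mem_perp S m g v).1 hb).1
    show betaP (DFinsupp.single k₀ (cne_d k₀ m)) v -
      betaP v (DFinsupp.single k₀ (cne_d k₀ m)) -
      chiP S (DFinsupp.single k₀ (cne_d k₀ m)) (Additive.ofMul g) =
      tt k₀ (ell k₀ (v k₀))
    rw [betaP_single, betaP_single_right, chiP_single, if_pos hk, cne_d_left, cne_d_right,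
      cne_ell_d, cne_ell_eq k₀ m (v k₀) (fun j hj => hp k₀ j (Or.inr hj))]
    simp
  · intro v
    show - tt k₀ ((Multiplicative.toAdd (piG 1)) k₀) = 0
    rw [map_one, toAdd_one, DFinsupp.zero_apply, map_zero, neg_zero]
  · intro v hv
    have h := cne_chi S k₀ hk v
    show tt k₀ (ell k₀ (v k₀)) = 0
    rw [← h]
    exact hv
  · intro m
    show tt k₀ (ell k₀ ((DFinsupp.single k₀ (Finsupp.single m (1, 0)) : VP) k₀)) = tt k₀ 1
    rw [DFinsupp.single_eq_same, cne_ell_single]
  · intro h
    have := tt_inj k₀ (h.trans (map_zero (tt k₀)).symm)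
    exact one_ne_zero this
  · intro v
    show pk k₀ • chiP S v (Additive.ofMul (lc (DFinsupp.single k₀ 1))) = 0
    rw [cne_chi S k₀ hk v, ← map_nsmul, cne_tors_zmod, map_zero]

end Pool.Agent.H146R2.SD
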