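import Mathlib
import Pool.Agent.H146R2.SD.CD
import Pool.Agent.H146R2.SD.BAS
import Pool.Agent.H146R2.SD.CNA
import Pool.Agent.H146R2.SD.CNB

set_option autoImplicit false
set_option linter.unusedSectionVars false

open scoped ComplexConjugate Topology
open Filter

namespace Pool.Agent.H146R2.SD

open Pool.Agent.Helper278 Pool.Agent.Helper436.SM

/-- a phase far from `1` -/
theorem cnf_ex (k : ℕ) : ∃ c : ZMod (pk k), 1 ≤ ‖e (tt k c) - 1‖ := by
  by_contra hcon
  push Not at hcon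
  have h0 : tt k ≠ 0 := by
    intro h
    have h1 : (1 : ZMod (pk k)) = 0 := by
      apply tt_inj k
      rw [h]
      rfl
    exact one_ne_zero h1
  have hs := sum_e (tt k) h0
  have hre : ∑ c : ZMod (pk k), (e (tt k c)).re = 0 := by
    have := congrArg Complex.re hs
    rwa [Complex.re_sum, Complex.zero_re] at this
  have hpos : ∀ c : ZMod (pk k), 0 < (e (tt k c)).re := by
    intro c
    have h1 := hcon c
    have h2 := norm_e (tt k c)
    have h3 : ‖e (tt k c) - 1‖ ^ 2 < 1 := by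
      have := norm_nonneg (e (tt k c) - 1)
      nlinarith
    have h4 : ‖e (tt k c)‖ ^ 2 = 1 := by rw [h2]; norm_num
    rw [← Complex.normSq_eq_norm_sq, Complex.normSq_apply] at h3 h4
    simp only [Complex.sub_re, Complex.sub_im, Complex.one_re, Complex.one_im, sub_zero] at h3
    nlinarith
  have : 0 < ∑ c : ZMod (pk k), (e (tt k c)).re :=
    Finset.sum_pos (fun c _ => hpos c) ⟨0, Finset.mem_univ _⟩
  linarith

/-- the part of a vector outside the box -/
noncomputable def cnfOu (m : ℕ) : VP →+ VP :=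
  DFinsupp.mapRange.addMonoidHom fun k =>
    (Finsupp.filterAddHom (fun j => m ≤ k ∨ m ≤ j) : Vk k →+ Vk k)

theorem cnfOu_apply (m : ℕ) (v : VP) (k : ℕ) :
    cnfOu m v k = Finsupp.filter (fun j => m ≤ k ∨ m ≤ j) (v k) := rfl

theorem cnfOu_apply_pos (m : ℕ) (v : VP) (k j : ℕ) (h : m ≤ k ∨ m ≤ j) :
    cnfOu m v k j = v k j := by
  rw [cnfOu_apply, Finsupp.filter_apply_pos (fun j => m ≤ k ∨ m ≤ j) _ h]

theorem cnfOu_apply_neg (m : ℕ) (v : VP) (k j : ℕ) (h : ¬ (m ≤ k ∨ m ≤ j)) :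
    cnfOu m v k j = 0 := by
  rw [cnfOu_apply, Finsupp.filter_apply_neg (fun j => m ≤ k ∨ m ≤ j) _ h]

theorem cnf_ell (k : ℕ) (a : Vk k) : ell k a = a.sum fun _ b => b.1 := rfl

theorem cnf_ell_Ico (m M k : ℕ) (hk : k < m) (v : VP) (hM : ∀ j, M ≤ j → v k j = 0) :
    ell k (cnfOu m v k) = ∑ j ∈ Finset.Ico m M, (v k j).1 := by
  rw [cnf_ell, Finsupp.sum_of_support_subset (s := Finset.Ico m M)]
  · refine Finset.sum_congr rfl fun j hj => ?_
    rw [cnfOu_apply_pos _ _ _ _ (Or.inr (Finset.mem_Ico.1 hj).1)]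
  · intro j hj
    rw [Finsupp.mem_support_iff] at hj
    rw [Finset.mem_Ico]
    constructor
    · by_contra h
      exact hj (cnfOu_apply_neg _ _ _ _ (by omega))
    · by_contra h
      apply hj
      by_cases h2 : m ≤ k ∨ m ≤ j
      · rw [cnfOu_apply_pos _ _ _ _ h2]
        exact hM j (by omega)
      · exact cnfOu_apply_neg _ _ _ _ h2
  · intro i _
    rfl

theorem cnf_bkL (k : ℕ) (I : Finset ℕ) (a : ZMod (pk k)) (w : Vk k) :
    bk k (∑ j ∈ I, Finsupp.single j ((0 : ZMod (pk k)), a)) w = a * ∑ j ∈ I, (w j).1 := by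
  have h : ∀ v : Vk k, bk k v w = (AddMonoidHom.mk' (fun v : Vk k => bk k v w)
      (fun v v' => bk_add_left k v v' w)) v := fun v => rfl
  rw [h, map_sum, Finset.mul_sum]
  refine Finset.sum_congr rfl fun j _ => ?_
  rw [← h]
  unfold bk
  rw [Finsupp.sum_single_index]
  simp

theorem cnf_bkR (k : ℕ) (I : Finset ℕ) (a : ZMod (pk k)) (w : Vk k) :
    bk k w (∑ j ∈ I, Finsupp.single j ((0 : ZMod (pk k)), a)) = 0 := by
  have h : ∀ v : Vk k, bk k w v = (AddMonoidHom.mk' (fun v : Vk k => bk k w v)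
      (fun v v' => bk_add_right k w v v')) v := fun v => rfl
  rw [h, map_sum]
  refine Finset.sum_eq_zero fun j _ => ?_
  rw [← h]
  unfold bk Finsupp.sum
  refine Finset.sum_eq_zero fun i _ => ?_
  by_cases hij : j = i
  · subst hij
    simp
  · show (w i).2 * ((Finsupp.single j ((0 : ZMod (pk k)), a) : Vk k) i).1 = 0
    rw [Finsupp.single_eq_of_ne (Ne.symm hij)]
    simp

theorem cnf_ellz (k : ℕ) (I : Finset ℕ) (a : ZMod (pk k)) :
    ell k (∑ j ∈ I, Finsupp.single j ((0 : ZMod (pk k)), a)) = 0 := by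
  rw [map_sum]
  refine Finset.sum_eq_zero fun j _ => ?_
  rw [cnf_ell, Finsupp.sum_single_index]
  rfl

theorem cnf_coA (S : Set ℕ) (k : ℕ) (I : Finset ℕ) (a : ZMod (pk k)) (b : GF × VP) :
    (DP S).co (DFinsupp.single k (∑ j ∈ I, Finsupp.single j ((0 : ZMod (pk k)), a))) b
      = tt k (a * ∑ j ∈ I, (b.2 k j).1) := by
  show betaP _ b.2 - betaP b.2 _ - chiP S _ (Additive.ofMul b.1) = _
  rw [betaP_single, betaP_single_right, chiP_single, cnf_bkL, cnf_bkR, cnf_ellz]
  simp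

theorem cnf_coB (S : Set ℕ) (k M : ℕ) (hk : k ∈ S) (a : ZMod (pk k)) (b : GF × VP)
    (hM : b.2 k M = 0) :
    (DP S).co (DFinsupp.single k (Finsupp.single M (a, (0 : ZMod (pk k))))) b
      = tt k (-a * (Multiplicative.toAdd (piG b.1)) k) := by
  show betaP _ b.2 - betaP b.2 _ - chiP S _ (Additive.ofMul b.1) = _
  rw [betaP_single, betaP_single_right, chiP_single, if_pos hk]
  have h1 : bk k (Finsupp.single M (a, (0 : ZMod (pk k)))) (b.2 k) = 0 := by
    unfold bk
    rw [Finsupp.sum_single_index]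
    · simp
    · simp
  have h2 : bk k (b.2 k) (Finsupp.single M (a, (0 : ZMod (pk k)))) = 0 := by
    unfold bk Finsupp.sum
    refine Finset.sum_eq_zero fun i _ => ?_
    by_cases hij : M = i
    · subst hij
      rw [hM]
      simp
    · show (b.2 k i).2 * ((Finsupp.single M (a, (0 : ZMod (pk k))) : Vk k) i).1 = 0
      rw [Finsupp.single_eq_of_ne (Ne.symm hij)]
      simp
  have h3 : ell k (Finsupp.single M (a, (0 : ZMod (pk k)))) = a := by
    rw [cnf_ell, Finsupp.sum_single_index]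
    rfl
  rw [h1, h2, h3]
  simp

theorem cnf_M (k : ℕ) (F : Finset (GF × VP)) : ∃ M, ∀ b ∈ F, ∀ j, M ≤ j → b.2 k j = 0 := by
  refine ⟨(F.sup fun b => (b.2 k).support.sup id) + 1, fun b hb j hj => ?_⟩
  by_contra h
  have h1 : j ∈ (b.2 k).support := Finsupp.mem_support_iff.2 h
  have h2 : id j ≤ (b.2 k).support.sup id := Finset.le_sup h1
  have h3 : (b.2 k).support.sup id ≤ F.sup fun b => (b.2 k).support.sup id :=
    Finset.le_sup (f := fun b : GF × VP => (b.2 k).support.sup id) hb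
  simp only [id] at h2
  omega

/-- the classes for `k₀ ∉ S` -/
theorem notP (S : Set ℕ) (k₀ : ℕ) (hk : k₀ ∉ S) : NotP (DP S) (TS S) (pk k₀) := by
  rintro m ⟨g, v⟩ F hF hx
  -- the elements of `F`
  have hFb : ∀ b ∈ F, (∀ k < m, k ∈ S → ell k (cnfOu m b.2 k) = ell k (cnfOu m v k)) ∧
      ∀ k ∈ S, m ≤ k → (Multiplicative.toAdd (piG b.1)) k = (Multiplicative.toAdd (piG g)) k := by
    rintro ⟨g', v'⟩ hb
    obtain ⟨s, hs, hst⟩ := hF _ hb
    have hp : (g' * g⁻¹, v' + -(v + s)) ∈ perp (DP S) (TS S m) := by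
      intro t ht
      have h1 := hst t ht
      have h2 : (DP S).co t (g' * g⁻¹, v' + -(v + s)) =
          (DP S).co t (g', v') + (DP S).co t (g⁻¹, -(v + s)) := co_mul _ _ _ _ _ _
      have h3 : (DP S).co t (g⁻¹, -(v + s)) = - (DP S).co t (g, v + s) := co_inv _ _ _ _
      have h4 : (DP S).co t (g * 1, v + s) = (DP S).co t (g, v) + (DP S).co t (1, s) :=
        co_mul _ _ _ _ _ _
      rw [mul_one] at h4
      rw [h2, h3, h4, h1]
      abel
    rw [mem_perp] at hp
    constructor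
    · intro k hkm hkS
      have e1 : cnfOu m v' k = cnfOu m (v + s) k := by
        ext j : 1
        by_cases hj : m ≤ k ∨ m ≤ j
        · rw [cnfOu_apply_pos _ _ _ _ hj, cnfOu_apply_pos _ _ _ _ hj]
          have := hp.1 k j hj
          rw [DFinsupp.add_apply, DFinsupp.neg_apply, Finsupp.add_apply, Finsupp.neg_apply] at this
          exact add_neg_eq_zero.1 this
        · rw [cnfOu_apply_neg _ _ _ _ hj, cnfOu_apply_neg _ _ _ _ hj]
      have e2 : cnfOu m s k = s k := by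
        ext j : 1
        by_cases hj : m ≤ k ∨ m ≤ j
        · rw [cnfOu_apply_pos _ _ _ _ hj]
        · rw [cnfOu_apply_neg _ _ _ _ hj, hs.1 k hkm j (by omega)]
      have e3 : ell k (s k) = 0 := hs.2 k hkm hkS
      show ell k (cnfOu m v' k) = _
      rw [e1, map_add, DFinsupp.add_apply, map_add, e2, e3, add_zero]
    · intro k hkS hmk
      have := hp.2 k hkS hmk
      rw [map_mul, map_inv, toAdd_mul, toAdd_inv, DFinsupp.add_apply, DFinsupp.neg_apply] at this
      exact add_neg_eq_zero.1 this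
  -- the alternative
  have key : (∃ k < m, k ∈ S ∧ ell k (cnfOu m v k) ≠ 0) ∨
      ∃ k ∈ S, m ≤ k ∧ (Multiplicative.toAdd (piG g)) k ≠ 0 := by
    by_contra hcon
    push Not at hcon
    obtain ⟨hA, hB⟩ := hcon
    apply hx
    refine ⟨cnfOu m v, ⟨fun k hkm j hj => cnfOu_apply_neg _ _ _ _ (by omega),
      fun k hkm hkS => hA k hkm hkS⟩, fun t ht => ?_⟩
    have hp : (g, v - cnfOu m v) ∈ perp (DP S) (TS S m) := by
      rw [mem_perp]
      refine ⟨fun k j hj => ?_, fun k hkS hmk => hB k hkS hmk⟩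
      rw [DFinsupp.sub_apply, Finsupp.sub_apply, cnfOu_apply_pos _ _ _ _ hj, sub_self]
    have h1 := hp t ht
    have h2 : (DP S).co t (g * 1, (v - cnfOu m v) + cnfOu m v) =
      (DP S).co t (g, v - cnfOu m v) + (DP S).co t (1, cnfOu m v) := co_mul _ _ _ _ _ _
    have h3 : (v - cnfOu m v) + cnfOu m v = v := DFinsupp.ext fun k => by
      rw [DFinsupp.add_apply, DFinsupp.sub_apply, sub_add_cancel]
    rw [mul_one, h3] at h2
    rw [h2, h1, co_one_zero]
  -- the number `a`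
  have hchoice : ∀ k ∈ S, ∀ l : ZMod (pk k), l ≠ 0 →
      ∃ a : ZMod (pk k), 1 ≤ ‖e (tt k (a * l)) ^ (pk k₀) - 1‖ := by
    intro k hkS l hl
    obtain ⟨c, hc⟩ := cnf_ex k
    have hp : ((pk k₀ : ℕ) : ZMod (pk k)) ≠ 0 := by
      intro h
      rw [ZMod.natCast_eq_zero_iff] at h
      have := (Nat.prime_dvd_prime_iff_eq (pk_prime k) (pk_prime k₀)).1 h
      have := pk_inj this
      subst this
      exact hk hkS
    refine ⟨c / (l * ((pk k₀ : ℕ) : ZMod (pk k))), ?_⟩
    rw [← e_nsmul, ← map_nsmul, nsmul_eq_mul]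
    have : ((pk k₀ : ℕ) : ZMod (pk k)) * (c / (l * ((pk k₀ : ℕ) : ZMod (pk k))) * l) = c := by
      field_simp
    rw [this]
    exact hc
  rcases key with ⟨k, hkm, hkS, hl⟩ | ⟨k, hkS, hmk, hl⟩
  · obtain ⟨a, ha⟩ := hchoice k hkS _ hl
    obtain ⟨M1, hM1⟩ := cnf_M k F
    obtain ⟨M2, hM2⟩ := cnf_M k {((g, v) : GF × VP)}
    refine ⟨DFinsupp.single k (∑ j ∈ Finset.Ico m (max M1 M2),
      Finsupp.single j ((0 : ZMod (pk k)), a)), fun b hb => ?_, ?_⟩
    · rw [cnf_coA, cnf_coA, ← cnf_ell_Ico m _ k hkm b.2 (fun j hj => hM1 b hb j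
        ((le_max_left _ _).trans hj)), ← cnf_ell_Ico m _ k hkm v (fun j hj => hM2 (g, v)
        (Finset.mem_singleton_self _) j ((le_max_right _ _).trans hj)), (hFb b hb).1 k hkm hkS]
    · rw [cnf_coA, ← cnf_ell_Ico m _ k hkm v (fun j hj => hM2 (g, v)
        (Finset.mem_singleton_self _) j ((le_max_right _ _).trans hj))]
      exact ha
  · obtain ⟨a, ha⟩ := hchoice k hkS _ hl
    obtain ⟨M1, hM1⟩ := cnf_M k F
    obtain ⟨M2, hM2⟩ := cnf_M k {((g, v) : GF × VP)}
    refine ⟨DFinsupp.single k (Finsupp.single (max M1 M2) (-a, (0 : ZMod (pk k)))),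
      fun b hb => ?_, ?_⟩
    · rw [cnf_coB S k _ hkS _ b (hM1 b hb _ (le_max_left _ _)), cnf_coB S k _ hkS _ (g, v)
        (hM2 (g, v) (Finset.mem_singleton_self _) _ (le_max_right _ _)), (hFb b hb).2 k hkS hmk]
    · rw [cnf_coB S k _ hkS _ (g, v)
        (hM2 (g, v) (Finset.mem_singleton_self _) _ (le_max_right _ _)), neg_neg]
      exact ha

end Pool.Agent.H146R2.SD
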