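import Mathlib
import Pool.Agent.H146R2.SD.BAS

set_option autoImplicit false
set_option linter.unusedSectionVars false

open scoped ComplexConjugate Topology
open Filter

namespace Pool.Agent.H146R2.SD

open Pool.Agent.Helper278 Pool.Agent.Helper436.SM

variable {A : Type} [Ring A] [StarRing A] [Algebra ℂ A] [StarModule ℂ A] {τ : A →ₗ[ℂ] ℂ}
variable {V G : Type} [AddCommGroup V] [Group G] {D : Dat V G} {u : G →* A} {W : V → A}

section dfo

variable {C : Type} [AddCommGroup C] [Fintype C] (pr : C →+ C →+ TT) (z : C →+ V)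

open scoped Classical in
theorem dfo_orth1 (hpr : ∀ c, (∀ c', pr c' c = 0) → c = 0) (c : C) :
    ∑ a, e (pr a c) = if c = 0 then (Fintype.card C : ℂ) else 0 := by
  split_ifs with hc
  · subst hc
    simp [e_zero]
  · have hf : pr.flip c ≠ 0 := by
      intro h0
      apply hc
      apply hpr
      intro c'
      have := DFunLike.congr_fun h0 c'
      simpa using this
    have := sum_e (pr.flip c) hf
    simpa using this

open scoped Classical in
theorem dfo_orth2 (hpr' : ∀ c, (∀ c', pr c c' = 0) → c = 0) (c : C) :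
    ∑ a, e (pr c a) = if c = 0 then (Fintype.card C : ℂ) else 0 := by
  split_ifs with hc
  · subst hc
    simp [e_zero]
  · have hf : pr c ≠ 0 := by
      intro h0
      apply hc
      apply hpr'
      intro c'
      have := DFunLike.congr_fun h0 c'
      simpa using this
    exact sum_e (pr c) hf

theorem dfo_cardne : (Fintype.card C : ℂ) ≠ 0 := by
  have : 0 < Fintype.card C := Fintype.card_pos_iff.2 ⟨0⟩
  exact_mod_cast this.ne'

/-- spectral projections -/
noncomputable def dfoE (W : V → A) (pr : C →+ C →+ TT) (z : C →+ V) (c : C) : A :=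
  ((Fintype.card C : ℂ)⁻¹) • ∑ a, e (-(pr a c)) • W (z a)

variable (h : TW D τ u W) (hβ : ∀ c c', D.β (z c) (z c') = 0)

include h hβ in
theorem dfo_WW (a b : C) : W (z a) * W (z b) = W (z (a + b)) := by
  rw [h.mul, hβ, e_zero, one_smul, map_add]

include h hβ in
theorem dfo_WE (a c : C) : W (z a) * dfoE W pr z c = e (pr a c) • dfoE W pr z c := by
  unfold dfoE
  rw [mul_smul_comm, smul_comm (e (pr a c))]
  congr 1
  rw [Finset.mul_sum, Finset.smul_sum]
  refine Fintype.sum_equiv (Equiv.addLeft a) _ _ (fun b => ?_)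
  rw [mul_smul_comm, dfo_WW z h hβ, smul_smul]
  simp only [Equiv.coe_addLeft]
  congr 1
  rw [← e_add]
  congr 1
  rw [map_add, AddMonoidHom.add_apply]
  abel

open scoped Classical in
include h hβ in
theorem dfo_EE (hpr : ∀ c, (∀ c', pr c' c = 0) → c = 0) (c c' : C) :
    dfoE W pr z c * dfoE W pr z c' = if c = c' then dfoE W pr z c else 0 := by
  have h1 : dfoE W pr z c * dfoE W pr z c' =
      ((Fintype.card C : ℂ)⁻¹ * ∑ a, e (pr a (c' - c))) • dfoE W pr z c' := by
    conv_lhs => rw [dfoE]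
    rw [smul_mul_assoc, Finset.sum_mul, mul_smul, Finset.sum_smul]
    congr 1
    refine Finset.sum_congr rfl (fun a _ => ?_)
    rw [smul_mul_assoc, dfo_WE pr z h hβ, smul_smul, ← e_add]
    congr 2
    rw [map_sub]; abel
  rw [h1, dfo_orth1 pr hpr]
  by_cases hcc : c = c'
  · subst hcc
    rw [sub_self, if_pos rfl, if_pos rfl, inv_mul_cancel₀ dfo_cardne, one_smul]
  · rw [if_neg (sub_ne_zero.2 (Ne.symm hcc)), if_neg hcc, mul_zero, zero_smul]

include h in
theorem dfo_sum (hpr' : ∀ c, (∀ c', pr c c' = 0) → c = 0) : ∑ c, dfoE W pr z c = 1 := by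
  classical
  unfold dfoE
  rw [← Finset.smul_sum, Finset.sum_comm]
  have h1 : ∀ a : C, ∑ c, e (-(pr a c)) • W (z a) =
      (if a = 0 then (Fintype.card C : ℂ) else 0) • W (z a) := by
    intro a
    rw [← Finset.sum_smul]
    congr 1
    have h2 := dfo_orth2 pr hpr' (-a)
    simp only [map_neg, AddMonoidHom.neg_apply, neg_eq_zero] at h2
    exact h2
  simp only [h1]
  rw [Finset.sum_eq_single 0]
  · rw [if_pos rfl, map_zero, h.zero, smul_smul, inv_mul_cancel₀ dfo_cardne, one_smul]
  · intro b _ hb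
    rw [if_neg hb, zero_smul]
  · intro hb
    exact absurd (Finset.mem_univ _) hb

include h hβ in
theorem dfo_star (c : C) : star (dfoE W pr z c) = dfoE W pr z c := by
  unfold dfoE
  rw [star_smul, star_sum]
  congr 1
  · simp
  · refine Fintype.sum_equiv (Equiv.neg C) _ _ (fun a => ?_)
    rw [star_smul, h.star_W, hβ, e_zero, one_smul]
    simp only [Equiv.neg_apply, map_neg, AddMonoidHom.neg_apply, neg_neg]
    congr 1
    rw [e_neg]
    simp

theorem dfo_comm (x : A) (hx : ∀ c, W (z c) * x = x * W (z c)) (c : C) :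
    dfoE W pr z c * x = x * dfoE W pr z c := by
  unfold dfoE
  rw [smul_mul_assoc, mul_smul_comm, Finset.sum_mul, Finset.mul_sum]
  congr 1
  refine Finset.sum_congr rfl (fun a _ => ?_)
  rw [smul_mul_assoc, mul_smul_comm, hx]

/-- the labelled unitary -/
noncomputable def dfoD (u : G →* A) (W : V → A) (pr : C →+ C →+ TT) (z : C →+ V) (lab : C → G) : A :=
  ∑ c, dfoE W pr z c * u (lab c)

variable (lab : C → G) (hχ : ∀ c c', D.χ (z c) (Additive.ofMul (lab c')) = 0)

include h hχ in
theorem dfo_Wu (c c' : C) : W (z c) * u (lab c') = u (lab c') * W (z c) := by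
  rw [h.W_u, hχ, neg_zero, e_zero, one_smul]

include h hχ in
theorem dfo_Eu (c c' : C) : dfoE W pr z c * u (lab c') = u (lab c') * dfoE W pr z c :=
  dfo_comm pr z _ (fun a => dfo_Wu z h lab hχ a c') c

include h hβ in
theorem dfo_starD : star (dfoD u W pr z lab) = ∑ c, star (u (lab c)) * dfoE W pr z c := by
  unfold dfoD
  rw [star_sum]
  refine Finset.sum_congr rfl (fun c _ => ?_)
  rw [star_mul, dfo_star pr z h hβ]

include h hβ hχ in
theorem dfo_sandwich (hpr : ∀ c, (∀ c', pr c' c = 0) → c = 0) (x : A)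
    (hx : ∀ c, W (z c) * x = x * W (z c)) :
    star (dfoD u W pr z lab) * x * dfoD u W pr z lab =
      ∑ c, (star (u (lab c)) * x * u (lab c)) * dfoE W pr z c := by
  classical
  rw [dfo_starD pr z h hβ]
  unfold dfoD
  rw [Finset.sum_mul, Finset.sum_mul]
  refine Finset.sum_congr rfl (fun c _ => ?_)
  rw [Finset.mul_sum, Finset.sum_eq_single c]
  · have h1 := dfo_comm pr z x hx c
    have h2 := dfo_EE pr z h hβ hpr c c
    rw [if_pos rfl] at h2
    have h3 := dfo_Eu pr z h lab hχ c c
    calc star (u (lab c)) * dfoE W pr z c * x * (dfoE W pr z c * u (lab c))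
        = star (u (lab c)) * (dfoE W pr z c * x) * (dfoE W pr z c * u (lab c)) := by
          noncomm_ring
      _ = star (u (lab c)) * x * ((dfoE W pr z c * dfoE W pr z c) * u (lab c)) := by
          rw [h1]; noncomm_ring
      _ = (star (u (lab c)) * x * u (lab c)) * dfoE W pr z c := by
          rw [h2, h3]; noncomm_ring
  · intro b _ hb
    have h1 := dfo_comm pr z x hx c
    have h2 := dfo_EE pr z h hβ hpr c b
    rw [if_neg (Ne.symm hb)] at h2
    calc star (u (lab c)) * dfoE W pr z c * x * (dfoE W pr z b * u (lab b))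
        = star (u (lab c)) * (dfoE W pr z c * x) * (dfoE W pr z b * u (lab b)) := by
          noncomm_ring
      _ = star (u (lab c)) * x * ((dfoE W pr z c * dfoE W pr z b) * u (lab b)) := by
          rw [h1]; noncomm_ring
      _ = 0 := by rw [h2]; noncomm_ring
  · intro hb
    exact absurd (Finset.mem_univ _) hb

include h hβ hχ in
theorem dfo_unitary (hpr : ∀ c, (∀ c', pr c' c = 0) → c = 0)
    (hpr' : ∀ c, (∀ c', pr c c' = 0) → c = 0) : dfoD u W pr z lab ∈ unitary A := by
  classical
  rw [Unitary.mem_iff]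
  constructor
  · have h1 := dfo_sandwich pr z h hβ lab hχ hpr 1 (fun c => by rw [mul_one, one_mul])
    rw [mul_one] at h1
    rw [h1, ← dfo_sum pr z h hpr']
    refine Finset.sum_congr rfl (fun c _ => ?_)
    rw [dfo_sum pr z h hpr', mul_one, (Unitary.mem_iff.1 (h.u_mem (lab c))).1, one_mul]
  · rw [dfo_starD pr z h hβ]
    unfold dfoD
    rw [Finset.sum_mul, ← dfo_sum pr z h hpr']
    refine Finset.sum_congr rfl (fun c _ => ?_)
    rw [Finset.mul_sum, Finset.sum_eq_single c]
    · have h2 := dfo_EE pr z h hβ hpr c c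
      rw [if_pos rfl] at h2
      calc dfoE W pr z c * u (lab c) * (star (u (lab c)) * dfoE W pr z c)
          = dfoE W pr z c * (u (lab c) * star (u (lab c))) * dfoE W pr z c := by noncomm_ring
        _ = dfoE W pr z c := by
          rw [(Unitary.mem_iff.1 (h.u_mem (lab c))).2, mul_one, h2]
    · intro b _ hb
      have h2 := dfo_EE pr z h hβ hpr c b
      rw [if_neg (Ne.symm hb)] at h2
      have h3 := dfo_Eu pr z h lab hχ c c
      have h4 : dfoE W pr z c * star (u (lab b)) = star (u (lab b)) * dfoE W pr z c := by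
        have := congrArg star (dfo_Eu pr z h lab hχ c b)
        rw [star_mul, star_mul, dfo_star pr z h hβ] at this
        exact this.symm
      calc dfoE W pr z c * u (lab c) * (star (u (lab b)) * dfoE W pr z b)
          = (dfoE W pr z c * u (lab c)) * star (u (lab b)) * dfoE W pr z b := by noncomm_ring
        _ = u (lab c) * (dfoE W pr z c * star (u (lab b))) * dfoE W pr z b := by
          rw [h3]; noncomm_ring
        _ = u (lab c) * star (u (lab b)) * (dfoE W pr z c * dfoE W pr z b) := by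
          rw [h4]; noncomm_ring
        _ = 0 := by rw [h2, mul_zero]
    · intro hb
      exact absurd (Finset.mem_univ _) hb

include h in
theorem dfo_Wcomm (t : V) (ht : ∀ c, D.co (z c) (1, t) = 0) (c : C) :
    W (z c) * W t = W t * W (z c) := by
  have := h.W_basis (z c) (1, t)
  rw [ht, e_zero, one_smul] at this
  simpa using this

/-- coefficients -/
noncomputable def dfoK (D : Dat V G) (pr : C →+ C →+ TT) (lab : C → G) (v : V) (a : C) : ℂ :=
  (Fintype.card C : ℂ)⁻¹ * ∑ c, e (-(D.χ v (Additive.ofMul (lab c)))) * e (-(pr a c))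

include h hβ hχ in
theorem dfo_Y (hpr : ∀ c, (∀ c', pr c' c = 0) → c = 0) (v : V)
    (hv : ∀ c, D.co (z c) (1, v) = 0) :
    star (dfoD u W pr z lab) * W v * dfoD u W pr z lab =
      ∑ a, (dfoK D pr lab v a * e (D.β v (z a))) • W (v + z a) := by
  rw [dfo_sandwich pr z h hβ lab hχ hpr (W v) (dfo_Wcomm z h v hv)]
  have h1 : ∀ c, (star (u (lab c)) * W v * u (lab c)) * dfoE W pr z c =
      ∑ a, ((Fintype.card C : ℂ)⁻¹ * (e (-(D.χ v (Additive.ofMul (lab c)))) * e (-(pr a c)))
        * e (D.β v (z a))) • W (v + z a) := by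
    intro c
    have h2 : star (u (lab c)) * W v * u (lab c) = e (-(D.χ v (Additive.ofMul (lab c)))) • W v := by
      rw [mul_assoc, h.W_u, mul_smul_comm, ← mul_assoc, (Unitary.mem_iff.1 (h.u_mem (lab c))).1,
        one_mul]
    rw [h2]
    unfold dfoE
    rw [smul_mul_assoc, mul_smul_comm, Finset.mul_sum, Finset.smul_sum, Finset.smul_sum]
    refine Finset.sum_congr rfl (fun a _ => ?_)
    rw [mul_smul_comm, h.mul, smul_smul, smul_smul, smul_smul]
    congr 1
    ring
  simp only [h1]
  rw [Finset.sum_comm]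
  refine Finset.sum_congr rfl (fun a _ => ?_)
  rw [← Finset.sum_smul]
  congr 1
  unfold dfoK
  rw [Finset.mul_sum, Finset.sum_mul]

theorem dfo_K0 (v : V) (h2 : ∑ c, e (D.χ v (Additive.ofMul (lab c))) = 0) :
    dfoK D pr lab v 0 = 0 := by
  unfold dfoK
  have : ∑ c, e (-(D.χ v (Additive.ofMul (lab c)))) * e (-(pr 0 c)) =
      conj (∑ c, e (D.χ v (Additive.ofMul (lab c)))) := by
    rw [map_sum]
    refine Finset.sum_congr rfl (fun c _ => ?_)
    rw [e_neg, map_zero, AddMonoidHom.zero_apply, neg_zero, e_zero, mul_one]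
  rw [this, h2, map_zero, mul_zero]

theorem dfo_Ksum (hpr : ∀ c, (∀ c', pr c' c = 0) → c = 0) (v : V) :
    ∑ a, ‖dfoK D pr lab v a‖ ^ 2 = 1 := by
  classical
  set N : ℂ := (Fintype.card C : ℂ) with hN
  have hN0 : N ≠ 0 := dfo_cardne
  set f : C → TT := fun c => D.χ v (Additive.ofMul (lab c)) with hf
  have h1 : ((∑ a, ‖dfoK D pr lab v a‖ ^ 2 : ℝ) : ℂ) = 1 := by
    push_cast
    have h2 : ∀ a, ((‖dfoK D pr lab v a‖ : ℂ)) ^ 2 =
        N⁻¹ * N⁻¹ * ∑ c, ∑ c', e (f c - f c') * e (pr a (c - c')) := by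
      intro a
      rw [← Complex.conj_mul']
      unfold dfoK
      rw [map_mul, map_sum, ← hN]
      have hNc : conj (N⁻¹) = N⁻¹ := by simp [hN]
      rw [hNc]
      have h3 : ∀ x y : ℂ, N⁻¹ * x * (N⁻¹ * y) = N⁻¹ * N⁻¹ * (x * y) := by intro x y; ring
      rw [h3, Finset.sum_mul_sum]
      congr 1
      refine Finset.sum_congr rfl (fun c _ => Finset.sum_congr rfl (fun c' _ => ?_))
      rw [map_mul, ← e_neg, ← e_neg, ← e_add, ← e_add, ← e_add, ← e_add]
      congr 1
      simp only [hf, map_sub]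
      abel
    simp only [h2]
    rw [← Finset.mul_sum, Finset.sum_comm]
    have h4 : ∀ c, ∑ a, ∑ c', e (f c - f c') * e (pr a (c - c')) = N := by
      intro c
      rw [Finset.sum_comm]
      have h5 : ∀ c', ∑ a, e (f c - f c') * e (pr a (c - c')) = if c = c' then N else 0 := by
        intro c'
        rw [← Finset.mul_sum, dfo_orth1 pr hpr]
        by_cases hcc : c = c'
        · subst hcc
          rw [sub_self, if_pos (sub_self c), if_pos rfl, e_zero, one_mul]
        · rw [if_neg (sub_ne_zero.2 hcc), if_neg hcc, mul_zero]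
      simp only [h5]
      simp
    simp only [h4]
    rw [Finset.sum_const, Finset.card_univ, nsmul_eq_mul, ← hN]
    field_simp
  exact_mod_cast h1

include h hβ hχ in
/-- the estimate for one vector -/
theorem dfo_one (hpr : ∀ c, (∀ c', pr c' c = 0) → c = 0) (v : V)
    (hv : ∀ c, D.co (z c) (1, v) = 0) (h2 : ∑ c, e (D.χ v (Additive.ofMul (lab c))) = 0)
    [DecidableEq C] (x : A) :
    ‖τ (star (star (dfoD u W pr z lab) * W v * dfoD u W pr z lab) * x)‖ ^ 2 ≤
      ∑ a ∈ Finset.univ.erase (0 : C), ‖hat τ u W x (1, v + z a)‖ ^ 2 := by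
  rw [dfo_Y pr z h hβ lab hχ hpr v hv, star_sum, Finset.sum_mul, map_sum]
  have h3 : ∀ a, τ (star ((dfoK D pr lab v a * e (D.β v (z a))) • W (v + z a)) * x) =
      conj (dfoK D pr lab v a * e (D.β v (z a))) * hat τ u W x (1, v + z a) := by
    intro a
    rw [star_smul, smul_mul_assoc, map_smul, smul_eq_mul]
    unfold hat
    simp
  simp only [h3]
  rw [← Finset.add_sum_erase Finset.univ _ (Finset.mem_univ (0 : C)), dfo_K0 pr lab v h2, zero_mul,
    map_zero, zero_mul, zero_add]
  have h4 : ‖∑ a ∈ Finset.univ.erase (0 : C), conj (dfoK D pr lab v a * e (D.β v (z a))) *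
      hat τ u W x (1, v + z a)‖ ≤
      ∑ a ∈ Finset.univ.erase (0 : C), ‖dfoK D pr lab v a‖ * ‖hat τ u W x (1, v + z a)‖ := by
    refine (norm_sum_le _ _).trans (le_of_eq ?_)
    refine Finset.sum_congr rfl (fun a _ => ?_)
    rw [norm_mul, RCLike.norm_conj, norm_mul, norm_e, mul_one]
  have h5 := Finset.sum_mul_sq_le_sq_mul_sq (Finset.univ.erase (0 : C))
    (fun a => ‖dfoK D pr lab v a‖) (fun a => ‖hat τ u W x (1, v + z a)‖)
  have h6 : ∑ a ∈ Finset.univ.erase (0 : C), ‖dfoK D pr lab v a‖ ^ 2 ≤ 1 := by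
    rw [← dfo_Ksum pr lab hpr v]
    exact Finset.sum_le_sum_of_subset_of_nonneg (Finset.erase_subset _ _)
      (fun _ _ _ => by positivity)
  have h7 : 0 ≤ ∑ a ∈ Finset.univ.erase (0 : C), ‖hat τ u W x (1, v + z a)‖ ^ 2 :=
    Finset.sum_nonneg (fun _ _ => by positivity)
  calc _ ≤ (∑ a ∈ Finset.univ.erase (0 : C), ‖dfoK D pr lab v a‖ * ‖hat τ u W x (1, v + z a)‖) ^ 2 :=
        pow_le_pow_left₀ (norm_nonneg _) h4 2
    _ ≤ _ := h5
    _ ≤ 1 * _ := mul_le_mul_of_nonneg_right h6 h7
    _ = _ := one_mul _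

end dfo

/-- the unitary `∑_c E_c u(lab c)` with equidistributed labels sees the vectors of `K` -/
theorem TW.equi (h : TW D τ u W) (C : Type) [AddCommGroup C] [Fintype C] (pr : C →+ C →+ TT)
    (hpr : ∀ c, (∀ c', pr c' c = 0) → c = 0) (hpr' : ∀ c, (∀ c', pr c c' = 0) → c = 0)
    (z : C →+ V) (hz : Function.Injective z) (hβ : ∀ c c', D.β (z c) (z c') = 0)
    (lab : C → G) (hχ : ∀ c c', D.χ (z c) (Additive.ofMul (lab c')) = 0)
    (K : Set V) (h1 : ∀ v ∈ K, ∀ c, D.co (z c) (1, v) = 0)
    (h2 : ∀ v ∈ K, ∑ c, e (D.χ v (Additive.ofMul (lab c))) = 0)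
    (h3 : ∀ v ∈ K, ∀ v' ∈ K, ∀ c c', v + z c = v' + z c' → v = v') :
    ∃ d ∈ unitary A, (∀ t, (∀ c, D.co (z c) (1, t) = 0) →
        (∀ c, D.χ t (Additive.ofMul (lab c)) = 0) → W t * d = d * W t) ∧
      ∀ x, mass τ u W {b | b.1 = 1 ∧ b.2 ∈ K} x ≤
        2 * n2 τ (d * x - x * d) ^ 2 +
          2 * mass τ u W {b | b.1 ≠ 1 ∨ ∃ v ∈ K, ∃ c, c ≠ 0 ∧ b.2 = v + z c} x := by
  classical
  have hd := dfo_unitary pr z h hβ lab hχ hpr hpr'
  refine ⟨dfoD u W pr z lab, hd, ?_, ?_⟩
  · intro t ht1 ht2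
    unfold dfoD
    rw [Finset.mul_sum, Finset.sum_mul]
    refine Finset.sum_congr rfl (fun c _ => ?_)
    have e1 := dfo_comm pr z (W t) (dfo_Wcomm z h t ht1) c
    have e2 : W t * u (lab c) = u (lab c) * W t := by
      rw [h.W_u, ht2, neg_zero, e_zero, one_smul]
    rw [← mul_assoc, ← e1, mul_assoc, e2, mul_assoc]
  · intro x
    set d := dfoD u W pr z lab with hdd
    have hd1 := (Unitary.mem_iff.1 hd).1
    have hd2 := (Unitary.mem_iff.1 hd).2
    set x' : A := x - d * x * star d with hx'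
    -- the 2-norm of x'
    have hn : n2 τ x' = n2 τ (d * x - x * d) := by
      have e1 : x' = -((d * x - x * d) * star d) := by
        rw [hx', sub_mul, mul_assoc x d (star d), hd2, mul_one]; noncomm_ring
      rw [e1, h.tr.n2_neg]
      unfold n2
      congr 2
      rw [star_mul, star_star]
      have e2 : d * star (d * x - x * d) * ((d * x - x * d) * star d) =
          d * (star (d * x - x * d) * (d * x - x * d) * star d) := by noncomm_ring
      rw [e2, h.tr.comm, mul_assoc _ (star d) d, hd1, mul_one]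
    -- pointwise
    have hpt : ∀ v ∈ K, ‖hat τ u W x (1, v)‖ ^ 2 ≤ 2 * ‖hat τ u W x' (1, v)‖ ^ 2 +
        2 * ∑ a ∈ Finset.univ.erase (0 : C), ‖hat τ u W x (1, v + z a)‖ ^ 2 := by
      intro v hv
      have e1 := dfo_one pr z h hβ lab hχ hpr v (h1 v hv) (h2 v hv) x
      have e2 : hat τ u W x (1, v) = hat τ u W x' (1, v) +
          τ (star (star (dfoD u W pr z lab) * W v * dfoD u W pr z lab) * x) := by
        have e3 : hat τ u W x (1, v) = hat τ u W x' (1, v) + hat τ u W (d * x * star d) (1, v) := by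
          rw [hx', TW.hat_sub]; ring
        rw [e3]
        congr 1
        unfold hat
        rw [← hdd]
        simp only [map_one, one_mul, star_mul, star_star]
        have e4 : star (W v) * (d * x * star d) = (star (W v) * d * x) * star d := by noncomm_ring
        rw [e4, h.tr.comm]
        congr 1
        noncomm_ring
      have e5 : ‖hat τ u W x (1, v)‖ ≤ ‖hat τ u W x' (1, v)‖ +
          ‖τ (star (star (dfoD u W pr z lab) * W v * dfoD u W pr z lab) * x)‖ := by
        rw [e2]; exact norm_add_le _ _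
      have e6 := norm_nonneg (hat τ u W x (1, v))
      have e7 := norm_nonneg (hat τ u W x' (1, v))
      have e8 := norm_nonneg (τ (star (star (dfoD u W pr z lab) * W v * dfoD u W pr z lab) * x))
      nlinarith [sq_nonneg (‖hat τ u W x' (1, v)‖ -
        ‖τ (star (star (dfoD u W pr z lab) * W v * dfoD u W pr z lab) * x)‖)]
    set S2 : Set (G × V) := {b | b.1 ≠ 1 ∨ ∃ v ∈ K, ∃ c, c ≠ 0 ∧ b.2 = v + z c} with hS2
    unfold mass
    refine Real.tsum_le_of_sum_le ?_ ?_
    · intro b
      exact Set.indicator_nonneg (fun _ _ => by positivity) b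
    · intro B
      set B' := B.filter (fun b => b.1 = 1 ∧ b.2 ∈ K) with hB'
      have e1 : ∑ b ∈ B, ({b : G × V | b.1 = 1 ∧ b.2 ∈ K} : Set (G × V)).indicator
          (fun b => ‖hat τ u W x b‖ ^ 2) b = ∑ b ∈ B', ‖hat τ u W x b‖ ^ 2 := by
        rw [hB', Finset.sum_filter]
        refine Finset.sum_congr rfl (fun b _ => ?_)
        simp only [Set.indicator_apply, Set.mem_ofPred_eq]
      rw [e1]
      have hB'mem : ∀ b ∈ B', b.1 = 1 ∧ b.2 ∈ K := fun b hb => (Finset.mem_filter.1 hb).2
      have e2 : ∑ b ∈ B', ‖hat τ u W x b‖ ^ 2 ≤ 2 * ∑ b ∈ B', ‖hat τ u W x' b‖ ^ 2 +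
          2 * ∑ b ∈ B', ∑ a ∈ Finset.univ.erase (0 : C), ‖hat τ u W x (1, b.2 + z a)‖ ^ 2 := by
        rw [Finset.mul_sum, Finset.mul_sum, ← Finset.sum_add_distrib]
        refine Finset.sum_le_sum (fun b hb => ?_)
        obtain ⟨hb1, hb2⟩ := hB'mem b hb
        have := hpt b.2 hb2
        have hbb : b = (1, b.2) := Prod.ext hb1 rfl
        rw [← hbb] at this
        exact this
      have e3 : ∑ b ∈ B', ‖hat τ u W x' b‖ ^ 2 ≤ n2 τ x' ^ 2 := by
        have hs := h.parseval x'
        have := hs.summable.sum_le_tsum B' (fun _ _ => by positivity)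
        rw [hs.tsum_eq] at this
        exact this
      have e4 : ∑ b ∈ B', ∑ a ∈ Finset.univ.erase (0 : C), ‖hat τ u W x (1, b.2 + z a)‖ ^ 2 ≤
          ∑' b, S2.indicator (fun b => ‖hat τ u W x b‖ ^ 2) b := by
        rw [← Finset.sum_product']
        have hinj : Set.InjOn (fun q : (G × V) × C => ((1 : G), q.1.2 + z q.2))
            ((B' ×ˢ Finset.univ.erase (0 : C) : Finset ((G × V) × C)) : Set ((G × V) × C)) := by
          rintro ⟨⟨g, v⟩, c⟩ hq ⟨⟨g', v'⟩, c'⟩ hq' heq
          simp only [Finset.coe_product, Set.mem_prod, Finset.mem_coe] at hq hq'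
          simp only [Prod.mk.injEq, true_and] at heq
          obtain ⟨a1, a2⟩ := hB'mem _ hq.1
          obtain ⟨a3, a4⟩ := hB'mem _ hq'.1
          simp only at a1 a2 a3 a4
          have hv := h3 v a2 v' a4 c c' heq
          subst hv
          have hc := hz (add_left_cancel heq)
          subst hc
          rw [a1, a3]
        have e5 : ∑ q ∈ B' ×ˢ Finset.univ.erase (0 : C), ‖hat τ u W x (1, q.1.2 + z q.2)‖ ^ 2 =
            ∑ b ∈ (B' ×ˢ Finset.univ.erase (0 : C)).image
              (fun q : (G × V) × C => ((1 : G), q.1.2 + z q.2)),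
              S2.indicator (fun b => ‖hat τ u W x b‖ ^ 2) b := by
          rw [Finset.sum_image hinj]
          refine Finset.sum_congr rfl (fun q hq => ?_)
          rw [Set.indicator_of_mem]
          rw [Finset.mem_product] at hq
          right
          exact ⟨q.1.2, (hB'mem _ hq.1).2, q.2, Finset.ne_of_mem_erase hq.2, rfl⟩
        rw [e5]
        exact (h.summable_ind S2 x).sum_le_tsum _
          (fun b _ => Set.indicator_nonneg (fun _ _ => by positivity) b)
      rw [← hn]
      linarith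

end Pool.Agent.H146R2.SD
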