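import Mathlib
import Pool.Agent.H146R2.SD.BAS

set_option autoImplicit false
set_option linter.unusedSectionVars false

open scoped ComplexConjugate Topology
open Filter

namespace Pool.Agent.H146R2.SD

open Pool.Agent.Helper278 Pool.Agent.Helper436.SM

variable {A : Type} [Ring A] [StarRing A] [Algebra ℂ A] [StarModule ℂ A] {τ : A →ₗ[ℂ] ℂ}
variable {V G : Type} [AddCommGroup V] [Group G] {D : Dat V G} {u : G →* A} {W : V → A}

theorem dth_star3 (d B : A) : star (star d * B * d) = star d * star B * d := by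
  rw [star_mul, star_mul, star_star, mul_assoc]

open scoped Classical in
/-- Bessel's inequality for finite orthonormal families supported on `S` -/
theorem dth_bessel (h : TW D τ u W) (S : Set (G × V)) {ι : Type} (K : Finset ι) (y : ι → A)
    (hy : ∀ i ∈ K, ∀ j ∈ K, τ (star (y i) * y j) = if i = j then 1 else 0)
    (hS : ∀ i ∈ K, ∀ b, b ∉ S → hat τ u W (y i) b = 0) (x : A) :
    ∑ i ∈ K, ‖τ (star (y i) * x)‖ ^ 2 ≤ mass τ u W S x := by
  set s : ℝ := ∑ i ∈ K, ‖τ (star (y i) * x)‖ ^ 2 with hs
  set w : A := ∑ i ∈ K, τ (star (y i) * x) • y i with hw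
  have hstar : ∀ c : ℂ, star c * c = ((‖c‖ ^ 2 : ℝ) : ℂ) := fun c => by
    rw [← starRingEnd_apply, Complex.conj_mul']
    push_cast
    rfl
  have h1 : τ (star w * x) = (s : ℂ) := by
    rw [hw, star_sum, Finset.sum_mul, map_sum, hs, Complex.ofReal_sum]
    refine Finset.sum_congr rfl fun i _ => ?_
    rw [star_smul, smul_mul_assoc, map_smul, smul_eq_mul, hstar]
  have h2' : ∀ j ∈ K, τ (star w * y j) = star (τ (star (y j) * x)) := by
    intro j hj
    rw [hw, star_sum, Finset.sum_mul, map_sum, Finset.sum_eq_single j]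
    · rw [star_smul, smul_mul_assoc, map_smul, smul_eq_mul, hy j hj j hj, if_pos rfl, mul_one]
    · intro i hi hij
      rw [star_smul, smul_mul_assoc, map_smul, smul_eq_mul, hy i hi j hj, if_neg hij, mul_zero]
    · exact fun hn => absurd hj hn
  have h2 : τ (star w * w) = (s : ℂ) := by
    have e1 : star w * w = ∑ j ∈ K, τ (star (y j) * x) • (star w * y j) := by
      conv_lhs => rw [hw, Finset.mul_sum]
      refine Finset.sum_congr rfl fun j _ => ?_
      rw [mul_smul_comm]
    rw [e1, map_sum, hs, Complex.ofReal_sum]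
    refine Finset.sum_congr rfl fun j hj => ?_
    rw [map_smul, h2' j hj, smul_eq_mul, mul_comm, hstar]
  have h3 : n2 τ w ^ 2 = s := by rw [h.tr.n2_sq, h2, Complex.ofReal_re]
  have h4 : ∀ b, b ∉ S → hat τ u W w b = 0 := by
    intro b hb
    rw [hw, TW.hat_sum]
    refine Finset.sum_eq_zero fun i hi => ?_
    rw [TW.hat_smul, hS i hi b hb, mul_zero]
  have h5 := h.hasSum_inner w x
  have h6 : HasSum (fun b => (1 / 2 : ℝ) * ‖hat τ u W w b‖ ^ 2 +
      (1 / 2 : ℝ) * S.indicator (fun b => ‖hat τ u W x b‖ ^ 2) b)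
      ((1 / 2 : ℝ) * n2 τ w ^ 2 + (1 / 2 : ℝ) * mass τ u W S x) := by
    apply HasSum.add
    · exact (h.parseval w).mul_left _
    · exact (h.summable_ind S x).hasSum.mul_left _
  have h7 := h5.norm_le_of_bounded h6 (fun b => by
    rw [norm_mul, RCLike.norm_conj]
    by_cases hb : b ∈ S
    · rw [Set.indicator_of_mem hb]
      nlinarith [sq_nonneg (‖hat τ u W w b‖ - ‖hat τ u W x b‖)]
    · rw [Set.indicator_of_notMem hb, h4 b hb, norm_zero]
      simp)
  rw [h1, h3, Complex.norm_real] at h7
  have hs0 : 0 ≤ s := Finset.sum_nonneg fun _ _ => by positivity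
  rw [Real.norm_of_nonneg hs0] at h7
  linarith

section dth

variable {C : Type} [AddCommGroup C] [Fintype C]

/-- spectral projections of the group `W (z c)` -/
noncomputable def dthE (W : V → A) (pr : C →+ C →+ TT) (z : C →+ V) (c : C) : A :=
  ((Fintype.card C : ℂ))⁻¹ • ∑ a : C, e (-(pr a c)) • W (z a)

theorem dth_WW (h : TW D τ u W) (z : C →+ V) (hβ : ∀ c c', D.β (z c) (z c') = 0) (a b : C) :
    W (z a) * W (z b) = W (z (a + b)) := by
  rw [h.mul, hβ, e_zero, one_smul, map_add]

theorem dth_WE (h : TW D τ u W) (pr : C →+ C →+ TT) (z : C →+ V)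
    (hβ : ∀ c c', D.β (z c) (z c') = 0) (a c : C) :
    W (z a) * dthE W pr z c = e (pr a c) • dthE W pr z c := by
  have h1 : W (z a) * ∑ b : C, e (-(pr b c)) • W (z b) =
      e (pr a c) • ∑ b : C, e (-(pr b c)) • W (z b) := by
    rw [Finset.mul_sum, Finset.smul_sum]
    refine Fintype.sum_equiv (Equiv.addLeft a) (fun b => W (z a) * e (-(pr b c)) • W (z b))
      (fun b => e (pr a c) • e (-(pr b c)) • W (z b)) fun b => ?_
    simp only [Equiv.coe_addLeft]
    rw [mul_smul_comm, dth_WW h z hβ, smul_smul, ← e_add]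
    have e1 : -(pr b c) = pr a c + -(pr (a + b) c) := by
      rw [map_add pr, AddMonoidHom.add_apply]
      abel
    rw [e1]
  unfold dthE
  rw [mul_smul_comm, h1, smul_comm]

theorem dth_EW (pr : C →+ C →+ TT) (z : C →+ V)
    (c : C) (y : A) (f : C →+ TT) (hf : ∀ a, W (z a) * y = e (f a) • y) :
    dthE W pr z c * y = ((Fintype.card C : ℂ)⁻¹ * ∑ a, e (f a - pr a c)) • y := by
  unfold dthE
  rw [smul_mul_assoc, Finset.sum_mul, mul_smul, Finset.sum_smul]
  congr 1
  refine Finset.sum_congr rfl fun a _ => ?_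
  rw [smul_mul_assoc, hf, smul_smul, ← e_add]
  congr 2
  abel

open scoped Classical in
theorem dth_EE (h : TW D τ u W) (pr : C →+ C →+ TT)
    (hpr : ∀ c, (∀ c', pr c' c = 0) → c = 0) (z : C →+ V)
    (hβ : ∀ c c', D.β (z c) (z c') = 0) (c c' : C) :
    dthE W pr z c * dthE W pr z c' = if c = c' then dthE W pr z c' else 0 := by
  rw [dth_EW pr z c (dthE W pr z c') (pr.flip c') (fun a => dth_WE h pr z hβ a c')]
  have hn : (Fintype.card C : ℂ) ≠ 0 := Nat.cast_ne_zero.2 Fintype.card_ne_zero
  split_ifs with hc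
  · subst hc
    have : ∀ a : C, e (pr.flip c a - pr a c) = 1 := fun a => by
      rw [AddMonoidHom.flip_apply, sub_self, e_zero]
    rw [Finset.sum_congr rfl fun a _ => this a, Finset.sum_const, Finset.card_univ, nsmul_eq_mul,
      mul_one, inv_mul_cancel₀ hn, one_smul]
  · have hf : pr.flip (c' - c) ≠ 0 := by
      intro h0
      apply hc
      have := hpr (c' - c) (fun a => by
        rw [← AddMonoidHom.flip_apply, h0, AddMonoidHom.zero_apply])
      exact (sub_eq_zero.mp this).symm
    have h2 := sum_e (pr.flip (c' - c)) hf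
    have h3 : ∑ a, e (pr.flip c' a - pr a c) = 0 := by
      rw [← h2]
      refine Finset.sum_congr rfl fun a _ => ?_
      rw [map_sub, AddMonoidHom.sub_apply, AddMonoidHom.flip_apply, AddMonoidHom.flip_apply]
    rw [h3, mul_zero, zero_smul]

theorem dth_sumE (h : TW D τ u W) (pr : C →+ C →+ TT)
    (hpr' : ∀ c, (∀ c', pr c c' = 0) → c = 0) (z : C →+ V) :
    ∑ c, dthE W pr z c = 1 := by
  have hn : (Fintype.card C : ℂ) ≠ 0 := Nat.cast_ne_zero.2 Fintype.card_ne_zero
  unfold dthE
  rw [← Finset.smul_sum, Finset.sum_comm]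
  have h1 : ∀ a : C, a ≠ 0 → ∑ c, e (-(pr a c)) • W (z a) = 0 := by
    intro a ha
    have hf : -(pr a) ≠ 0 := by
      intro h0
      apply ha
      apply hpr'
      intro c'
      have : (-(pr a)) c' = 0 := by rw [h0, AddMonoidHom.zero_apply]
      rwa [AddMonoidHom.neg_apply, neg_eq_zero] at this
    have h2 := sum_e (-(pr a)) hf
    rw [← Finset.sum_smul]
    have h3 : ∑ c, e (-(pr a c)) = 0 := by
      rw [← h2]
      rfl
    rw [h3, zero_smul]
  rw [Fintype.sum_eq_single 0 (fun a ha => h1 a ha)]
  simp only [map_zero, AddMonoidHom.zero_apply, neg_zero, e_zero, one_smul, h.zero,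
    Finset.sum_const, Finset.card_univ]
  rw [← Nat.cast_smul_eq_nsmul ℂ, smul_smul, inv_mul_cancel₀ hn, one_smul]

theorem dth_starE (h : TW D τ u W) (pr : C →+ C →+ TT) (z : C →+ V)
    (hβ : ∀ c c', D.β (z c) (z c') = 0) (c : C) :
    star (dthE W pr z c) = dthE W pr z c := by
  unfold dthE
  rw [star_smul, star_sum, star_inv₀, star_natCast]
  congr 1
  refine Fintype.sum_equiv (Equiv.neg C) _ _ fun a => ?_
  rw [star_smul, h.star_W, hβ, e_zero, one_smul, Equiv.neg_apply, map_neg z, map_neg pr,
    AddMonoidHom.neg_apply, neg_neg]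
  congr 1
  rw [← starRingEnd_apply, ← e_neg, neg_neg]

theorem dth_uE (h : TW D τ u W) (pr : C →+ C →+ TT) (z : C →+ V) (g : G)
    (hg : ∀ a, D.χ (z a) (Additive.ofMul g) = 0) (c : C) :
    u g * dthE W pr z c = dthE W pr z c * u g := by
  unfold dthE
  rw [mul_smul_comm, smul_mul_assoc, Finset.mul_sum, Finset.sum_mul]
  congr 1
  refine Finset.sum_congr rfl fun a _ => ?_
  rw [mul_smul_comm, smul_mul_assoc, h.comm, hg, e_zero, one_smul]

theorem dth_WWt (h : TW D τ u W) (s t : V) : W s * W t = e (D.co s (1, t)) • (W t * W s) := by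
  have := h.W_basis s (1, t)
  simpa using this

theorem dth_WtE (h : TW D τ u W) (pr : C →+ C →+ TT) (z : C →+ V) (t : V)
    (ht : ∀ a, D.co (z a) (1, t) = 0) (c : C) :
    W t * dthE W pr z c = dthE W pr z c * W t := by
  unfold dthE
  rw [mul_smul_comm, smul_mul_assoc, Finset.mul_sum, Finset.sum_mul]
  congr 1
  refine Finset.sum_congr rfl fun a _ => ?_
  rw [mul_smul_comm, smul_mul_assoc, dth_WWt h (z a) t, ht, e_zero, one_smul]

/-- `E c * W v * E c = 0` if `v` does not commute with `z C` -/
theorem dth_EWE (h : TW D τ u W) (pr : C →+ C →+ TT) (z : C →+ V)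
    (hβ : ∀ c c', D.β (z c) (z c') = 0) (v : V) (hv : ∃ a, D.co (z a) (1, v) ≠ 0) (c : C) :
    dthE W pr z c * (W v * dthE W pr z c) = 0 := by
  have hf : ∀ a, W (z a) * (W v * dthE W pr z c) =
      e (((coHom D (1, v)).comp z + pr.flip c) a) • (W v * dthE W pr z c) := by
    intro a
    rw [← mul_assoc, dth_WWt h (z a) v, smul_mul_assoc, mul_assoc, dth_WE h pr z hβ,
      mul_smul_comm, smul_smul, ← e_add]
    rfl
  rw [dth_EW pr z c _ _ hf]
  have h1 : ∑ a, e (((coHom D (1, v)).comp z + pr.flip c) a - pr a c) = 0 := by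
    have hne : (coHom D ((1 : G), v)).comp z ≠ 0 := by
      intro h0
      obtain ⟨a, ha⟩ := hv
      apply ha
      have : ((coHom D ((1 : G), v)).comp z) a = 0 := by rw [h0, AddMonoidHom.zero_apply]
      exact this
    rw [← sum_e _ hne]
    refine Finset.sum_congr rfl fun a _ => ?_
    rw [AddMonoidHom.add_apply, AddMonoidHom.flip_apply, add_sub_cancel_right]
  rw [h1, mul_zero, zero_smul]

end dth

/-- the span of the `W v` is closed under products -/
theorem dth_span_mul (h : TW D τ u W) {x y : A} (hx : x ∈ Submodule.span ℂ (Set.range W))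
    (hy : y ∈ Submodule.span ℂ (Set.range W)) : x * y ∈ Submodule.span ℂ (Set.range W) := by
  induction hx using Submodule.span_induction with
  | mem x hx =>
    obtain ⟨v, rfl⟩ := hx
    induction hy using Submodule.span_induction with
    | mem y hy =>
      obtain ⟨w, rfl⟩ := hy
      rw [h.mul]
      exact Submodule.smul_mem _ _ (Submodule.subset_span ⟨_, rfl⟩)
    | zero => rw [mul_zero]; exact zero_mem _
    | add a b _ _ ha hb => rw [mul_add]; exact add_mem ha hb
    | smul c a _ ha => rw [mul_smul_comm]; exact Submodule.smul_mem _ _ ha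
  | zero => rw [zero_mul]; exact zero_mem _
  | add a b _ _ ha hb => rw [add_mul]; exact add_mem ha hb
  | smul c a _ ha => rw [smul_mul_assoc]; exact Submodule.smul_mem _ _ ha

theorem dth_span_hat (h : TW D τ u W) {x : A} (hx : x ∈ Submodule.span ℂ (Set.range W))
    (g g' : G) (hg : g ≠ g') (b : G × V) (hb : b.1 = 1) :
    hat τ u W (star (u g) * x * u g') b = 0 := by
  induction hx using Submodule.span_induction with
  | mem x hx =>
    obtain ⟨v, rfl⟩ := hx
    rw [h.star_u, mul_assoc, h.W_u, mul_smul_comm, ← mul_assoc, ← map_mul, TW.hat_smul]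
    have := h.hat_basis b (g⁻¹ * g', v)
    simp only at this
    rw [this, if_neg, mul_zero]
    intro e1
    apply hg
    have e2 : (1 : G) = g⁻¹ * g' := by rw [← hb, e1]
    exact (inv_mul_eq_one.mp e2.symm)
  | zero => rw [mul_zero, zero_mul]; simp [hat]
  | add a b' _ _ ha hb' => rw [mul_add, add_mul, TW.hat_add, ha, hb', add_zero]
  | smul c a _ ha => rw [mul_smul_comm, smul_mul_assoc, TW.hat_smul, ha, mul_zero]

/-- `C` is a finite group with a perfect pairing `pr`, `z : C → V` is isotropic and commutes with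
the group, and the labels are distinct: the unitary `∑_c E_c u(lab c)`, where the `E_c` are the
spectral projections of the group `W (z c)`, sees all vectors that do not commute with `z C`. -/
theorem TW.label (h : TW D τ u W) (C : Type) [AddCommGroup C] [Fintype C] (pr : C →+ C →+ TT)
    (hpr : ∀ c, (∀ c', pr c' c = 0) → c = 0) (hpr' : ∀ c, (∀ c', pr c c' = 0) → c = 0)
    (z : C →+ V) (hz : Function.Injective z) (hβ : ∀ c c', D.β (z c) (z c') = 0)
    (lab : C → G) (hlab : Function.Injective lab)
    (hχ : ∀ c c', D.χ (z c) (Additive.ofMul (lab c')) = 0) :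
    ∃ d ∈ unitary A, (∀ t, (∀ c, D.co (z c) (1, t) = 0) →
        (∀ c, D.χ t (Additive.ofMul (lab c)) = 0) → W t * d = d * W t) ∧
      ∀ x, mass τ u W {b | b.1 = 1 ∧ ∃ c, D.co (z c) b ≠ 0} x ≤
        2 * n2 τ (d * x - x * d) ^ 2 + 2 * mass τ u W {b | b.1 ≠ 1} x := by
  classical
  set E : C → A := dthE W pr z with hE
  set d : A := ∑ c, E c * u (lab c) with hd
  have hEE : ∀ c c', E c * E c' = if c = c' then E c' else 0 := dth_EE h pr hpr z hβ
  have hES : ∀ c, star (E c) = E c := dth_starE h pr z hβ
  have hE1 : ∑ c, E c = 1 := dth_sumE h pr hpr' z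
  have hu : ∀ c c', u (lab c) * E c' = E c' * u (lab c) :=
    fun c c' => dth_uE h pr z (lab c) (fun a => hχ a c) c'
  have huu : ∀ g, star (u g) * u g = 1 := fun g => (Unitary.mem_iff.1 (h.u_mem g)).1
  have huu' : ∀ g, u g * star (u g) = 1 := fun g => (Unitary.mem_iff.1 (h.u_mem g)).2
  have hsd : star d = ∑ c, star (u (lab c)) * E c := by
    rw [hd, star_sum]
    exact Finset.sum_congr rfl fun c _ => by rw [star_mul, hES]
  have hdd : star d * d = 1 := by
    rw [hsd, hd, Finset.sum_mul, ← hE1]
    refine Finset.sum_congr rfl fun c _ => ?_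
    rw [Finset.mul_sum, Finset.sum_eq_single c]
    · rw [show star (u (lab c)) * E c * (E c * u (lab c)) =
        star (u (lab c)) * (E c * E c) * u (lab c) by noncomm_ring, hEE, if_pos rfl, mul_assoc,
        ← hu, ← mul_assoc, huu, one_mul]
    · intro c' _ hc
      rw [show star (u (lab c)) * E c * (E c' * u (lab c')) =
        star (u (lab c)) * (E c * E c') * u (lab c') by noncomm_ring, hEE, if_neg (Ne.symm hc),
        mul_zero, zero_mul]
    · exact fun hn => absurd (Finset.mem_univ c) hn
  have hdd' : d * star d = 1 := by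
    rw [hsd, hd, Finset.sum_mul, ← hE1]
    refine Finset.sum_congr rfl fun c _ => ?_
    rw [Finset.mul_sum]
    -- `E c u_c star(u_c') E c' ` : move `E c` and `E c'` together
    have hstaru : ∀ c c', star (u (lab c)) * E c' = E c' * star (u (lab c)) := by
      intro c c'
      have := congrArg star (hu c c')
      rw [star_mul, star_mul, hES] at this
      exact this.symm
    rw [Finset.sum_eq_single c]
    · rw [hstaru, show E c * u (lab c) * (E c * star (u (lab c))) =
        E c * (u (lab c) * E c) * star (u (lab c)) by noncomm_ring, hu, ← mul_assoc, hEE,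
        if_pos rfl, mul_assoc, huu', mul_one]
    · intro c' _ hc
      rw [hstaru, show E c * u (lab c) * (E c' * star (u (lab c'))) =
        E c * (u (lab c) * E c') * star (u (lab c')) by noncomm_ring, hu, ← mul_assoc, hEE,
        if_neg (Ne.symm hc), zero_mul, zero_mul]
    · exact fun hn => absurd (Finset.mem_univ c) hn
  refine ⟨d, Unitary.mem_iff.2 ⟨hdd, hdd'⟩, ?_, ?_⟩
  · intro t ht htχ
    rw [hd, Finset.mul_sum, Finset.sum_mul]
    refine Finset.sum_congr rfl fun c _ => ?_
    have h1 : W t * E c = E c * W t := dth_WtE h pr z t ht c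
    have h2 : W t * u (lab c) = u (lab c) * W t := by
      rw [h.comm, htχ, e_zero, one_smul]
    rw [← mul_assoc, h1, mul_assoc, h2, mul_assoc]
  · intro x
    -- the elements `star d * W v * d`
    have hEspan : ∀ c, E c ∈ Submodule.span ℂ (Set.range W) := by
      intro c
      rw [hE]
      unfold dthE
      exact Submodule.smul_mem _ _ (Submodule.sum_mem _ fun a _ =>
        Submodule.smul_mem _ _ (Submodule.subset_span ⟨_, rfl⟩))
    have hy : ∀ v : V, (∃ a, D.co (z a) (1, v) ≠ 0) → ∀ b : G × V, b.1 = 1 →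
        hat τ u W (star d * W v * d) b = 0 := by
      intro v hv b hb
      have e1 : star d * W v * d = ∑ c, ∑ c', star (u (lab c)) * (E c * W v * E c') * u (lab c') := by
        rw [hsd, hd, Finset.sum_mul, Finset.sum_mul]
        refine Finset.sum_congr rfl fun c _ => ?_
        rw [Finset.mul_sum]
        refine Finset.sum_congr rfl fun c' _ => ?_
        noncomm_ring
      rw [e1, TW.hat_sum]
      refine Finset.sum_eq_zero fun c _ => ?_
      rw [TW.hat_sum]
      refine Finset.sum_eq_zero fun c' _ => ?_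
      by_cases hc : c = c'
      · subst hc
        rw [mul_assoc (E c), dth_EWE h pr z hβ v hv c, mul_zero, zero_mul]
        simp [hat]
      · exact dth_span_hat h (dth_span_mul h (dth_span_mul h (hEspan c)
          (Submodule.subset_span ⟨v, rfl⟩)) (hEspan c')) _ _ (fun e2 => hc (hlab e2)) b hb
    set x' : A := x - d * x * star d with hx'
    have hn : n2 τ x' ^ 2 = n2 τ (d * x - x * d) ^ 2 := by
      have e1 : x' * d = -(d * x - x * d) := by
        rw [hx', sub_mul, mul_assoc (d * x), hdd, mul_one]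
        abel
      rw [← h.tr.n2_neg (d * x - x * d), ← e1, h.tr.n2_sq, h.tr.n2_sq, star_mul,
        show star d * star x' * (x' * d) = star d * (star x' * x' * d) by noncomm_ring,
        h.tr.comm (star d), mul_assoc, hdd', mul_one]
    have hmain : ∀ b : G × V, ‖hat τ u W x b‖ ^ 2 ≤ 2 * ‖hat τ u W x' b‖ ^ 2 +
        2 * ‖τ (star (star d * (u b.1 * W b.2) * d) * x)‖ ^ 2 := by
      intro b
      have e1 : hat τ u W x b = hat τ u W x' b +
          τ (star (star d * (u b.1 * W b.2) * d) * x) := by
        have e2 : x = x' + d * x * star d := by rw [hx']; abel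
        conv_lhs => rw [e2]
        rw [TW.hat_add]
        congr 1
        unfold hat
        rw [show star (u b.1 * W b.2) * (d * x * star d) =
          (star (u b.1 * W b.2) * d * x) * star d by noncomm_ring, h.tr.comm, dth_star3]
        congr 1
        noncomm_ring
      rw [e1]
      have := norm_add_le (hat τ u W x' b) (τ (star (star d * (u b.1 * W b.2) * d) * x))
      have h0 := norm_nonneg (hat τ u W x' b + τ (star (star d * (u b.1 * W b.2) * d) * x))
      nlinarith [sq_nonneg (‖hat τ u W x' b‖ - ‖τ (star (star d * (u b.1 * W b.2) * d) * x)‖),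
        mul_self_le_mul_self h0 this]
    set S1 : Set (G × V) := {b | b.1 = 1 ∧ ∃ c, D.co (z c) b ≠ 0} with hS1
    have hm1 : mass τ u W S1 x = ∑' b, S1.indicator (fun b => ‖hat τ u W x b‖ ^ 2) b := rfl
    rw [hm1]
    refine (h.summable_ind _ x).tsum_le_of_sum_le fun s => ?_
    rw [Finset.sum_indicator_eq_sum_filter]
    refine (Finset.sum_le_sum fun b _ => hmain b).trans ?_
    rw [Finset.sum_add_distrib, ← Finset.mul_sum, ← Finset.mul_sum]
    refine add_le_add ?_ ?_
    · refine mul_le_mul_of_nonneg_left ?_ (by norm_num)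
      rw [← hn]
      exact sum_le_hasSum _ (fun b _ => sq_nonneg _) (h.parseval x')
    · refine mul_le_mul_of_nonneg_left ?_ (by norm_num)
      apply dth_bessel h {b : G × V | b.1 ≠ 1} (s.filter fun b => b ∈ S1)
        (fun b => star d * (u b.1 * W b.2) * d)
      · intro b _ b' _
        have h1 := h.hat_basis b b'
        unfold hat at h1
        rw [dth_star3]
        generalize u b.1 * W b.2 = B at *
        generalize u b'.1 * W b'.2 = B' at *
        have h2 : star d * star B * d * (star d * B' * d) = star d * (star B * (d * star d) * B' * d) := by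
          noncomm_ring
        rw [h2, hdd', mul_one, h.tr.comm, mul_assoc, hdd', mul_one, h1]
        congr
      · intro b hb b' hb'
        have hb1 : b.1 = 1 ∧ ∃ c, D.co (z c) b ≠ 0 := (Finset.mem_filter.mp hb).2
        have hb2 : b'.1 = 1 := by simpa using hb'
        have e1 : u b.1 * W b.2 = W b.2 := by rw [hb1.1, map_one, one_mul]
        show hat τ u W (star d * (u b.1 * W b.2) * d) b' = 0
        rw [e1]
        apply hy _ _ _ hb2
        obtain ⟨c, hc⟩ := hb1.2
        refine ⟨c, ?_⟩
        rwa [← hb1.1]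

end Pool.Agent.H146R2.SD
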