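import Mathlib
import Pool.Agent.H146R2.SD.BAS
import Pool.Agent.Helper436.SM.ExR

set_option autoImplicit false
set_option linter.unusedSectionVars false

open scoped ComplexConjugate Topology
open Filter

namespace Pool.Agent.H146R2.SD

open Pool.Agent.Helper278 Pool.Agent.Helper436.SM
open scoped InnerProductSpace ComplexOrder

/-- A Weyl system of unitaries for the cocycle `β`, an orthonormal basis. -/
structure Weyl {V : Type} [AddCommGroup V] (β : V →+ V →+ TT) {A : Type} [Ring A] [StarRing A]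
    [Algebra ℂ A] (τ : A →ₗ[ℂ] ℂ) (W : V → A) : Prop where
  zero : W 0 = 1
  mul : ∀ v w, W v * W w = e (β v w) • W (v + w)
  unit_left : ∀ v, star (W v) * W v = 1
  unit_right : ∀ v, W v * star (W v) = 1
  trace : ∀ v, v ≠ 0 → τ (W v) = 0
  parseval : ∀ x : A, HasSum (fun v => ‖τ (star (W v) * x)‖ ^ 2) (n2 τ x ^ 2)

section EXW

variable {V : Type} [AddCommGroup V]

theorem exw_conj_e (x : TT) : conj (e x) = e (-x) := (e_neg x).symm

/-- twisted translation operators -/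
noncomputable def exw_sop (s : V → ℂ) (hs : ∀ h, ‖s h‖ = 1) (v : V) :
    EllTwo V →L[ℂ] EllTwo V :=
  LinearIsometry.toContinuousLinearMap
    { toFun := fun f => ⟨fun h => s h * f (h - v), by
        have h1 := (lp.memℓp f).summable (by norm_num)
        refine memℓp_gen ?_
        have h2 := ((Equiv.subRight v).summable_iff
          (f := fun h => ‖f h‖ ^ (2 : ENNReal).toReal)).2 h1
        refine h2.congr fun h => ?_
        rw [norm_mul, hs, one_mul]
        rfl⟩
      map_add' := fun f g => by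
        ext h
        show s h * (f + g) (h - v) = s h * f (h - v) + s h * g (h - v)
        rw [lp.coeFn_add, Pi.add_apply, mul_add]
      map_smul' := fun c f => by
        ext h
        show s h * (c • f) (h - v) = c * (s h * f (h - v))
        rw [lp.coeFn_smul, Pi.smul_apply, smul_eq_mul]
        ring
      norm_map' := fun f => by
        have h1 : (0 : ℝ) < (2 : ENNReal).toReal := by norm_num
        rw [lp.norm_eq_tsum_rpow h1, lp.norm_eq_tsum_rpow h1]
        congr 1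
        rw [← (Equiv.subRight v).tsum_eq (fun h => ‖f h‖ ^ (2 : ENNReal).toReal)]
        refine tsum_congr fun h => ?_
        show ‖s h * f (h - v)‖ ^ _ = ‖f (h - v)‖ ^ _
        rw [norm_mul, hs, one_mul] }

variable (β : V →+ V →+ TT)

/-- the left operators -/
noncomputable def exw_Wo (v : V) : EllTwo V →L[ℂ] EllTwo V :=
  exw_sop (fun h => e (β v (h - v))) (fun _ => norm_e _) v

/-- the right operators -/
noncomputable def exw_Ro (v : V) : EllTwo V →L[ℂ] EllTwo V :=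
  exw_sop (fun h => e (β (h - v) v)) (fun _ => norm_e _) v

theorem exw_Wo_apply (v : V) (f : EllTwo V) (h : V) :
    (exw_Wo β v f) h = e (β v (h - v)) * f (h - v) := rfl

theorem exw_Ro_apply (v : V) (f : EllTwo V) (h : V) :
    (exw_Ro β v f) h = e (β (h - v) v) * f (h - v) := rfl

theorem exw_Wo_zero : exw_Wo β 0 = 1 := by
  ext f h
  rw [exw_Wo_apply, map_zero, AddMonoidHom.zero_apply, e_zero, one_mul, sub_zero]
  rfl

theorem exw_Wo_mul (v w : V) :
    exw_Wo β v * exw_Wo β w = e (β v w) • exw_Wo β (v + w) := by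
  ext f h
  show (exw_Wo β v (exw_Wo β w f)) h = e (β v w) * (exw_Wo β (v + w) f) h
  rw [exw_Wo_apply, exw_Wo_apply, exw_Wo_apply, ← mul_assoc, ← mul_assoc, ← e_add, ← e_add]
  have h1 : h - v - w = h - (v + w) := sub_sub _ _ _
  have h2 : β v (h - v) + β w (h - v - w) = β v w + β (v + w) (h - (v + w)) := by
    rw [← h1]
    simp only [map_add, map_sub, AddMonoidHom.add_apply]
    abel
  rw [h2, h1]

theorem exw_Wo_Ro (v u : V) : exw_Wo β v * exw_Ro β u = exw_Ro β u * exw_Wo β v := by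
  ext f h
  show (exw_Wo β v (exw_Ro β u f)) h = (exw_Ro β u (exw_Wo β v f)) h
  rw [exw_Wo_apply, exw_Ro_apply, exw_Ro_apply, exw_Wo_apply, ← mul_assoc, ← mul_assoc, ← e_add,
    ← e_add]
  have h1 : h - v - u = h - u - v := sub_right_comm _ _ _
  have h2 : β v (h - v) + β (h - v - u) u = β (h - u) u + β v (h - u - v) := by
    simp only [map_sub, AddMonoidHom.sub_apply]
    abel
  rw [h2, h1]

theorem exw_star_Wo (v : V) : star (exw_Wo β v) = e (β v v) • exw_Wo β (-v) := by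
  rw [ContinuousLinearMap.star_eq_adjoint]
  symm
  rw [ContinuousLinearMap.eq_adjoint_iff]
  intro x y
  have h1 := lp.hasSum_inner (𝕜 := ℂ) ((e (β v v) • exw_Wo β (-v)) x) y
  have h2 := lp.hasSum_inner (𝕜 := ℂ) x (exw_Wo β v y)
  have h3 := ((Equiv.addRight v).hasSum_iff (f := fun i => ⟪x i, (exw_Wo β v y) i⟫_ℂ)
    (a := ⟪x, exw_Wo β v y⟫_ℂ)).2 h2
  refine h1.unique ?_
  refine h3.congr_fun ?_
  intro i
  show ⟪e (β v v) * (exw_Wo β (-v) x) i, y i⟫_ℂ = ⟪x (i + v), (exw_Wo β v y) (i + v)⟫_ℂ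
  rw [exw_Wo_apply, exw_Wo_apply, add_sub_cancel_right, sub_neg_eq_add, ← mul_assoc, ← e_add]
  have h4 : β v v + β (-v) (i + v) = - β v i := by
    simp only [map_neg, map_add, AddMonoidHom.neg_apply]
    abel
  rw [h4, ← smul_eq_mul, ← smul_eq_mul, inner_smul_left, inner_smul_right, exw_conj_e, neg_neg]

/-- the von Neumann algebra of the left operators -/
noncomputable def exw_N : VonNeumannAlgebra (EllTwo V) := vnGen (Set.range (exw_Wo β))

theorem exw_mem_N (z : EllTwo V →L[ℂ] EllTwo V) : z ∈ exw_N β ↔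
    ∀ t ∈ StarSubalgebra.centralizer ℂ (Set.range (exw_Wo β)), t * z = z * t ∧
      star t * z = z * star t :=
  StarSubalgebra.mem_centralizer_iff (R := ℂ)

theorem exw_mem_comm_N (t : EllTwo V →L[ℂ] EllTwo V) :
    t ∈ StarSubalgebra.centralizer ℂ (Set.range (exw_Wo β)) ↔
      ∀ v, exw_Wo β v * t = t * exw_Wo β v := by
  rw [StarSubalgebra.mem_centralizer_iff (R := ℂ)]
  constructor
  · intro h v
    exact (h _ ⟨v, rfl⟩).1
  · rintro h _ ⟨v, rfl⟩
    refine ⟨h v, ?_⟩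
    rw [exw_star_Wo, smul_mul_assoc, mul_smul_comm, h (-v)]

theorem exw_Wo_mem (v : V) : exw_Wo β v ∈ exw_N β := by
  rw [exw_mem_N]
  intro t ht
  have ht' := (exw_mem_comm_N β t).1 ht
  refine ⟨(ht' v).symm, ?_⟩
  have h0 : star (exw_Wo β v) * t = t * star (exw_Wo β v) := by
    rw [exw_star_Wo, smul_mul_assoc, mul_smul_comm, ht' (-v)]
  have h1 := congrArg star h0
  rw [star_mul, star_mul, star_star] at h1
  exact h1

theorem exw_comm_Ro (x : EllTwo V →L[ℂ] EllTwo V) (hx : x ∈ exw_N β) (u : V) :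
    exw_Ro β u * x = x * exw_Ro β u := by
  rw [exw_mem_N] at hx
  exact (hx (exw_Ro β u) ((exw_mem_comm_N β _).2 fun v => exw_Wo_Ro β v u)).1

/-- the standard basis of `ℓ²(V)` -/
noncomputable def exw_bb : HilbertBasis V ℂ (EllTwo V) :=
  HilbertBasis.ofRepr (LinearIsometryEquiv.refl ℂ (EllTwo V))

theorem exw_coef_bb (k : V) (f : EllTwo V) : ⟪exw_bb k, f⟫_ℂ = f k := by
  rw [← exw_bb.repr_apply_apply]
  rfl

open Classical in
theorem exw_bb_apply (k h : V) :
    (exw_bb k : EllTwo V) h = if h = k then 1 else 0 := by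
  rw [← exw_coef_bb]
  split_ifs with hk
  · rw [hk]
    exact inner_bb_self exw_bb k
  · exact inner_bb exw_bb h k hk

theorem exw_Ro_bb (w : V) : exw_Ro β w (exw_bb 0) = exw_bb w := by
  ext h
  rw [exw_Ro_apply, exw_bb_apply, exw_bb_apply]
  by_cases hh : h = w
  · subst hh
    rw [sub_self, map_zero, AddMonoidHom.zero_apply, e_zero]
    simp
  · have h1 : h - w ≠ 0 := sub_ne_zero.2 hh
    simp [h1, hh]

theorem exw_Wo_bb (w : V) : exw_Wo β w (exw_bb 0) = exw_bb w := by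
  ext h
  rw [exw_Wo_apply, exw_bb_apply, exw_bb_apply]
  by_cases hh : h = w
  · subst hh
    rw [sub_self, map_zero, e_zero]
    simp
  · have h1 : h - w ≠ 0 := sub_ne_zero.2 hh
    simp [h1, hh]

theorem exw_apply_bb (x : EllTwo V →L[ℂ] EllTwo V) (hx : x ∈ exw_N β) (w : V) :
    x (exw_bb w) = exw_Ro β w (x (exw_bb 0)) := by
  have h2 := congrArg (fun z : EllTwo V →L[ℂ] EllTwo V => z (exw_bb 0)) (exw_comm_Ro β x hx w)
  have h3 : exw_Ro β w (x (exw_bb 0)) = x (exw_Ro β w (exw_bb 0)) := h2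
  rw [h3, exw_Ro_bb]

theorem exw_star_coef (x : EllTwo V →L[ℂ] EllTwo V) (hx : x ∈ exw_N β) (h : V) :
    ⟪exw_bb h, (star x) (exw_bb 0)⟫_ℂ = e (β h h) * conj (⟪exw_bb (-h), x (exw_bb 0)⟫_ℂ) := by
  rw [ContinuousLinearMap.star_eq_adjoint, ContinuousLinearMap.adjoint_inner_right,
    ← inner_conj_symm, exw_coef_bb, exw_apply_bb β x hx, exw_Ro_apply, zero_sub, exw_coef_bb,
    map_mul, exw_conj_e, map_neg, AddMonoidHom.neg_apply, neg_neg]

/-- the canonical trace -/
noncomputable def exw_tr : Elt (exw_N β) →ₗ[ℂ] ℂ where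
  toFun x := ⟪exw_bb 0, (x : EllTwo V →L[ℂ] EllTwo V) (exw_bb 0)⟫_ℂ
  map_add' x y := by
    show ⟪exw_bb 0, (x : EllTwo V →L[ℂ] EllTwo V) (exw_bb 0) +
      (y : EllTwo V →L[ℂ] EllTwo V) (exw_bb 0)⟫_ℂ = _
    rw [inner_add_right]
  map_smul' c x := by
    show ⟪exw_bb 0, c • (x : EllTwo V →L[ℂ] EllTwo V) (exw_bb 0)⟫_ℂ = _
    rw [inner_smul_right]
    rfl

theorem exw_tr_apply (x : Elt (exw_N β)) :
    exw_tr β x = ⟪exw_bb 0, (x : EllTwo V →L[ℂ] EllTwo V) (exw_bb 0)⟫_ℂ := rfl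

theorem exw_tr_mul (x y : Elt (exw_N β)) :
    HasSum (fun h => e (-(β h h)) * (⟪exw_bb (-h), (x : EllTwo V →L[ℂ] EllTwo V) (exw_bb 0)⟫_ℂ *
      ⟪exw_bb h, (y : EllTwo V →L[ℂ] EllTwo V) (exw_bb 0)⟫_ℂ)) (exw_tr β (x * y)) := by
  have h1 : exw_tr β (x * y) = ⟪(star (x : EllTwo V →L[ℂ] EllTwo V)) (exw_bb 0),
      (y : EllTwo V →L[ℂ] EllTwo V) (exw_bb 0)⟫_ℂ := by
    rw [ContinuousLinearMap.star_eq_adjoint, ContinuousLinearMap.adjoint_inner_left]
    rfl
  rw [h1]
  refine (exw_bb.hasSum_inner_mul_inner ((star (x : EllTwo V →L[ℂ] EllTwo V)) (exw_bb 0))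
    ((y : EllTwo V →L[ℂ] EllTwo V) (exw_bb 0))).congr_fun ?_
  intro h
  rw [← inner_conj_symm ((star (x : EllTwo V →L[ℂ] EllTwo V)) (exw_bb 0)) (exw_bb h),
    exw_star_coef β _ x.2, map_mul, exw_conj_e, Complex.conj_conj, mul_assoc]

theorem exw_tr_star_mul (x : Elt (exw_N β)) : exw_tr β (star x * x) =
    ⟪(x : EllTwo V →L[ℂ] EllTwo V) (exw_bb 0), (x : EllTwo V →L[ℂ] EllTwo V) (exw_bb 0)⟫_ℂ := by
  rw [← ContinuousLinearMap.adjoint_inner_right, ← ContinuousLinearMap.star_eq_adjoint]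
  rfl

/-- the tracial state -/
noncomputable def exw_T : TracialState (exw_N β) where
  τ := exw_tr β
  normal := by
    refine ⟨fun k => if k = 0 then exw_bb 0 else 0, ?_, ?_⟩
    · refine summable_of_ne_finset_zero (s := {0}) ?_
      intro k hk
      have : k ≠ 0 := by simpa using hk
      simp [this]
    · intro x
      rw [tsum_eq_single 0]
      · simp [exw_tr_apply]
      · intro k hk
        simp [hk]
  map_one := inner_bb_self exw_bb 0
  tracial := by
    intro x y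
    have h1 := (exw_tr_mul β y x)
    have h2 := ((Equiv.neg V).hasSum_iff (f := fun h => e (-(β h h)) *
      (⟪exw_bb (-h), (y : EllTwo V →L[ℂ] EllTwo V) (exw_bb 0)⟫_ℂ *
      ⟪exw_bb h, (x : EllTwo V →L[ℂ] EllTwo V) (exw_bb 0)⟫_ℂ))
      (a := exw_tr β (y * x))).2 h1
    refine (exw_tr_mul β x y).unique (h2.congr_fun ?_)
    intro h
    show _ = e (-(β (-h) (-h))) *
      (⟪exw_bb (- -h), (y : EllTwo V →L[ℂ] EllTwo V) (exw_bb 0)⟫_ℂ *
      ⟪exw_bb (-h), (x : EllTwo V →L[ℂ] EllTwo V) (exw_bb 0)⟫_ℂ)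
    have h3 : β (-h) (-h) = β h h := by simp
    rw [h3, neg_neg, mul_comm (⟪exw_bb h, (y : EllTwo V →L[ℂ] EllTwo V) (exw_bb 0)⟫_ℂ)]
  faithful := by
    intro x hx
    rw [exw_tr_star_mul, inner_self_eq_zero] at hx
    apply Subtype.ext
    apply ext_basis exw_bb
    intro w
    rw [exw_apply_bb β _ x.2, hx, map_zero]
    rfl

theorem exw_parseval (x : Elt (exw_N β)) :
    HasSum (fun v => ‖exw_tr β (star (⟨exw_Wo β v, exw_Wo_mem β v⟩ : Elt (exw_N β)) * x)‖ ^ 2)
      (exw_tr β (star x * x)).re := by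
  have h2 := exw_bb.hasSum_inner_mul_inner ((x : EllTwo V →L[ℂ] EllTwo V) (exw_bb 0))
    ((x : EllTwo V →L[ℂ] EllTwo V) (exw_bb 0))
  have h3 := Complex.hasSum_re h2
  rw [exw_tr_star_mul]
  refine h3.congr_fun ?_
  intro g
  have h4 : exw_tr β (star (⟨exw_Wo β g, exw_Wo_mem β g⟩ : Elt (exw_N β)) * x) =
      ⟪exw_bb g, (x : EllTwo V →L[ℂ] EllTwo V) (exw_bb 0)⟫_ℂ := by
    show ⟪exw_bb 0, (star (exw_Wo β g)) ((x : EllTwo V →L[ℂ] EllTwo V) (exw_bb 0))⟫_ℂ = _
    rw [ContinuousLinearMap.star_eq_adjoint, ContinuousLinearMap.adjoint_inner_right, exw_Wo_bb]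
  rw [h4, ← inner_conj_symm ((x : EllTwo V →L[ℂ] EllTwo V) (exw_bb 0)) (exw_bb g),
    ← Complex.normSq_eq_conj_mul_self, Complex.normSq_eq_norm_sq, Complex.ofReal_re]

theorem exw_unit_left (v : V) : star (exw_Wo β v) * exw_Wo β v = 1 := by
  rw [exw_star_Wo, smul_mul_assoc, exw_Wo_mul, smul_smul, ← e_add, map_neg,
    AddMonoidHom.neg_apply, add_neg_cancel, e_zero, one_smul, neg_add_cancel, exw_Wo_zero]

theorem exw_unit_right (v : V) : exw_Wo β v * star (exw_Wo β v) = 1 := by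
  rw [exw_star_Wo, mul_smul_comm, exw_Wo_mul, smul_smul, ← e_add, map_neg,
    add_neg_cancel, e_zero, one_smul, add_neg_cancel, exw_Wo_zero]

end EXW

/-- the twisted group algebra of a discrete abelian group, acting on `ℓ²(V)` -/
theorem exists_weyl (V : Type) [AddCommGroup V] (β : V →+ V →+ TT) :
    ∃ (H : Type) (_ : NormedAddCommGroup H) (_ : InnerProductSpace ℂ H) (_ : CompleteSpace H)
      (N : VonNeumannAlgebra H) (T0 : TracialState N) (W : V → Elt N), Weyl β T0.τ W := by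
  refine ⟨EllTwo V, inferInstance, inferInstance, inferInstance, exw_N β, exw_T β,
    fun v => ⟨exw_Wo β v, exw_Wo_mem β v⟩, ?_⟩
  refine ⟨?_, ?_, ?_, ?_, ?_, ?_⟩
  · apply Subtype.ext
    exact exw_Wo_zero β
  · intro v w
    apply Subtype.ext
    exact exw_Wo_mul β v w
  · intro v
    apply Subtype.ext
    exact exw_unit_left β v
  · intro v
    apply Subtype.ext
    exact exw_unit_right β v
  · intro v hv
    show ⟪exw_bb 0, exw_Wo β v (exw_bb 0)⟫_ℂ = _
    rw [exw_Wo_bb, exw_coef_bb, exw_bb_apply, if_neg (Ne.symm hv)]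
  · intro x
    have h1 : n2 (exw_T β).τ x ^ 2 = (exw_tr β (star x * x)).re := by
      show (Real.sqrt (exw_tr β (star x * x)).re) ^ 2 = _
      refine Real.sq_sqrt ?_
      exact (exw_parseval β x).nonneg fun v => sq_nonneg _
    rw [h1]
    exact exw_parseval β x

end Pool.Agent.H146R2.SD
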