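import Mathlib
import Pool.Agent.H146R2.SD.EXW
import Pool.Agent.Helper436.SM.Stmt

set_option autoImplicit false
set_option linter.unusedSectionVars false

open scoped ComplexConjugate Topology
open Filter

namespace Pool.Agent.H146R2.SD

open Pool.Agent.Helper278 Pool.Agent.Helper436.SM

section hypaux

variable {A : Type} [Ring A] [StarRing A] [Algebra ℂ A] [StarModule ℂ A] {τ : A →ₗ[ℂ] ℂ}
variable {V : Type} [AddCommGroup V] {β : V →+ V →+ TT} {W : V → A}

theorem hyp_star (h : Weyl β τ W) (v : V) : star (W v) = e (β v v) • W (-v) := by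
  have h1 : W (-v) * W v = e (-(β v v)) • (1 : A) := by
    rw [h.mul, map_neg, AddMonoidHom.neg_apply, neg_add_cancel, h.zero]
  have h2 : W (-v) = e (-(β v v)) • star (W v) := by
    calc W (-v) = W (-v) * (W v * star (W v)) := by rw [h.unit_right, mul_one]
      _ = e (-(β v v)) • star (W v) := by rw [← mul_assoc, h1, smul_mul_assoc, one_mul]
  rw [h2, smul_smul, e_mul_neg, one_smul]

theorem hyp_orth (h : Weyl β τ W) (hτ : TrAlg τ) (v w : V) [Decidable (v = w)] :
    τ (star (W v) * W w) = if v = w then 1 else 0 := by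
  split_ifs with hvw
  · subst hvw
    rw [h.unit_left, hτ.one]
  · rw [hyp_star h, smul_mul_assoc, h.mul, map_smul, map_smul, h.trace, smul_zero, smul_zero]
    intro h0
    exact hvw (neg_add_eq_zero.1 h0)

open Classical in
theorem hyp_expand (h : Weyl β τ W) (hτ : TrAlg τ) (x : A) (F : Finset V) :
    n2 τ (x - ∑ v ∈ F, τ (star (W v) * x) • W v) ^ 2 =
      n2 τ x ^ 2 - ∑ v ∈ F, ‖τ (star (W v) * x)‖ ^ 2 := by
  set y : A := ∑ v ∈ F, τ (star (W v) * x) • W v with hy
  have h1 : τ (star y * x) = ((∑ v ∈ F, ‖τ (star (W v) * x)‖ ^ 2 : ℝ) : ℂ) := by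
    rw [hy, star_sum, Finset.sum_mul, map_sum, Complex.ofReal_sum]
    refine Finset.sum_congr rfl fun v _ => ?_
    rw [star_smul, smul_mul_assoc, map_smul, smul_eq_mul, Complex.star_def,
      Complex.conj_mul']
    push_cast; rfl
  have h2 : τ (star x * y) = ((∑ v ∈ F, ‖τ (star (W v) * x)‖ ^ 2 : ℝ) : ℂ) := by
    have := hτ.conj (star y * x)
    rw [star_mul, star_star, h1] at this
    rw [this, Complex.star_def, Complex.conj_ofReal]
  have h3 : τ (star y * y) = ((∑ v ∈ F, ‖τ (star (W v) * x)‖ ^ 2 : ℝ) : ℂ) := by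
    have e : ∀ v ∈ F, τ (star (W v) * y) = τ (star (W v) * x) := by
      intro v hv
      rw [hy, Finset.mul_sum, map_sum]
      have : ∀ w ∈ F, τ (star (W v) * (τ (star (W w) * x) • W w)) =
          if v = w then τ (star (W w) * x) else 0 := by
        intro w _
        rw [mul_smul_comm, map_smul, hyp_orth h hτ]
        split_ifs <;> simp
      rw [Finset.sum_congr rfl this, Finset.sum_ite_eq, if_pos hv]
    conv_lhs => rw [hy]
    rw [star_sum, Finset.sum_mul, map_sum, Complex.ofReal_sum]
    refine Finset.sum_congr rfl fun v hv => ?_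
    rw [star_smul, smul_mul_assoc, map_smul, smul_eq_mul, e v hv, Complex.star_def,
      Complex.conj_mul']
    push_cast; rfl
  rw [hτ.n2_sq, hτ.n2_sq]
  have e : star (x - y) * (x - y) = star x * x - star x * y - star y * x + star y * y := by
    rw [star_sub]; noncomm_ring
  rw [e, map_add, map_sub, map_sub, h1, h2, h3]
  simp only [Complex.add_re, Complex.sub_re, Complex.ofReal_re]
  ring

/-- the finite dimensional subalgebras -/
noncomputable def hypA (h : Weyl β τ W) (F : AddSubgroup V) : StarSubalgebra ℂ A where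
  toSubalgebra := (Submodule.span ℂ (W '' (F : Set V))).toSubalgebra
    (Submodule.subset_span ⟨0, F.zero_mem, h.zero⟩)
    (by
      intro x y hx hy
      have h' := Submodule.mul_mem_mul hx hy
      rw [Submodule.span_mul_span] at h'
      refine Submodule.span_le.mpr ?_ h'
      rintro _ ⟨_, ⟨v, hv, rfl⟩, _, ⟨w, hw, rfl⟩, rfl⟩
      show W v * W w ∈ Submodule.span ℂ (W '' (F : Set V))
      rw [h.mul]
      exact Submodule.smul_mem _ _ (Submodule.subset_span ⟨v + w, F.add_mem hv hw, rfl⟩))
  star_mem' := by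
    intro x hx
    change x ∈ Submodule.span ℂ (W '' (F : Set V)) at hx
    show star x ∈ Submodule.span ℂ (W '' (F : Set V))
    induction hx using Submodule.span_induction with
    | mem x h' =>
      obtain ⟨v, hv, rfl⟩ := h'
      rw [hyp_star h]
      exact Submodule.smul_mem _ _ (Submodule.subset_span ⟨-v, F.neg_mem hv, rfl⟩)
    | zero => rw [star_zero]; exact Submodule.zero_mem _
    | add x y _ _ hx hy => rw [star_add]; exact Submodule.add_mem _ hx hy
    | smul c x _ hx => rw [star_smul]; exact Submodule.smul_mem _ _ hx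

theorem mem_hypA (h : Weyl β τ W) (F : AddSubgroup V) (x : A) :
    x ∈ hypA h F ↔ x ∈ Submodule.span ℂ (W '' (F : Set V)) := Iff.rfl

theorem hyp_hyperfinite (h : Weyl β τ W) (hτ : TrAlg τ) [Countable V]
    (htor : ∀ v : V, ∃ n : ℕ, 0 < n ∧ n • v = 0) : IsHyperfinite A (fun x => τ x) := by
  classical
  obtain ⟨f, hf⟩ := exists_surjective_nat V
  set S : ℕ → Set V := fun n => f '' {i | i < n} with hS
  have hSmono : ∀ m n, m ≤ n → S m ⊆ S n := fun m n hmn =>
    Set.image_mono fun i hi => lt_of_lt_of_le hi hmn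
  have hfin : ∀ n, ((AddSubgroup.closure (S n) : AddSubgroup V) : Set V).Finite := by
    intro n
    have hSn : (S n).Finite := (Set.finite_lt_nat n).image f
    obtain ⟨F, _, hF, hF2⟩ := exists_finite_sub htor hSn.toFinset ⊤ (fun v _ => trivial)
    have hle : AddSubgroup.closure (S n) ≤ F := by
      rw [AddSubgroup.closure_le]
      intro v hv
      exact hF2 v (hSn.mem_toFinset.2 hv)
    have hF' : (F : Set V).Finite := Set.toFinite _
    exact hF'.subset hle
  refine ⟨fun n => hypA h (AddSubgroup.closure (S n)), ?_, ?_, ?_⟩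
  · intro m n hmn x hx
    rw [mem_hypA] at hx ⊢
    refine Submodule.span_mono (Set.image_mono ?_) hx
    exact AddSubgroup.closure_mono (hSmono m n hmn)
  · intro n
    exact FiniteDimensional.span_of_finite ℂ ((hfin n).image W)
  · intro x ε hε
    have hlt : n2 τ x ^ 2 - ε ^ 2 < n2 τ x ^ 2 := by
      have : 0 < ε ^ 2 := by positivity
      linarith
    obtain ⟨F, hF⟩ := ((h.parseval x).eventually (lt_mem_nhds hlt)).exists
    obtain ⟨n, hn⟩ : ∃ n, ∀ v ∈ F, v ∈ AddSubgroup.closure (S n) := by
      choose g hg using hf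
      refine ⟨F.sup (fun v => g v + 1), fun v hv => AddSubgroup.subset_closure ⟨g v, ?_, hg v⟩⟩
      have h2 : g v + 1 ≤ F.sup (fun v => g v + 1) :=
        Finset.le_sup (f := fun v : V => g v + 1) hv
      show g v < F.sup (fun v => g v + 1)
      omega
    refine ⟨n, ∑ v ∈ F, τ (star (W v) * x) • W v, ?_, ?_⟩
    · rw [mem_hypA]
      exact Submodule.sum_mem _ fun v hv =>
        Submodule.smul_mem _ _ (Submodule.subset_span ⟨v, hn v hv, rfl⟩)
    · have h1 := hyp_expand h hτ x F
      have h' : n2 τ (x - ∑ v ∈ F, τ (star (W v) * x) • W v) ^ 2 < ε ^ 2 := by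
        rw [h1]; linarith
      exact lt_of_pow_lt_pow_left₀ 2 hε.le h'

theorem hyp_infinite (h : Weyl β τ W) (hτ : TrAlg τ) [Infinite V] : ¬ FiniteDimensional ℂ A := by
  classical
  intro hfin
  have hli : LinearIndependent ℂ W := by
    rw [linearIndependent_iff']
    intro s c hs j hj
    have h1 := congrArg (fun x => τ (star (W j) * x)) hs
    simp only [Finset.mul_sum, map_sum, mul_zero, map_zero, mul_smul_comm, map_smul] at h1
    rw [Finset.sum_eq_single j] at h1
    · rw [h.unit_left, hτ.one, smul_eq_mul, mul_one] at h1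
      exact h1
    · intro b _ hb
      rw [hyp_orth h hτ, if_neg (Ne.symm hb), smul_zero]
    · intro hj'
      exact absurd hj hj'
  have h1 : Finite V := hli.finite
  exact not_finite V

theorem hyp_center (h : Weyl β τ W) (hτ : TrAlg τ)
    (hnd : ∀ v : V, (∀ w, β v w = β w v) → v = 0) (z : A) (hz : ∀ w, z * W w = W w * z) :
    z = τ z • (1 : A) := by
  classical
  have hzero : ∀ v : V, v ≠ 0 → τ (star (W v) * z) = 0 := by
    intro v hv
    obtain ⟨w, hw⟩ : ∃ w, β v w ≠ β w v := by
      by_contra hcon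
      push Not at hcon
      exact hv (hnd v hcon)
    have h1 : W w * W v = e (β w v - β v w) • (W v * W w) := by
      rw [h.mul, h.mul, smul_smul, ← e_add, sub_add_cancel, add_comm w v]
    have h2 : W w * W v * star (W w) = e (β w v - β v w) • W v := by
      rw [h1, smul_mul_assoc, mul_assoc, h.unit_right, mul_one]
    have h3 : W w * star (W v) * star (W w) = star (e (β w v - β v w)) • star (W v) := by
      have := congrArg star h2
      rw [star_mul, star_mul, star_star, star_smul, ← mul_assoc] at this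
      exact this
    have h4 : star (W w) * z * W w = z := by
      rw [mul_assoc, hz, ← mul_assoc, h.unit_left, one_mul]
    have h5 : τ (star (W v) * z) = star (e (β w v - β v w)) * τ (star (W v) * z) := by
      calc τ (star (W v) * z) = τ (star (W v) * (star (W w) * z * W w)) := by rw [h4]
        _ = τ ((star (W v) * star (W w) * z) * W w) := by simp only [mul_assoc]
        _ = τ (W w * (star (W v) * star (W w) * z)) := hτ.comm _ _
        _ = τ ((W w * star (W v) * star (W w)) * z) := by simp only [mul_assoc]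
        _ = _ := by rw [h3, smul_mul_assoc, map_smul, smul_eq_mul]
    have h6 : (1 - star (e (β w v - β v w))) * τ (star (W v) * z) = 0 := by
      rw [sub_mul, one_mul, ← h5, sub_self]
    rcases mul_eq_zero.1 h6 with h7 | h7
    · exfalso
      have h8 : e (β w v - β v w) = 1 := by
        have := congrArg star (sub_eq_zero.1 h7)
        rw [star_star, star_one] at this
        exact this.symm
      exact hw (sub_eq_zero.1 ((e_eq_one_iff _).1 h8)).symm
    · exact h7
  have h1 := hyp_expand h hτ z {0}
  rw [Finset.sum_singleton, Finset.sum_singleton, h.zero, star_one, one_mul] at h1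
  have h2 : n2 τ z ^ 2 = ‖τ z‖ ^ 2 := by
    have h3 := h.parseval z
    have h4 : HasSum (fun v => ‖τ (star (W v) * z)‖ ^ 2) (‖τ (star (W 0) * z)‖ ^ 2) := by
      refine hasSum_single 0 fun v hv => ?_
      rw [hzero v hv, norm_zero]; ring
    have h5 := h3.unique h4
    rwa [h.zero, star_one, one_mul] at h5
  rw [h2, sub_self] at h1
  have h3 := hτ.n2_sq (z - τ z • (1 : A))
  rw [h1] at h3
  have h4 := hτ.im_zero (z - τ z • (1 : A))
  have h5 := hτ.faithful (z - τ z • (1 : A)) (Complex.ext (by rw [← h3]; rfl) (by rw [h4]; rfl))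
  exact sub_eq_zero.1 h5

end hypaux

variable {H : Type} [NormedAddCommGroup H] [InnerProductSpace ℂ H] [CompleteSpace H]
variable {N : VonNeumannAlgebra H} {T0 : TracialState N}
variable {V : Type} [AddCommGroup V] {β : V →+ V →+ TT} {W : V → Elt N}

/-- a nondegenerate Weyl system of a countable torsion group gives the hyperfinite II₁ factor -/
theorem hyperfinite_weyl (h : Weyl β T0.τ W) [Countable V] [Infinite V]
    (htor : ∀ v : V, ∃ n : ℕ, 0 < n ∧ n • v = 0)
    (hnd : ∀ v : V, (∀ w, β v w = β w v) → v = 0) :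
    IsHyperfiniteII N (fun x => T0.τ x) := by
  have hτ := trAlg T0
  refine ⟨⟨?_, hyp_infinite h hτ, ⟨T0.map_one, T0.tracial, T0.faithful⟩, T0.normal⟩,
    hyp_hyperfinite h hτ htor⟩
  intro z hz hcom
  have h1 := hyp_center h hτ hnd (⟨z, hz⟩ : Elt N) (fun w => Subtype.ext (hcom _ (W w).2))
  exact ⟨_, congrArg Subtype.val h1⟩

end Pool.Agent.H146R2.SD
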