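import Mathlib
import Pool.Agent.Helper436.SM.PermU

set_option autoImplicit false
set_option linter.unusedSectionVars false

open scoped ComplexConjugate Topology
open Filter

namespace Pool.Agent.H146R2.SD

open Pool.Agent.Helper436.SM

theorem prm_mu_span {A : Type*} [Ring A] [StarRing A] [Algebra ℂ A] [StarModule ℂ A]
    {τ : A →ₗ[ℂ] ℂ} {W : VV → A} (h : PauliSys τ W) {m : ℕ} (a c : Fin m → ZMod 2) :
    PU.mu W a c ∈ Submodule.span ℂ (Set.range W) := by
  unfold PU.mu PU.EE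
  rw [mul_smul_comm, Finset.mul_sum]
  apply Submodule.smul_mem
  apply Submodule.sum_mem
  intro b _
  rw [mul_smul_comm, PU.XW h]
  apply Submodule.smul_mem
  exact Submodule.subset_span ⟨_, rfl⟩

/-- permutation unitaries in the linear span of the Pauli unitaries -/
theorem exists_perm_span {A : Type*} [Ring A] [StarRing A] [Algebra ℂ A] [StarModule ℂ A]
    {τ : A →ₗ[ℂ] ℂ} {W : VV → A} (h : PauliSys τ W) (m : ℕ) :
    ∃ P : Equiv.Perm (Fin m → ZMod 2) →* A, (∀ σ, star (P σ) = P σ⁻¹) ∧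
      (∀ σ, P σ ∈ Submodule.span ℂ (Set.range W)) ∧
      ∀ σ, τ (P σ) = (Fintype.card {a : Fin m → ZMod 2 // σ a = a} : ℂ) / 2 ^ m := by
  classical
  have hmul : ∀ σ ρ : Equiv.Perm (Fin m → ZMod 2),
      (∑ a, PU.mu W (σ a) a) * (∑ a, PU.mu W (ρ a) a) = ∑ a, PU.mu W ((σ * ρ) a) a := by
    intro σ ρ
    rw [Finset.sum_mul_sum, Finset.sum_comm]
    apply Finset.sum_congr rfl
    intro b _
    rw [Finset.sum_congr rfl (fun a _ => PU.mu_mul h (σ a) a (ρ b) b),
      Finset.sum_ite_eq' Finset.univ (ρ b)]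
    simp
  refine ⟨{ toFun := fun σ => ∑ a, PU.mu W (σ a) a
            map_one' := PU.sum_mu h
            map_mul' := fun σ ρ => (hmul σ ρ).symm }, ?_, ?_, ?_⟩
  · intro σ
    show star (∑ a, PU.mu W (σ a) a) = ∑ a, PU.mu W (σ⁻¹ a) a
    rw [star_sum, ← Equiv.sum_comp σ (fun a => PU.mu W (σ⁻¹ a) a)]
    apply Finset.sum_congr rfl
    intro a _
    rw [PU.star_mu h]
    simp
  · intro σ
    show (∑ a, PU.mu W (σ a) a) ∈ _
    apply Submodule.sum_mem
    intro a _
    exact prm_mu_span h _ _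
  · intro σ
    show τ (∑ a, PU.mu W (σ a) a) = _
    have h0 : ∀ x : A, x = x * W (oddV 0) := by
      intro x
      have : oddV 0 = 0 := by simp [oddV]
      rw [this, h.zero, mul_one]
    rw [h0 (∑ a, PU.mu W (σ a) a), Finset.sum_mul, map_sum,
      Finset.sum_congr rfl (fun a _ => PU.trace_mu h (σ a) a 0)]
    simp only [and_true]
    rw [← Finset.sum_filter, Finset.sum_const, nsmul_eq_mul, Fintype.card_subtype, div_eq_mul_inv]

end Pool.Agent.H146R2.SD
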