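import Mathlib
import Pool.Agent.H146R2.SD.CNC
import Pool.Agent.H146R2.SD.HYP
import Pool.Agent.H146R2.SD.PRM
import Pool.Agent.Helper436.SM.ExM

set_option autoImplicit false
set_option linter.unusedSectionVars false

open scoped ComplexConjugate Topology
open Filter

namespace Pool.Agent.H146R2.SD

open Pool.Agent.Helper278 Pool.Agent.Helper436.SM

/-- the half -/
noncomputable def hf : ZMod 2 →+ TT := ZMod.toAddCircle

theorem exa_hf_inj : Function.Injective hf := ZMod.toAddCircle_injective _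

theorem e_hf (a : ZMod 2) : e (hf a) = sg a := by
  have h01 : a = 0 ∨ a = 1 := by
    revert a
    decide
  rcases h01 with rfl | rfl
  · rw [map_zero, e_zero]
    simp [Pool.Agent.Helper436.SM.sg]
  · have h1 : hf 1 = ((1 / 2 : ℝ) : TT) := by
      have h2 := ZMod.toAddCircle_apply (1 : ZMod 2)
      show ZMod.toAddCircle (1 : ZMod 2) = _
      rw [h2, ZMod.val_one]
      norm_num
    rw [h1]
    have h3 : (AddCircle.toCircle ((1 / 2 : ℝ) : TT) : ℂ) = -1 := by
      rw [AddCircle.toCircle_apply_mk, Circle.coe_exp]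
      have h4 : ((2 * Real.pi / 1 * (1 / 2) : ℝ) : ℂ) * Complex.I = Real.pi * Complex.I := by
        congr 1
        push_cast
        ring
      rw [h4, Complex.exp_pi_mul_I]
    show (AddCircle.toCircle ((1 / 2 : ℝ) : TT) : ℂ) = Pool.Agent.Helper436.SM.sg 1
    rw [h3]
    simp [Pool.Agent.Helper436.SM.sg]

/-- the cocycle of the big Weyl system: Pauli strings and the space `VP` -/
theorem exists_big : ∃ β : (VV × VP) →+ (VV × VP) →+ TT, ∀ a b v w,
    β (a, v) (b, w) = hf (bf a b) + betaP v w := by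
  refine ⟨AddMonoidHom.mk' (fun p => AddMonoidHom.mk'
    (fun q => hf (bf p.1 q.1) + betaP p.2 q.2) ?_) ?_, fun a b v w => rfl⟩
  · intro q q'
    show hf (bf p.1 (q.1 + q'.1)) + betaP p.2 (q.2 + q'.2) = _
    rw [bf_add_right, map_add, map_add]
    abel
  · intro p p'
    refine DFunLike.ext _ _ fun q => ?_
    show hf (bf (p.1 + p'.1) q.1) + betaP (p.2 + p'.2) q.2 =
      (hf (bf p.1 q.1) + betaP p.2 q.2) + (hf (bf p'.1 q.1) + betaP p'.2 q.2)
    rw [bf_add_left, map_add, map_add, AddMonoidHom.add_apply]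
    abel

theorem exa_vv_two (a : VV) : a + a = 0 := vv_add_self a

theorem exa_tors (v : VV × VP) : ∃ n : ℕ, 0 < n ∧ n • v = 0 := by
  obtain ⟨a, u⟩ := v
  refine ⟨2 * ∏ k ∈ u.support, pk k, ?_, ?_⟩
  · exact Nat.mul_pos two_pos (Finset.prod_pos fun k _ => (pk_prime k).pos)
  · refine Prod.ext ?_ ?_
    · show (2 * ∏ k ∈ u.support, pk k) • a = 0
      rw [mul_comm, mul_smul, two_nsmul, exa_vv_two, smul_zero]
    · show (2 * ∏ k ∈ u.support, pk k) • u = 0
      refine DFinsupp.ext fun k => ?_
      rw [DFinsupp.smul_apply, DFinsupp.zero_apply]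
      by_cases hk : k ∈ u.support
      · obtain ⟨c, hc⟩ : pk k ∣ 2 * ∏ k ∈ u.support, pk k :=
          Dvd.dvd.mul_left (Finset.dvd_prod_of_mem pk hk) 2
        rw [hc]
        refine Finsupp.ext fun j => ?_
        rw [Finsupp.smul_apply, Finsupp.zero_apply]
        refine Prod.ext ?_ ?_
        · rw [Prod.smul_fst, nsmul_eq_mul]
          simp
        · rw [Prod.smul_snd, nsmul_eq_mul]
          simp
      · rw [DFinsupp.notMem_support_iff.1 hk, smul_zero]

theorem exa_bk_single_left (k : ℕ) (j : ℕ) (c : ZMod (pk k) × ZMod (pk k)) (v : Vk k) :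
    bk k (Finsupp.single j c) v = c.2 * (v j).1 := by
  unfold bk
  rw [Finsupp.sum_single_index]
  simp

theorem exa_bk_single_right (k : ℕ) (j : ℕ) (c : ZMod (pk k) × ZMod (pk k)) (v : Vk k) :
    bk k v (Finsupp.single j c) = (v j).2 * c.1 := by
  unfold bk Finsupp.sum
  rw [Finset.sum_eq_single j]
  · beta_reduce
    rw [Finsupp.single_eq_same]
  · intro i _ hi
    beta_reduce
    rw [Finsupp.single_eq_of_ne hi]
    simp
  · intro h
    beta_reduce
    rw [Finsupp.notMem_support_iff.1 h]
    simp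

theorem exa_nondeg (β : (VV × VP) →+ (VV × VP) →+ TT)
    (hβ : ∀ a b v w, β (a, v) (b, w) = hf (bf a b) + betaP v w) (v : VV × VP)
    (h : ∀ w, β v w = β w v) : v = 0 := by
  obtain ⟨a, u⟩ := v
  refine Prod.ext ?_ ?_
  · show a = 0
    have h1 : ∀ b, bf a b = bf b a := by
      intro b
      have h2 := h (b, 0)
      rw [hβ, hβ, map_zero, map_zero, AddMonoidHom.zero_apply, add_zero, add_zero] at h2
      exact exa_hf_inj h2
    have h3 : ∀ (i : ℕ) (c : ZMod 2 × ZMod 2), c.2 * (a i).1 + (a i).2 * c.1 = 0 := by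
      intro i c
      rw [← sf_single]
      unfold sf
      rw [h1]
      exact CharTwo.add_self_eq_zero _
    refine Finsupp.ext fun i => ?_
    refine Prod.ext ?_ ?_
    · have := h3 i (0, 1)
      simpa using this
    · have := h3 i (1, 0)
      simpa using this
  · show u = 0
    have h1 : ∀ (k : ℕ) (x : Vk k), bk k (u k) x = bk k x (u k) := by
      intro k x
      have h2 := h (0, DFinsupp.single k x)
      rw [hβ, hβ, bf_zero_left, bf_zero_right, map_zero, zero_add, zero_add, betaP_single,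
        betaP_single_right] at h2
      exact tt_inj k h2
    refine DFinsupp.ext fun k => Finsupp.ext fun j => ?_
    have h3 : ∀ c : ZMod (pk k) × ZMod (pk k), (u k j).2 * c.1 = c.2 * (u k j).1 := by
      intro c
      rw [← exa_bk_single_right, ← exa_bk_single_left, h1]
    refine Prod.ext ?_ ?_
    · have := h3 (0, 1)
      simpa using this.symm
    · have := h3 (1, 0)
      simpa using this

/-- the hyperfinite factor `R` with commuting Pauli unitaries and Weyl unitaries -/
theorem exists_R2 : ∃ (H : Type) (_ : NormedAddCommGroup H) (_ : InnerProductSpace ℂ H)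
    (_ : CompleteSpace H) (N : VonNeumannAlgebra H) (T0 : TracialState N) (X : VV → Elt N)
    (Y : VP → Elt N), IsHyperfiniteII N (fun x => T0.τ x) ∧ PauliSys T0.τ X ∧ Y 0 = 1 ∧
      (∀ v w, Y v * Y w = e (betaP v w) • Y (v + w)) ∧ (∀ v, Y v ∈ unitary (Elt N)) ∧
      (∀ a v, X a * Y v = Y v * X a) ∧ ∀ a v, v ≠ 0 → T0.τ (X a * Y v) = 0 := by
  obtain ⟨β, hβ⟩ := exists_big
  obtain ⟨H, i1, i2, i3, N, T0, W, hW⟩ := exists_weyl (VV × VP) β
  have hXX : ∀ a b : VV, W (a, 0) * W (b, 0) = sg (bf a b) • W (a + b, 0) := by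
    intro a b
    have h1 := hW.mul (a, 0) (b, 0)
    have h2 : ((a, 0) : VV × VP) + (b, 0) = (a + b, 0) := Prod.ext rfl (add_zero (0 : VP))
    rw [hβ, map_zero, add_zero, e_hf] at h1
    exact h1.trans (congrArg (fun z => sg (bf a b) • W z) h2)
  have hXY : ∀ (a : VV) (v : VP), W (a, 0) * W (0, v) = W (a, v) := by
    intro a v
    have h1 := hW.mul (a, 0) (0, v)
    have h2 : ((a, 0) : VV × VP) + (0, v) = (a, v) := Prod.ext (add_zero a) (zero_add v)
    rw [hβ, bf_zero_right, map_zero, map_zero, AddMonoidHom.zero_apply, add_zero, e_zero,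
      one_smul] at h1
    exact h1.trans (congrArg W h2)
  have hYX : ∀ (a : VV) (v : VP), W (0, v) * W (a, 0) = W (a, v) := by
    intro a v
    have h1 := hW.mul (0, v) (a, 0)
    have h2 : ((0, v) : VV × VP) + (a, 0) = (a, v) := Prod.ext (zero_add a) (add_zero v)
    rw [hβ, bf_zero_left, map_zero, map_zero, add_zero, e_zero, one_smul] at h1
    exact h1.trans (congrArg W h2)
  refine ⟨H, i1, i2, i3, N, T0, fun a => W (a, 0), fun v => W (0, v), ?_, ?_, ?_, ?_, ?_, ?_, ?_⟩
  · exact hyperfinite_weyl hW exa_tors (exa_nondeg β hβ)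
  · refine ⟨hW.zero, hXX, ?_, ?_⟩
    · intro a
      have h1 : W (a, 0) * (sg (bf a a) • W (a, 0)) = 1 := by
        rw [mul_smul_comm, hXX, smul_smul, sg_mul_self, one_smul, exa_vv_two]
        exact hW.zero
      calc star (W (a, 0)) = star (W (a, 0)) * (W (a, 0) * (sg (bf a a) • W (a, 0))) := by
            rw [h1, mul_one]
        _ = sg (bf a a) • W (a, 0) := by
            rw [← mul_assoc, hW.unit_left, one_mul]
    · intro a
      by_cases ha : a = 0
      · rw [if_pos ha, ha]
        have h1 : W ((0 : VV), (0 : VP)) = 1 := hW.zero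
        rw [h1]
        exact T0.map_one
      · rw [if_neg ha]
        exact hW.trace _ fun h => ha (congrArg Prod.fst h)
  · exact hW.zero
  · intro v w
    show W (0, v) * W (0, w) = e (betaP v w) • W (0, v + w)
    rw [hW.mul, hβ, bf_zero_left, map_zero, zero_add, Prod.mk_add_mk, add_zero]
  · intro v
    exact Unitary.mem_iff.2 ⟨hW.unit_left _, hW.unit_right _⟩
  · intro a v
    show W (a, 0) * W (0, v) = W (0, v) * W (a, 0)
    rw [hXY, hYX]
  · intro a v hv
    show T0.τ (W (a, 0) * W (0, v)) = 0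
    rw [hXY]
    exact hW.trace _ fun h => hv (congrArg Prod.snd h)

end Pool.Agent.H146R2.SD
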