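import Mathlib
import Pool.Agent.H146R2.SD.CNC
import Pool.Agent.H146R2.SD.HYP
import Pool.Agent.H146R2.SD.PRM
import Pool.Agent.Helper436.SM.ExM
import Pool.Agent.Helper436.SM.RF1
import Pool.Agent.Helper436.SM.RF3

set_option autoImplicit false
set_option linter.unusedSectionVars false

open scoped ComplexConjugate Topology
open Filter

namespace Pool.Agent.H146R2.SD

open Pool.Agent.Helper278 Pool.Agent.Helper436.SM

theorem exb_countable : Countable GF := by
  have h2 : Countable (ℕ ⊕ CC) := inferInstance
  exact (Quot.mk_surjective (r := FreeGroup.Red.Step (α := ℕ ⊕ CC))).countable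

/-- permutations with few fixed points for the free group -/
theorem perm_GF : ∃ (m : ℕ → ℕ) (s : ∀ n, GF →* Equiv.Perm (Fin (m n) → ZMod 2)), ∀ g : GF, g ≠ 1 →
      Tendsto (fun n => (Fintype.card {a : Fin (m n) → ZMod 2 // s n g a = a} : ℝ) / 2 ^ (m n))
        atTop (𝓝 0) := by
  classical
  have := exb_countable
  refine exists_perm_reps fun g hg => ?_
  obtain ⟨m, e, he⟩ := free_rf g hg
  exact ⟨Fin m, inferInstance, FreeGroup.lift e, he⟩

end Pool.Agent.H146R2.SD
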