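import Mathlib
import Pool.Agent.H146R2.SD.CNC
import Pool.Agent.H146R2.SD.HYP
import Pool.Agent.H146R2.SD.PRM
import Pool.Agent.Helper436.SM.ExM

set_option autoImplicit false
set_option linter.unusedSectionVars false

open scoped ComplexConjugate Topology
open Filter

namespace Pool.Agent.H146R2.SD

open Pool.Agent.Helper278 Pool.Agent.Helper436.SM

theorem exc_bk_zero_left (k : ℕ) (w : Vk k) : bk k 0 w = 0 := by
  unfold bk
  exact Finsupp.sum_zero_index

theorem exc_bk_shift (k : ℕ) (v w : Vk k) :
    bk k (Finsupp.mapDomain Nat.succ v) (Finsupp.mapDomain Nat.succ w) = bk k v w := by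
  unfold bk
  rw [Finsupp.sum_mapDomain_index (by simp) (by intro b m1 m2; simp [add_mul])]
  refine Finset.sum_congr rfl fun i _ => ?_
  show (v i).2 * ((Finsupp.mapDomain Nat.succ w) (Nat.succ i)).1 = (v i).2 * (w i).1
  rw [Finsupp.mapDomain_apply Nat.succ_injective]

theorem exc_bk_shift_single (k : ℕ) (v : Vk k) (b : ZMod (pk k) × ZMod (pk k)) :
    bk k (Finsupp.mapDomain Nat.succ v) (Finsupp.single 0 b) = 0 := by
  unfold bk
  rw [Finsupp.sum_mapDomain_index (by simp) (by intro b m1 m2; simp [add_mul])]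
  refine Finset.sum_eq_zero fun i _ => ?_
  show (v i).2 * ((Finsupp.single 0 b : Vk k) (Nat.succ i)).1 = 0
  rw [Finsupp.single_eq_of_ne (by simp)]
  simp

theorem exc_bk_single (k : ℕ) (a : ZMod (pk k) × ZMod (pk k)) (w : Vk k) :
    bk k (Finsupp.single 0 a) w = a.2 * (w 0).1 := by
  unfold bk
  rw [Finsupp.sum_single_index (by simp)]

theorem exc_shift_zero (k : ℕ) (w : Vk k) : (Finsupp.mapDomain Nat.succ w) 0 = 0 := by
  refine Finsupp.mapDomain_of_notMem_range _ _ ?_
  rintro ⟨j, hj⟩
  exact Nat.succ_ne_zero j hj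

theorem exc_bk (k : ℕ) (v w : Vk k) (a b : ZMod (pk k) × ZMod (pk k)) :
    bk k (Finsupp.mapDomain Nat.succ v + Finsupp.single 0 a)
      (Finsupp.mapDomain Nat.succ w + Finsupp.single 0 b) = bk k v w + a.2 * b.1 := by
  rw [bk_add_left, bk_add_right, bk_add_right, exc_bk_shift, exc_bk_shift_single, exc_bk_single,
    exc_bk_single, exc_shift_zero, Finsupp.single_eq_same]
  simp

theorem exc_betaP (s : Finset ℕ) (v w : VP) (hs : ∀ k, k ∉ s → v k = 0) :
    betaP v w = ∑ k ∈ s, tt k (bk k (v k) (w k)) := by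
  classical
  have h1 : betaP v w = ∑ k ∈ v.support, tt k (bk k (v k) (w k)) := by
    unfold betaP
    rw [DFinsupp.sumAddHom_apply, DFinsupp.sum, AddMonoidHom.finsetSum_apply]
    rfl
  rw [h1]
  refine Finset.sum_subset (fun k hk => by_contra fun h =>
    (DFinsupp.mem_support_iff.1 hk) (hs k h)) (fun k _ hk => ?_)
  have h2 : v k = 0 := by
    by_contra h
    exact hk (DFinsupp.mem_support_iff.2 h)
  rw [h2, exc_bk_zero_left, map_zero]

open scoped Classical in
theorem exc_chiP (S : Set ℕ) (s : Finset ℕ) (w : VP) (g : GF) (hs : ∀ k, k ∉ s → w k = 0) :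
    chiP S w (Additive.ofMul g) =
      ∑ k ∈ s, if k ∈ S then tt k (ell k (w k) * (Multiplicative.toAdd (piG g)) k) else 0 := by
  have h1 : chiP S w (Additive.ofMul g) = ∑ k ∈ w.support,
      if k ∈ S then tt k (ell k (w k) * (Multiplicative.toAdd (piG g)) k) else 0 := by
    unfold chiP
    rw [DFinsupp.sumAddHom_apply, DFinsupp.sum, AddMonoidHom.finsetSum_apply]
    refine Finset.sum_congr rfl fun k _ => ?_
    split_ifs with h
    · rfl
    · rfl
  rw [h1]
  refine Finset.sum_subset (fun k hk => by_contra fun h =>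
    (DFinsupp.mem_support_iff.1 hk) (hs k h)) (fun k _ hk => ?_)
  have h2 : w k = 0 := by
    by_contra h
    exact hk (DFinsupp.mem_support_iff.2 h)
  rw [h2]
  simp

/-- the shift -/
noncomputable def excSh : VP →+ VP :=
  DFinsupp.mapRange.addMonoidHom (fun _ => Finsupp.mapDomain.addMonoidHom Nat.succ)

open scoped Classical in
/-- the position zero -/
noncomputable def excZ (S : Set ℕ) : (Π₀ k : ℕ, (ZMod (pk k) × ZMod (pk k))) →+ VP :=
  DFinsupp.mapRange.addMonoidHom
    (fun k => if k ∈ S then (Finsupp.singleAddHom 0) else 0)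

/-- the first coordinates -/
noncomputable def excA : VP →+ (Π₀ k : ℕ, (ZMod (pk k) × ZMod (pk k))) :=
  DFinsupp.mapRange.addMonoidHom (fun k => (AddMonoidHom.inl _ _).comp (ell k))

/-- the second coordinates -/
noncomputable def excB : CC →+ (Π₀ k : ℕ, (ZMod (pk k) × ZMod (pk k))) :=
  DFinsupp.mapRange.addMonoidHom (fun _ => AddMonoidHom.inr _ _)

noncomputable def excI (S : Set ℕ) (v : VP) (g : GF) : VP :=
  excSh v + excZ S (excA v + excB (Multiplicative.toAdd (piG g)))

open scoped Classical in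
theorem exc_apply (S : Set ℕ) (v : VP) (g : GF) (k : ℕ) : excI S v g k =
    Finsupp.mapDomain Nat.succ (v k) + Finsupp.single 0
      (if k ∈ S then (ell k (v k), (Multiplicative.toAdd (piG g)) k) else 0) := by
  unfold excI excSh excZ excA excB
  rw [DFinsupp.add_apply]
  simp only [DFinsupp.mapRange.addMonoidHom_apply, DFinsupp.mapRange_apply, DFinsupp.add_apply]
  congr 1
  split_ifs with h
  · simp
  · simp

/-- the shifted vector: positions `(k, j)` go to `(k, j + 1)`, the position `(k, 0)` carries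
`(ℓ_k(v), π_k(g))` for `k ∈ S` -/
theorem exists_iota (S : Set ℕ) : ∃ ι : VP → GF → VP,
    (∀ v w g g', betaP (ι v g) (ι w g') = betaP v w + chiP S w (Additive.ofMul g)) ∧
    (∀ v w g g', ι (v + w) (g * g') = ι v g + ι w g') ∧ ι 0 1 = 0 ∧
    (∀ v g, ι v g = 0 → v = 0) := by
  classical
  have hadd : ∀ v w g g', excI S (v + w) (g * g') = excI S v g + excI S w g' := by
    intro v w g g'
    unfold excI
    rw [map_mul, toAdd_mul]
    simp only [map_add]
    abel
  refine ⟨excI S, fun v w g g' => ?_, hadd, ?_, fun v g h => ?_⟩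
  · set s : Finset ℕ := v.support ∪ w.support ∪ (excI S v g).support with hs
    have h1 : ∀ k, k ∉ s → v k = 0 := by
      intro k hk
      by_contra h
      exact hk (Finset.mem_union_left _ (Finset.mem_union_left _ (DFinsupp.mem_support_iff.2 h)))
    have h2 : ∀ k, k ∉ s → w k = 0 := by
      intro k hk
      by_contra h
      exact hk (Finset.mem_union_left _ (Finset.mem_union_right _ (DFinsupp.mem_support_iff.2 h)))
    have h3 : ∀ k, k ∉ s → excI S v g k = 0 := by
      intro k hk
      by_contra h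
      exact hk (Finset.mem_union_right _ (DFinsupp.mem_support_iff.2 h))
    rw [exc_betaP s _ _ h3, exc_betaP s _ _ h1, exc_chiP S s w g h2, ← Finset.sum_add_distrib]
    refine Finset.sum_congr rfl fun k _ => ?_
    rw [exc_apply, exc_apply, exc_bk, map_add]
    congr 1
    split_ifs with h
    · rw [mul_comm]
    · simp
  · show excSh 0 + excZ S (excA 0 + excB (Multiplicative.toAdd (piG 1))) = 0
    rw [map_one, toAdd_one]
    have e1 : (0 : Π₀ k : ℕ, (ZMod (pk k) × ZMod (pk k))) + 0 = 0 := zero_add _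
    have e2 : excA 0 + excB 0 = 0 := by
      rw [map_zero, map_zero]
      exact e1
    rw [e2, map_zero, map_zero]
    exact zero_add (0 : VP)
  · ext1 k
    ext1 j
    have h1 : (excI S v g k) (j + 1) = 0 := by rw [h]; rfl
    rw [exc_apply, Finsupp.add_apply, Finsupp.single_eq_of_ne (by simp), add_zero] at h1
    have h2 := Finsupp.mapDomain_apply Nat.succ_injective (v k) j
    rw [← h2]
    exact h1

end Pool.Agent.H146R2.SD
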