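import Mathlib
import Pool.Agent.H146R2.SD.CNC
import Pool.Agent.H146R2.SD.HYP
import Pool.Agent.H146R2.SD.PRM
import Pool.Agent.Helper436.SM.ExM
import Pool.Agent.H146R2.SD.EXA
import Pool.Agent.H146R2.SD.EXB
import Pool.Agent.H146R2.SD.EXC

set_option autoImplicit false
set_option linter.unusedSectionVars false

open scoped ComplexConjugate Topology
open Filter

namespace Pool.Agent.H146R2.SD

open Pool.Agent.Helper278 Pool.Agent.Helper436.SM
open Pool.Agent.Helper436.SM.Sub (exists_sub)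
open Pool.Agent.Helper436.SM.ExM (j13735_le_atTop)

theorem exd_span_comm {A : Type*} [Ring A] [Algebra ℂ A] {X : VV → A} {y : A}
    (hy : ∀ a, X a * y = y * X a) {z : A} (hz : z ∈ Submodule.span ℂ (Set.range X)) :
    z * y = y * z := by
  induction hz using Submodule.span_induction with
  | mem z hz => obtain ⟨a, rfl⟩ := hz; exact hy a
  | zero => rw [zero_mul, mul_zero]
  | add a b _ _ ha hb => rw [add_mul, mul_add, ha, hb]
  | smul c a _ ha => rw [smul_mul_assoc, mul_smul_comm, ha]

theorem exd_span_trace {A : Type*} [Ring A] [Algebra ℂ A] (τ : A →ₗ[ℂ] ℂ) {X : VV → A} {y : A}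
    (hy : ∀ a, τ (X a * y) = 0) {z : A} (hz : z ∈ Submodule.span ℂ (Set.range X)) :
    τ (z * y) = 0 := by
  induction hz using Submodule.span_induction with
  | mem z hz => obtain ⟨a, rfl⟩ := hz; exact hy a
  | zero => rw [zero_mul, map_zero]
  | add a b _ _ ha hb => rw [add_mul, map_add, ha, hb, add_zero]
  | smul c a _ ha => rw [smul_mul_assoc, map_smul, ha, smul_zero]

theorem exd_add_neg (v : VP) : v + -v = 0 := add_neg_cancel v

theorem exd_neg_add (v : VP) : -v + v = 0 := neg_add_cancel v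

theorem exd_add_zero (v : VP) : v + 0 = v := add_zero v

theorem exd_zero_add (v : VP) : 0 + v = v := zero_add v

theorem exd_neg_zero : -(0 : VP) = 0 := by
  have h := exd_neg_add 0
  rwa [exd_add_zero] at h

theorem exd_neg_of {v w : VP} (h : 0 = v + w) : w = -v := by
  calc w = 0 + w := (exd_zero_add w).symm
    _ = (-v + v) + w := by rw [exd_neg_add]
    _ = -v + (v + w) := add_assoc (-v) v w
    _ = -v + 0 := by rw [← h]
    _ = -v := exd_add_zero _

theorem exd_eq_of {v w : VP} (h : -v + w = 0) : v = w := neg_add_eq_zero.1 h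

theorem exd_beta_neg_right (v w : VP) : betaP v (-w) = - betaP v w := by
  have h : betaP v (-w) + betaP v w = 0 := by
    rw [← map_add, exd_neg_add, map_zero]
  exact eq_neg_of_add_eq_zero_left h

theorem exd_beta_neg_left (v w : VP) : betaP (-v) w = - betaP v w := by
  have h : betaP (-v) w + betaP v w = 0 := by
    rw [← AddMonoidHom.add_apply, ← map_add, exd_neg_add, map_zero]
    rfl
  exact eq_neg_of_add_eq_zero_left h

theorem exd_chi_neg_left (S : Set ℕ) (v : VP) (g : Additive GF) :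
    chiP S (-v) g = - chiP S v g := by
  have h : chiP S (-v) g + chiP S v g = 0 := by
    rw [← AddMonoidHom.add_apply, ← map_add, exd_neg_add, map_zero]
    rfl
  exact eq_neg_of_add_eq_zero_left h

/-- the adjoint of a Weyl unitary -/
theorem exd_star_Y {A : Type*} [Ring A] [StarRing A] [Algebra ℂ A] {Y : VP → A} (hY0 : Y 0 = 1)
    (hYmul : ∀ v w, Y v * Y w = e (betaP v w) • Y (v + w)) (hYun : ∀ v, Y v ∈ unitary A)
    (v : VP) : star (Y v) = e (betaP v v) • Y (-v) := by
  have h1 : Y v * (e (betaP v v) • Y (-v)) = 1 := by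
    rw [mul_smul_comm, hYmul, smul_smul, exd_add_neg, hY0, exd_beta_neg_right, e_mul_neg, one_smul]
  calc star (Y v) = star (Y v) * (Y v * (e (betaP v v) • Y (-v))) := by rw [h1, mul_one]
    _ = (star (Y v) * Y v) * (e (betaP v v) • Y (-v)) := by rw [mul_assoc]
    _ = _ := by rw [(Unitary.mem_iff.1 (hYun v)).1, one_mul]

theorem exd_unit {A : Type*} [Ring A] [StarRing A] [Algebra ℂ A] {Y : VP → A}
    (hYun : ∀ v, Y v ∈ unitary A) {Z : Type} [Group Z] (P : Z →* A)
    (hP : ∀ x, star (P x) = P x⁻¹) (x : Z) (v : VP) : P x * Y v ∈ unitary A := by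
  refine mul_mem ?_ (hYun v)
  rw [Unitary.mem_iff, hP, ← map_mul, ← map_mul, inv_mul_cancel, mul_inv_cancel, map_one]
  exact ⟨rfl, rfl⟩

/-- the factor `M_S`, inside the ultrapower of the hyperfinite factor -/
theorem exists_MS (S : Set ℕ) (U : Ultrafilter ℕ) (hU : ∀ n, {n} ∉ U) :
    ∃ (K : Type) (_ : NormedAddCommGroup K) (_ : InnerProductSpace ℂ K) (_ : CompleteSpace K)
      (M : VonNeumannAlgebra K) (S0 : TracialState M) (u : GF →* Elt M) (W : VP → Elt M),
      TW (DP S) S0.τ u W ∧ ConnesEmbeddable U (fun x : Elt M => S0.τ x) := by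
  obtain ⟨H, _, _, _, N, T0, X, Y, hR, hX, hY0, hYmul, hYun, hXY, htr⟩ := exists_R2
  obtain ⟨m, s, hms⟩ := perm_GF
  obtain ⟨io, hio1, hio2, hio3, hio4⟩ := exists_iota S
  obtain ⟨Q, _, _, _, _, π, σ, hπ⟩ := exists_ultrapower T0 U
  choose P hP1 hP2 hP3 using fun n => exists_perm_span hX (m n)
  -- the commutation of the permutation unitaries with the Weyl unitaries
  have hPY : ∀ n x v, P n x * Y v = Y v * P n x := fun n x v =>
    exd_span_comm (fun a => hXY a v) (hP2 n x)
  have hioneg : ∀ v g, io (-v) g⁻¹ = - io v g := by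
    intro v g
    have h1 := hio2 v (-v) g g⁻¹
    rw [exd_add_neg, mul_inv_cancel, hio3] at h1
    exact exd_neg_of h1
  let q : GF × VP → Q := fun t => π (mkB fun n =>
    ⟨P n (s n t.1) * Y (io t.2 t.1), exd_unit hYun (P n) (hP1 n) (s n t.1) (io t.2 t.1)⟩)
  have q_mul : ∀ t t' : GF × VP, q t * q t' =
      e (betaP t.2 t'.2 + chiP S t'.2 (Additive.ofMul t.1)) • q (t.1 * t'.1, t.2 + t'.2) := by
    intro t t'
    show π _ * π _ = _ • π _
    rw [← map_mul, ← map_smul]
    congr 1
    ext1 n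
    show P n (s n t.1) * Y (io t.2 t.1) * (P n (s n t'.1) * Y (io t'.2 t'.1)) =
      e (betaP t.2 t'.2 + chiP S t'.2 (Additive.ofMul t.1)) •
        (P n (s n (t.1 * t'.1)) * Y (io (t.2 + t'.2) (t.1 * t'.1)))
    calc P n (s n t.1) * Y (io t.2 t.1) * (P n (s n t'.1) * Y (io t'.2 t'.1))
        = P n (s n t.1) * (Y (io t.2 t.1) * P n (s n t'.1)) * Y (io t'.2 t'.1) := by
          simp only [mul_assoc]
      _ = P n (s n t.1) * (P n (s n t'.1) * Y (io t.2 t.1)) * Y (io t'.2 t'.1) := by rw [hPY]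
      _ = (P n (s n t.1) * P n (s n t'.1)) * (Y (io t.2 t.1) * Y (io t'.2 t'.1)) := by
          simp only [mul_assoc]
      _ = _ := by
          rw [hYmul, ← map_mul, ← map_mul, mul_smul_comm, hio1, hio2]
  have q_star : ∀ t : GF × VP, star (q t) =
      e (betaP t.2 t.2 + chiP S t.2 (Additive.ofMul t.1)) • q (t.1⁻¹, -t.2) := by
    intro t
    show star (π _) = _ • π _
    rw [← map_star, ← map_smul]
    congr 1
    ext1 n
    show star (P n (s n t.1) * Y (io t.2 t.1)) =
      e (betaP t.2 t.2 + chiP S t.2 (Additive.ofMul t.1)) •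
        (P n (s n t.1⁻¹) * Y (io (-t.2) t.1⁻¹))
    rw [star_mul, hP1, exd_star_Y hY0 hYmul hYun, smul_mul_assoc, ← hPY, hioneg, hio1,
      map_inv (s n)]
  have q_one : q (1, 0) = 1 := by
    show π _ = 1
    rw [← map_one π]
    congr 1
    ext1 n
    show P n (s n 1) * Y (io 0 1) = 1
    rw [map_one (s n), map_one (P n), hio3, hY0, one_mul]
  have q_unit : ∀ t, q t ∈ unitary Q := by
    intro t
    have e1 : betaP (-t.2) t.2 + chiP S t.2 (Additive.ofMul t.1⁻¹) =
        -(betaP t.2 t.2 + chiP S t.2 (Additive.ofMul t.1)) := by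
      have h1 : betaP (-t.2) t.2 = - betaP t.2 t.2 := exd_beta_neg_left _ _
      have h2 : chiP S t.2 (Additive.ofMul t.1⁻¹) = - chiP S t.2 (Additive.ofMul t.1) := by
        rw [ofMul_inv, map_neg]
      rw [h1, h2]; abel
    have e2 : betaP t.2 (-t.2) + chiP S (-t.2) (Additive.ofMul t.1) =
        -(betaP t.2 t.2 + chiP S t.2 (Additive.ofMul t.1)) := by
      have h1 : betaP t.2 (-t.2) = - betaP t.2 t.2 := exd_beta_neg_right _ _
      have h2 : chiP S (-t.2) (Additive.ofMul t.1) = - chiP S t.2 (Additive.ofMul t.1) :=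
        exd_chi_neg_left _ _ _
      rw [h1, h2]; abel
    rw [Unitary.mem_iff]
    constructor
    · rw [q_star, smul_mul_assoc, q_mul, smul_smul]
      show (_ * e (betaP (-t.2) t.2 + chiP S t.2 (Additive.ofMul t.1⁻¹))) •
        q (t.1⁻¹ * t.1, -t.2 + t.2) = 1
      rw [e1, e_mul_neg, one_smul, inv_mul_cancel, exd_neg_add]
      exact q_one
    · rw [q_star, mul_smul_comm, q_mul, smul_smul]
      show (_ * e (betaP t.2 (-t.2) + chiP S (-t.2) (Additive.ofMul t.1))) •
        q (t.1 * t.1⁻¹, t.2 + -t.2) = 1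
      rw [e2, e_mul_neg, one_smul, mul_inv_cancel, exd_add_neg]
      exact q_one
  have q_trace : ∀ t : GF × VP, t ≠ (1, 0) → σ (q t) = 0 := by
    intro t ht
    refine tendsto_nhds_unique (hπ.trace _) ?_
    by_cases h2 : io t.2 t.1 = 0
    · have h3 : t.2 = 0 := hio4 _ _ h2
      have h1 : t.1 ≠ 1 := fun h1 => ht (Prod.ext h1 h3)
      have e1 : ∀ n, T0.τ ((mkB fun n => ⟨P n (s n t.1) * Y (io t.2 t.1),
          exd_unit hYun (P n) (hP1 n) (s n t.1) (io t.2 t.1)⟩) n) =
          (Fintype.card {a : Fin (m n) → ZMod 2 // s n t.1 a = a} : ℂ) / 2 ^ (m n) := by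
        intro n
        show T0.τ (P n (s n t.1) * Y (io t.2 t.1)) = _
        rw [h2, hY0, mul_one]
        exact hP3 n (s n t.1)
      refine Tendsto.congr (fun n => (e1 n).symm) ?_
      have h3 := (Complex.continuous_ofReal.tendsto 0).comp
        ((hms t.1 h1).mono_left (j13735_le_atTop hU))
      rw [Complex.ofReal_zero] at h3
      refine h3.congr fun n => ?_
      show (((Fintype.card {a : Fin (m n) → ZMod 2 // s n t.1 a = a} : ℝ) / 2 ^ (m n) : ℝ) : ℂ) = _
      push_cast
      rfl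
    · have e1 : ∀ n, T0.τ ((mkB fun n => ⟨P n (s n t.1) * Y (io t.2 t.1),
          exd_unit hYun (P n) (hP1 n) (s n t.1) (io t.2 t.1)⟩) n) = 0 := fun n =>
        exd_span_trace T0.τ (fun a => htr a _ h2) (hP2 n (s n t.1))
      refine Tendsto.congr (fun n => (e1 n).symm) ?_
      exact tendsto_const_nhds
  have horth : ∀ i j, i ≠ j → σ (star (q i) * q j) = 0 := by
    intro i j hij
    rw [q_star, smul_mul_assoc, q_mul, smul_smul]
    show sigmaL hπ (_ • q (i.1⁻¹ * j.1, -i.2 + j.2)) = 0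
    rw [map_smul]
    have h1 : sigmaL hπ (q (i.1⁻¹ * j.1, -i.2 + j.2)) = 0 := by
      refine q_trace _ fun h => hij ?_
      rw [Prod.mk.injEq] at h
      exact Prod.ext (inv_mul_eq_one.1 h.1) (exd_eq_of h.2)
    rw [h1, smul_zero]
  obtain ⟨K, _, _, _, M, S0, θ, r, hσ, hr, hpars⟩ := exists_sub hU hπ q q_unit horth
    (fun i j => ⟨_, _, q_mul i j⟩) (fun i => ⟨_, _, q_star i⟩) ⟨_, q_one⟩
  have hθ : Function.Injective θ := by
    rw [injective_iff_map_eq_zero]
    intro x hx
    apply S0.faithful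
    rw [← hσ, map_mul, hx, mul_zero]
    exact (sigmaL hπ).map_zero
  -- special phases
  have ph1 : ∀ g : GF, betaP 0 0 + chiP S 0 (Additive.ofMul g) = 0 := by
    intro g
    have h1 : chiP S 0 (Additive.ofMul g) = 0 := by rw [map_zero]; rfl
    have h2 : betaP 0 0 = 0 := map_zero (betaP 0)
    rw [h1, h2, add_zero]
  have ph2 : ∀ (v w : VP), betaP v w + chiP S w (Additive.ofMul (1 : GF)) = betaP v w := by
    intro v w
    have h1 : chiP S w (Additive.ofMul (1 : GF)) = 0 := by rw [ofMul_one, map_zero]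
    rw [h1, add_zero]
  have ph3 : ∀ (g : GF) (v : VP), betaP 0 v + chiP S v (Additive.ofMul g) =
      chiP S v (Additive.ofMul g) := by
    intro g v
    have h1 : betaP 0 v = 0 := by rw [map_zero]; rfl
    rw [h1, zero_add]
  have ph4 : ∀ (g : GF) (v : VP), betaP v 0 + chiP S 0 (Additive.ofMul g) = 0 := by
    intro g v
    have h1 : betaP v 0 = 0 := map_zero _
    have h2 : chiP S 0 (Additive.ofMul g) = 0 := by rw [map_zero]; rfl
    rw [h1, h2, add_zero]
  let u : GF →* Elt M :=
    { toFun := fun g => r (g, 0)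
      map_one' := hθ (by rw [hr, map_one]; exact q_one)
      map_mul' := fun g h => hθ (by
        rw [map_mul, hr, hr, hr, q_mul]
        show q (g * h, 0) = e (betaP 0 0 + chiP S 0 (Additive.ofMul g)) • q (g * h, 0 + 0)
        rw [ph1, e_zero, one_smul, exd_add_zero]) }
  have hu : ∀ g, u g = r (g, 0) := fun g => rfl
  have hprod : ∀ (g : GF) (v : VP), u g * r (1, v) =
      e (chiP S v (Additive.ofMul g)) • r (g, v) := by
    intro g v
    apply hθ
    rw [hu, map_smul, map_mul, hr, hr, hr, q_mul]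
    show e (betaP 0 v + chiP S v (Additive.ofMul g)) • q (g * 1, 0 + v) = _
    rw [ph3, mul_one, exd_zero_add]
  have hprod2 : ∀ (g : GF) (v : VP), r (1, v) * u g = r (g, v) := by
    intro g v
    apply hθ
    rw [hu, map_mul, hr, hr, hr, q_mul]
    show e (betaP v 0 + chiP S 0 (Additive.ofMul (1 : GF))) • q (1 * g, v + 0) = _
    rw [ph4, e_zero, one_smul, one_mul, exd_add_zero]
  refine ⟨K, inferInstance, inferInstance, inferInstance, M, S0, u, fun v => r (1, v), ?_,
    H, inferInstance, inferInstance, inferInstance, N, fun x => T0.τ x, Q,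
    inferInstance, inferInstance, inferInstance, CE.plain π, σ, hR, CE.plain_tracial hπ, θ,
    fun x => hσ x⟩
  refine ⟨trAlg S0, ?_, ?_, ?_, ?_, ?_, ?_, ?_⟩
  · intro g
    apply hθ
    rw [hu, hu, map_star, hr, hr, q_star]
    show e (betaP 0 0 + chiP S 0 (Additive.ofMul g)) • q (g⁻¹, -0) = _
    rw [ph1, e_zero, one_smul, exd_neg_zero]
  · apply hθ
    rw [hr, map_one]
    exact q_one
  · intro v w
    apply hθ
    rw [map_smul, map_mul, hr, hr, hr, q_mul]
    show e (betaP v w + chiP S w (Additive.ofMul (1 : GF))) • q (1 * 1, v + w) =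
      e (betaP v w) • q (1, v + w)
    rw [ph2, one_mul]
  · intro v
    apply hθ
    rw [map_mul, map_star, hr, map_one]
    exact (Unitary.mem_iff.1 (q_unit _)).1
  · intro v
    apply hθ
    rw [map_mul, map_star, hr, map_one]
    exact (Unitary.mem_iff.1 (q_unit _)).2
  · intro g v
    rw [hprod, hprod2]
    rfl
  · intro x
    have h1 := hpars x
    have h2 : (fun t : GF × VP => ‖S0.τ (star (u t.1 * r (1, t.2)) * x)‖ ^ 2) =
        fun t => ‖S0.τ (star (r t) * x)‖ ^ 2 := by
      funext t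
      rw [hprod, star_smul, smul_mul_assoc, map_smul, norm_smul]
      have h3 : ‖star (e (chiP S t.2 (Additive.ofMul t.1)))‖ = 1 := by
        rw [norm_star]; exact norm_e _
      rw [h3, one_mul]
    rw [h2]
    exact h1

end Pool.Agent.H146R2.SD
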