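import Mathlib
import Pool.Agent.H146R2.SD.CNC
import Pool.Agent.H146R2.SD.HYP
import Pool.Agent.H146R2.SD.PRM
import Pool.Agent.Helper436.SM.ExM
import Pool.Agent.H146R2.SD.EXA
import Pool.Agent.H146R2.SD.EXB
import Pool.Agent.H146R2.SD.EXC
import Pool.Agent.H146R2.SD.EXD

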