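import Mathlib
import Pool.Agent.H146R2.SD.BAS

set_option autoImplicit false
set_option linter.unusedSectionVars false

open scoped ComplexConjugate Topology
open Filter

namespace Pool.Agent.H146R2.SD

open Pool.Agent.Helper278 Pool.Agent.Helper436.SM

/-! ### words in a free group -/

section words

variable {X : Type} [DecidableEq X]

theorem gab_isReduced_cons {x y : X} {s t : Bool} {L : List (X × Bool)}
    (h : FreeGroup.IsReduced ((x, s) :: L)) (hxy : y ≠ x ∨ t = s) :
    FreeGroup.IsReduced ((y, t) :: (x, s) :: L) := by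
  unfold FreeGroup.IsReduced at *
  rw [List.isChain_cons_cons]
  refine ⟨?_, h⟩
  intro hy
  rcases hxy with h1 | h1
  · exact absurd hy h1
  · exact h1

theorem gab_left_mul {x y : X} {s t : Bool} {L : List (X × Bool)} {w : FreeGroup X}
    (hw : w.toWord = (x, s) :: L)
    (hxy : y ≠ x ∨ t = s) : (FreeGroup.mk [(y, t)] * w).toWord = (y, t) :: (x, s) :: L := by
  have h1 : FreeGroup.IsReduced ((x, s) :: L) := hw ▸ FreeGroup.isReduced_toWord
  have h2 := gab_isReduced_cons h1 hxy
  have h3 : FreeGroup.mk [(y, t)] * w = FreeGroup.mk ((y, t) :: (x, s) :: L) := by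
    conv_lhs => rw [← FreeGroup.mk_toWord (x := w), hw]
    rw [FreeGroup.mul_mk]
    rfl
  rw [h3, FreeGroup.toWord_mk, h2.reduce_eq]

theorem gab_right_mul {x y : X} {s t : Bool} {L : List (X × Bool)} {w : FreeGroup X}
    (hw : w.toWord = (x, s) :: L)
    (hxy : y ≠ x) : ∃ L', (w * FreeGroup.mk [(y, t)]).toWord = (x, s) :: L' := by
  have h1 : FreeGroup.IsReduced ((x, s) :: L) := hw ▸ FreeGroup.isReduced_toWord
  have h3 : w * FreeGroup.mk [(y, t)] = FreeGroup.mk (((x, s) :: L) ++ [(y, t)]) := by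
    conv_lhs => rw [← FreeGroup.mk_toWord (x := w), hw]
    rw [FreeGroup.mul_mk]
  by_cases h2 : FreeGroup.IsReduced (((x, s) :: L) ++ [(y, t)])
  · refine ⟨L ++ [(y, t)], ?_⟩
    rw [h3, FreeGroup.toWord_mk, h2.reduce_eq]
    rfl
  · -- the last letter cancels
    obtain ⟨M, z, r, hM⟩ : ∃ M z r, (x, s) :: L = M ++ [(z, r)] := by
      have := List.dropLast_append_getLast (l := (x, s) :: L) (by simp)
      exact ⟨_, (((x, s) :: L).getLast (by simp)).1, (((x, s) :: L).getLast (by simp)).2, this.symm⟩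
    have h4 : y = z ∧ t = !r := by
      by_contra hcon
      apply h2
      rw [hM]
      unfold FreeGroup.IsReduced at *
      rw [hM] at h1
      rw [List.isChain_append]
      refine ⟨h1, List.isChain_singleton _, ?_⟩
      intro p hp q hq
      simp only [List.getLast?_append, List.getLast?_singleton, Option.some_or, Option.mem_def,
        Option.some.injEq] at hp
      simp only [List.head?_cons, Option.mem_def, Option.some.injEq] at hq
      subst hp hq
      intro hzy
      by_contra hne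
      exact hcon ⟨hzy.symm, by
        cases r <;> cases t <;> simp_all⟩
    obtain ⟨h5, h6⟩ := h4
    subst h5 h6
    cases M with
    | nil =>
      simp only [List.nil_append, List.cons.injEq, Prod.mk.injEq] at hM
      exact absurd hM.1.1.symm hxy
    | cons m M =>
      simp only [List.cons_append, List.cons.injEq] at hM
      obtain ⟨hm, hL⟩ := hM
      refine ⟨M, ?_⟩
      have h7 : w * FreeGroup.mk [(y, !r)] = FreeGroup.mk ((x, s) :: M) := by
        rw [h3, hL]
        have : ((x, s) :: (M ++ [(y, r)])) ++ [(y, !r)] = ((x, s) :: M) ++ ([(y, r)] ++ [(y, !r)]) := by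
          simp
        rw [this, ← FreeGroup.mul_mk, ← FreeGroup.mul_mk (L₁ := [(y, r)])]
        have h8 : FreeGroup.mk [(y, r)] * FreeGroup.mk [(y, !r)] = 1 := by
          have : FreeGroup.mk [(y, !r)] = (FreeGroup.mk [(y, r)])⁻¹ := by
            rw [FreeGroup.inv_mk]
            rfl
          rw [this, mul_inv_cancel]
        rw [h8, mul_one]
      have h8 : FreeGroup.IsReduced ((x, s) :: M) := by
        rw [hL] at h1
        unfold FreeGroup.IsReduced at *
        have : (x, s) :: (M ++ [(y, r)]) = ((x, s) :: M) ++ [(y, r)] := rfl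
        rw [this] at h1
        exact (List.isChain_append.1 h1).1
      rw [h7, FreeGroup.toWord_mk, h8.reduce_eq]

/-- words starting with the letter `a` -/
def gabA (a : X) : Set (FreeGroup X) := {w | ∃ s L, w.toWord = (a, s) :: L}
/-- words starting with another letter -/
def gabN (a : X) : Set (FreeGroup X) := {w | ∃ x s L, x ≠ a ∧ w.toWord = (x, s) :: L}

theorem gab_inv_of (x : X) : (FreeGroup.of x)⁻¹ = FreeGroup.mk [(x, false)] := by
  show (FreeGroup.mk [(x, true)])⁻¹ = _
  rw [FreeGroup.inv_mk]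
  rfl

theorem gab_of (x : X) : FreeGroup.of x = FreeGroup.mk [(x, true)] := rfl

theorem gab_disj {a : X} {w : FreeGroup X} (h1 : w ∈ gabN a) (h2 : w ∈ gabA a) : False := by
  obtain ⟨x, s, L, hx, hL⟩ := h1
  obtain ⟨s', L', hL'⟩ := h2
  rw [hL] at hL'
  simp only [List.cons.injEq, Prod.mk.injEq] at hL'
  exact hx hL'.1.1

theorem gab_cover (a : X) (w : FreeGroup X) (hw : w ≠ 1) : w ∈ gabN a ∨ w ∈ gabA a := by
  have h1 : w.toWord ≠ [] := fun h => hw (FreeGroup.toWord_eq_nil_iff.1 h)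
  obtain ⟨⟨x, s⟩, L, hL⟩ := List.exists_cons_of_ne_nil h1
  by_cases hx : x = a
  · subst hx
    exact Or.inr ⟨s, L, hL⟩
  · exact Or.inl ⟨x, s, L, hx, hL⟩

theorem gab_one_N (a : X) : (1 : FreeGroup X) ∉ gabN a := by
  rintro ⟨x, s, L, -, hL⟩
  rw [FreeGroup.toWord_one] at hL
  simp at hL

theorem gab_conj_a {a : X} {w : FreeGroup X} (hw : w ∈ gabN a) :
    FreeGroup.of a * w * (FreeGroup.of a)⁻¹ ∈ gabA a := by
  obtain ⟨x, s, L, hx, hL⟩ := hw
  rw [gab_inv_of, gab_of]
  obtain ⟨L', hL'⟩ : ∃ L', (w * FreeGroup.mk [(a, false)]).toWord = (x, s) :: L' :=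
    gab_right_mul hL (Ne.symm hx)
  have h3 := gab_left_mul (y := a) (t := true) hL' (Or.inl (Ne.symm hx))
  rw [mul_assoc]
  exact ⟨_, _, h3⟩

theorem gab_conj_aa {a : X} {w : FreeGroup X} (hw : w ∈ gabN a) :
    FreeGroup.of a * (FreeGroup.of a * w * (FreeGroup.of a)⁻¹) * (FreeGroup.of a)⁻¹ ∈ gabA a := by
  obtain ⟨x, s, L, hx, hL⟩ := hw
  obtain ⟨L', hL'⟩ : ∃ L', (w * FreeGroup.mk [(a, false)]).toWord = (x, s) :: L' :=
    gab_right_mul hL (Ne.symm hx)
  obtain ⟨L'', hL''⟩ : ∃ L'', (w * FreeGroup.mk [(a, false)] *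
      FreeGroup.mk [(a, false)]).toWord = (x, s) :: L'' :=
    gab_right_mul hL' (Ne.symm hx)
  have h3 := gab_left_mul (y := a) (t := true) hL'' (Or.inl (Ne.symm hx))
  have h4 := gab_left_mul (y := a) (t := true) h3 (Or.inr rfl)
  have e : FreeGroup.of a * (FreeGroup.of a * w * (FreeGroup.of a)⁻¹) * (FreeGroup.of a)⁻¹ =
      FreeGroup.of a * (FreeGroup.of a * (w * (FreeGroup.of a)⁻¹ * (FreeGroup.of a)⁻¹)) := by group
  rw [e, gab_inv_of, gab_of]
  exact ⟨_, _, h4⟩

/-- conjugation by another letter -/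
theorem gab_conj_o {a b : X} (hab : b ≠ a) {w : FreeGroup X} (hw : w ∈ gabA a) :
    FreeGroup.of b * w * (FreeGroup.of b)⁻¹ ∈ gabN a := by
  obtain ⟨s, L, hL⟩ := hw
  rw [gab_inv_of, gab_of]
  obtain ⟨L', hL'⟩ : ∃ L', (w * FreeGroup.mk [(b, false)]).toWord = (a, s) :: L' :=
    gab_right_mul hL hab
  have h3 := gab_left_mul (y := b) (t := true) hL' (Or.inl hab)
  rw [mul_assoc]
  exact ⟨b, true, _, hab, h3⟩

end words

/-! ### masses -/

section mass

variable {G : Type} [Group G]
variable {A : Type} [Ring A] [StarRing A] [Algebra ℂ A] [StarModule ℂ A] {τ : A →ₗ[ℂ] ℂ}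
variable {V : Type} [AddCommGroup V] {D : Dat V G} {u : G →* A} {W : V → A}

theorem gab_union (h : TW D τ u W) {S S' : Set (G × V)} (hd : Disjoint S S') (x : A) :
    mass τ u W (S ∪ S') x = mass τ u W S x + mass τ u W S' x := by
  unfold mass
  rw [← Summable.tsum_add (h.summable_ind S x) (h.summable_ind S' x)]
  congr 1
  funext b
  rw [Set.indicator_union_of_disjoint hd]

theorem gab_ineq (a b : ℂ) : ‖a + b‖ ^ 2 ≤ (11 / 10) * ‖a‖ ^ 2 + 11 * ‖b‖ ^ 2 := by
  have h1 : ‖a + b‖ ≤ ‖a‖ + ‖b‖ := norm_add_le a b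
  have h2 : ‖a + b‖ ^ 2 ≤ (‖a‖ + ‖b‖) ^ 2 := by
    exact pow_le_pow_left₀ (norm_nonneg _) h1 2
  nlinarith [sq_nonneg (‖a‖ - 10 * ‖b‖)]

/-- near elements have near masses -/
theorem gab_near (h : TW D τ u W) (S : Set (G × V)) (x y : A) :
    mass τ u W S x ≤ (11 / 10) * mass τ u W S y + 11 * n2 τ (x - y) ^ 2 := by
  have h1 : mass τ u W S x ≤ (11 / 10) * mass τ u W S y + 11 * mass τ u W S (x - y) := by
    unfold mass
    rw [← tsum_mul_left, ← tsum_mul_left, ← Summable.tsum_add
      ((h.summable_ind S y).mul_left _) ((h.summable_ind S (x - y)).mul_left _)]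
    apply Summable.tsum_le_tsum _ (h.summable_ind S x)
      (((h.summable_ind S y).mul_left _).add ((h.summable_ind S (x - y)).mul_left _))
    intro b
    by_cases hb : b ∈ S
    · rw [Set.indicator_of_mem hb, Set.indicator_of_mem hb, Set.indicator_of_mem hb]
      have := gab_ineq (hat τ u W y b) (hat τ u W (x - y) b)
      have h0 : hat τ u W y b + hat τ u W (x - y) b = hat τ u W x b := by
        unfold hat
        rw [← map_add, ← mul_add, add_sub_cancel]
      rw [h0] at this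
      exact this
    · rw [Set.indicator_of_notMem hb, Set.indicator_of_notMem hb, Set.indicator_of_notMem hb]
      simp
  have h2 := h.mass_le S (x - y)
  linarith

/-- conjugation by a group element -/
theorem gab_hat (h : TW D τ u W) (g : G) (hg : ∀ v, D.χ v (Additive.ofMul g) = 0) (x : A)
    (k : G) (v : V) :
    hat τ u W (u g * x * star (u g)) (g * k * g⁻¹, v) = hat τ u W x (k, v) := by
  unfold hat
  have h1 : u g⁻¹ * W v = W v * u g⁻¹ := by
    rw [h.comm g⁻¹ v]
    have : D.χ v (Additive.ofMul g⁻¹) = 0 := by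
      rw [ofMul_inv, map_neg, hg v, neg_zero]
    rw [this, e_zero, one_smul]
  have h2 : star (u g) * u g = 1 := by
    rw [h.star_u, ← map_mul, inv_mul_cancel, map_one]
  have h3 : u (g * k * g⁻¹) * W v = u g * (u k * W v) * star (u g) := by
    rw [map_mul, map_mul, h.star_u, mul_assoc, h1]
    simp only [mul_assoc]
  have h4 : star (u (g * k * g⁻¹) * W v) * (u g * x * star (u g)) =
      u g * (star (u k * W v) * x * star (u g)) := by
    rw [h3, star_mul, star_mul, star_star]
    calc u g * (star (u k * W v) * star (u g)) * (u g * x * star (u g))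
        = u g * star (u k * W v) * (star (u g) * u g) * x * star (u g) := by
          simp only [mul_assoc]
      _ = _ := by rw [h2, mul_one]; simp only [mul_assoc]
  show τ (star (u (g * k * g⁻¹) * W v) * (u g * x * star (u g))) = τ (star (u k * W v) * x)
  rw [h4, h.tr.comm, mul_assoc, h2, mul_one]

/-- the mass of conjugated elements -/
theorem gab_mass (h : TW D τ u W) (g : G) (hg : ∀ v, D.χ v (Additive.ofMul g) = 0) (x : A)
    (S : Set (G × V)) :
    mass τ u W {b | (g⁻¹ * b.1 * g, b.2) ∈ S} (u g * x * star (u g)) = mass τ u W S x := by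
  unfold mass
  let φ : G × V ≃ G × V :=
    { toFun := fun b => (g * b.1 * g⁻¹, b.2)
      invFun := fun b => (g⁻¹ * b.1 * g, b.2)
      left_inv := fun b => by ext <;> simp [mul_assoc]
      right_inv := fun b => by ext <;> simp [mul_assoc] }
  rw [← φ.tsum_eq]
  congr 1
  funext b
  have h1 : (φ b ∈ {b : G × V | (g⁻¹ * b.1 * g, b.2) ∈ S}) ↔ b ∈ S := by
    show (g⁻¹ * (g * b.1 * g⁻¹) * g, b.2) ∈ S ↔ b ∈ S
    have : g⁻¹ * (g * b.1 * g⁻¹) * g = b.1 := by group
    rw [this]
  by_cases hb : b ∈ S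
  · rw [Set.indicator_of_mem hb, Set.indicator_of_mem (h1.2 hb)]
    have := gab_hat h g hg x b.1 b.2
    show ‖hat τ u W (u g * x * star (u g)) (g * b.1 * g⁻¹, b.2)‖ ^ 2 = _
    rw [this]
  · rw [Set.indicator_of_notMem hb, Set.indicator_of_notMem (fun h2 => hb (h1.1 h2))]

theorem gab_comm (h : TW D τ u W) (g : G) (x : A) :
    n2 τ (u g * x * star (u g) - x) = n2 τ (u g * x - x * u g) := by
  have h1 : u g * star (u g) = 1 := by
    rw [h.star_u, ← map_mul, mul_inv_cancel, map_one]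
  have h2 : star (u g) * u g = 1 := by
    rw [h.star_u, ← map_mul, inv_mul_cancel, map_one]
  have h3 : u g * x * star (u g) - x = (u g * x - x * u g) * star (u g) := by
    rw [sub_mul, mul_assoc x, h1, mul_one]
  unfold n2
  rw [h3, star_mul, star_star]
  congr 2
  rw [h.tr.comm, mul_assoc, ← mul_assoc (star (u g)), h2, one_mul, h.tr.comm]

/-- comparison of the masses of a set and of its conjugate -/
theorem gab_cmp (h : TW D τ u W) (g : G) (hg : ∀ v, D.χ v (Additive.ofMul g) = 0) (x : A)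
    (S : Set (G × V)) :
    mass τ u W S x ≤ (11 / 10) * mass τ u W {b | (g⁻¹ * b.1 * g, b.2) ∈ S} x +
      11 * n2 τ (u g * x - x * u g) ^ 2 := by
  rw [← gab_mass h g hg x S, ← gab_comm h g x]
  exact gab_near h _ _ _

end mass

variable {A : Type} [Ring A] [StarRing A] [Algebra ℂ A] [StarModule ℂ A] {τ : A →ₗ[ℂ] ℂ}
variable {V : Type} [AddCommGroup V] {X : Type} {D : Dat V (FreeGroup X)} {u : FreeGroup X →* A}
  {W : V → A}

/-- the spectral gap of two letters of a free group -/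
theorem TW.gap_ab (h : TW D τ u W) (a b : X) (hab : a ≠ b)
    (ha : ∀ v, D.χ v (Additive.ofMul (FreeGroup.of a)) = 0)
    (hb : ∀ v, D.χ v (Additive.ofMul (FreeGroup.of b)) = 0) (x : A) :
    mass τ u W {b' | b'.1 ≠ 1} x ≤
      1000 * (n2 τ (u (FreeGroup.of a) * x - x * u (FreeGroup.of a)) ^ 2 +
        n2 τ (u (FreeGroup.of b) * x - x * u (FreeGroup.of b)) ^ 2) := by
  classical
  set dA := n2 τ (u (FreeGroup.of a) * x - x * u (FreeGroup.of a)) ^ 2 with hdA
  set dB := n2 τ (u (FreeGroup.of b) * x - x * u (FreeGroup.of b)) ^ 2 with hdB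
  have hdA0 : 0 ≤ dA := sq_nonneg _
  have hdB0 : 0 ≤ dB := sq_nonneg _
  set SN : Set (FreeGroup X × V) := {t | t.1 ∈ gabN a} with hSN
  set SA : Set (FreeGroup X × V) := {t | t.1 ∈ gabA a} with hSA
  set S1 : Set (FreeGroup X × V) :=
    {t | ((FreeGroup.of a)⁻¹ * t.1 * FreeGroup.of a, t.2) ∈ SN} with hS1
  set S2 : Set (FreeGroup X × V) :=
    {t | ((FreeGroup.of a)⁻¹ * t.1 * FreeGroup.of a, t.2) ∈ S1} with hS2
  set S3 : Set (FreeGroup X × V) :=
    {t | ((FreeGroup.of b)⁻¹ * t.1 * FreeGroup.of b, t.2) ∈ SA} with hS3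
  -- conjugates
  have c1 : ∀ t ∈ S1, t.1 ∈ gabA a := by
    intro t ht
    have h1 : (FreeGroup.of a)⁻¹ * t.1 * FreeGroup.of a ∈ gabN a := ht
    have h2 := gab_conj_a h1
    have h3 : FreeGroup.of a * ((FreeGroup.of a)⁻¹ * t.1 * FreeGroup.of a) * (FreeGroup.of a)⁻¹ =
        t.1 := by group
    rwa [h3] at h2
  have c2 : ∀ t ∈ S2, t.1 ∈ gabA a := by
    intro t ht
    have h1 : (FreeGroup.of a)⁻¹ * ((FreeGroup.of a)⁻¹ * t.1 * FreeGroup.of a) *
        FreeGroup.of a ∈ gabN a := ht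
    have h2 := gab_conj_aa h1
    have h3 : FreeGroup.of a * (FreeGroup.of a * ((FreeGroup.of a)⁻¹ *
        ((FreeGroup.of a)⁻¹ * t.1 * FreeGroup.of a) * FreeGroup.of a) * (FreeGroup.of a)⁻¹) *
        (FreeGroup.of a)⁻¹ = t.1 := by group
    rwa [h3] at h2
  have c3 : S3 ⊆ SN := by
    intro t ht
    have h1 : (FreeGroup.of b)⁻¹ * t.1 * FreeGroup.of b ∈ gabA a := ht
    have h2 := gab_conj_o (Ne.symm hab) h1
    have h3 : FreeGroup.of b * ((FreeGroup.of b)⁻¹ * t.1 * FreeGroup.of b) * (FreeGroup.of b)⁻¹ =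
        t.1 := by group
    rw [h3] at h2
    exact h2
  have c12 : ∀ t, t ∈ S1 → t ∈ S2 → False := by
    intro t h1 h2
    have h1' : (FreeGroup.of a)⁻¹ * t.1 * FreeGroup.of a ∈ gabN a := h1
    have h2' := c1 _ (show ((FreeGroup.of a)⁻¹ * t.1 * FreeGroup.of a, t.2) ∈ S1 from h2)
    exact gab_disj h1' h2'
  have A_ne : ∀ w : FreeGroup X, w ∈ gabA a → w ≠ 1 := by
    rintro w ⟨s, L, hL⟩ rfl
    rw [FreeGroup.toWord_one] at hL
    simp at hL
  have N_ne : ∀ w : FreeGroup X, w ∈ gabN a → w ≠ 1 := by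
    rintro w hw rfl
    exact gab_one_N a hw
  -- inequalities
  have i1 : mass τ u W SA x ≤ (11 / 10) * mass τ u W S3 x + 11 * dB :=
    gab_cmp h (FreeGroup.of b) hb x SA
  have i2 : mass τ u W S3 x ≤ mass τ u W SN x := h.mass_mono c3 x
  have i3 : mass τ u W SN x ≤ (11 / 10) * mass τ u W S1 x + 11 * dA :=
    gab_cmp h (FreeGroup.of a) ha x SN
  have i4 : mass τ u W S1 x ≤ (11 / 10) * mass τ u W S2 x + 11 * dA :=
    gab_cmp h (FreeGroup.of a) ha x S1
  have i5 : mass τ u W SN x + mass τ u W S1 x + mass τ u W S2 x ≤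
      mass τ u W {b' | b'.1 ≠ 1} x := by
    rw [← gab_union h (S := SN) (S' := S1), ← gab_union h]
    · apply h.mass_mono
      rintro t ((ht | ht) | ht)
      · exact N_ne _ ht
      · exact A_ne _ (c1 t ht)
      · exact A_ne _ (c2 t ht)
    · rw [Set.disjoint_left]
      rintro t (ht | ht) ht2
      · exact gab_disj ht (c2 t ht2)
      · exact c12 t ht ht2
    · rw [Set.disjoint_left]
      intro t ht ht2
      exact gab_disj ht (c1 t ht2)
  have i6 : mass τ u W {b' | b'.1 ≠ 1} x ≤ mass τ u W SN x + mass τ u W SA x := by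
    refine (h.mass_mono ?_ x).trans (h.mass_union_le SN SA x)
    intro t ht
    exact gab_cover a t.1 ht
  linarith

end Pool.Agent.H146R2.SD
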