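import Mathlib
import Pool.Agent.H146R2.SD.CNC
import Pool.Agent.H146R2.SD.GAB
import Pool.Agent.H146R2.SD.DTH
import Pool.Agent.H146R2.SD.DFO

set_option autoImplicit false
set_option linter.unusedSectionVars false

open scoped ComplexConjugate Topology
open Filter

namespace Pool.Agent.H146R2.SD

open Pool.Agent.Helper278 Pool.Agent.Helper436.SM

variable {H : Type} [NormedAddCommGroup H] [InnerProductSpace ℂ H] [CompleteSpace H]
variable {N : VonNeumannAlgebra H} {T0 : TracialState N}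

theorem fma_single_same (k j : ℕ) (a : ZMod (pk k) × ZMod (pk k)) :
    (DFinsupp.single k (Finsupp.single j a) : VP) k j = a := by
  rw [DFinsupp.single_eq_same, Finsupp.single_eq_same]

theorem fma_single_ne (k j k' j' : ℕ) (a : ZMod (pk k) × ZMod (pk k)) (h : k = k' → j ≠ j') :
    (DFinsupp.single k (Finsupp.single j a) : VP) k' j' = 0 := by
  by_cases hk : k = k'
  · subst hk
    rw [DFinsupp.single_eq_same, Finsupp.single_eq_of_ne (h rfl).symm]
  · rw [DFinsupp.single_eq_of_ne (Ne.symm hk)]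
    rfl

theorem fma_single_snd (k j k' j' : ℕ) (a : ZMod (pk k)) :
    ((DFinsupp.single k (Finsupp.single j (a, 0)) : VP) k' j').2 = 0 := by
  by_cases h : k = k' ∧ j = j'
  · obtain ⟨rfl, rfl⟩ := h
    rw [fma_single_same]
  · rw [fma_single_ne _ _ _ _ _ (fun h1 h2 => h ⟨h1, h2⟩)]
    rfl

/-- the box of coordinates -/
abbrev FmaC (m : ℕ) : Type := (k : Fin m) → Fin m → ZMod (pk (k : ℕ))

/-- the vector with given `x` coordinates in the box -/
noncomputable def fmaZ (m : ℕ) : FmaC m →+ VP :=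
  AddMonoidHom.mk' (fun c => ∑ k : Fin m, ∑ j : Fin m,
    (DFinsupp.single (k : ℕ) (Finsupp.single (j : ℕ) (c k j, 0)) : VP)) (by
    intro c c'
    rw [← Finset.sum_add_distrib]
    refine Finset.sum_congr rfl fun k _ => ?_
    rw [← Finset.sum_add_distrib]
    refine Finset.sum_congr rfl fun j _ => ?_
    rw [← DFinsupp.single_add, ← Finsupp.single_add, Prod.mk_add_mk, add_zero]
    rfl)

theorem fmaZ_apply (m : ℕ) (c : FmaC m) (k j : ℕ) :
    fmaZ m c k j = ∑ k' : Fin m, ∑ j' : Fin m,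
      (DFinsupp.single (k' : ℕ) (Finsupp.single (j' : ℕ) (c k' j', 0)) : VP) k j := by
  show (∑ k' : Fin m, ∑ j' : Fin m,
    (DFinsupp.single (k' : ℕ) (Finsupp.single (j' : ℕ) (c k' j', 0)) : VP)) k j = _
  rw [DFinsupp.finsetSum_apply, Finsupp.finsetSum_apply]
  refine Finset.sum_congr rfl fun k' _ => ?_
  rw [DFinsupp.finsetSum_apply, Finsupp.finsetSum_apply]

theorem fmaZ_snd (m : ℕ) (c : FmaC m) (k j : ℕ) : (fmaZ m c k j).2 = 0 := by
  rw [fmaZ_apply, Prod.snd_sum]
  refine Finset.sum_eq_zero fun k' _ => ?_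
  rw [Prod.snd_sum]
  exact Finset.sum_eq_zero fun j' _ => fma_single_snd _ _ _ _ _

theorem fmaZ_out (m : ℕ) (c : FmaC m) (k j : ℕ) (h : ¬ (k < m ∧ j < m)) : fmaZ m c k j = 0 := by
  rw [fmaZ_apply]
  refine Finset.sum_eq_zero fun k' _ => Finset.sum_eq_zero fun j' _ => ?_
  apply fma_single_ne
  intro h1 h2
  exact h ⟨h1 ▸ k'.2, h2 ▸ j'.2⟩

theorem fmaZ_in (m : ℕ) (c : FmaC m) (k j : Fin m) : fmaZ m c k j = (c k j, 0) := by
  rw [fmaZ_apply, Finset.sum_eq_single k, Finset.sum_eq_single j]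
  · exact fma_single_same _ _ _
  · intro j' _ hj'
    apply fma_single_ne
    intro _ h2
    exact hj' (Fin.ext h2)
  · intro h
    exact absurd (Finset.mem_univ _) h
  · intro k' _ hk'
    refine Finset.sum_eq_zero fun j' _ => ?_
    apply fma_single_ne
    intro h1
    exact absurd (Fin.ext h1) hk'
  · intro h
    exact absurd (Finset.mem_univ _) h

theorem fmaZ_inj (m : ℕ) : Function.Injective (fmaZ m) := by
  intro c c' h
  funext k j
  have h1 := fmaZ_in m c k j
  rw [h, fmaZ_in] at h1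
  exact (congrArg Prod.fst h1).symm

/-- vectors without `z` coordinates pair trivially from the left -/
theorem fma_bk_left (k : ℕ) (v w : Vk k) (h : ∀ j, (v j).2 = 0) : bk k v w = 0 := by
  unfold bk Finsupp.sum
  refine Finset.sum_eq_zero fun j _ => ?_
  beta_reduce
  rw [h j, zero_mul]

theorem fma_bk_right (k : ℕ) (v w : Vk k) (h : ∀ j, v j = 0 ∨ w j = 0) : bk k v w = 0 := by
  unfold bk Finsupp.sum
  refine Finset.sum_eq_zero fun j _ => ?_
  beta_reduce
  rcases h j with h1 | h1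
  · rw [h1, Prod.snd_zero, zero_mul]
  · rw [h1, Prod.fst_zero, mul_zero]

theorem fma_bk_single (k : ℕ) (v : Vk k) (j : ℕ) (a : ZMod (pk k)) :
    bk k v (Finsupp.single j (a, 0)) = (v j).2 * a := by
  unfold bk Finsupp.sum
  by_cases hj : j ∈ v.support
  · rw [Finset.sum_eq_single j]
    · beta_reduce
      rw [Finsupp.single_eq_same]
    · intro j' _ hj'
      beta_reduce
      rw [Finsupp.single_eq_of_ne hj', Prod.fst_zero, mul_zero]
    · intro h
      exact absurd hj h
  · rw [Finsupp.notMem_support_iff.1 hj, Prod.snd_zero, zero_mul]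
    refine Finset.sum_eq_zero fun j' hj' => ?_
    have hne : j' ≠ j := fun h => hj (h ▸ hj')
    beta_reduce
    rw [Finsupp.single_eq_of_ne hne, Prod.fst_zero, mul_zero]

theorem fma_beta_left (v w : VP) (h : ∀ k j, (v k j).2 = 0) : betaP v w = 0 := by
  rw [betaP_apply]
  refine Finset.sum_eq_zero fun k _ => ?_
  rw [fma_bk_left k _ _ (h k), map_zero]

theorem fma_beta_right (v w : VP) (h : ∀ k j, v k j = 0 ∨ w k j = 0) : betaP v w = 0 := by
  rw [betaP_apply]
  refine Finset.sum_eq_zero fun k _ => ?_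
  rw [fma_bk_right k _ _ (h k), map_zero]

/-- the pairing of the box with itself -/
noncomputable def fmaPr (m : ℕ) : FmaC m →+ FmaC m →+ TT :=
  AddMonoidHom.mk' (fun c => AddMonoidHom.mk' (fun c' => ∑ k : Fin m, ∑ j : Fin m,
      tt (k : ℕ) (c k j * c' k j)) (by
        intro a b
        rw [← Finset.sum_add_distrib]
        refine Finset.sum_congr rfl fun k _ => ?_
        rw [← Finset.sum_add_distrib]
        refine Finset.sum_congr rfl fun j _ => ?_
        rw [Pi.add_apply, Pi.add_apply, mul_add, map_add])) (by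
      intro a b
      refine DFunLike.ext _ _ fun c => ?_
      show (∑ k : Fin m, ∑ j : Fin m, tt (k : ℕ) ((a + b) k j * c k j)) =
        (∑ k : Fin m, ∑ j : Fin m, tt (k : ℕ) (a k j * c k j)) +
          ∑ k : Fin m, ∑ j : Fin m, tt (k : ℕ) (b k j * c k j)
      rw [← Finset.sum_add_distrib]
      refine Finset.sum_congr rfl fun k _ => ?_
      rw [← Finset.sum_add_distrib]
      refine Finset.sum_congr rfl fun j _ => ?_
      rw [Pi.add_apply, Pi.add_apply, add_mul, map_add])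

theorem fmaPr_apply (m : ℕ) (c c' : FmaC m) :
    fmaPr m c c' = ∑ k : Fin m, ∑ j : Fin m, tt (k : ℕ) (c k j * c' k j) := rfl

theorem fmaPr_symm (m : ℕ) (c c' : FmaC m) : fmaPr m c c' = fmaPr m c' c := by
  rw [fmaPr_apply, fmaPr_apply]
  refine Finset.sum_congr rfl fun k _ => Finset.sum_congr rfl fun j _ => ?_
  rw [mul_comm]

open scoped Classical in
/-- the unit vector -/
noncomputable def fmaS (m : ℕ) (k j : Fin m) : FmaC m := Pi.single k (Pi.single j 1)

theorem fmaS_same (m : ℕ) (k j : Fin m) : fmaS m k j k j = 1 := by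
  classical
  unfold fmaS
  rw [Pi.single_eq_same, Pi.single_eq_same]

theorem fmaS_ne (m : ℕ) (k j k' j' : Fin m) (h : ¬ (k = k' ∧ j = j')) : fmaS m k j k' j' = 0 := by
  classical
  unfold fmaS
  by_cases hk : k' = k
  · subst hk
    rw [Pi.single_eq_same, Pi.single_eq_of_ne (fun h1 => h ⟨rfl, h1.symm⟩)]
  · rw [Pi.single_eq_of_ne hk]
    rfl

theorem fmaPr_single (m : ℕ) (c : FmaC m) (k j : Fin m) :
    fmaPr m (fmaS m k j) c = tt (k : ℕ) (c k j) := by
  rw [fmaPr_apply, Finset.sum_eq_single k, Finset.sum_eq_single j]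
  · rw [fmaS_same, one_mul]
  · intro j' _ hj'
    rw [fmaS_ne _ _ _ _ _ (fun h => hj' h.2.symm), zero_mul, map_zero]
  · intro h
    exact absurd (Finset.mem_univ _) h
  · intro k' _ hk'
    refine Finset.sum_eq_zero fun j' _ => ?_
    rw [fmaS_ne _ _ _ _ _ (fun h => hk' h.1.symm), zero_mul, map_zero]
  · intro h
    exact absurd (Finset.mem_univ _) h

theorem fmaPr_perfect (m : ℕ) (c : FmaC m) (h : ∀ c', fmaPr m c' c = 0) : c = 0 := by
  funext k j
  have h1 := h (fmaS m k j)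
  rw [fmaPr_single] at h1
  exact tt_inj _ (h1.trans (map_zero _).symm)

theorem fmaZ_single (m : ℕ) (k j : Fin m) :
    fmaZ m (fmaS m k j) = DFinsupp.single (k : ℕ) (Finsupp.single (j : ℕ) (1, 0)) := by
  show (∑ k' : Fin m, ∑ j' : Fin m,
    (DFinsupp.single (k' : ℕ) (Finsupp.single (j' : ℕ) (fmaS m k j k' j', 0)) : VP)) = _
  rw [Finset.sum_eq_single k, Finset.sum_eq_single j]
  · rw [fmaS_same]
  · intro j' _ hj'
    rw [fmaS_ne _ _ _ _ _ (fun h => hj' h.2.symm)]
    show (DFinsupp.single (k : ℕ)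
      (Finsupp.single (j' : ℕ) (0 : ZMod (pk k) × ZMod (pk k)) : Vk k) : VP) = 0
    rw [Finsupp.single_zero, DFinsupp.single_zero]
  · intro h
    exact absurd (Finset.mem_univ _) h
  · intro k' _ hk'
    refine Finset.sum_eq_zero fun j' _ => ?_
    rw [fmaS_ne _ _ _ _ _ (fun h => hk' h.1.symm)]
    show (DFinsupp.single (k' : ℕ)
      (Finsupp.single (j' : ℕ) (0 : ZMod (pk k') × ZMod (pk k')) : Vk k') : VP) = 0
    rw [Finsupp.single_zero, DFinsupp.single_zero]
  · intro h
    exact absurd (Finset.mem_univ _) h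

/-- the unitary that sees the `z` coordinates in the box -/
theorem exists_dX (S : Set ℕ) {u : GF →* Elt N} {W : VP → Elt N} (h : TW (DP S) T0.τ u W) (m : ℕ) :
    ∃ d ∈ unitary (Elt N), (∀ t ∈ TS S m, W t * d = d * W t) ∧
      ∀ x, mass T0.τ u W {b | b.1 = 1 ∧ ∃ k < m, ∃ j < m, (b.2 k j).2 ≠ 0} x ≤
        2 * n2 T0.τ (d * x - x * d) ^ 2 + 2 * mass T0.τ u W {b | b.1 ≠ 1} x := by
  classical
  have hpi : ∀ n : ℕ, ∀ k : ℕ,
      (Multiplicative.toAdd (piG (FreeGroup.of (Sum.inl n) : GF))) k = 0 := by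
    intro n k
    have h1 : piG (FreeGroup.of (Sum.inl n) : GF) = 1 := by
      unfold piG
      rw [FreeGroup.lift_apply_of]
      rfl
    rw [h1]
    rfl
  have hone : ∀ t : VP, chiP S t (Additive.ofMul (1 : GF)) = 0 := by
    intro t
    exact map_zero (chiP S t)
  obtain ⟨d, hd, hd1, hd2⟩ := h.label (FmaC m) (fmaPr m) (fmaPr_perfect m)
    (fun c hc => fmaPr_perfect m c (fun c' => by rw [fmaPr_symm]; exact hc c'))
    (fmaZ m) (fmaZ_inj m)
    (fun c c' => fma_beta_left _ _ (fmaZ_snd m c))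
    (fun c => FreeGroup.of (Sum.inl (Fintype.equivFin (FmaC m) c : ℕ)))
    (fun c c' hcc => by
      have h1 := FreeGroup.of_injective hcc
      exact (Fintype.equivFin (FmaC m)).injective (Fin.ext (Sum.inl_injective h1)))
    (fun c c' => chiP_eq_zero S _ _ (fun k _ => Or.inr (hpi _ k)))
  refine ⟨d, hd, fun t ht => hd1 t (fun c => ?_) (fun c => ?_), fun x => ?_⟩
  · show betaP (fmaZ m c) t - betaP t (fmaZ m c) - chiP S (fmaZ m c) (Additive.ofMul 1) = 0
    rw [fma_beta_left _ _ (fmaZ_snd m c), hone, fma_beta_right, sub_zero, sub_zero]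
    intro k j
    by_cases hkj : k < m ∧ j < m
    · exact Or.inl (ht.1 k hkj.1 j hkj.2)
    · exact Or.inr (fmaZ_out m c k j hkj)
  · exact chiP_eq_zero S _ _ (fun k _ => Or.inr (hpi _ k))
  · refine le_trans (h.mass_mono ?_ x) (hd2 x)
    rintro ⟨g, v⟩ ⟨hg, k, hk, j, hj, hv⟩
    simp only at hg hv
    subst hg
    refine ⟨rfl, fmaS m ⟨k, hk⟩ ⟨j, hj⟩, fun hco => hv ?_⟩
    have h1 : betaP (fmaZ m (fmaS m ⟨k, hk⟩ ⟨j, hj⟩)) v - betaP v (fmaZ m (fmaS m ⟨k, hk⟩ ⟨j, hj⟩))
        - chiP S (fmaZ m (fmaS m ⟨k, hk⟩ ⟨j, hj⟩)) (Additive.ofMul 1) = 0 := hco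
    rw [fma_beta_left _ _ (fmaZ_snd m _), hone, zero_sub, sub_zero, neg_eq_zero, fmaZ_single,
      betaP_single_right, fma_bk_single, mul_one] at h1
    exact tt_inj _ (h1.trans (map_zero _).symm)

end Pool.Agent.H146R2.SD
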