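import Mathlib
import Pool.Agent.H146R2.SD.CNC
import Pool.Agent.H146R2.SD.GAB
import Pool.Agent.H146R2.SD.DTH
import Pool.Agent.H146R2.SD.DFO

set_option autoImplicit false
set_option linter.unusedSectionVars false

open scoped ComplexConjugate Topology
open Filter

namespace Pool.Agent.H146R2.SD

open Pool.Agent.Helper278 Pool.Agent.Helper436.SM

/-- the finite group -/
abbrev FmbC (m : ℕ) : Type := (k : Fin m) → Fin m → ZMod (pk (k : ℕ))

/-- the pairing -/
noncomputable def fmb_pr (m : ℕ) : FmbC m →+ FmbC m →+ TT :=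
  AddMonoidHom.mk' (fun c => AddMonoidHom.mk'
    (fun c' => ∑ k : Fin m, ∑ j : Fin m, tt (k : ℕ) (c k j * c' k j))
    (fun c' c'' => by
      rw [← Finset.sum_add_distrib]
      refine Finset.sum_congr rfl fun k _ => ?_
      rw [← Finset.sum_add_distrib]
      refine Finset.sum_congr rfl fun j _ => ?_
      rw [← map_add, ← mul_add]
      rfl)) (fun c c'' => by
      refine DFunLike.ext _ _ fun c' => ?_
      show ∑ k : Fin m, ∑ j : Fin m, tt (k : ℕ) ((c k j + c'' k j) * c' k j) =
        ∑ k : Fin m, ∑ j : Fin m, tt (k : ℕ) (c k j * c' k j) +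
          ∑ k : Fin m, ∑ j : Fin m, tt (k : ℕ) (c'' k j * c' k j)
      rw [← Finset.sum_add_distrib]
      refine Finset.sum_congr rfl fun k _ => ?_
      rw [← Finset.sum_add_distrib]
      refine Finset.sum_congr rfl fun j _ => ?_
      rw [← map_add, ← add_mul])

theorem fmb_pr_apply (m : ℕ) (c c' : FmbC m) :
    fmb_pr m c c' = ∑ k : Fin m, ∑ j : Fin m, tt (k : ℕ) (c k j * c' k j) := rfl

/-- a vector with one nonzero coordinate -/
noncomputable def fmb_s (m : ℕ) (k j : Fin m) : FmbC m :=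
  fun k' j' => if k' = k ∧ j' = j then 1 else 0

theorem fmb_sum (m : ℕ) (f : (k : Fin m) → Fin m → ZMod (pk (k : ℕ))) (k j : Fin m) :
    ∑ k' : Fin m, ∑ j' : Fin m, tt (k' : ℕ) (fmb_s m k j k' j' * f k' j') =
      tt (k : ℕ) (f k j) := by
  rw [Finset.sum_eq_single k, Finset.sum_eq_single j]
  · simp [fmb_s]
  · intro j' _ hj
    simp [fmb_s, hj]
  · intro h
    exact absurd (Finset.mem_univ _) h
  · intro k' _ hk
    refine Finset.sum_eq_zero fun j' _ => ?_
    simp [fmb_s, hk]
  · intro h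
    exact absurd (Finset.mem_univ _) h

/-- the vectors of `z` type -/
noncomputable def fmb_z (m : ℕ) : FmbC m →+ VP :=
  AddMonoidHom.mk' (fun c : FmbC m => (∑ k : Fin m, ∑ j : Fin m,
    DFinsupp.single (k : ℕ) (Finsupp.single (j : ℕ) ((0 : ZMod (pk (k : ℕ))), c k j)) : VP))
    (fun c c' => by
      rw [← Finset.sum_add_distrib]
      refine Finset.sum_congr rfl fun k _ => ?_
      rw [← Finset.sum_add_distrib]
      refine Finset.sum_congr rfl fun j _ => ?_
      rw [← DFinsupp.single_add, ← Finsupp.single_add]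
      have h0 : (((0 : ZMod (pk (k : ℕ))), (c + c') k j) : ZMod (pk (k : ℕ)) × ZMod (pk (k : ℕ))) =
          (0, c k j) + (0, c' k j) := by
        rw [Prod.mk_add_mk, add_zero]
        rfl
      rw [h0])

theorem fmb_z_apply (m : ℕ) (c : FmbC m) : fmb_z m c = (∑ k : Fin m, ∑ j : Fin m,
    DFinsupp.single (k : ℕ) (Finsupp.single (j : ℕ) ((0 : ZMod (pk (k : ℕ))), c k j)) : VP) := rfl

theorem fmb_bk_left (k j : ℕ) (a : ZMod (pk k)) (w : Vk k) :
    bk k (Finsupp.single j ((0 : ZMod (pk k)), a)) w = a * (w j).1 := by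
  unfold bk
  rw [Finsupp.sum_single_index]
  simp

theorem fmb_bk_right (k j : ℕ) (a : ZMod (pk k)) (w : Vk k) :
    bk k w (Finsupp.single j ((0 : ZMod (pk k)), a)) = 0 := by
  unfold bk
  refine Finset.sum_eq_zero fun i _ => ?_
  have h : ((Finsupp.single j ((0 : ZMod (pk k)), a) : Vk k) i).1 = 0 := by
    rw [Finsupp.single_apply]
    split_ifs <;> rfl
  show (w i).2 * ((Finsupp.single j ((0 : ZMod (pk k)), a) : Vk k) i).1 = 0
  rw [h, mul_zero]

theorem fmb_beta_left (m : ℕ) (c : FmbC m) (v : VP) :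
    betaP (fmb_z m c) v = ∑ k : Fin m, ∑ j : Fin m, tt (k : ℕ) (c k j * (v k j).1) := by
  rw [fmb_z_apply, map_sum, AddMonoidHom.finsetSum_apply]
  refine Finset.sum_congr rfl fun k _ => ?_
  rw [map_sum, AddMonoidHom.finsetSum_apply]
  refine Finset.sum_congr rfl fun j _ => ?_
  rw [betaP_single, fmb_bk_left]

theorem fmb_beta_right (m : ℕ) (c : FmbC m) (v : VP) : betaP v (fmb_z m c) = 0 := by
  rw [fmb_z_apply, map_sum]
  refine Finset.sum_eq_zero fun k _ => ?_
  rw [map_sum]
  refine Finset.sum_eq_zero fun j _ => ?_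
  rw [betaP_single_right, fmb_bk_right, map_zero]

theorem fmb_piG (n : ℕ) (k : ℕ) :
    (Multiplicative.toAdd (piG (FreeGroup.of (Sum.inl n)))) k = 0 := by
  unfold piG
  rw [FreeGroup.lift_apply_of]
  rfl

theorem fmb_chi_one (S : Set ℕ) (v : VP) : chiP S v (Additive.ofMul (1 : GF)) = 0 := by
  rw [ofMul_one, map_zero]

theorem fmb_chi_lab (S : Set ℕ) (v : VP) (n : ℕ) :
    chiP S v (Additive.ofMul (FreeGroup.of (Sum.inl n) : GF)) = 0 :=
  chiP_eq_zero S v _ fun k _ => Or.inr (fmb_piG n k)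

theorem fmb_co (S : Set ℕ) (m : ℕ) (c : FmbC m) (v : VP) :
    (DP S).co (fmb_z m c) (1, v) =
      ∑ k : Fin m, ∑ j : Fin m, tt (k : ℕ) (c k j * (v k j).1) := by
  show betaP (fmb_z m c) v - betaP v (fmb_z m c) -
    chiP S (fmb_z m c) (Additive.ofMul (1 : GF)) = _
  rw [fmb_beta_left, fmb_beta_right, fmb_chi_one, sub_zero, sub_zero]

theorem fmb_z_inj (m : ℕ) : Function.Injective (fmb_z m) := by
  rw [injective_iff_map_eq_zero]
  intro c hc
  funext k j
  have h1 : ((fmb_z m c) (k : ℕ) (j : ℕ)).2 = c k j := by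
    rw [fmb_z_apply, DFinsupp.finsetSum_apply, Finset.sum_eq_single k]
    · rw [DFinsupp.finsetSum_apply, Finsupp.finsetSum_apply, Finset.sum_eq_single j]
      · rw [DFinsupp.single_eq_same, Finsupp.single_eq_same]
      · intro j' _ hj
        rw [DFinsupp.single_eq_same, Finsupp.single_apply, if_neg]
        exact fun h => hj (Fin.ext h)
      · intro h
        exact absurd (Finset.mem_univ _) h
    · intro k' _ hk
      rw [DFinsupp.finsetSum_apply]
      refine Finset.sum_eq_zero fun j' _ => ?_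
      rw [DFinsupp.single_eq_of_ne]
      exact fun h => hk (Fin.ext h.symm)
    · intro h
      exact absurd (Finset.mem_univ _) h
  rw [← h1, hc]
  rfl

variable {H : Type} [NormedAddCommGroup H] [InnerProductSpace ℂ H] [CompleteSpace H]
variable {N : VonNeumannAlgebra H} {T0 : TracialState N}

/-- the unitary that sees the `x` coordinates in the box -/
theorem exists_dZ (S : Set ℕ) {u : GF →* Elt N} {W : VP → Elt N} (h : TW (DP S) T0.τ u W) (m : ℕ) :
    ∃ d ∈ unitary (Elt N), (∀ t ∈ TS S m, W t * d = d * W t) ∧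
      ∀ x, mass T0.τ u W {b | b.1 = 1 ∧ ∃ k < m, ∃ j < m, (b.2 k j).1 ≠ 0} x ≤
        2 * n2 T0.τ (d * x - x * d) ^ 2 + 2 * mass T0.τ u W {b | b.1 ≠ 1} x := by
  classical
  obtain ⟨d, hd, h1, h2⟩ := h.label (FmbC m) (fmb_pr m)
    (by
      intro c hc
      funext k j
      have h1 := hc (fmb_s m k j)
      rw [fmb_pr_apply, fmb_sum] at h1
      exact (map_eq_zero_iff _ (tt_inj _)).1 h1)
    (by
      intro c hc
      funext k j
      have h1 := hc (fmb_s m k j)
      rw [fmb_pr_apply] at h1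
      have h2 := fmb_sum m c k j
      simp only [mul_comm (fmb_s m k j _ _)] at h2
      rw [h2] at h1
      exact (map_eq_zero_iff _ (tt_inj _)).1 h1)
    (fmb_z m) (fmb_z_inj m)
    (fun c c' => fmb_beta_right m c' (fmb_z m c))
    (fun c => FreeGroup.of (Sum.inl ((Fintype.equivFin (FmbC m) c : Fin _) : ℕ)))
    (by
      intro c c' hcc
      have h3 := FreeGroup.of_injective hcc
      have h4 := Sum.inl_injective h3
      exact (Fintype.equivFin (FmbC m)).injective (Fin.ext h4))
    (fun c c' => fmb_chi_lab S _ _)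
  refine ⟨d, hd, fun t ht => h1 t (fun c => ?_) (fun c => fmb_chi_lab S _ _), ?_⟩
  · rw [fmb_co]
    refine Finset.sum_eq_zero fun k _ => Finset.sum_eq_zero fun j _ => ?_
    rw [ht.1 k k.2 j j.2]
    simp
  · intro x
    have hset : {b : GF × VP | b.1 = 1 ∧ ∃ k < m, ∃ j < m, (b.2 k j).1 ≠ 0} =
        {b : GF × VP | b.1 = 1 ∧ ∃ c, (DP S).co (fmb_z m c) b ≠ 0} := by
      ext ⟨g, v⟩
      constructor
      · rintro ⟨hg, k, hk, j, hj, hkj⟩
        refine ⟨hg, fmb_s m ⟨k, hk⟩ ⟨j, hj⟩, ?_⟩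
        have hg' : g = 1 := hg
        subst hg'
        rw [fmb_co, fmb_sum m (fun k j => (v k j).1)]
        intro h0
        exact hkj ((map_eq_zero_iff _ (tt_inj _)).1 h0)
      · rintro ⟨hg, c, hc⟩
        refine ⟨hg, ?_⟩
        have hg' : g = 1 := hg
        subst hg'
        by_contra hne
        apply hc
        rw [fmb_co]
        refine Finset.sum_eq_zero fun k _ => Finset.sum_eq_zero fun j _ => ?_
        have h0 : (v k j).1 = 0 := by
          by_contra h0
          exact hne ⟨k, k.2, j, j.2, h0⟩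
        rw [h0, mul_zero, map_zero]
    rw [hset]
    exact h2 x

end Pool.Agent.H146R2.SD
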