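import Mathlib
import Pool.Agent.H146R2.SD.CNC
import Pool.Agent.H146R2.SD.GAB
import Pool.Agent.H146R2.SD.DTH
import Pool.Agent.H146R2.SD.DFO

set_option autoImplicit false
set_option linter.unusedSectionVars false

open scoped ComplexConjugate Topology
open Filter

namespace Pool.Agent.H146R2.SD

open Pool.Agent.Helper278 Pool.Agent.Helper436.SM

/-- the finite group -/
abbrev FmcC (m : ℕ) : Type := (k : Fin m) → ZMod (pk (k : ℕ))

/-- the pairing -/
noncomputable def fmc_pr (m : ℕ) : FmcC m →+ FmcC m →+ TT :=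
  AddMonoidHom.mk' (fun c => AddMonoidHom.mk'
    (fun c' => ∑ k : Fin m, tt (k : ℕ) (c k * c' k))
    (fun c' c'' => by
      rw [← Finset.sum_add_distrib]
      refine Finset.sum_congr rfl fun k _ => ?_
      rw [← map_add, ← mul_add]
      rfl)) (fun c c'' => by
      refine DFunLike.ext _ _ fun c' => ?_
      show ∑ k : Fin m, tt (k : ℕ) ((c k + c'' k) * c' k) =
        ∑ k : Fin m, tt (k : ℕ) (c k * c' k) + ∑ k : Fin m, tt (k : ℕ) (c'' k * c' k)
      rw [← Finset.sum_add_distrib]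
      refine Finset.sum_congr rfl fun k _ => ?_
      rw [← map_add, ← add_mul])

theorem fmc_pr_apply (m : ℕ) (c c' : FmcC m) :
    fmc_pr m c c' = ∑ k : Fin m, tt (k : ℕ) (c k * c' k) := rfl

/-- a vector with one nonzero coordinate -/
noncomputable def fmc_s (m : ℕ) (k : Fin m) : FmcC m :=
  fun k' => if k' = k then 1 else 0

theorem fmc_sum (m : ℕ) (f : (k : Fin m) → ZMod (pk (k : ℕ))) (k : Fin m) :
    ∑ k' : Fin m, tt (k' : ℕ) (fmc_s m k k' * f k') = tt (k : ℕ) (f k) := by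
  rw [Finset.sum_eq_single k]
  · simp [fmc_s]
  · intro k' _ hk
    simp [fmc_s, hk]
  · intro h
    exact absurd (Finset.mem_univ _) h

/-- the vectors of `z` type -/
noncomputable def fmc_z (m : ℕ) : FmcC m →+ VP :=
  AddMonoidHom.mk' (fun c : FmcC m => (∑ k : Fin m,
    DFinsupp.single (k : ℕ) (Finsupp.single 0 ((0 : ZMod (pk (k : ℕ))), c k)) : VP))
    (fun c c' => by
      rw [← Finset.sum_add_distrib]
      refine Finset.sum_congr rfl fun k _ => ?_
      rw [← DFinsupp.single_add, ← Finsupp.single_add]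
      have h0 : (((0 : ZMod (pk (k : ℕ))), (c + c') k) : ZMod (pk (k : ℕ)) × ZMod (pk (k : ℕ))) =
          (0, c k) + (0, c' k) := by
        rw [Prod.mk_add_mk, add_zero]
        rfl
      rw [h0])

theorem fmc_z_apply (m : ℕ) (c : FmcC m) : fmc_z m c = (∑ k : Fin m,
    DFinsupp.single (k : ℕ) (Finsupp.single 0 ((0 : ZMod (pk (k : ℕ))), c k)) : VP) := rfl

theorem fmc_bk_left (k j : ℕ) (a : ZMod (pk k)) (w : Vk k) :
    bk k (Finsupp.single j ((0 : ZMod (pk k)), a)) w = a * (w j).1 := by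
  unfold bk
  rw [Finsupp.sum_single_index]
  simp

theorem fmc_bk_right (k j : ℕ) (a : ZMod (pk k)) (w : Vk k) :
    bk k w (Finsupp.single j ((0 : ZMod (pk k)), a)) = 0 := by
  unfold bk
  refine Finset.sum_eq_zero fun i _ => ?_
  have h : ((Finsupp.single j ((0 : ZMod (pk k)), a) : Vk k) i).1 = 0 := by
    rw [Finsupp.single_apply]
    split_ifs <;> rfl
  show (w i).2 * ((Finsupp.single j ((0 : ZMod (pk k)), a) : Vk k) i).1 = 0
  rw [h, mul_zero]

theorem fmc_beta_left (m : ℕ) (c : FmcC m) (v : VP) :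
    betaP (fmc_z m c) v = ∑ k : Fin m, tt (k : ℕ) (c k * (v k 0).1) := by
  rw [fmc_z_apply, map_sum, AddMonoidHom.finsetSum_apply]
  refine Finset.sum_congr rfl fun k _ => ?_
  rw [betaP_single, fmc_bk_left]

theorem fmc_beta_right (m : ℕ) (c : FmcC m) (v : VP) : betaP v (fmc_z m c) = 0 := by
  rw [fmc_z_apply, map_sum]
  refine Finset.sum_eq_zero fun k _ => ?_
  rw [betaP_single_right, fmc_bk_right, map_zero]

theorem fmc_z_at (m : ℕ) (c : FmcC m) (k : Fin m) :
    (fmc_z m c) (k : ℕ) 0 = (0, c k) := by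
  rw [fmc_z_apply, DFinsupp.finsetSum_apply, Finset.sum_eq_single k]
  · rw [DFinsupp.single_eq_same, Finsupp.single_eq_same]
  · intro k' _ hk
    rw [DFinsupp.single_eq_of_ne]
    exact fun h => hk (Fin.ext h.symm)
  · intro h
    exact absurd (Finset.mem_univ _) h

theorem fmc_z_fst (m : ℕ) (c : FmcC m) (k j : ℕ) : ((fmc_z m c) k j).1 = 0 := by
  rw [fmc_z_apply, DFinsupp.finsetSum_apply, Finsupp.finsetSum_apply, Prod.fst_sum]
  refine Finset.sum_eq_zero fun k' _ => ?_
  by_cases h : k = (k' : ℕ)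
  · subst h
    rw [DFinsupp.single_eq_same, Finsupp.single_apply]
    split_ifs <;> rfl
  · rw [DFinsupp.single_eq_of_ne h]
    rfl

theorem fmc_ell_zero (k : ℕ) (w : Vk k) (h : ∀ j, (w j).1 = 0) : ell k w = 0 := by
  unfold ell
  rw [Finsupp.liftAddHom_apply]
  refine Finset.sum_eq_zero fun j _ => ?_
  exact h j

theorem fmc_chi_one (S : Set ℕ) (v : VP) : chiP S v (Additive.ofMul (1 : GF)) = 0 := by
  rw [ofMul_one, map_zero]

theorem fmc_co (S : Set ℕ) (m : ℕ) (c : FmcC m) (v : VP) :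
    (DP S).co (fmc_z m c) (1, v) = ∑ k : Fin m, tt (k : ℕ) (c k * (v k 0).1) := by
  show betaP (fmc_z m c) v - betaP v (fmc_z m c) -
    chiP S (fmc_z m c) (Additive.ofMul (1 : GF)) = _
  rw [fmc_beta_left, fmc_beta_right, fmc_chi_one, sub_zero, sub_zero]

theorem fmc_z_inj (m : ℕ) : Function.Injective (fmc_z m) := by
  rw [injective_iff_map_eq_zero]
  intro c hc
  funext k
  have h1 := fmc_z_at m c k
  rw [hc] at h1
  exact (congrArg Prod.snd h1).symm

/-- the element of `C` -/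
noncomputable def fmc_c (m : ℕ) (c : FmcC m) : CC :=
  ∑ k : Fin m, DFinsupp.single (k : ℕ) (c k)

theorem fmc_c_lt (m : ℕ) (c : FmcC m) (k : Fin m) : fmc_c m c (k : ℕ) = c k := by
  unfold fmc_c
  rw [DFinsupp.finsetSum_apply, Finset.sum_eq_single k]
  · rw [DFinsupp.single_eq_same]
  · intro k' _ hk
    rw [DFinsupp.single_eq_of_ne]
    exact fun h => hk (Fin.ext h.symm)
  · intro h
    exact absurd (Finset.mem_univ _) h

theorem fmc_c_ge (m : ℕ) (c : FmcC m) (k : ℕ) (hk : ¬ k < m) : fmc_c m c k = 0 := by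
  unfold fmc_c
  rw [DFinsupp.finsetSum_apply]
  refine Finset.sum_eq_zero fun k' _ => ?_
  rw [DFinsupp.single_eq_of_ne]
  intro h
  exact hk (h ▸ k'.2)

theorem fmc_piG (c : CC) : Multiplicative.toAdd (piG (lc c)) = c := by
  unfold piG lc
  rw [FreeGroup.lift_apply_of]
  rfl

open scoped Classical in
theorem fmc_chi (S : Set ℕ) (v : VP) (g : GF) :
    chiP S v (Additive.ofMul g) = ∑ k ∈ v.support,
      if k ∈ S then tt k (ell k (v k) * (Multiplicative.toAdd (piG g)) k) else 0 := by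
  unfold chiP
  rw [DFinsupp.sumAddHom_apply, DFinsupp.sum, AddMonoidHom.finsetSum_apply]
  refine Finset.sum_congr rfl fun k _ => ?_
  by_cases hk : k ∈ S
  · rw [if_pos hk, if_pos hk]
    rfl
  · rw [if_neg hk, if_neg hk]
    rfl

open scoped Classical in
theorem fmc_chi_lab (S : Set ℕ) (m : ℕ) (v : VP) (c : FmcC m) :
    chiP S v (Additive.ofMul (lc (fmc_c m c))) = ∑ k : Fin m,
      if (k : ℕ) ∈ S then tt (k : ℕ) (ell (k : ℕ) (v k) * c k) else 0 := by
  rw [fmc_chi, fmc_piG]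
  have h1 : ∑ k ∈ v.support, (if k ∈ S then tt k (ell k (v k) * (fmc_c m c) k) else 0) =
      ∑ k ∈ Finset.range m, (if k ∈ S then tt k (ell k (v k) * (fmc_c m c) k) else 0) := by
    refine (Finset.sum_subset Finset.subset_union_left ?_).trans
      (Finset.sum_subset (s₂ := v.support ∪ Finset.range m) Finset.subset_union_right ?_).symm
    · intro k _ hk
      rw [DFinsupp.notMem_support_iff] at hk
      rw [hk, map_zero, zero_mul, map_zero, ite_self]
    · intro k _ hk
      rw [Finset.mem_range] at hk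
      rw [fmc_c_ge m c k hk, mul_zero, map_zero, ite_self]
  rw [h1, Finset.sum_range]
  refine Finset.sum_congr rfl fun k _ => ?_
  rw [fmc_c_lt]

open scoped Classical in
/-- the character of the finite group given by a vector -/
noncomputable def fmc_hom (S : Set ℕ) (m : ℕ) (v : VP) : FmcC m →+ TT :=
  AddMonoidHom.mk' (fun c => ∑ k : Fin m,
      if (k : ℕ) ∈ S then tt (k : ℕ) (ell (k : ℕ) (v k) * c k) else 0) (fun c c' => by
    rw [← Finset.sum_add_distrib]
    refine Finset.sum_congr rfl fun k _ => ?_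
    split_ifs
    · rw [Pi.add_apply, mul_add, map_add]
    · rw [add_zero])

open scoped Classical in
theorem fmc_hom_apply (S : Set ℕ) (m : ℕ) (v : VP) (c : FmcC m) :
    fmc_hom S m v c = ∑ k : Fin m,
      if (k : ℕ) ∈ S then tt (k : ℕ) (ell (k : ℕ) (v k) * c k) else 0 := rfl

theorem fmc_hom_ne (S : Set ℕ) (m : ℕ) (v : VP) (k : Fin m) (hk : (k : ℕ) ∈ S)
    (hv : ell (k : ℕ) (v k) ≠ 0) : fmc_hom S m v ≠ 0 := by
  classical
  intro h0
  apply hv
  have h1 := DFunLike.congr_fun h0 (fmc_s m k)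
  rw [fmc_hom_apply, Finset.sum_eq_single k] at h1
  · rw [if_pos hk] at h1
    have h2 : fmc_s m k k = 1 := by simp [fmc_s]
    rw [h2, mul_one] at h1
    exact (map_eq_zero_iff _ (tt_inj _)).1 h1
  · intro k' _ hk'
    have h2 : fmc_s m k k' = 0 := by simp [fmc_s, hk']
    rw [h2, mul_zero, map_zero, ite_self]
  · intro h
    exact absurd (Finset.mem_univ _) h

variable {H : Type} [NormedAddCommGroup H] [InnerProductSpace ℂ H] [CompleteSpace H]
variable {N : VonNeumannAlgebra H} {T0 : TracialState N}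

/-- the unitary that sees the functionals -/
theorem exists_dC (S : Set ℕ) {u : GF →* Elt N} {W : VP → Elt N} (h : TW (DP S) T0.τ u W) (m : ℕ) :
    ∃ d ∈ unitary (Elt N), (∀ t ∈ TS S m, W t * d = d * W t) ∧
      ∀ x, mass T0.τ u W {b | b.1 = 1 ∧ (∀ k < m, ∀ j < m, b.2 k j = 0) ∧
          ∃ k < m, k ∈ S ∧ ell k (b.2 k) ≠ 0} x ≤
        2 * n2 T0.τ (d * x - x * d) ^ 2 +
          2 * mass T0.τ u W {b | b.1 ≠ 1 ∨ ∃ k < m, ∃ j < m, (b.2 k j).2 ≠ 0} x := by
  classical
  obtain ⟨d, hd, h1, h2⟩ := h.equi (FmcC m) (fmc_pr m)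
    (by
      intro c hc
      funext k
      have h1 := hc (fmc_s m k)
      rw [fmc_pr_apply, fmc_sum] at h1
      exact (map_eq_zero_iff _ (tt_inj _)).1 h1)
    (by
      intro c hc
      funext k
      have h1 := hc (fmc_s m k)
      rw [fmc_pr_apply] at h1
      have h2 := fmc_sum m c k
      simp only [mul_comm (fmc_s m k _) _] at h2
      rw [h2] at h1
      exact (map_eq_zero_iff _ (tt_inj _)).1 h1)
    (fmc_z m) (fmc_z_inj m)
    (fun c c' => fmc_beta_right m c' (fmc_z m c))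
    (fun c => lc (fmc_c m c))
    (fun c c' => chiP_eq_zero S _ _ fun k _ => Or.inl (fmc_ell_zero k _ (fmc_z_fst m c k)))
    {v : VP | (∀ k < m, ∀ j < m, v k j = 0) ∧ ∃ k < m, k ∈ S ∧ ell k (v k) ≠ 0}
    (by
      rintro v ⟨hv, -⟩ c
      rw [fmc_co]
      refine Finset.sum_eq_zero fun k _ => ?_
      rw [hv k k.2 0 (by have := k.2; omega)]
      simp)
    (by
      rintro v ⟨-, k, hk, hkS, hne⟩
      have h3 := sum_e (fmc_hom S m v) (fmc_hom_ne S m v ⟨k, hk⟩ hkS hne)
      rw [← h3]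
      refine Finset.sum_congr rfl fun c _ => ?_
      congr 1
      exact fmc_chi_lab S m v c)
    (by
      rintro v ⟨hv, -⟩ v' ⟨hv', -⟩ c c' hcc
      have hc : c = c' := by
        funext k
        have h3 := congrArg (fun w : VP => w (k : ℕ) 0) hcc
        simp only [DFinsupp.add_apply, Finsupp.add_apply] at h3
        rw [fmc_z_at, fmc_z_at, hv k k.2 0 (by have := k.2; omega),
          hv' k k.2 0 (by have := k.2; omega), zero_add, zero_add] at h3
        exact congrArg Prod.snd h3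
      rw [hc] at hcc
      exact add_right_cancel hcc)
  refine ⟨d, hd, fun t ht => h1 t (fun c => ?_) (fun c => ?_), ?_⟩
  · rw [fmc_co]
    refine Finset.sum_eq_zero fun k _ => ?_
    rw [ht.1 k k.2 0 (by have := k.2; omega)]
    simp
  · refine chiP_eq_zero S _ _ fun k hkS => ?_
    rw [fmc_piG]
    by_cases hk : k < m
    · exact Or.inl (ht.2 k hk hkS)
    · exact Or.inr (fmc_c_ge m c k hk)
  · intro x
    have h4 := h2 x
    have hset : {b : GF × VP | b.1 = 1 ∧ (∀ k < m, ∀ j < m, b.2 k j = 0) ∧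
          ∃ k < m, k ∈ S ∧ ell k (b.2 k) ≠ 0} = {b : GF × VP | b.1 = 1 ∧ b.2 ∈
        {v : VP | (∀ k < m, ∀ j < m, v k j = 0) ∧ ∃ k < m, k ∈ S ∧ ell k (v k) ≠ 0}} := rfl
    rw [hset]
    have h5 : mass T0.τ u W {b | b.1 ≠ 1 ∨ ∃ v ∈ {v : VP | (∀ k < m, ∀ j < m, v k j = 0) ∧
        ∃ k < m, k ∈ S ∧ ell k (v k) ≠ 0}, ∃ c, c ≠ 0 ∧ b.2 = v + fmc_z m c} x ≤
        mass T0.τ u W {b | b.1 ≠ 1 ∨ ∃ k < m, ∃ j < m, (b.2 k j).2 ≠ 0} x := by
      refine h.mass_mono ?_ x
      rintro ⟨g, w⟩ (hg | ⟨v, ⟨hv, -⟩, c, hc, hw⟩)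
      · exact Or.inl hg
      · right
        obtain ⟨k, hk⟩ : ∃ k, c k ≠ 0 := by
          by_contra hne
          push Not at hne
          exact hc (funext hne)
        have hm : 0 < m := by have := k.2; omega
        refine ⟨k, k.2, 0, hm, ?_⟩
        have hw' : w = v + fmc_z m c := hw
        show (w k 0).2 ≠ 0
        rw [hw', DFinsupp.add_apply, Finsupp.add_apply, fmc_z_at, hv k k.2 0 hm, zero_add]
        exact hk
    linarith

end Pool.Agent.H146R2.SD
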