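import Mathlib
import Pool.Agent.H146R2.SD.CNC
import Pool.Agent.H146R2.SD.GAB
import Pool.Agent.H146R2.SD.DTH
import Pool.Agent.H146R2.SD.DFO
import Pool.Agent.H146R2.SD.FMA
import Pool.Agent.H146R2.SD.FMB
import Pool.Agent.H146R2.SD.FMC

set_option autoImplicit false
set_option linter.unusedSectionVars false

open scoped ComplexConjugate Topology
open Filter

namespace Pool.Agent.H146R2.SD

open Pool.Agent.Helper278 Pool.Agent.Helper436.SM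

variable {H : Type} [NormedAddCommGroup H] [InnerProductSpace ℂ H] [CompleteSpace H]
variable {N : VonNeumannAlgebra H} {T0 : TracialState N}

theorem fmd_letter (S : Set ℕ) (n : ℕ) (v : VP) :
    (DP S).χ v (Additive.ofMul (FreeGroup.of (Sum.inl n) : GF)) = 0 := by
  have h0 : piG (FreeGroup.of (Sum.inl n)) = 1 := by
    rw [piG, FreeGroup.lift_apply_of]
    rfl
  refine chiP_eq_zero S v _ fun k _ => Or.inr ?_
  rw [h0]
  rfl

theorem fmd_comm (S : Set ℕ) {u : GF →* Elt N} {W : VP → Elt N} (h : TW (DP S) T0.τ u W)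
    (n : ℕ) (v : VP) : W v * u (FreeGroup.of (Sum.inl n)) = u (FreeGroup.of (Sum.inl n)) * W v := by
  rw [h.comm, fmd_letter]
  simp [e]

theorem fmd_sub (S : Set ℕ) (m : ℕ) : (tl (TS S m) : Set (GF × VP))ᶜ ⊆
    {b | b.1 ≠ 1} ∪ ({b | b.1 = 1 ∧ ∃ k < m, ∃ j < m, (b.2 k j).2 ≠ 0} ∪
      ({b | b.1 = 1 ∧ ∃ k < m, ∃ j < m, (b.2 k j).1 ≠ 0} ∪
        {b | b.1 = 1 ∧ (∀ k < m, ∀ j < m, b.2 k j = 0) ∧
          ∃ k < m, k ∈ S ∧ ell k (b.2 k) ≠ 0})) := by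
  intro b hb
  by_cases h1 : b.1 = 1
  · right
    by_cases h2 : ∃ k < m, ∃ j < m, (b.2 k j).2 ≠ 0
    · exact Or.inl ⟨h1, h2⟩
    · right
      by_cases h3 : ∃ k < m, ∃ j < m, (b.2 k j).1 ≠ 0
      · exact Or.inl ⟨h1, h3⟩
      · right
        push Not at h2 h3
        have h4 : ∀ k < m, ∀ j < m, b.2 k j = 0 := fun k hk j hj =>
          Prod.ext (h3 k hk j hj) (h2 k hk j hj)
        refine ⟨h1, h4, ?_⟩
        by_contra h5
        push Not at h5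
        exact hb ⟨h1, h4, h5⟩
  · exact Or.inl h1

theorem fmd_sub2 (m : ℕ) : ({b | b.1 ≠ 1 ∨ ∃ k < m, ∃ j < m, (b.2 k j).2 ≠ 0} : Set (GF × VP)) ⊆
    {b | b.1 ≠ 1} ∪ {b | b.1 = 1 ∧ ∃ k < m, ∃ j < m, (b.2 k j).2 ≠ 0} := by
  intro b hb
  by_cases h1 : b.1 = 1
  · right
    rcases hb with h2 | h2
    · exact absurd h1 h2
    · exact ⟨h1, h2⟩
  · exact Or.inl h1

theorem exists_F (S : Set ℕ) {u : GF →* Elt N} {W : VP → Elt N} (h : TW (DP S) T0.τ u W) :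
    ∃ (C : ℝ) (F : ℕ → Fin 5 → Elt N), GapT T0 u W (TS S) C F := by
  choose dX hX1 hX2 hX3 using fun m => exists_dX S h m
  choose dZ hZ1 hZ2 hZ3 using fun m => exists_dZ S h m
  choose dC hC1 hC2 hC3 using fun m => exists_dC S h m
  refine ⟨100000, fun m => ![u (FreeGroup.of (Sum.inl 0)), u (FreeGroup.of (Sum.inl 1)),
    dX m, dZ m, dC m], ?_, ?_, ?_⟩
  · intro m j
    fin_cases j
    · exact h.u_mem _
    · exact h.u_mem _
    · exact hX1 m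
    · exact hZ1 m
    · exact hC1 m
  · intro m j t ht
    fin_cases j
    · exact fmd_comm S h 0 t
    · exact fmd_comm S h 1 t
    · exact hX2 m t ht
    · exact hZ2 m t ht
    · exact hC2 m t ht
  · intro m x
    have g0 := h.gap_ab (Sum.inl 0) (Sum.inl 1) (by simp) (fun v => fmd_letter S 0 v)
      (fun v => fmd_letter S 1 v) x
    have gX := hX3 m x
    have gZ := hZ3 m x
    have gC := hC3 m x
    have e1 := h.mass_mono (fmd_sub S m) x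
    have e2 := h.mass_union_le ({b | b.1 ≠ 1} : Set (GF × VP))
      ({b | b.1 = 1 ∧ ∃ k < m, ∃ j < m, (b.2 k j).2 ≠ 0} ∪
      ({b | b.1 = 1 ∧ ∃ k < m, ∃ j < m, (b.2 k j).1 ≠ 0} ∪
        {b | b.1 = 1 ∧ (∀ k < m, ∀ j < m, b.2 k j = 0) ∧
          ∃ k < m, k ∈ S ∧ ell k (b.2 k) ≠ 0})) x
    have e3 := h.mass_union_le ({b | b.1 = 1 ∧ ∃ k < m, ∃ j < m, (b.2 k j).2 ≠ 0} :
      Set (GF × VP))
      ({b | b.1 = 1 ∧ ∃ k < m, ∃ j < m, (b.2 k j).1 ≠ 0} ∪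
        {b | b.1 = 1 ∧ (∀ k < m, ∀ j < m, b.2 k j = 0) ∧
          ∃ k < m, k ∈ S ∧ ell k (b.2 k) ≠ 0}) x
    have e4 := h.mass_union_le ({b | b.1 = 1 ∧ ∃ k < m, ∃ j < m, (b.2 k j).1 ≠ 0} :
      Set (GF × VP))
      ({b | b.1 = 1 ∧ (∀ k < m, ∀ j < m, b.2 k j = 0) ∧
          ∃ k < m, k ∈ S ∧ ell k (b.2 k) ≠ 0}) x
    have e5 := h.mass_mono (fmd_sub2 m) x
    have e6 := h.mass_union_le ({b | b.1 ≠ 1} : Set (GF × VP))
      ({b | b.1 = 1 ∧ ∃ k < m, ∃ j < m, (b.2 k j).2 ≠ 0}) x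
    have hsum : (∑ j, n2 T0.τ ((![u (FreeGroup.of (Sum.inl 0)), u (FreeGroup.of (Sum.inl 1)),
        dX m, dZ m, dC m] : Fin 5 → Elt N) j * x - x * (![u (FreeGroup.of (Sum.inl 0)),
        u (FreeGroup.of (Sum.inl 1)), dX m, dZ m, dC m] : Fin 5 → Elt N) j) ^ 2) =
        n2 T0.τ (u (FreeGroup.of (Sum.inl 0)) * x - x * u (FreeGroup.of (Sum.inl 0))) ^ 2 +
        n2 T0.τ (u (FreeGroup.of (Sum.inl 1)) * x - x * u (FreeGroup.of (Sum.inl 1))) ^ 2 +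
        n2 T0.τ (dX m * x - x * dX m) ^ 2 + n2 T0.τ (dZ m * x - x * dZ m) ^ 2 +
        n2 T0.τ (dC m * x - x * dC m) ^ 2 := by
      rw [Fin.sum_univ_five]
      rfl
    change mass T0.τ u W (tl (TS S m))ᶜ x ≤ 100000 * (∑ j, n2 T0.τ
      ((![u (FreeGroup.of (Sum.inl 0)), u (FreeGroup.of (Sum.inl 1)),
        dX m, dZ m, dC m] : Fin 5 → Elt N) j * x - x * (![u (FreeGroup.of (Sum.inl 0)),
        u (FreeGroup.of (Sum.inl 1)), dX m, dZ m, dC m] : Fin 5 → Elt N) j) ^ 2)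
    rw [hsum]
    have p1 := sq_nonneg (n2 T0.τ (u (FreeGroup.of (Sum.inl 0)) * x - x * u (FreeGroup.of (Sum.inl 0))))
    have p2 := sq_nonneg (n2 T0.τ (u (FreeGroup.of (Sum.inl 1)) * x - x * u (FreeGroup.of (Sum.inl 1))))
    have p3 := sq_nonneg (n2 T0.τ (dX m * x - x * dX m))
    have p4 := sq_nonneg (n2 T0.τ (dZ m * x - x * dZ m))
    have p5 := sq_nonneg (n2 T0.τ (dC m * x - x * dC m))
    linarith

end Pool.Agent.H146R2.SD
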