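import Mathlib
import Pool.Agent.H146R2.SD.CNC
import Pool.Agent.H146R2.SD.GAB
import Pool.Agent.H146R2.SD.DTH
import Pool.Agent.H146R2.SD.DFO
import Pool.Agent.H146R2.SD.FMA
import Pool.Agent.H146R2.SD.FMB
import Pool.Agent.H146R2.SD.FMC
import Pool.Agent.H146R2.SD.FMD

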