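import Mathlib
import Pool.Agent.H146R2.SD.BAS

set_option autoImplicit false
set_option linter.unusedSectionVars false

open scoped ComplexConjugate Topology
open Filter

namespace Pool.Agent.H146R2.SD

open Pool.Agent.Helper278 Pool.Agent.Helper436.SM

variable {A : Type} [Ring A] [StarRing A] [Algebra ℂ A] [StarModule ℂ A] {τ : A →ₗ[ℂ] ℂ}
variable {V G : Type} [AddCommGroup V] [Group G] {D : Dat V G} {u : G →* A} {W : V → A}

/-- the finite sum with coefficients `k` -/
def fs (u : G →* A) (W : V → A) (F : Finset (G × V)) (k : G × V → ℂ) : A :=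
  ∑ b ∈ F, k b • (u b.1 * W b.2)

/-- the finite sum of `W s` with coefficients `r` -/
def ws (W : V → A) (R : Finset V) (r : V → ℂ) : A := ∑ s ∈ R, r s • W s

end Pool.Agent.H146R2.SD
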