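import Mathlib
import Pool.Agent.H146R2.SD.BAS
import Pool.Agent.H146R2.SD.LHD

set_option autoImplicit false
set_option linter.unusedSectionVars false

open scoped ComplexConjugate Topology
open Filter

namespace Pool.Agent.H146R2.SD

open Pool.Agent.Helper278 Pool.Agent.Helper436.SM

variable {A : Type} [Ring A] [StarRing A] [Algebra ℂ A] [StarModule ℂ A] {τ : A →ₗ[ℂ] ℂ}
variable {V G : Type} [AddCommGroup V] [Group G] {D : Dat V G} {u : G →* A} {W : V → A}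

theorem lha_n2_smul (ht : TrAlg τ) (c : ℂ) (y : A) :
    n2 τ (c • y) ^ 2 = ‖c‖ ^ 2 * n2 τ y ^ 2 := by
  rw [ht.n2_sq, ht.n2_sq, star_smul, smul_mul_assoc, mul_smul_comm, map_smul, map_smul,
    smul_eq_mul, smul_eq_mul]
  have h1 : star c * (c * τ (star y * y)) = ((‖c‖ ^ 2 : ℝ) : ℂ) * τ (star y * y) := by
    rw [← mul_assoc, Complex.star_def, Complex.conj_mul']
    push_cast
    rfl
  rw [h1, Complex.re_ofReal_mul]

theorem lha_n2_mul (ht : TrAlg τ) (x : A) (hx : x ∈ unitary A) (y : A) :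
    n2 τ (y * star x) ^ 2 = n2 τ y ^ 2 := by
  rw [ht.n2_sq, ht.n2_sq, star_mul, star_star]
  congr 1
  have h1 : x * star y * (y * star x) = x * (star y * y * star x) := by
    simp only [mul_assoc]
  rw [h1, ht.comm, mul_assoc (star y * y), Unitary.star_mul_self_of_mem hx, mul_one]

theorem lha_tr (h : TW D τ u W) (x y : A) (s : V) :
    hat τ u W (y * star x) (1, s) = τ (star (W s * x) * y) := by
  unfold hat
  simp only [map_one, one_mul]
  rw [← mul_assoc, h.tr.comm, star_mul, mul_assoc]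

theorem lha_bessel (h : TW D τ u W) (R : Finset V) (x : A) (hx : x ∈ unitary A) (y : A) :
    ∑ s ∈ R, ‖τ (star (W s * x) * y)‖ ^ 2 ≤ n2 τ y ^ 2 := by
  classical
  rw [← lha_n2_mul h.tr x hx y]
  have h1 := h.parseval (y * star x)
  let emb : V ↪ G × V := ⟨fun s => (1, s), fun a b hab => (Prod.mk.inj hab).2⟩
  have h2 := sum_le_hasSum (R.map emb) (fun b _ => by positivity) h1
  rw [Finset.sum_map] at h2
  refine le_trans (le_of_eq ?_) h2
  refine Finset.sum_congr rfl fun s _ => ?_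
  rw [← lha_tr h]
  rfl

theorem lha_shift (h : TW D τ u W) (x : A) (s t : V) :
    ‖τ (star (W s * x) * (star (W t) * x * W t))‖ =
      ‖hat τ u W (x * W t * star x) (1, t + s)‖ := by
  unfold hat
  simp only [map_one, one_mul]
  have h1 : W (t + s) = e (-(D.β t s)) • (W t * W s) := by
    rw [h.mul, smul_smul, mul_comm, e_mul_neg, one_smul]
  rw [h1, star_smul, smul_mul_assoc, map_smul, norm_smul, norm_star, norm_e, one_mul]
  congr 1
  have h2 : star (W t * W s) * (x * W t * star x) =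
      (star (W s) * (star (W t) * x * W t)) * star x := by
    rw [star_mul]
    simp only [mul_assoc]
  rw [h2, h.tr.comm (star (W s) * (star (W t) * x * W t)) (star x), star_mul]
  simp only [mul_assoc]

/-- the finite set `R` for one `t` -/
theorem lha_exists_R (h : TW D τ u W) (T : AddSubgroup V) (x : A) (κ η : ℝ) (hη : 0 < η) (t : V)
    (htT : t ∈ T) (hm : κ ≤ mass τ u W (tl T) (x * W t * star x)) :
    ∃ R : Finset V, (∀ s ∈ R, s ∈ T) ∧
      κ - η < ∑ s ∈ R, ‖τ (star (W s * x) * (star (W t) * x * W t))‖ ^ 2 := by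
  classical
  set z := x * W t * star x with hz
  have h1 := (h.summable_ind (tl T) z).hasSum
  have h2 : κ - η < ∑' b, (tl T : Set (G × V)).indicator (fun b => ‖hat τ u W z b‖ ^ 2) b := by
    have : mass τ u W (tl T) z =
      ∑' b, (tl T : Set (G × V)).indicator (fun b => ‖hat τ u W z b‖ ^ 2) b := rfl
    rw [← this]
    linarith
  obtain ⟨F, hF⟩ := (h1.eventually (lt_mem_nhds h2)).exists
  have h3 : ∑ b ∈ F, (tl T : Set (G × V)).indicator (fun b => ‖hat τ u W z b‖ ^ 2) b =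
      ∑ b ∈ F.filter (fun b => b ∈ (tl T : Set (G × V))), ‖hat τ u W z b‖ ^ 2 := by
    rw [Finset.sum_filter]
    refine Finset.sum_congr rfl fun b _ => ?_
    rw [Set.indicator_apply]
  have htl : ∀ b : G × V, b ∈ (tl T : Set (G × V)) ↔ b.1 = 1 ∧ b.2 ∈ T := fun b => Iff.rfl
  refine ⟨(F.filter (fun b => b ∈ (tl T : Set (G × V)))).image (fun b => b.2 - t), ?_, ?_⟩
  · intro s hs
    rw [Finset.mem_image] at hs
    obtain ⟨b, hb, rfl⟩ := hs
    exact T.sub_mem ((htl b).mp (Finset.mem_filter.mp hb).2).2 htT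
  · rw [Finset.sum_image]
    · refine lt_of_lt_of_eq hF ?_
      rw [h3]
      refine Finset.sum_congr rfl fun b hb => ?_
      obtain ⟨hb1, -⟩ := (htl b).mp (Finset.mem_filter.mp hb).2
      rw [lha_shift h, ← hz, add_sub_cancel, ← hb1]
    · intro b hb b' hb' hbb
      obtain ⟨hb1, -⟩ := (htl b).mp (Finset.mem_filter.mp hb).2
      obtain ⟨hb2, -⟩ := (htl b').mp (Finset.mem_filter.mp hb').2
      simp only at hbb
      exact Prod.ext (hb1.trans hb2.symm) (sub_left_injective hbb)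

theorem lha_conj (h : TW D τ u W) (t : V) (b : G × V) :
    star (W t) * (u b.1 * W b.2) * W t = e (-(D.co t b)) • (u b.1 * W b.2) := by
  have h1 : (u b.1 * W b.2) * W t = e (-(D.co t b)) • (W t * (u b.1 * W b.2)) := by
    rw [h.W_basis, smul_smul, mul_comm, e_mul_neg, one_smul]
  rw [mul_assoc, h1, mul_smul_comm, ← mul_assoc, h.unit_left, one_mul]

theorem lha_hat_fs (h : TW D τ u W) (F : Finset (G × V)) (k : G × V → ℂ) (b : G × V) :
    hat τ u W (fs u W F k) b = open Classical in if b ∈ F then k b else 0 := by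
  classical
  unfold fs
  rw [TW.hat_sum]
  simp only [TW.hat_smul, h.hat_basis, mul_ite, mul_one, mul_zero]
  rw [Finset.sum_ite_eq]

theorem lha_n2_fs (h : TW D τ u W) (F : Finset (G × V)) (k : G × V → ℂ) :
    n2 τ (fs u W F k) ^ 2 = ∑ b ∈ F, ‖k b‖ ^ 2 := by
  classical
  have h1 := h.parseval (fs u W F k)
  have h2 : HasSum (fun b : G × V => ‖τ (star (u b.1 * W b.2) * fs u W F k)‖ ^ 2)
      (∑ b ∈ F, ‖τ (star (u b.1 * W b.2) * fs u W F k)‖ ^ 2) := by
    refine hasSum_sum_of_ne_finset_zero fun b hb => ?_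
    have h3 := lha_hat_fs h F k b
    rw [if_neg hb] at h3
    have h4 : τ (star (u b.1 * W b.2) * fs u W F k) = 0 := h3
    rw [h4]
    simp
  rw [h1.unique h2]
  refine Finset.sum_congr rfl fun b hb => ?_
  have h3 := lha_hat_fs h F k b
  rw [if_pos hb] at h3
  have h4 : τ (star (u b.1 * W b.2) * fs u W F k) = k b := h3
  rw [h4]

/-- orthogonality of characters -/
theorem lha_orth {K : Type} [AddCommGroup K] [Fintype K] (Ξ : Finset (K →+ TT))
    (a : (K →+ TT) → ℂ) :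
    ∑ t : K, ‖∑ ξ ∈ Ξ, a ξ * e (-(ξ t))‖ ^ 2 = (Fintype.card K : ℝ) * ∑ ξ ∈ Ξ, ‖a ξ‖ ^ 2 := by
  classical
  have key : ∀ ξ ξ' : K →+ TT, ∑ t : K, e (-(ξ t)) * conj (e (-(ξ' t))) =
      if ξ = ξ' then (Fintype.card K : ℂ) else 0 := by
    intro ξ ξ'
    have h1 : ∀ t : K, e (-(ξ t)) * conj (e (-(ξ' t))) = e ((ξ' - ξ) t) := by
      intro t
      rw [← e_neg, neg_neg, ← e_add, AddMonoidHom.sub_apply]
      congr 1
      abel
    simp only [h1]
    by_cases hξ : ξ = ξ'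
    · rw [if_pos hξ, hξ, sub_self]
      simp [e_zero]
    · rw [if_neg hξ]
      exact sum_e _ (sub_ne_zero.mpr (Ne.symm hξ))
  have h2 : ((∑ t : K, ‖∑ ξ ∈ Ξ, a ξ * e (-(ξ t))‖ ^ 2 : ℝ) : ℂ) =
      (((Fintype.card K : ℝ) * ∑ ξ ∈ Ξ, ‖a ξ‖ ^ 2 : ℝ) : ℂ) := by
    push_cast
    simp only [← Complex.mul_conj', map_sum, map_mul, Finset.sum_mul_sum]
    rw [Finset.sum_comm, Finset.mul_sum]
    refine Finset.sum_congr rfl fun ξ hξ => ?_
    rw [Finset.sum_comm, Finset.sum_eq_single ξ]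
    · have h3 : ∀ t : K, a ξ * e (-(ξ t)) * (conj (a ξ) * conj (e (-(ξ t)))) =
          a ξ * conj (a ξ) * (e (-(ξ t)) * conj (e (-(ξ t)))) := fun t => by ring
      simp only [h3]
      rw [← Finset.mul_sum, key, if_pos rfl]
      ring
    · intro ξ' _ hne
      have h3 : ∀ t : K, a ξ * e (-(ξ t)) * (conj (a ξ') * conj (e (-(ξ' t)))) =
          a ξ * conj (a ξ') * (e (-(ξ t)) * conj (e (-(ξ' t)))) := fun t => by ring
      simp only [h3]
      rw [← Finset.mul_sum, key, if_neg (Ne.symm hne), mul_zero]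
    · intro hh
      exact absurd hξ hh
  exact_mod_cast h2

theorem lha_n2_conj (h : TW D τ u W) (t : V) (y : A) :
    n2 τ (star (W t) * y * W t) ^ 2 = n2 τ y ^ 2 := by
  rw [h.tr.n2_sq, h.tr.n2_sq]
  congr 1
  have h1 : star (star (W t) * y * W t) * (star (W t) * y * W t) =
      star (W t) * (star y * y * W t) := by
    rw [star_mul, star_mul, star_star]
    have h2 : star (W t) * (star y * W t) * (star (W t) * y * W t) =
        star (W t) * star y * (W t * star (W t)) * (y * W t) := by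
      simp only [mul_assoc]
    rw [h2, h.unit_right, mul_one]
    simp only [mul_assoc]
  rw [h1, h.tr.comm, mul_assoc, h.unit_right, mul_one]

theorem lha_sq_add (a b : ℂ) (δ : ℝ) (hδ : 0 < δ) :
    ‖a + b‖ ^ 2 ≤ (1 + δ) * ‖a‖ ^ 2 + (1 + 1 / δ) * ‖b‖ ^ 2 := by
  have h1 : ‖a + b‖ ^ 2 ≤ (‖a‖ + ‖b‖) ^ 2 :=
    pow_le_pow_left₀ (norm_nonneg _) (norm_add_le a b) 2
  have h2 : 0 ≤ (δ * ‖a‖ - ‖b‖) ^ 2 / δ := by positivity
  have h3 : (δ * ‖a‖ - ‖b‖) ^ 2 / δ = δ * ‖a‖ ^ 2 - 2 * ‖a‖ * ‖b‖ + 1 / δ * ‖b‖ ^ 2 := by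
    field_simp
    ring
  rw [h3] at h2
  nlinarith

/-- lower bound for an approximation of `x` -/
theorem lha_low (h : TW D τ u W) (R : Finset V) (x f : A) (hx : x ∈ unitary A) (t : V)
    (κ ε η : ℝ) (hε : 0 < ε) (hκ : ε < κ) (hκ1 : κ ≤ 1)
    (hη : (1 + 1 / (ε / 4)) * η ≤ ε / 8) (hf : n2 τ (x - f) ^ 2 < η)
    (hR : κ - ε / 8 < ∑ s ∈ R, ‖τ (star (W s * x) * (star (W t) * x * W t))‖ ^ 2) :
    κ - ε / 2 ≤ ∑ s ∈ R, ‖τ (star (W s * x) * (star (W t) * f * W t))‖ ^ 2 := by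
  set δ : ℝ := ε / 4 with hδ
  have hδ0 : 0 < δ := by positivity
  have h1 : ∑ s ∈ R, ‖τ (star (W s * x) * (star (W t) * x * W t))‖ ^ 2 ≤
      (1 + δ) * (∑ s ∈ R, ‖τ (star (W s * x) * (star (W t) * f * W t))‖ ^ 2) +
        (1 + 1 / δ) * ∑ s ∈ R, ‖τ (star (W s * x) * (star (W t) * (x - f) * W t))‖ ^ 2 := by
    rw [Finset.mul_sum, Finset.mul_sum, ← Finset.sum_add_distrib]
    refine Finset.sum_le_sum fun s _ => ?_
    have h2 : τ (star (W s * x) * (star (W t) * x * W t)) =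
        τ (star (W s * x) * (star (W t) * f * W t)) +
          τ (star (W s * x) * (star (W t) * (x - f) * W t)) := by
      rw [← map_add, ← mul_add, ← add_mul, ← mul_add, add_sub_cancel]
    rw [h2]
    exact lha_sq_add _ _ δ hδ0
  have h2 := lha_bessel h R x hx (star (W t) * (x - f) * W t)
  rw [lha_n2_conj h] at h2
  have h3 : (1 + 1 / δ) * ∑ s ∈ R, ‖τ (star (W s * x) * (star (W t) * (x - f) * W t))‖ ^ 2 ≤
      ε / 8 := by
    refine le_trans ?_ hη
    exact mul_le_mul_of_nonneg_left (h2.trans hf.le) (by positivity)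
  by_contra h4
  rw [not_le] at h4
  have h5 : (1 + δ) * (∑ s ∈ R, ‖τ (star (W s * x) * (star (W t) * f * W t))‖ ^ 2) ≤
      (1 + δ) * (κ - ε / 2) := mul_le_mul_of_nonneg_left h4.le (by positivity)
  have h6 : δ * (κ - ε / 2) ≤ δ * 1 := mul_le_mul_of_nonneg_left (by linarith) hδ0.le
  have h7 : (1 + δ) * (κ - ε / 2) = κ - ε / 2 + δ * (κ - ε / 2) := by ring
  rw [h7] at h5
  linarith

open scoped Classical in
/-- the part of `f` in a class -/
theorem lha_conj_class (h : TW D τ u W) (F : Finset (G × V)) (k : G × V → ℂ) (t : V) (φ : TT)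
    (hF : ∀ b ∈ F, D.co t b = φ) :
    star (W t) * fs u W F k * W t = e (-φ) • fs u W F k := by
  unfold fs
  rw [Finset.mul_sum, Finset.sum_mul, Finset.smul_sum]
  refine Finset.sum_congr rfl fun b hb => ?_
  rw [mul_smul_comm, smul_mul_assoc, lha_conj h, hF b hb, smul_smul, smul_smul, mul_comm]

/-- averaging over a finite group of characters -/
theorem TW.average (h : TW D τ u W) (htor : ∀ v : V, ∃ n : ℕ, 0 < n ∧ n • v = 0)
    (T : AddSubgroup V) (x : A) (hx : x ∈ unitary A) (κ ε : ℝ) (hε : 0 < ε) (hκ : ε < κ)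
    (hm : ∀ t ∈ T, κ ≤ mass τ u W (tl T) (x * W t * star x)) :
    ∃ (b0 : G × V) (F : Finset (G × V)) (k : G × V → ℂ), (∀ b ∈ F, ∀ t ∈ T, D.co t b = D.co t b0) ∧
      n2 τ (fs u W F k) = 1 ∧
      ∃ R : Finset V, (∀ s ∈ R, s ∈ T) ∧
        κ - ε ≤ ∑ s ∈ R, ‖τ (star (W s * x) * fs u W F k)‖ ^ 2 := by
  classical
  have ht := h.tr
  have hn2x : n2 τ x ^ 2 = 1 := by
    rw [ht.n2_sq, Unitary.star_mul_self_of_mem hx, ht.one, Complex.one_re]
  have hκ1 : κ ≤ 1 := by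
    have h1 := hm 0 T.zero_mem
    rw [h.zero, mul_one, Unitary.mul_star_self_of_mem hx] at h1
    have h2 := h.mass_le (tl T) (1 : A)
    have h3 : n2 τ (1 : A) ^ 2 = 1 := by
      rw [ht.n2_sq, star_one, one_mul, ht.one, Complex.one_re]
    rw [h3] at h2
    linarith
  set η : ℝ := ε / 8 / (1 + 1 / (ε / 4)) with hη
  have hη0 : 0 < η := by positivity
  have hη1 : (1 + 1 / (ε / 4)) * η ≤ ε / 8 := by
    rw [hη, mul_div_cancel₀ _ (by positivity)]
  obtain ⟨F0, hF0⟩ := h.exists_finset_mass x η hη0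
  have happ := h.exists_approx x F0
  have hf : n2 τ (x - fs u W F0 (hat τ u W x)) ^ 2 < η := by
    unfold fs
    rw [happ]
    exact hF0
  -- the finite group `K`
  let ch : (G × V) × (G × V) → V := fun q =>
    if hq : ∃ t ∈ T, D.co t q.1 ≠ D.co t q.2 then hq.choose else 0
  obtain ⟨K, hKT, hKfin, hKS⟩ := exists_finite_sub htor ((F0 ×ˢ F0).image ch) T (by
    intro v hv
    rw [Finset.mem_image] at hv
    obtain ⟨q, -, rfl⟩ := hv
    by_cases hq : ∃ t ∈ T, D.co t q.1 ≠ D.co t q.2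
    · simp only [ch, dif_pos hq]
      exact hq.choose_spec.1
    · simp only [ch, dif_neg hq]
      exact T.zero_mem)
  have hsep : ∀ b ∈ F0, ∀ b' ∈ F0, (∀ t ∈ K, D.co t b = D.co t b') →
      ∀ t ∈ T, D.co t b = D.co t b' := by
    intro b hb b' hb' hK t htT
    by_contra hne
    have hq : ∃ t ∈ T, D.co t (b, b').1 ≠ D.co t (b, b').2 := ⟨t, htT, hne⟩
    have h1 : ch (b, b') ∈ K := hKS _ (Finset.mem_image_of_mem ch (Finset.mk_mem_product hb hb'))
    have h2 : ch (b, b') = hq.choose := by simp only [ch, dif_pos hq]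
    rw [h2] at h1
    exact hq.choose_spec.2 (hK _ h1)
  have : Fintype K := Fintype.ofFinite K
  -- the finite set `R`
  have hRt : ∀ t : K, ∃ R : Finset V, (∀ s ∈ R, s ∈ T) ∧
      κ - ε / 8 < ∑ s ∈ R, ‖τ (star (W s * x) * (star (W t) * x * W t))‖ ^ 2 := fun t =>
    lha_exists_R h T x κ (ε / 8) (by positivity) t (hKT t.2) (hm t (hKT t.2))
  choose Rt hRtT hRt' using hRt
  set R : Finset V := Finset.univ.biUnion Rt with hRdef
  have hRT : ∀ s ∈ R, s ∈ T := by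
    intro s hs
    rw [hRdef, Finset.mem_biUnion] at hs
    obtain ⟨t, -, hs⟩ := hs
    exact hRtT t s hs
  have hR : ∀ t : K, κ - ε / 8 <
      ∑ s ∈ R, ‖τ (star (W s * x) * (star (W t) * x * W t))‖ ^ 2 := by
    intro t
    refine lt_of_lt_of_le (hRt' t) ?_
    exact Finset.sum_le_sum_of_subset_of_nonneg
      (Finset.subset_biUnion_of_mem Rt (Finset.mem_univ t)) fun _ _ _ => by positivity
  have hlow : ∀ t : K, κ - ε / 2 ≤
      ∑ s ∈ R, ‖τ (star (W s * x) * (star (W t) * fs u W F0 (hat τ u W x) * W t))‖ ^ 2 :=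
    fun t => lha_low h R x _ hx t κ ε η hε hκ hκ1 hη1 hf (hR t)
  -- classes
  let q : G × V → (K →+ TT) := fun b => (coHom D b).comp K.subtype
  have hq : ∀ (b : G × V) (t : K), q b t = D.co (t : V) b := fun b t => rfl
  set Ξ : Finset (K →+ TT) := F0.image q with hΞ
  let fx : (K →+ TT) → A := fun ξ => fs u W (F0.filter fun b => q b = ξ) (hat τ u W x)
  have hfsum : fs u W F0 (hat τ u W x) = ∑ ξ ∈ Ξ, fx ξ := by
    simp only [fx, fs]
    exact (Finset.sum_fiberwise_of_maps_to (fun b hb => Finset.mem_image_of_mem q hb) _).symm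
  have hconj : ∀ (t : K) (ξ : K →+ TT),
      star (W (t : V)) * fx ξ * W (t : V) = e (-(ξ t)) • fx ξ := by
    intro t ξ
    refine lha_conj_class h _ _ _ _ fun b hb => ?_
    rw [← (Finset.mem_filter.mp hb).2, hq]
  have hval : ∀ (t : K) (s : V),
      τ (star (W s * x) * (star (W (t : V)) * fs u W F0 (hat τ u W x) * W (t : V))) =
        ∑ ξ ∈ Ξ, τ (star (W s * x) * fx ξ) * e (-(ξ t)) := by
    intro t s
    rw [hfsum, Finset.mul_sum, Finset.sum_mul, Finset.mul_sum, map_sum]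
    refine Finset.sum_congr rfl fun ξ _ => ?_
    rw [hconj, mul_smul_comm, map_smul, smul_eq_mul, mul_comm]
  -- averaging
  have hcard : (0 : ℝ) < Fintype.card K := by
    have : 0 < Fintype.card K := Fintype.card_pos_iff.mpr ⟨0⟩
    exact_mod_cast this
  have havg : κ - ε / 2 ≤ ∑ ξ ∈ Ξ, ∑ s ∈ R, ‖τ (star (W s * x) * fx ξ)‖ ^ 2 := by
    have h1 : (Fintype.card K : ℝ) * (κ - ε / 2) ≤ ∑ t : K,
        ∑ s ∈ R, ‖τ (star (W s * x) * (star (W t) * fs u W F0 (hat τ u W x) * W t))‖ ^ 2 := by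
      have h2 : (Fintype.card K : ℝ) * (κ - ε / 2) = ∑ _t : K, (κ - ε / 2) := by
        rw [Finset.sum_const, Finset.card_univ, nsmul_eq_mul]
      rw [h2]
      exact Finset.sum_le_sum fun t _ => hlow t
    simp only [hval] at h1
    rw [Finset.sum_comm] at h1
    simp only [lha_orth] at h1
    rw [← Finset.mul_sum] at h1
    have h2 := le_of_mul_le_mul_left h1 hcard
    rw [Finset.sum_comm] at h2
    exact h2
  have hn2 : ∑ ξ ∈ Ξ, n2 τ (fx ξ) ^ 2 ≤ 1 := by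
    have h1 : ∑ ξ ∈ Ξ, n2 τ (fx ξ) ^ 2 = ∑ b ∈ F0, ‖hat τ u W x b‖ ^ 2 := by
      simp only [fx, lha_n2_fs h]
      exact Finset.sum_fiberwise_of_maps_to (fun b hb => Finset.mem_image_of_mem q hb) _
    rw [h1, ← hn2x]
    exact sum_le_hasSum F0 (fun b _ => by positivity) (h.parseval x)
  have hex : ∃ ξ ∈ Ξ, n2 τ (fx ξ) ≠ 0 ∧
      (κ - ε) * n2 τ (fx ξ) ^ 2 ≤ ∑ s ∈ R, ‖τ (star (W s * x) * fx ξ)‖ ^ 2 := by
    by_contra hcon
    push Not at hcon
    have h1 : ∀ ξ ∈ Ξ, ∑ s ∈ R, ‖τ (star (W s * x) * fx ξ)‖ ^ 2 ≤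
        (κ - ε) * n2 τ (fx ξ) ^ 2 := by
      intro ξ hξ
      by_cases h0 : n2 τ (fx ξ) = 0
      · have h2 := lha_bessel h R x hx (fx ξ)
        rw [h0] at h2 ⊢
        simpa using h2
      · exact (hcon ξ hξ h0).le
    have h2 := Finset.sum_le_sum h1
    rw [← Finset.mul_sum] at h2
    have h3 : (κ - ε) * ∑ ξ ∈ Ξ, n2 τ (fx ξ) ^ 2 ≤ (κ - ε) * 1 :=
      mul_le_mul_of_nonneg_left hn2 (by linarith)
    linarith
  obtain ⟨ξ, hξ, h0, hN⟩ := hex
  rw [hΞ, Finset.mem_image] at hξ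
  obtain ⟨b0, hb0, hb0ξ⟩ := hξ
  have hfs : fs u W (F0.filter fun b => q b = ξ)
      (fun b => (((n2 τ (fx ξ))⁻¹ : ℝ) : ℂ) * hat τ u W x b) =
      (((n2 τ (fx ξ))⁻¹ : ℝ) : ℂ) • fx ξ := by
    simp only [fx, fs, Finset.smul_sum, smul_smul]
  have hpos : 0 < n2 τ (fx ξ) := lt_of_le_of_ne (n2_nonneg _ _) (Ne.symm h0)
  have hnr : ‖(((n2 τ (fx ξ))⁻¹ : ℝ) : ℂ)‖ = (n2 τ (fx ξ))⁻¹ := by
    rw [Complex.norm_real, Real.norm_eq_abs, abs_of_pos (inv_pos.mpr hpos)]
  refine ⟨b0, F0.filter (fun b => q b = ξ),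
    (fun b => (((n2 τ (fx ξ))⁻¹ : ℝ) : ℂ) * hat τ u W x b), ?_, ?_, R, hRT, ?_⟩
  · intro b hb
    obtain ⟨hb1, hb2⟩ := Finset.mem_filter.mp hb
    refine hsep b hb1 b0 hb0 fun t htK => ?_
    have h1 : q b ⟨t, htK⟩ = q b0 ⟨t, htK⟩ := by rw [hb2, hb0ξ]
    rw [hq, hq] at h1
    exact h1
  · rw [hfs]
    have h1 := lha_n2_smul ht (((n2 τ (fx ξ))⁻¹ : ℝ) : ℂ) (fx ξ)
    rw [hnr, inv_pow, inv_mul_cancel₀ (by positivity)] at h1
    have h2 := n2_nonneg τ ((((n2 τ (fx ξ))⁻¹ : ℝ) : ℂ) • fx ξ)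
    nlinarith
  · rw [hfs]
    have h1 : ∀ s ∈ R, ‖τ (star (W s * x) * ((((n2 τ (fx ξ))⁻¹ : ℝ) : ℂ) • fx ξ))‖ ^ 2 =
        (n2 τ (fx ξ) ^ 2)⁻¹ * ‖τ (star (W s * x) * fx ξ)‖ ^ 2 := by
      intro s _
      rw [mul_smul_comm, map_smul, smul_eq_mul, norm_mul, hnr, mul_pow, inv_pow]
    rw [Finset.sum_congr rfl h1, ← Finset.mul_sum, inv_mul_eq_div, le_div_iff₀ (by positivity)]
    exact hN

end Pool.Agent.H146R2.SD
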