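import Mathlib
import Pool.Agent.H146R2.SD.BAS
import Pool.Agent.H146R2.SD.LHD

set_option autoImplicit false
set_option linter.unusedSectionVars false

open scoped ComplexConjugate Topology
open Filter

namespace Pool.Agent.H146R2.SD

open Pool.Agent.Helper278 Pool.Agent.Helper436.SM

variable {A : Type} [Ring A] [StarRing A] [Algebra ℂ A] [StarModule ℂ A] {τ : A →ₗ[ℂ] ℂ}
variable {V G : Type} [AddCommGroup V] [Group G] {D : Dat V G} {u : G →* A} {W : V → A}

/-- elements commuting with `W r`, `r ∈ T`, are orthogonal to `W t` -/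
theorem lhb_zero (h : TW D τ u W) (T : AddSubgroup V)
    (hnd : ∀ t ∈ T, (∀ s ∈ T, D.co s (1, t) = 0) → t = 0) (y : A)
    (hy : ∀ r ∈ T, W r * y * star (W r) = y) (t : V) (ht : t ∈ T) (ht0 : t ≠ 0) :
    τ (W t * y) = 0 := by
  have h1 : ∃ s ∈ T, D.co s (1, t) ≠ 0 := by
    by_contra hcon
    push Not at hcon
    exact ht0 (hnd t ht hcon)
  obtain ⟨s, hs, hst⟩ := h1
  have h2 : W s * W t = e (D.co s (1, t)) • (W t * W s) := by
    have := h.W_basis s (1, t)
    simpa using this
  have h3 : τ (W t * y) = e (D.co s (1, t)) * τ (W t * y) := by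
    have e1 : τ (W t * y) = τ (W s * (W t * y) * star (W s)) := by
      rw [h.tr.comm (W s * (W t * y)) (star (W s)), ← mul_assoc, h.unit_left, one_mul]
    have e2 : W s * (W t * y) * star (W s) = e (D.co s (1, t)) • (W t * y) := by
      calc W s * (W t * y) * star (W s) = (W s * W t) * (y * star (W s)) := by
            simp only [mul_assoc]
        _ = e (D.co s (1, t)) • (W t * (W s * y * star (W s))) := by
            rw [h2, smul_mul_assoc]; simp only [mul_assoc]
        _ = e (D.co s (1, t)) • (W t * y) := by rw [hy s hs]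
    conv_lhs => rw [e1, e2, map_smul, smul_eq_mul]
  have h4 : e (D.co s (1, t)) ≠ 1 := fun hh => hst ((e_eq_one_iff _).1 hh)
  have h5 : (1 - e (D.co s (1, t))) * τ (W t * y) = 0 := by
    rw [sub_mul, one_mul, ← h3, sub_self]
  rcases mul_eq_zero.1 h5 with h6 | h6
  · exact absurd (sub_eq_zero.1 h6).symm h4
  · exact h6

open scoped Classical in
theorem lhb_orth (h : TW D τ u W) (T : AddSubgroup V)
    (hnd : ∀ t ∈ T, (∀ s ∈ T, D.co s (1, t) = 0) → t = 0) (y : A)
    (hy : ∀ r ∈ T, W r * y * star (W r) = y) (s s' : V) (hs : s ∈ T) (hs' : s' ∈ T) :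
    τ (W s * star (W s') * y) = if s = s' then τ y else 0 := by
  split_ifs with hss
  · rw [hss, h.unit_right, one_mul]
  · have h1 : W s * star (W s') = (e (D.β s' s') * e (D.β s (-s'))) • W (s - s') := by
      rw [h.star_W s', mul_smul_comm, h.mul, smul_smul, ← sub_eq_add_neg]
    rw [h1, smul_mul_assoc, map_smul,
      lhb_zero h T hnd y hy (s - s') (T.sub_mem hs hs') (sub_ne_zero.2 hss), smul_zero]

open scoped Classical in
/-- best approximation by a finite orthonormal family -/
theorem lhb_bessel (ht : TrAlg τ) (R : Finset V) (f : V → A)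
    (hf : ∀ s ∈ R, ∀ s' ∈ R, τ (star (f s) * f s') = if s = s' then 1 else 0) (x : A) :
    n2 τ (x - ∑ s ∈ R, τ (star (f s) * x) • f s) ^ 2 =
      n2 τ x ^ 2 - ∑ s ∈ R, ‖τ (star (f s) * x)‖ ^ 2 := by
  set c : V → ℂ := fun s => τ (star (f s) * x) with hc
  set x' : A := ∑ s ∈ R, c s • f s with hx'
  have h1 : τ (star x' * x) = ((∑ s ∈ R, ‖c s‖ ^ 2 : ℝ) : ℂ) := by
    rw [hx', star_sum, Finset.sum_mul, map_sum]
    push_cast
    refine Finset.sum_congr rfl fun s _ => ?_
    rw [star_smul, smul_mul_assoc, map_smul, smul_eq_mul, ← Complex.conj_mul']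
    rfl
  have h2 : τ (star x * x') = ((∑ s ∈ R, ‖c s‖ ^ 2 : ℝ) : ℂ) := by
    have : star x * x' = star (star x' * x) := by rw [star_mul, star_star]
    rw [this, ht.conj, h1]
    exact Complex.conj_ofReal _
  have h3 : τ (star x' * x') = ((∑ s ∈ R, ‖c s‖ ^ 2 : ℝ) : ℂ) := by
    conv_lhs => rw [hx']
    rw [star_sum, Finset.sum_mul, map_sum]
    push_cast
    refine Finset.sum_congr rfl fun s hs => ?_
    rw [Finset.mul_sum, map_sum, Finset.sum_eq_single s]
    · rw [star_smul, smul_mul_smul_comm, map_smul, hf s hs s hs, if_pos rfl, smul_eq_mul, mul_one,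
        ← Complex.conj_mul']
      rfl
    · intro s' hs' hne
      rw [star_smul, smul_mul_smul_comm, map_smul, hf s hs s' hs', if_neg (Ne.symm hne),
        smul_zero]
    · intro hh; exact absurd hs hh
  have h4 : star (x - x') * (x - x') = star x * x - star x * x' - star x' * x + star x' * x' := by
    rw [star_sub]; noncomm_ring
  rw [ht.n2_sq, ht.n2_sq, h4, map_add, map_sub, map_sub, h1, h2, h3]
  simp only [Complex.add_re, Complex.sub_re, Complex.ofReal_re]
  ring

/-- rank one approximation -/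
theorem TW.rankone (h : TW D τ u W) (T : AddSubgroup V)
    (hnd : ∀ t ∈ T, (∀ s ∈ T, D.co s (1, t) = 0) → t = 0) (x : A) (hx : x ∈ unitary A) (κ : ℝ)
    (b0 : G × V) (F : Finset (G × V)) (k : G × V → ℂ)
    (hF : ∀ b ∈ F, ∀ t ∈ T, D.co t b = D.co t b0) (hk : n2 τ (fs u W F k) = 1) (R : Finset V)
    (hR : ∀ s ∈ R, s ∈ T) (hs : κ ≤ ∑ s ∈ R, ‖τ (star (W s * x) * fs u W F k)‖ ^ 2) :
    ∃ (R' : Finset V) (r : V → ℂ), (∀ s ∈ R', s ∈ T) ∧ n2 τ (ws W R' r) ≤ 1 ∧
      n2 τ (x - ws W R' r * fs u W F k) ^ 2 ≤ 1 - κ := by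
  classical
  set a : A := fs u W F k with ha
  have ht := h.tr
  -- conjugation of `a`
  have ca : ∀ r ∈ T, W r * a * star (W r) = e (D.co r b0) • a := by
    intro r hr
    have h1 : W r * a = e (D.co r b0) • (a * W r) := by
      simp only [ha, fs, Finset.mul_sum, Finset.sum_mul, Finset.smul_sum]
      refine Finset.sum_congr rfl fun b hb => ?_
      rw [mul_smul_comm, h.W_basis r b, hF b hb r hr, smul_mul_assoc, smul_comm]
    rw [h1, smul_mul_assoc, mul_assoc, h.unit_right, mul_one]
  have ca' : ∀ r ∈ T, W r * star a * star (W r) = conj (e (D.co r b0)) • star a := by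
    intro r hr
    have h1 := congrArg star (ca r hr)
    rw [star_mul, star_mul, star_star, star_smul] at h1
    rw [mul_assoc]
    exact h1
  have caa : ∀ r ∈ T, W r * (a * star a) * star (W r) = a * star a := by
    intro r hr
    have h1 : W r * (a * star a) * star (W r) =
        (W r * a * star (W r)) * (W r * star a * star (W r)) := by
      have h2 : (W r * a * star (W r)) * (W r * star a * star (W r)) =
          W r * a * (star (W r) * W r) * star a * star (W r) := by simp only [mul_assoc]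
      rw [h2, h.unit_left, mul_one]
      simp only [mul_assoc]
    rw [h1, ca r hr, ca' r hr, smul_mul_smul_comm]
    have h3 : e (D.co r b0) * conj (e (D.co r b0)) = 1 := by
      rw [Complex.mul_conj, Complex.normSq_eq_norm_sq, norm_e]; simp
    rw [h3, one_smul]
  have haa : τ (a * star a) = 1 := by
    rw [ht.comm]
    have h1 := ht.n2_sq a
    rw [hk] at h1
    apply Complex.ext
    · rw [← h1]; simp
    · rw [ht.im_zero]; simp
  have hxx : n2 τ x ^ 2 = 1 := by
    rw [ht.n2_sq, (Unitary.mem_iff.1 hx).1, ht.one]; simp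
  -- orthonormal families
  have o1 : ∀ s ∈ R, ∀ s' ∈ R, τ (star (star (W s) * a) * (star (W s') * a)) =
      if s = s' then 1 else 0 := by
    intro s hs s' hs'
    have h1 : star (star (W s) * a) * (star (W s') * a) = star a * (W s * star (W s') * a) := by
      rw [star_mul, star_star]; simp only [mul_assoc]
    rw [h1, ht.comm, mul_assoc, lhb_orth h T hnd _ caa s s' (hR s hs) (hR s' hs'), haa]
  have o2 : ∀ s ∈ R, ∀ s' ∈ R, τ (star (star (W s)) * star (W s')) =
      if s = s' then 1 else 0 := by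
    intro s hs s' hs'
    have h1 : ∀ r ∈ T, W r * (1 : A) * star (W r) = 1 := fun r _ => by
      rw [mul_one, h.unit_right]
    have h2 := lhb_orth h T hnd 1 h1 s s' (hR s hs) (hR s' hs')
    rw [mul_one] at h2
    rw [star_star, h2, ht.one]
  set c : V → ℂ := fun s => τ (star (star (W s) * a) * x) with hc
  have hcn : ∀ s, ‖c s‖ = ‖τ (star (W s * x) * a)‖ := by
    intro s
    have h1 : star (star (W s) * a) * x = star (star (W s * x) * a) := by
      simp only [star_mul, star_star, mul_assoc]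
    simp only [hc]
    rw [h1, ht.conj, norm_star]
  have b1 := lhb_bessel ht R (fun s => star (W s) * a) o1 x
  have hsum : ∑ s ∈ R, ‖c s‖ ^ 2 = ∑ s ∈ R, ‖τ (star (W s * x) * a)‖ ^ 2 :=
    Finset.sum_congr rfl fun s _ => by rw [hcn s]
  set w : A := ∑ s ∈ R, c s • star (W s) with hw
  have hwa : w * a = ∑ s ∈ R, c s • (star (W s) * a) := by
    rw [hw, Finset.sum_mul]
    refine Finset.sum_congr rfl fun s _ => ?_
    rw [smul_mul_assoc]
  have b1' : n2 τ (x - w * a) ^ 2 = 1 - ∑ s ∈ R, ‖c s‖ ^ 2 := by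
    rw [hwa, ← hxx]; exact b1
  have hle : ∑ s ∈ R, ‖c s‖ ^ 2 ≤ 1 := by
    have := sq_nonneg (n2 τ (x - w * a))
    linarith
  -- norm of `w`
  have hws : n2 τ w ^ 2 = ∑ s ∈ R, ‖c s‖ ^ 2 := by
    have h1 : τ (star w * w) = ((∑ s ∈ R, ‖c s‖ ^ 2 : ℝ) : ℂ) := by
      rw [hw, star_sum, Finset.sum_mul, map_sum]
      push_cast
      refine Finset.sum_congr rfl fun s hs => ?_
      rw [Finset.mul_sum, map_sum, Finset.sum_eq_single s]
      · rw [star_smul, smul_mul_smul_comm, map_smul, o2 s hs s hs, if_pos rfl, smul_eq_mul,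
          mul_one, ← Complex.conj_mul']
        rfl
      · intro s' hs' hne
        rw [star_smul, smul_mul_smul_comm, map_smul, o2 s hs s' hs', if_neg (Ne.symm hne),
          smul_zero]
      · intro hh; exact absurd hs hh
    rw [ht.n2_sq, h1, Complex.ofReal_re]
  have hw1 : n2 τ w ≤ 1 := by
    have h1 := n2_nonneg (fun y => τ y) w
    have h2 : n2 τ w ^ 2 ≤ 1 := by rw [hws]; exact hle
    nlinarith [h1, h2]
  -- `w` in the required form
  refine ⟨R.image (fun s => -s), fun t => c (-t) * e (D.β (-t) (-t)), ?_, ?_, ?_⟩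
  · intro s hs
    obtain ⟨t, ht', rfl⟩ := Finset.mem_image.1 hs
    exact T.neg_mem (hR t ht')
  all_goals
    have hww : ws W (R.image (fun s => -s)) (fun t => c (-t) * e (D.β (-t) (-t))) = w := by
      rw [ws, Finset.sum_image (fun s _ s' _ hh => neg_injective hh), hw]
      refine Finset.sum_congr rfl fun s _ => ?_
      simp only [neg_neg]
      rw [h.star_W s, smul_smul]
    rw [hww]
  · exact hw1
  · rw [b1', hsum]
    linarith

end Pool.Agent.H146R2.SD
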