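import Mathlib
import Pool.Agent.H146R2.SD.BAS
import Pool.Agent.H146R2.SD.LHD
import Pool.Agent.H146R2.SD.LHA
import Pool.Agent.H146R2.SD.LHB

set_option autoImplicit false
set_option linter.unusedSectionVars false

open scoped ComplexConjugate Topology
open Filter

namespace Pool.Agent.H146R2.SD

open Pool.Agent.Helper278 Pool.Agent.Helper436.SM

variable {A : Type} [Ring A] [StarRing A] [Algebra ℂ A] [StarModule ℂ A] {τ : A →ₗ[ℂ] ℂ}
variable {V G : Type} [AddCommGroup V] [Group G] {D : Dat V G} {u : G →* A} {W : V → A}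

theorem TW.lemH (h : TW D τ u W) (htor : ∀ v : V, ∃ n : ℕ, 0 < n ∧ n • v = 0)
    (T : AddSubgroup V) (hnd : ∀ t ∈ T, (∀ s ∈ T, D.co s (1, t) = 0) → t = 0)
    (x : A) (hx : x ∈ unitary A) (κ ε : ℝ) (hε : 0 < ε) (hκ : ε < κ)
    (hm : ∀ t ∈ T, κ ≤ mass τ u W (tl T) (x * W t * star x)) :
    ∃ (b0 : G × V) (F : Finset (G × V)) (k : G × V → ℂ) (R : Finset V) (r : V → ℂ),
      (∀ b ∈ F, ∀ t ∈ T, D.co t b = D.co t b0) ∧ (∀ s ∈ R, s ∈ T) ∧
      n2 τ (fs u W F k) = 1 ∧ n2 τ (ws W R r) ≤ 1 ∧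
      n2 τ (x - ws W R r * fs u W F k) ^ 2 ≤ 1 - κ + ε := by
  obtain ⟨b0, F, k, hF, hk, R, hR, hs⟩ := h.average htor T x hx κ ε hε hκ hm
  obtain ⟨R', r, hR', hr, hn⟩ := h.rankone T hnd x hx (κ - ε) b0 F k hF hk R hR hs
  exact ⟨b0, F, k, R', r, hF, hR', hk, hr, by linarith⟩

end Pool.Agent.H146R2.SD
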