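import Mathlib
import Pool.Agent.H146R2.SD.BAS
import Pool.Agent.H146R2.SD.AVG
import Pool.Agent.Helper436.SM.Transfer

set_option autoImplicit false
set_option linter.unusedSectionVars false

open scoped ComplexConjugate Topology
open Filter

namespace Pool.Agent.H146R2.SD

open Pool.Agent.Helper278 Pool.Agent.Helper436.SM

universe w

variable {H : Type} [NormedAddCommGroup H] [InnerProductSpace ℂ H] [CompleteSpace H]
variable {N : VonNeumannAlgebra H} {T0 : TracialState N}
variable {V G : Type} [AddCommGroup V] [Group G] {D : Dat V G} {u : G →* Elt N} {W : V → Elt N}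
variable {T : ℕ → AddSubgroup V}
variable {I : Type w} {U : Ultrafilter I} {Q : Type w} [Ring Q] [StarRing Q] [Algebra ℂ Q]
variable {π : (I → Elt N) → Q} {φ : Q → ℂ}

theorem Wq_mem (h : TW D T0.τ u W) (hπ : CE.IsTracialUltrapower (fun x => T0.τ x) U π φ)
    (t : I → V) : Wq π W t ∈ unitary Q :=
  pi_unitary hπ (fun i => h.W_mem (t i))

/-- equality in the ultrapower -/
theorem pi_eq_iff (hπ : CE.IsTracialUltrapower (fun x => T0.τ x) U π φ) (x y : I → Elt N)
    (hx : CE.BddFam x) (hy : CE.BddFam y) :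
    π x = π y ↔ Tendsto (fun i => n2 T0.τ (x i - y i)) U (𝓝 0) := by
  have hA := trAlg T0
  rw [hπ.quot.eq_iff hx hy]
  exact hA.tendsto_iff _ _

theorem qla_pow (hπ : CE.IsTracialUltrapower (fun x => T0.τ x) U π φ) (x : I → Elt N)
    (hx : ∀ i, x i ∈ unitary (Elt N)) (n : ℕ) : π (fun i => x i ^ n) = π x ^ n := by
  induction n with
  | zero =>
    simp only [pow_zero]
    exact hπ.quot.one
  | succ n ih =>
    rw [pow_succ, ← ih, ← hπ.quot.mul _ _ (bdd_un fun i => pow_mem (hx i) n) (bdd_un hx)]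
    simp only [pow_succ]

theorem Wq_pow (h : TW D T0.τ u W) (hπ : CE.IsTracialUltrapower (fun x => T0.τ x) U π φ)
    (t : I → V) (ht : ∀ i, D.β (t i) (t i) = 0) (p : ℕ) (hp : ∀ i, p • t i = 0) :
    Wq π W t ^ p = 1 := by
  unfold Wq
  rw [← qla_pow hπ _ (fun i => h.W_mem (t i)), ← hπ.quot.one]
  congr 1
  funext i
  exact h.W_pow (t i) (ht i) p (hp i)

theorem pi_Wconj (h : TW D T0.τ u W) (hπ : CE.IsTracialUltrapower (fun x => T0.τ x) U π φ)
    (t : I → V) (x : I → Elt N) (hx : CE.BddFam x) :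
    Wq π W t * π x * star (Wq π W t) = π (fun i => W (t i) * x i * star (W (t i))) :=
  (pi_conj hπ (fun i => W (t i)) x (bdd_un fun i => h.W_mem (t i)) hx).symm

theorem InP.mono {m m' : I → ℕ} (hT : Antitone T) (hm : ∀ i, m i ≤ m' i) {x : Q}
    (hx : InP π W T m x) : InP π W T m' x :=
  fun t ht => hx t fun i => hT (hm i) (ht i)

end Pool.Agent.H146R2.SD
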