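import Mathlib
import Pool.Agent.H146R2.SD.BAS
import Pool.Agent.H146R2.SD.AVG
import Pool.Agent.Helper436.SM.Transfer
import Pool.Agent.H146R2.SD.QLA

set_option autoImplicit false
set_option linter.unusedSectionVars false

open scoped ComplexConjugate Topology
open Filter

namespace Pool.Agent.H146R2.SD

open Pool.Agent.Helper278 Pool.Agent.Helper436.SM

universe w

variable {H : Type} [NormedAddCommGroup H] [InnerProductSpace ℂ H] [CompleteSpace H]
variable {N : VonNeumannAlgebra H} {T0 : TracialState N}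
variable {V G : Type} [AddCommGroup V] [Group G] {D : Dat V G} {u : G →* Elt N} {W : V → Elt N}
variable {T : ℕ → AddSubgroup V}
variable {I : Type w} {U : Ultrafilter I} {Q : Type w} [Ring Q] [StarRing Q] [Algebra ℂ Q]
variable {π : (I → Elt N) → Q} {φ : Q → ℂ}

theorem qlb_mass_nonneg {A : Type} [Ring A] [StarRing A] [Algebra ℂ A] (τ : A →ₗ[ℂ] ℂ)
    (u : G →* A) (W : V → A) (S : Set (G × V)) (x : A) : 0 ≤ mass τ u W S x :=
  tsum_nonneg fun _ => Set.indicator_nonneg (fun _ _ => by positivity) _

/-- level `m` in terms of Fourier coefficients -/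
theorem inP_iff (h : TW D T0.τ u W) (hL : Lev D T)
    (hπ : CE.IsTracialUltrapower (fun x => T0.τ x) U π φ) (m : I → ℕ) (x : I → Elt N)
    (hx : CE.BddFam x) : InP π W T m (π x) ↔
      Tendsto (fun i => mass T0.τ u W (perp D (T (m i)))ᶜ (x i)) U (𝓝 0) := by
  have hb : ∀ t : I → V, CE.BddFam (fun i => W (t i)) := fun t => bdd_un fun i => h.W_mem (t i)
  have key : ∀ t : I → V, Wq π W t * π x = π x * Wq π W t ↔
      Tendsto (fun i => n2 T0.τ (W (t i) * x i - x i * W (t i))) U (𝓝 0) := by
    intro t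
    unfold Wq
    rw [← hπ.quot.mul _ _ (hb t) hx, ← hπ.quot.mul _ _ hx (hb t)]
    exact pi_eq_iff hπ (fun i => W (t i) * x i) (fun i => x i * W (t i))
      (CE.bdd_mul (hb t) hx) (CE.bdd_mul hx (hb t))
  constructor
  · intro hP
    choose t ht hm using fun i => h.exists_t hL.tors (T (m i)) (x i)
    have h1 := (key t).1 (hP t ht)
    have h2 : Tendsto (fun i => n2 T0.τ (W (t i) * x i - x i * W (t i)) ^ 2) U (𝓝 0) := by
      have := h1.pow 2
      simpa using this
    exact squeeze_zero (fun i => qlb_mass_nonneg _ _ _ _ _) hm h2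
  · intro hM t ht
    rw [key t]
    have h1 : Tendsto (fun i => Real.sqrt (4 * mass T0.τ u W (perp D (T (m i)))ᶜ (x i))) U
        (𝓝 0) := by
      have h2 := hM.const_mul 4
      rw [mul_zero] at h2
      have h3 := (Real.continuous_sqrt.tendsto 0).comp h2
      rwa [Real.sqrt_zero] at h3
    refine squeeze_zero (fun i => n2_nonneg _ _) (fun i => ?_) h1
    exact Real.le_sqrt_of_sq_le (h.comm_perp_le (T (m i)) (t i) (ht i) (x i))

end Pool.Agent.H146R2.SD
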