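import Mathlib
import Pool.Agent.H146R2.SD.BAS
import Pool.Agent.H146R2.SD.AVG
import Pool.Agent.Helper436.SM.Transfer
import Pool.Agent.H146R2.SD.QLA
import Pool.Agent.H146R2.SD.QLB

set_option autoImplicit false
set_option linter.unusedSectionVars false

open scoped ComplexConjugate Topology
open Filter

namespace Pool.Agent.H146R2.SD

open Pool.Agent.Helper278 Pool.Agent.Helper436.SM

universe w

variable {H : Type} [NormedAddCommGroup H] [InnerProductSpace ℂ H] [CompleteSpace H]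
variable {N : VonNeumannAlgebra H} {T0 : TracialState N}
variable {V G : Type} [AddCommGroup V] [Group G] {D : Dat V G} {u : G →* Elt N} {W : V → Elt N}
variable {T : ℕ → AddSubgroup V}
variable {I : Type w} {U : Ultrafilter I} {Q : Type w} [Ring Q] [StarRing Q] [Algebra ℂ Q]
variable {π : (I → Elt N) → Q} {φ : Q → ℂ}

/-- the mass off the commutant of `T m` tends to zero -/
theorem qlc_mass (h : TW D T0.τ u W) (hL : Lev D T) (x : Elt N) (ε : ℝ) (hε : 0 < ε) :
    ∃ M : ℕ, ∀ m, M ≤ m → mass T0.τ u W (perp D (T m))ᶜ x < ε := by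
  classical
  obtain ⟨F, hF⟩ := h.exists_finset_mass x ε hε
  choose k hk using hL.exh
  refine ⟨F.sup k, fun m hm => lt_of_le_of_lt (h.mass_mono ?_ x) hF⟩
  intro b hb hbF
  apply hb
  intro t ht
  exact hk b t (hL.anti ((Finset.le_sup (f := k) hbF).trans hm) ht)

/-- finitely many elements have a common level -/
theorem exists_level (h : TW D T0.τ u W) (hL : Lev D T)
    (hπ : CE.IsTracialUltrapower (fun x => T0.τ x) U π φ) (ρ : I → ℕ) (hρ : Tendsto ρ U atTop)
    (m0 : I → ℕ) {n : ℕ} (x : Fin n → Q) :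
    ∃ m : I → ℕ, (∀ i, m0 i ≤ m i) ∧ ∀ j, InP π W T m (x j) := by
  classical
  choose y hy hyx using fun j => hπ.quot.surj (x j)
  have h1 : ∀ i, ∃ M : ℕ, ∀ m, M ≤ m → ∀ j,
      mass T0.τ u W (perp D (T m))ᶜ (y j i) < 1 / ((ρ i : ℝ) + 1) := by
    intro i
    choose M hM using fun j => qlc_mass h hL (y j i) (1 / ((ρ i : ℝ) + 1)) (by positivity)
    exact ⟨Finset.univ.sup M, fun m hm j =>
      hM j m ((Finset.le_sup (f := M) (Finset.mem_univ j)).trans hm)⟩
  choose M hM using h1
  refine ⟨fun i => max (m0 i) (M i), fun i => le_max_left _ _, fun j => ?_⟩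
  rw [← hyx j, inP_iff h hL hπ _ _ (hy j)]
  have h2 : Tendsto (fun i => 1 / ((ρ i : ℝ) + 1)) U (𝓝 0) :=
    (tendsto_one_div_add_atTop_nhds_zero_nat (𝕜 := ℝ)).comp hρ
  exact squeeze_zero (fun i => TW.mass_nonneg _ _)
    (fun i => (hM i _ (le_max_right _ _) j).le) h2

end Pool.Agent.H146R2.SD
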