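import Mathlib
import Pool.Agent.H146R2.SD.BAS
import Pool.Agent.H146R2.SD.AVG
import Pool.Agent.Helper436.SM.Transfer
import Pool.Agent.H146R2.SD.QLA

set_option autoImplicit false
set_option linter.unusedSectionVars false

open scoped ComplexConjugate Topology
open Filter

namespace Pool.Agent.H146R2.SD

open Pool.Agent.Helper278 Pool.Agent.Helper436.SM

universe w

variable {H : Type} [NormedAddCommGroup H] [InnerProductSpace ℂ H] [CompleteSpace H]
variable {N : VonNeumannAlgebra H} {T0 : TracialState N}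
variable {V G : Type} [AddCommGroup V] [Group G] {D : Dat V G} {u : G →* Elt N} {W : V → Elt N}
variable {T : ℕ → AddSubgroup V}
variable {I : Type w} {U : Ultrafilter I} {Q : Type w} [Ring Q] [StarRing Q] [Algebra ℂ Q]
variable {π : (I → Elt N) → Q} {φ : Q → ℂ}

/-- a sequence whose square is at most four times a null sequence is null -/
theorem qld_lim {f g : I → ℝ} (hf : ∀ i, 0 ≤ f i) (hfg : ∀ i, f i ^ 2 ≤ 4 * g i)
    (hg : Tendsto g U (𝓝 0)) : Tendsto f U (𝓝 0) := by
  have h1 : Tendsto (fun i => Real.sqrt (4 * g i)) U (𝓝 0) := by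
    have h2 : Tendsto (fun i => 4 * g i) U (𝓝 0) := by
      simpa using hg.const_mul 4
    have h3 := (Real.continuous_sqrt.tendsto 0).comp h2
    rw [Real.sqrt_zero] at h3
    exact h3
  exact squeeze_zero hf (fun i => Real.le_sqrt_of_sq_le (hfg i)) h1

/-- an element with small mass outside `S i` is fixed by the conjugation by `W (s i)` if `W (s i)`
commutes with the basis elements in `S i` -/
theorem conj_eq_self (h : TW D T0.τ u W)
    (hπ : CE.IsTracialUltrapower (fun x => T0.τ x) U π φ) (x : I → Elt N) (hx : CE.BddFam x)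
    (S : I → Set (G × V)) (hS : Tendsto (fun i => mass T0.τ u W (S i)ᶜ (x i)) U (𝓝 0))
    (s : I → V) (hs : ∀ i, ∀ b ∈ S i, D.co (s i) b = 0) :
    Wq π W s * π x = π x * Wq π W s := by
  have bW : CE.BddFam (fun i => W (s i)) := bdd_un (fun i => h.W_mem (s i))
  unfold Wq
  rw [← hπ.quot.mul _ _ bW hx, ← hπ.quot.mul _ _ hx bW]
  refine (pi_eq_iff hπ _ _ (CE.bdd_mul bW hx) (CE.bdd_mul hx bW)).2 ?_
  refine qld_lim (fun i => n2_nonneg _ _) (fun i => ?_) hS
  exact h.n2_comm_W_le (s i) (x i) (S i)ᶜ (fun b hb => hs i b (not_not.1 hb))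

theorem conj_eq_conj (h : TW D T0.τ u W)
    (hπ : CE.IsTracialUltrapower (fun x => T0.τ x) U π φ) (x : I → Elt N) (hx : CE.BddFam x)
    (S : I → Set (G × V)) (hS : Tendsto (fun i => mass T0.τ u W (S i)ᶜ (x i)) U (𝓝 0))
    (s t : I → V) (hs : ∀ i, ∀ b ∈ S i, D.co (s i) b = D.co (t i) b) :
    Wq π W s * π x * star (Wq π W s) = Wq π W t * π x * star (Wq π W t) := by
  have bs : CE.BddFam (fun i => W (s i)) := bdd_un (fun i => h.W_mem (s i))
  have bt : CE.BddFam (fun i => W (t i)) := bdd_un (fun i => h.W_mem (t i))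
  rw [pi_Wconj h hπ s x hx, pi_Wconj h hπ t x hx]
  refine (pi_eq_iff hπ _ _ (CE.bdd_mul (CE.bdd_mul bs hx) (bdd_st bs))
    (CE.bdd_mul (CE.bdd_mul bt hx) (bdd_st bt))).2 ?_
  refine qld_lim (fun i => n2_nonneg _ _) (fun i => ?_) hS
  exact h.n2_conj_sub_le (s i) (t i) (x i) (S i)ᶜ (fun b hb => hs i b (not_not.1 hb))

end Pool.Agent.H146R2.SD
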