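import Mathlib
import Pool.Agent.H146R2.SD.BAS
import Pool.Agent.H146R2.SD.AVG
import Pool.Agent.Helper436.SM.Transfer
import Pool.Agent.H146R2.SD.QLA
import Pool.Agent.H146R2.SD.QLB

set_option autoImplicit false
set_option linter.unusedSectionVars false

open scoped ComplexConjugate Topology
open Filter

namespace Pool.Agent.H146R2.SD

open Pool.Agent.Helper278 Pool.Agent.Helper436.SM

universe w

section

variable {A : Type} [Ring A] [StarRing A] [Algebra ℂ A] [StarModule ℂ A] {τ : A →ₗ[ℂ] ℂ}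
variable {V G : Type} [AddCommGroup V] [Group G] {D : Dat V G} {u : G →* A} {W : V → A}

/-- approximation by finite sums with support in a given set -/
theorem qle_approx (h : TW D τ u W) (S : Set (G × V)) (x : A) (ε : ℝ) (hε : 0 < ε) :
    ∃ F : Finset (G × V), (∀ b ∈ F, b ∈ S) ∧
      n2 τ (x - ∑ b ∈ F, hat τ u W x b • (u b.1 * W b.2)) ^ 2 ≤ mass τ u W Sᶜ x + ε := by
  classical
  obtain ⟨F0, hF0⟩ := h.exists_finset_mass x ε hε
  refine ⟨F0.filter (fun b => b ∈ S), fun b hb => (Finset.mem_filter.1 hb).2, ?_⟩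
  rw [h.exists_approx]
  have h1 : ((F0.filter (fun b => b ∈ S) : Finset (G × V)) : Set (G × V))ᶜ ⊆
      Sᶜ ∪ (F0 : Set (G × V))ᶜ := by
    intro b hb
    by_contra hcon
    apply hb
    have h2 : b ∈ S := by
      by_contra h3
      exact hcon (Or.inl h3)
    have h4 : b ∈ (F0 : Set (G × V)) := by
      by_contra h3
      exact hcon (Or.inr h3)
    exact Finset.mem_coe.2 (Finset.mem_filter.2 ⟨Finset.mem_coe.1 h4, h2⟩)
  have h2 := (h.mass_mono h1 x).trans (h.mass_union_le _ _ x)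
  linarith

theorem qle_sub_le (h : TW D τ u W) (x : A) (F : Finset (G × V)) :
    n2 τ (x - ∑ b ∈ F, hat τ u W x b • (u b.1 * W b.2)) ≤ n2 τ x := by
  have h1 := h.mass_le ((F : Set (G × V))ᶜ) x
  rw [← h.exists_approx] at h1
  exact (sq_le_sq₀ (n2_nonneg _ _) (n2_nonneg _ _)).1 h1

theorem qle_comm (h : TW D τ u W) (TS : AddSubgroup V) (F F' : Finset (G × V))
    (α α' : G × V → ℂ) (hF : ∀ b ∈ F, b ∈ tl (G := G) TS) (hF' : ∀ b ∈ F', b ∈ perp D TS) :
    (∑ b ∈ F, α b • (u b.1 * W b.2)) * (∑ c ∈ F', α' c • (u c.1 * W c.2)) =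
      (∑ c ∈ F', α' c • (u c.1 * W c.2)) * (∑ b ∈ F, α b • (u b.1 * W b.2)) := by
  have key : Commute (∑ b ∈ F, α b • (u b.1 * W b.2)) (∑ c ∈ F', α' c • (u c.1 * W c.2)) := by
    refine Commute.sum_left _ _ _ fun b hb => Commute.sum_right _ _ _ fun c hc => ?_
    refine Commute.smul_left (Commute.smul_right ?_ _) _
    obtain ⟨h1, h2⟩ := hF b hb
    have h3 := h.W_basis b.2 c
    rw [hF' c hc b.2 h2, e_zero, one_smul] at h3
    rw [h1, map_one, one_mul]
    exact h3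
  exact key

end

variable {H : Type} [NormedAddCommGroup H] [InnerProductSpace ℂ H] [CompleteSpace H]
variable {N : VonNeumannAlgebra H} {T0 : TracialState N}
variable {V G : Type} [AddCommGroup V] [Group G] {D : Dat V G} {u : G →* Elt N} {W : V → Elt N}
variable {T : ℕ → AddSubgroup V}
variable {I : Type w} {U : Ultrafilter I} {Q : Type w} [Ring Q] [StarRing Q] [Algebra ℂ Q]
variable {π : (I → Elt N) → Q} {φ : Q → ℂ}

theorem qle_n2_mul_le (T0 : TracialState N) (a x : Elt N) : n2 T0.τ (a * x) ≤ ‖a‖ * n2 T0.τ x :=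
  n2_mul_le T0 a x

theorem qle_n2_mul_le' (T0 : TracialState N) (x a : Elt N) : n2 T0.τ (x * a) ≤ ‖a‖ * n2 T0.τ x :=
  n2_mul_le' T0 x a

theorem qle_n2_le (T0 : TracialState N) (x : Elt N) : n2 T0.τ x ≤ ‖x‖ := by
  have h1 := qle_n2_mul_le T0 x 1
  have h2 : n2 T0.τ (1 : Elt N) = 1 := by
    unfold n2
    rw [star_one, mul_one, T0.map_one, Complex.one_re, Real.sqrt_one]
  rwa [h2, mul_one, mul_one] at h1

/-- the estimate for one index -/
theorem qle_single (h : TW D T0.τ u W) (TS : AddSubgroup V) (z x : Elt N) (K : ℝ)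
    (hz : ‖z‖ ≤ K) (hx : ‖x‖ ≤ K) :
    n2 T0.τ (z * x - x * z) ^ 2 ≤ 4 * K ^ 3 * Real.sqrt (mass T0.τ u W (tl TS)ᶜ z) +
      8 * K ^ 3 * Real.sqrt (mass T0.τ u W (perp D TS)ᶜ x) := by
  have hA := trAlg T0
  have hK : 0 ≤ K := (norm_nonneg z).trans hz
  set k := z * x - x * z with hk
  have hkn : ‖k‖ ≤ 2 * K ^ 2 := by
    have h1 : ‖z * x‖ ≤ K * K := (norm_mul_le _ _).trans
      (mul_le_mul hz hx (norm_nonneg _) hK)
    have h2 : ‖x * z‖ ≤ K * K := (norm_mul_le _ _).trans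
      (mul_le_mul hx hz (norm_nonneg _) hK)
    have h3 := norm_sub_le (z * x) (x * z)
    nlinarith [h1, h2, h3]
  have hks : ‖star k‖ ≤ 2 * K ^ 2 := by rw [norm_star]; exact hkn
  have key : ∀ ε : ℝ, 0 < ε → n2 T0.τ k ^ 2 ≤
      4 * K ^ 3 * Real.sqrt (mass T0.τ u W (tl TS)ᶜ z + ε) +
      8 * K ^ 3 * Real.sqrt (mass T0.τ u W (perp D TS)ᶜ x + ε) := by
    intro ε hε
    obtain ⟨F, hF, hFa⟩ := qle_approx h (tl TS) z ε hε
    obtain ⟨F', hF', hFa'⟩ := qle_approx h (perp D TS) x ε hε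
    have hs := qle_sub_le h z F
    have hcomm := qle_comm h TS F F' (hat T0.τ u W z) (hat T0.τ u W x) hF hF'
    set z' := ∑ b ∈ F, hat T0.τ u W z b • (u b.1 * W b.2) with hz'
    set x' := ∑ b ∈ F', hat T0.τ u W x b • (u b.1 * W b.2) with hx'
    have hnz : n2 T0.τ z ≤ K := (qle_n2_le T0 z).trans hz
    have hnx : n2 T0.τ x ≤ K := (qle_n2_le T0 x).trans hx
    have hnz' : n2 T0.τ z' ≤ 2 * K := by
      have h1 := hA.n2_sub_le z (z - z')
      rw [sub_sub_cancel] at h1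
      linarith
    have hd : n2 T0.τ (z - z') ≤ Real.sqrt (mass T0.τ u W (tl TS)ᶜ z + ε) :=
      Real.le_sqrt_of_sq_le hFa
    have hd' : n2 T0.τ (x - x') ≤ Real.sqrt (mass T0.τ u W (perp D TS)ᶜ x + ε) :=
      Real.le_sqrt_of_sq_le hFa'
    have hK2 : 0 ≤ 2 * K ^ 2 := by positivity
    have hK3 : 0 ≤ K ^ 3 := by positivity
    have n0 := n2_nonneg T0.τ (z - z')
    have n1 := n2_nonneg T0.τ (x - x')
    have n3 := n2_nonneg T0.τ x
    have n4 := n2_nonneg T0.τ z'
    -- the decomposition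
    have hdec : star k * k = star k * ((z - z') * x) + star k * (z' * (x - x')) -
        star k * (x * (z - z')) - star k * ((x - x') * z') := by
      have h1 : k = (z - z') * x + z' * (x - x') - x * (z - z') - (x - x') * z' := by
        rw [hk]
        have : z' * x' = x' * z' := hcomm
        have h2 : (z - z') * x + z' * (x - x') - x * (z - z') - (x - x') * z' =
            z * x - x * z - (z' * x' - x' * z') := by noncomm_ring
        rw [h2, this, sub_self, sub_zero]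
      calc star k * k = star k * ((z - z') * x + z' * (x - x') - x * (z - z') - (x - x') * z') := by
            rw [← h1]
        _ = _ := by rw [mul_sub, mul_sub, mul_add]
    -- the four terms
    have t1 : ‖T0.τ (star k * ((z - z') * x))‖ ≤ 2 * K ^ 3 * n2 T0.τ (z - z') := by
      have e1 : T0.τ (star k * ((z - z') * x)) = T0.τ ((x * star k) * (z - z')) := by
        rw [← mul_assoc, hA.comm, ← mul_assoc]
      rw [e1]
      refine (hA.cauchy' _ _).trans ?_
      have e2 : n2 T0.τ (x * star k) ≤ 2 * K ^ 3 := by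
        have e3 := qle_n2_mul_le' T0 x (star k)
        have e4 : ‖star k‖ * n2 T0.τ x ≤ 2 * K ^ 2 * K := mul_le_mul hks hnx n3 hK2
        calc n2 T0.τ (x * star k) ≤ 2 * K ^ 2 * K := e3.trans e4
          _ = 2 * K ^ 3 := by ring
      exact mul_le_mul_of_nonneg_right e2 n0
    have t2 : ‖T0.τ (star k * (z' * (x - x')))‖ ≤ 4 * K ^ 3 * n2 T0.τ (x - x') := by
      rw [← mul_assoc]
      refine (hA.cauchy' _ _).trans ?_
      have e2 : n2 T0.τ (star k * z') ≤ 4 * K ^ 3 := by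
        have e3 := qle_n2_mul_le T0 (star k) z'
        have e4 : ‖star k‖ * n2 T0.τ z' ≤ 2 * K ^ 2 * (2 * K) := mul_le_mul hks hnz' n4 hK2
        calc n2 T0.τ (star k * z') ≤ 2 * K ^ 2 * (2 * K) := e3.trans e4
          _ = 4 * K ^ 3 := by ring
      exact mul_le_mul_of_nonneg_right e2 n1
    have t3 : ‖T0.τ (star k * (x * (z - z')))‖ ≤ 2 * K ^ 3 * n2 T0.τ (z - z') := by
      rw [← mul_assoc]
      refine (hA.cauchy' _ _).trans ?_
      have e2 : n2 T0.τ (star k * x) ≤ 2 * K ^ 3 := by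
        have e3 := qle_n2_mul_le T0 (star k) x
        have e4 : ‖star k‖ * n2 T0.τ x ≤ 2 * K ^ 2 * K := mul_le_mul hks hnx n3 hK2
        calc n2 T0.τ (star k * x) ≤ 2 * K ^ 2 * K := e3.trans e4
          _ = 2 * K ^ 3 := by ring
      exact mul_le_mul_of_nonneg_right e2 n0
    have t4 : ‖T0.τ (star k * ((x - x') * z'))‖ ≤ 4 * K ^ 3 * n2 T0.τ (x - x') := by
      have e1 : T0.τ (star k * ((x - x') * z')) = T0.τ ((z' * star k) * (x - x')) := by
        rw [← mul_assoc, hA.comm, ← mul_assoc]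
      rw [e1]
      refine (hA.cauchy' _ _).trans ?_
      have e2 : n2 T0.τ (z' * star k) ≤ 4 * K ^ 3 := by
        have e3 := qle_n2_mul_le' T0 z' (star k)
        have e4 : ‖star k‖ * n2 T0.τ z' ≤ 2 * K ^ 2 * (2 * K) := mul_le_mul hks hnz' n4 hK2
        calc n2 T0.τ (z' * star k) ≤ 2 * K ^ 2 * (2 * K) := e3.trans e4
          _ = 4 * K ^ 3 := by ring
      exact mul_le_mul_of_nonneg_right e2 n1
    have hsum : n2 T0.τ k ^ 2 ≤ 4 * K ^ 3 * n2 T0.τ (z - z') + 8 * K ^ 3 * n2 T0.τ (x - x') := by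
      rw [hA.n2_sq]
      have e1 := Complex.re_le_norm (T0.τ (star k * k))
      have e2 : ‖T0.τ (star k * k)‖ ≤ ‖T0.τ (star k * ((z - z') * x))‖ +
          ‖T0.τ (star k * (z' * (x - x')))‖ + ‖T0.τ (star k * (x * (z - z')))‖ +
          ‖T0.τ (star k * ((x - x') * z'))‖ := by
        rw [hdec, map_sub, map_sub, map_add]
        have f1 := norm_sub_le (T0.τ (star k * ((z - z') * x)) + T0.τ (star k * (z' * (x - x'))) -
          T0.τ (star k * (x * (z - z')))) (T0.τ (star k * ((x - x') * z')))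
        have f2 := norm_sub_le (T0.τ (star k * ((z - z') * x)) + T0.τ (star k * (z' * (x - x'))))
          (T0.τ (star k * (x * (z - z'))))
        have f3 := norm_add_le (T0.τ (star k * ((z - z') * x))) (T0.τ (star k * (z' * (x - x'))))
        linarith
      linarith
    have g1 : 4 * K ^ 3 * n2 T0.τ (z - z') ≤
        4 * K ^ 3 * Real.sqrt (mass T0.τ u W (tl TS)ᶜ z + ε) :=
      mul_le_mul_of_nonneg_left hd (by positivity)
    have g2 : 8 * K ^ 3 * n2 T0.τ (x - x') ≤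
        8 * K ^ 3 * Real.sqrt (mass T0.τ u W (perp D TS)ᶜ x + ε) :=
      mul_le_mul_of_nonneg_left hd' (by positivity)
    linarith
  have hcont : Tendsto (fun ε : ℝ => 4 * K ^ 3 * Real.sqrt (mass T0.τ u W (tl TS)ᶜ z + ε) +
      8 * K ^ 3 * Real.sqrt (mass T0.τ u W (perp D TS)ᶜ x + ε)) (𝓝[>] 0)
      (𝓝 (4 * K ^ 3 * Real.sqrt (mass T0.τ u W (tl TS)ᶜ z + 0) +
      8 * K ^ 3 * Real.sqrt (mass T0.τ u W (perp D TS)ᶜ x + 0))) := by
    have h1 : Continuous (fun ε : ℝ => 4 * K ^ 3 * Real.sqrt (mass T0.τ u W (tl TS)ᶜ z + ε) +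
      8 * K ^ 3 * Real.sqrt (mass T0.τ u W (perp D TS)ᶜ x + ε)) := by fun_prop
    exact (h1.tendsto 0).mono_left nhdsWithin_le_nhds
  rw [add_zero, add_zero] at hcont
  exact ge_of_tendsto hcont (eventually_mem_nhdsWithin.mono fun ε hε => key ε hε)

/-- elements that are commuting because of their supports: `z` is supported on the tails `T (m i)`
and `x` has level `m` -/
theorem tail_comm (h : TW D T0.τ u W) (hL : Lev D T)
    (hπ : CE.IsTracialUltrapower (fun x => T0.τ x) U π φ) (m : I → ℕ) (z x : I → Elt N)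
    (hz : CE.BddFam z) (hx : CE.BddFam x)
    (hzm : Tendsto (fun i => mass T0.τ u W (tl (T (m i)))ᶜ (z i)) U (𝓝 0))
    (hxm : InP π W T m (π x)) : π z * π x = π x * π z := by
  have hxm' := (inP_iff h hL hπ m x hx).1 hxm
  obtain ⟨C, hC⟩ := hz
  obtain ⟨C', hC'⟩ := hx
  have hz : CE.BddFam z := ⟨C, hC⟩
  have hx : CE.BddFam x := ⟨C', hC'⟩
  rw [← hπ.quot.mul _ _ hz hx, ← hπ.quot.mul _ _ hx hz,
    pi_eq_iff hπ _ _ (CE.bdd_mul hz hx) (CE.bdd_mul hx hz)]
  set K := max C C' with hK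
  have h1 : ∀ i, n2 T0.τ (z i * x i - x i * z i) ^ 2 ≤
      4 * K ^ 3 * Real.sqrt (mass T0.τ u W (tl (T (m i)))ᶜ (z i)) +
      8 * K ^ 3 * Real.sqrt (mass T0.τ u W (perp D (T (m i)))ᶜ (x i)) := fun i =>
    qle_single h (T (m i)) (z i) (x i) K ((hC i).trans (le_max_left _ _))
      ((hC' i).trans (le_max_right _ _))
  have h2 : Tendsto (fun i => 4 * K ^ 3 * Real.sqrt (mass T0.τ u W (tl (T (m i)))ᶜ (z i)) +
      8 * K ^ 3 * Real.sqrt (mass T0.τ u W (perp D (T (m i)))ᶜ (x i))) U (𝓝 0) := by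
    have f1 := (Real.continuous_sqrt.tendsto 0).comp hzm
    have f2 := (Real.continuous_sqrt.tendsto 0).comp hxm'
    rw [Real.sqrt_zero] at f1 f2
    have f3 := (f1.const_mul (4 * K ^ 3)).add (f2.const_mul (8 * K ^ 3))
    rw [mul_zero, mul_zero, add_zero] at f3
    exact f3
  have h3 : Tendsto (fun i => n2 T0.τ (z i * x i - x i * z i) ^ 2) U (𝓝 0) :=
    squeeze_zero (fun i => sq_nonneg _) h1 h2
  have h4 := (Real.continuous_sqrt.tendsto 0).comp h3
  rw [Real.sqrt_zero] at h4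
  refine h4.congr fun i => ?_
  exact Real.sqrt_sq (n2_nonneg _ _)

end Pool.Agent.H146R2.SD
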