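import Mathlib
import Pool.Agent.H146R2.SD.BAS
import Pool.Agent.H146R2.SD.AVG
import Pool.Agent.Helper436.SM.Transfer
import Pool.Agent.H146R2.SD.QLA

set_option autoImplicit false
set_option linter.unusedSectionVars false

open scoped ComplexConjugate Topology
open Filter

namespace Pool.Agent.H146R2.SD

open Pool.Agent.Helper278 Pool.Agent.Helper436.SM

/-- a nontrivial root of unity is not close to one -/
theorem qlf_root (p : ℕ) (hp : 0 < p) (ζ : ℂ) (hζ : ζ ^ p = 1) (hn : ‖ζ‖ = 1) (h1 : ζ ≠ 1) :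
    1 / (p : ℝ) ≤ ‖ζ - 1‖ := by
  by_contra hcon
  push Not at hcon
  have hp' : (0 : ℝ) < p := by exact_mod_cast hp
  have hgeo : ∑ j ∈ Finset.range p, ζ ^ j = 0 := by
    have := mul_geom_sum ζ p
    rw [hζ, sub_self] at this
    exact (mul_eq_zero.1 this).resolve_left (sub_ne_zero.2 h1)
  have hj : ∀ j ∈ Finset.range p, ‖ζ ^ j - 1‖ < 1 := by
    intro j hj
    have hjp : (j : ℝ) < p := by exact_mod_cast Finset.mem_range.1 hj
    have h2 : ζ ^ j - 1 = (ζ - 1) * ∑ i ∈ Finset.range j, ζ ^ i := (mul_geom_sum ζ j).symm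
    rw [h2, norm_mul]
    have h3 : ‖∑ i ∈ Finset.range j, ζ ^ i‖ ≤ j := by
      refine (norm_sum_le _ _).trans ?_
      simp [norm_pow, hn]
    have hj0 : (0 : ℝ) ≤ j := Nat.cast_nonneg j
    calc ‖ζ - 1‖ * ‖∑ i ∈ Finset.range j, ζ ^ i‖ ≤ ‖ζ - 1‖ * j :=
          mul_le_mul_of_nonneg_left h3 (norm_nonneg _)
      _ ≤ 1 / p * j := mul_le_mul_of_nonneg_right hcon.le hj0
      _ < 1 := by rw [one_div, inv_mul_lt_one₀ hp']; exact hjp
  have h4 : ‖∑ j ∈ Finset.range p, (ζ ^ j - 1)‖ < p := by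
    calc ‖∑ j ∈ Finset.range p, (ζ ^ j - 1)‖ ≤ ∑ j ∈ Finset.range p, ‖ζ ^ j - 1‖ :=
          norm_sum_le _ _
      _ < ∑ j ∈ Finset.range p, (1 : ℝ) :=
          Finset.sum_lt_sum_of_nonempty (Finset.nonempty_range_iff.2 hp.ne') hj
      _ = p := by simp
  rw [Finset.sum_sub_distrib, hgeo, Finset.sum_const, Finset.card_range, nsmul_eq_mul, mul_one,
    zero_sub, norm_neg, Complex.norm_natCast] at h4
  exact lt_irrefl _ h4

universe w

variable {H : Type} [NormedAddCommGroup H] [InnerProductSpace ℂ H] [CompleteSpace H]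
variable {N : VonNeumannAlgebra H} {T0 : TracialState N}
variable {V G : Type} [AddCommGroup V] [Group G] {D : Dat V G} {u : G →* Elt N} {W : V → Elt N}
variable {T : ℕ → AddSubgroup V}
variable {I : Type w} {U : Ultrafilter I} {Q : Type w} [Ring Q] [StarRing Q] [Algebra ℂ Q]
variable {π : (I → Elt N) → Q} {φ : Q → ℂ}

theorem qlf_comm (hπ : CE.IsTracialUltrapower (fun x => T0.τ x) U π φ) (z : I → Elt N)
    (hz : CE.BddFam z) (g : Elt N) (hg : π z * π (fun _ => g) = π (fun _ => g) * π z) :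
    Tendsto (fun i => n2 T0.τ (g * z i - z i * g)) U (𝓝 0) := by
  have hb : CE.BddFam (fun _ : I => g) := CE.bdd_const g
  have h1 : π (fun i => g * z i) = π (fun i => z i * g) := by
    rw [hπ.quot.mul _ _ hb hz, hπ.quot.mul _ _ hz hb]
    exact hg.symm
  exact (pi_eq_iff hπ _ _ (CE.bdd_mul hb hz) (CE.bdd_mul hz hb)).1 h1

theorem qlf_star (h : TW D T0.τ u W) (c : G) : star (u c) * u c = 1 := by
  rw [h.star_u, ← map_mul, inv_mul_cancel, map_one]

theorem qlf_star' (h : TW D T0.τ u W) (c : G) : u c * star (u c) = 1 := by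
  rw [h.star_u, ← map_mul, mul_inv_cancel, map_one]

/-- commutation of the adjoints -/
theorem qlf_adj (h : TW D T0.τ u W) (c : G) (v : V) :
    star (u c) * star (W v) * u c = e (D.χ v (Additive.ofMul c)) • star (W v) := by
  have h1 : star (W v) * star (u c) =
      conj (e (D.χ v (Additive.ofMul c))) • (star (u c) * star (W v)) := by
    have := congrArg star (h.comm c v)
    rw [star_mul, star_smul, star_mul] at this
    exact this
  have h2 : e (D.χ v (Additive.ofMul c)) • (star (W v) * star (u c)) =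
      star (u c) * star (W v) := by
    rw [h1, smul_smul, Complex.mul_conj', norm_e]
    simp
  rw [← h2, smul_mul_assoc, mul_assoc, qlf_star h, mul_one]

theorem qlf_hat (h : TW D T0.τ u W) (c : G) (v : V) (x : Elt N) :
    hat T0.τ u W (u c * x * star (u c) - x) (1, v) =
      (e (D.χ v (Additive.ofMul c)) - 1) * hat T0.τ u W x (1, v) := by
  rw [TW.hat_sub, sub_mul, one_mul]
  congr 1
  unfold hat
  simp only [map_one, one_mul]
  have h1 : star (W v) * (u c * x * star (u c)) = (star (W v) * u c * x) * star (u c) := by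
    simp only [mul_assoc]
  rw [h1, h.tr.comm]
  have h2 : star (u c) * (star (W v) * u c * x) = (star (u c) * star (W v) * u c) * x := by
    simp only [mul_assoc]
  rw [h2, qlf_adj h, smul_mul_assoc, map_smul, smul_eq_mul]

theorem qlf_mass (h : TW D T0.τ u W) (c : G) (p : ℕ) (hp : 0 < p)
    (hc : ∀ v, p • D.χ v (Additive.ofMul c) = 0) (x : Elt N) :
    (1 / (p : ℝ)) ^ 2 * mass T0.τ u W {b' : G × V | b'.1 = 1 ∧ D.χ b'.2 (Additive.ofMul c) ≠ 0} x ≤
      n2 T0.τ (u c * x - x * u c) ^ 2 := by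
  set S : Set (G × V) := {b' : G × V | b'.1 = 1 ∧ D.χ b'.2 (Additive.ofMul c) ≠ 0} with hS
  set y : Elt N := u c * x * star (u c) - x with hy
  have h1 : n2 T0.τ (u c * x - x * u c) = n2 T0.τ y := by
    have e1 : y = (u c * x - x * u c) * star (u c) := by
      rw [hy, sub_mul, mul_assoc x, qlf_star' h, mul_one]
    unfold n2
    congr 2
    rw [e1, star_mul, star_star]
    have e2 : u c * star (u c * x - x * u c) * ((u c * x - x * u c) * star (u c)) =
        (u c * star (u c * x - x * u c) * (u c * x - x * u c)) * star (u c) := by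
      simp only [mul_assoc]
    rw [e2, h.tr.comm (u c * star (u c * x - x * u c) * (u c * x - x * u c)) (star (u c))]
    have e3 : star (u c) * (u c * star (u c * x - x * u c) * (u c * x - x * u c)) =
        (star (u c) * u c) * (star (u c * x - x * u c) * (u c * x - x * u c)) := by
      simp only [mul_assoc]
    rw [e3, qlf_star h, one_mul]
  rw [h1]
  refine le_trans ?_ (TW.mass_le h S y)
  unfold mass
  rw [← tsum_mul_left]
  refine Summable.tsum_le_tsum (fun b => ?_) ((h.summable_ind S x).mul_left _)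
    (h.summable_ind S y)
  by_cases hb : b ∈ S
  · rw [Set.indicator_of_mem hb, Set.indicator_of_mem hb]
    obtain ⟨g, v⟩ := b
    obtain ⟨hg, hv⟩ := hb
    have hg' : g = 1 := hg
    subst hg'
    rw [hy, qlf_hat h, norm_mul, mul_pow]
    refine mul_le_mul_of_nonneg_right ?_ (by positivity)
    refine pow_le_pow_left₀ (by positivity) ?_ 2
    refine qlf_root p hp _ ?_ (norm_e _) ?_
    · rw [← e_nsmul, hc, e_zero]
    · rw [Ne, e_eq_one_iff]
      exact hv
  · rw [Set.indicator_of_notMem hb, Set.indicator_of_notMem hb, mul_zero]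

/-- commutation with constants gives a small mass: the gap of `a`, `b` -/
theorem fixed_mass (h : TW D T0.τ u W)
    (hπ : CE.IsTracialUltrapower (fun x => T0.τ x) U π φ) (C : ℝ) (a b c : G) (p : ℕ) (hp : 0 < p)
    (hgap : ∀ x : Elt N, mass T0.τ u W {b' | b'.1 ≠ 1} x ≤
      C * (n2 T0.τ (u a * x - x * u a) ^ 2 + n2 T0.τ (u b * x - x * u b) ^ 2))
    (hc : ∀ v, p • D.χ v (Additive.ofMul c) = 0) (z : I → Elt N) (hz : CE.BddFam z)
    (ha : π z * π (fun _ => u a) = π (fun _ => u a) * π z)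
    (hb : π z * π (fun _ => u b) = π (fun _ => u b) * π z)
    (hcz : π z * π (fun _ => u c) = π (fun _ => u c) * π z) :
    Tendsto (fun i => mass T0.τ u W
      {b' : G × V | b'.1 = 1 ∧ D.χ b'.2 (Additive.ofMul c) = 0}ᶜ (z i)) U (𝓝 0) := by
  have hp' : (0 : ℝ) < p := by exact_mod_cast hp
  have ta := (qlf_comm hπ z hz _ ha).pow 2
  have tb := (qlf_comm hπ z hz _ hb).pow 2
  have tc := (qlf_comm hπ z hz _ hcz).pow 2
  have t := ((ta.add tb).const_mul C).add (tc.const_mul ((p : ℝ) ^ 2))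
  have e0 : C * ((0 : ℝ) ^ 2 + 0 ^ 2) + (p : ℝ) ^ 2 * 0 ^ 2 = 0 := by ring
  rw [e0] at t
  refine squeeze_zero (fun i => TW.mass_nonneg _ _) (fun i => ?_) t
  have hsub : ({b' : G × V | b'.1 = 1 ∧ D.χ b'.2 (Additive.ofMul c) = 0}ᶜ : Set (G × V)) ⊆
      {b' | b'.1 ≠ 1} ∪ {b' : G × V | b'.1 = 1 ∧ D.χ b'.2 (Additive.ofMul c) ≠ 0} := by
    intro b' hb'
    by_cases h1 : b'.1 = 1
    · exact Or.inr ⟨h1, fun h2 => hb' ⟨h1, h2⟩⟩
    · exact Or.inl h1
  refine (TW.mass_mono h hsub (z i)).trans ((TW.mass_union_le h _ _ (z i)).trans ?_)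
  refine add_le_add (hgap (z i)) ?_
  have h2 := qlf_mass h c p hp hc (z i)
  rw [one_div, inv_pow, inv_mul_le_iff₀ (by positivity)] at h2
  exact h2

end Pool.Agent.H146R2.SD
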