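import Mathlib
import Pool.Agent.H146R2.SD.BAS
import Pool.Agent.H146R2.SD.AVG
import Pool.Agent.Helper436.SM.Transfer
import Pool.Agent.H146R2.SD.QLA
import Pool.Agent.H146R2.SD.QLB
import Pool.Agent.H146R2.SD.QLC
import Pool.Agent.H146R2.SD.QLD
import Pool.Agent.H146R2.SD.QLE
import Pool.Agent.H146R2.SD.QLF

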