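import Mathlib
import Pool.Agent.H146R2.SD.QL
import Pool.Agent.H146R2.SD.LEMH
import Pool.Agent.H146R2.SD.CF

set_option autoImplicit false
set_option linter.unusedSectionVars false

open scoped ComplexConjugate Topology
open Filter

namespace Pool.Agent.H146R2.SD

open Pool.Agent.Helper278 Pool.Agent.Helper436.SM

universe w

variable {H : Type} [NormedAddCommGroup H] [InnerProductSpace ℂ H] [CompleteSpace H]
variable {N : VonNeumannAlgebra H} {T0 : TracialState N}
variable {V G : Type} [AddCommGroup V] [Group G] {D : Dat V G} {u : G →* Elt N} {W : V → Elt N}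
variable {T : ℕ → AddSubgroup V}
variable {I : Type w} {U : Ultrafilter I} {Q : Type w} [Ring Q] [StarRing Q] [Algebra ℂ Q]
variable {π : (I → Elt N) → Q} {φ : Q → ℂ}

/-- the elements that commute with the `F (m i) j` have small mass outside the tails -/
theorem neg_mass (h : TW D T0.τ u W) (C : ℝ) (F : ℕ → Fin 5 → Elt N)
    (hF : GapT T0 u W T C F)
    (hπ : CE.IsTracialUltrapower (fun x => T0.τ x) U π φ) (m : I → ℕ) (z : I → Elt N)
    (hz : CE.BddFam z) (hc : ∀ j, π z * π (fun i => F (m i) j) = π (fun i => F (m i) j) * π z) :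
    Tendsto (fun i => mass T0.τ u W (tl (T (m i)))ᶜ (z i)) U (𝓝 0) := by
  have hb : ∀ j, CE.BddFam (fun i => F (m i) j) := fun j => bdd_un (fun i => hF.un (m i) j)
  have h1 : ∀ j, Tendsto (fun i => n2 T0.τ (F (m i) j * z i - z i * F (m i) j)) U (𝓝 0) := by
    intro j
    have h2 : π (fun i => F (m i) j * z i) = π (fun i => z i * F (m i) j) := by
      rw [hπ.quot.mul _ _ (hb j) hz, hπ.quot.mul _ _ hz (hb j)]
      exact (hc j).symm
    exact (pi_eq_iff hπ (fun i => F (m i) j * z i) (fun i => z i * F (m i) j)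
      (CE.bdd_mul (hb j) hz) (CE.bdd_mul hz (hb j))).mp h2
  have h3 : Tendsto (fun i => C * ∑ j, n2 T0.τ (F (m i) j * z i - z i * F (m i) j) ^ 2) U
      (𝓝 0) := by
    have h4 : Tendsto (fun i => ∑ j, n2 T0.τ (F (m i) j * z i - z i * F (m i) j) ^ 2) U
        (𝓝 (∑ _j : Fin 5, (0 : ℝ) ^ 2)) :=
      tendsto_finsetSum _ fun j _ => (h1 j).pow 2
    have h5 := h4.const_mul C
    simpa using h5
  exact squeeze_zero (fun i => TW.mass_nonneg _ _) (fun i => hF.gap (m i) (z i)) h3

end Pool.Agent.H146R2.SD
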