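import Mathlib
import Pool.Agent.H146R2.SD.QL
import Pool.Agent.H146R2.SD.LEMH
import Pool.Agent.H146R2.SD.CF
import Pool.Agent.H146R2.SD.NGA

set_option autoImplicit false
set_option linter.unusedSectionVars false

open scoped ComplexConjugate Topology
open Filter

namespace Pool.Agent.H146R2.SD

open Pool.Agent.Helper278 Pool.Agent.Helper436.SM

universe w

variable {H : Type} [NormedAddCommGroup H] [InnerProductSpace ℂ H] [CompleteSpace H]
variable {N : VonNeumannAlgebra H} {T0 : TracialState N}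
variable {V G : Type} [AddCommGroup V] [Group G] {D : Dat V G} {u : G →* Elt N} {W : V → Elt N}
variable {T : ℕ → AddSubgroup V}
variable {I : Type w} {U : Ultrafilter I} {Q : Type w} [Ring Q] [StarRing Q] [Algebra ℂ Q]
variable {π : (I → Elt N) → Q} {φ : Q → ℂ}

theorem ngb_n2_unit {A : Type} [Ring A] [StarRing A] [Algebra ℂ A] {τ : A →ₗ[ℂ] ℂ}
    (h : TrAlg τ) (x : A) (hx : x ∈ unitary A) : n2 τ x = 1 := by
  unfold n2
  rw [Unitary.star_mul_self_of_mem hx, h.one]
  simp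

/-- a unitary that normalizes the tail algebra is close to products `b i * a i` -/
theorem neg_rank (h : TW D T0.τ u W) (hL : Lev D T) (C : ℝ) (F : ℕ → Fin 5 → Elt N)
    (hF : GapT T0 u W T C F)
    (hπ : CE.IsTracialUltrapower (fun x => T0.τ x) U π φ) (ρ : I → ℕ) (hρ : Tendsto ρ U atTop)
    (m : I → ℕ) (x : I → Elt N) (hx : ∀ i, x i ∈ unitary (Elt N))
    (hn : ∀ z, (∀ j, z * π (fun i => F (m i) j) = π (fun i => F (m i) j) * z) →
      ∀ j, (π x * z * star (π x)) * π (fun i => F (m i) j) =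
        π (fun i => F (m i) j) * (π x * z * star (π x))) :
    ∃ (b0 : I → G × V) (S : I → Finset (G × V)) (k : I → G × V → ℂ) (R : I → Finset V)
      (r : I → V → ℂ), (∀ i, ∀ b ∈ S i, ∀ t ∈ T (m i), D.co t b = D.co t (b0 i)) ∧
      (∀ i, ∀ s ∈ R i, s ∈ T (m i)) ∧ (∀ i, n2 T0.τ (fs u W (S i) (k i)) = 1) ∧
      (∀ i, n2 T0.τ (ws W (R i) (r i)) ≤ 1) ∧
      Tendsto (fun i => n2 T0.τ (x i - ws W (R i) (r i) * fs u W (S i) (k i))) U (𝓝 0) := by
  classical
  have hA : TrAlg T0.τ := h.tr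
  have hun : ∀ i t, x i * W t * star (x i) ∈ unitary (Elt N) := fun i t =>
    mul_mem (mul_mem (hx i) (h.W_mem t)) (Unitary.star_mem (hx i))
  have hΦ1 : ∀ i t, mass T0.τ u W (tl (T (m i)))ᶜ (x i * W t * star (x i)) ≤ 1 := by
    intro i t
    refine (h.mass_le _ _).trans ?_
    rw [ngb_n2_unit hA _ (hun i t)]
    norm_num
  have hunif : ∀ ε : ℝ, 0 < ε → ∀ᶠ i in U, ∀ t ∈ T (m i),
      mass T0.τ u W (tl (T (m i)))ᶜ (x i * W t * star (x i)) ≤ ε := by
    intro ε hε
    by_contra hcon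
    rw [← Ultrafilter.eventually_not] at hcon
    have hch : ∀ i, ∃ t ∈ T (m i), (¬ ∀ t ∈ T (m i),
        mass T0.τ u W (tl (T (m i)))ᶜ (x i * W t * star (x i)) ≤ ε) →
          ε < mass T0.τ u W (tl (T (m i)))ᶜ (x i * W t * star (x i)) := by
      intro i
      by_cases hi : ∀ t ∈ T (m i),
        mass T0.τ u W (tl (T (m i)))ᶜ (x i * W t * star (x i)) ≤ ε
      · exact ⟨0, zero_mem _, fun h => absurd hi h⟩
      · have hi' := hi
        push Not at hi'
        obtain ⟨t, ht, h2⟩ := hi'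
        exact ⟨t, ht, fun _ => h2⟩
    choose t ht1 ht2 using hch
    have hWb : CE.BddFam (fun i => W (t i)) := bdd_un fun i => h.W_mem (t i)
    have hFb : ∀ j, CE.BddFam (fun i => F (m i) j) := fun j => bdd_un (fun i => hF.un (m i) j)
    have hcm : ∀ j, π (fun i => W (t i)) * π (fun i => F (m i) j) =
        π (fun i => F (m i) j) * π (fun i => W (t i)) := by
      intro j
      rw [← hπ.quot.mul _ _ hWb (hFb j), ← hπ.quot.mul _ _ (hFb j) hWb]
      congr 1
      funext i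
      exact hF.comm (m i) j (t i) (ht1 i)
    have h2 := hn _ hcm
    have h3 := neg_mass h C F hF hπ m (fun i => x i * W (t i) * star (x i))
      (bdd_un fun i => hun i (t i)) (by
        intro j
        rw [pi_conj hπ x (fun i => W (t i)) (bdd_un hx) hWb]
        exact h2 j)
    have h4 := h3.eventually (gt_mem_nhds hε)
    obtain ⟨i, hi1, hi2⟩ := (hcon.and h4).exists
    exact absurd (ht2 i hi1) (not_lt.2 hi2.le)
  set δ : I → ℝ := fun i => ⨆ t : T (m i),
    mass T0.τ u W (tl (T (m i)))ᶜ (x i * W (t : V) * star (x i)) with hδ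
  have hbd : ∀ i, BddAbove (Set.range fun t : T (m i) =>
      mass T0.τ u W (tl (T (m i)))ᶜ (x i * W (t : V) * star (x i))) := by
    intro i
    refine ⟨1, ?_⟩
    rintro _ ⟨t, rfl⟩
    exact hΦ1 i t
  have hδ0 : ∀ i, 0 ≤ δ i := fun i =>
    (TW.mass_nonneg _ _).trans (le_ciSup (hbd i) (0 : T (m i)))
  have hδl : ∀ i, ∀ t ∈ T (m i),
      mass T0.τ u W (tl (T (m i)))ᶜ (x i * W t * star (x i)) ≤ δ i :=
    fun i t ht => le_ciSup (hbd i) (⟨t, ht⟩ : T (m i))
  have hδt : Tendsto δ U (𝓝 0) := by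
    rw [Metric.tendsto_nhds]
    intro ε hε
    filter_upwards [hunif (ε / 2) (by positivity)] with i hi
    rw [Real.dist_eq, sub_zero, abs_of_nonneg (hδ0 i)]
    exact lt_of_le_of_lt (ciSup_le fun t => hi t t.2) (by linarith)
  have key : ∀ i, ∃ (b0 : G × V) (S : Finset (G × V)) (k : G × V → ℂ) (R : Finset V) (r : V → ℂ),
      (∀ b ∈ S, ∀ t ∈ T (m i), D.co t b = D.co t b0) ∧ (∀ s ∈ R, s ∈ T (m i)) ∧
      n2 T0.τ (fs u W S k) = 1 ∧ n2 T0.τ (ws W R r) ≤ 1 ∧
      (δ i < 1 / 2 → n2 T0.τ (x i - ws W R r * fs u W S k) ^ 2 ≤ δ i + 1 / ((ρ i : ℝ) + 4)) := by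
    intro i
    by_cases hi : δ i < 1 / 2
    · have e1 : 0 < 1 / ((ρ i : ℝ) + 4) := by positivity
      have e2 : 1 / ((ρ i : ℝ) + 4) ≤ 1 / 4 :=
        one_div_le_one_div_of_le (by norm_num) (by linarith [Nat.cast_nonneg (α := ℝ) (ρ i)])
      obtain ⟨b0, S, k, R, r, h1, h2, h3, h4, h5⟩ := h.lemH hL.tors (T (m i)) (hL.nondeg (m i))
        (x i) (hx i) (1 - δ i) (1 / ((ρ i : ℝ) + 4)) e1 (by linarith) (by
          intro t ht
          have h6 := h.mass_compl (tl (T (m i))) (x i * W t * star (x i))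
          rw [ngb_n2_unit hA _ (hun i t)] at h6
          have h7 := hδl i t ht
          linarith)
      exact ⟨b0, S, k, R, r, h1, h2, h3, h4, fun _ => h5.trans (by linarith)⟩
    · refine ⟨(1, 0), {(1, 0)}, fun _ => 1, ∅, fun _ => 0, ?_, ?_, ?_, ?_, fun h => absurd h hi⟩
      · intro b hb t _
        rw [Finset.mem_singleton.1 hb]
      · intro s hs
        exact absurd hs (Finset.notMem_empty s)
      · unfold fs
        rw [Finset.sum_singleton, one_smul]
        exact ngb_n2_unit hA _ (h.uW_mem _ _)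
      · unfold ws
        rw [Finset.sum_empty, hA.n2_zero]
        norm_num
  choose b0 S k R r h1 h2 h3 h4 h5 using key
  refine ⟨b0, S, k, R, r, h1, h2, h3, h4, ?_⟩
  have hρ' : Tendsto (fun i => 1 / ((ρ i : ℝ) + 4)) U (𝓝 0) := by
    have h6 : Tendsto (fun n : ℕ => 1 / ((n : ℝ) + 4)) atTop (𝓝 0) := by
      have h7 : Tendsto (fun n : ℕ => (n : ℝ) + 4) atTop atTop :=
        tendsto_atTop_add_const_right _ _ tendsto_natCast_atTop_atTop
      have h8 := h7.inv_tendsto_atTop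
      refine h8.congr fun n => ?_
      simp
    exact h6.comp hρ
  have h6 : Tendsto (fun i => Real.sqrt (δ i + 1 / ((ρ i : ℝ) + 4))) U (𝓝 0) := by
    have h7 := (hδt.add hρ').sqrt
    simpa using h7
  refine squeeze_zero' (Eventually.of_forall fun i => n2_nonneg _ _) ?_ h6
  filter_upwards [hδt.eventually (gt_mem_nhds (show (0 : ℝ) < 1 / 2 by norm_num))] with i hi
  exact Real.le_sqrt_of_sq_le (h5 i hi)

end Pool.Agent.H146R2.SD
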