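import Mathlib
import Pool.Agent.H146R2.SD.QL
import Pool.Agent.H146R2.SD.LEMH
import Pool.Agent.H146R2.SD.CF

set_option autoImplicit false
set_option linter.unusedSectionVars false

open scoped ComplexConjugate Topology
open Filter

namespace Pool.Agent.H146R2.SD

open Pool.Agent.Helper278 Pool.Agent.Helper436.SM

universe w

variable {H : Type} [NormedAddCommGroup H] [InnerProductSpace ℂ H] [CompleteSpace H]
variable {N : VonNeumannAlgebra H} {T0 : TracialState N}
variable {V G : Type} [AddCommGroup V] [Group G] {D : Dat V G} {u : G →* Elt N} {W : V → Elt N}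
variable {T : ℕ → AddSubgroup V}
variable {I : Type w} {U : Ultrafilter I} {Q : Type w} [Ring Q] [StarRing Q] [Algebra ℂ Q]
variable {π : (I → Elt N) → Q} {φ : Q → ℂ}

section

variable {A : Type} [Ring A] [StarRing A] [Algebra ℂ A] [StarModule ℂ A] {τ : A →ₗ[ℂ] ℂ}
variable {V' G' : Type} [AddCommGroup V'] [Group G'] {D' : Dat V' G'} {u' : G' →* A} {W' : V' → A}

theorem ngc_n2_smul (h : TrAlg τ) (c : ℂ) (x : A) : n2 τ (c • x) = ‖c‖ * n2 τ x := by
  unfold n2
  rw [star_smul, smul_mul_smul_comm, map_smul, Complex.star_def, smul_eq_mul,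
    ← Complex.normSq_eq_conj_mul_self, Complex.re_ofReal_mul,
    Real.sqrt_mul (Complex.normSq_nonneg c), Complex.normSq_eq_norm_sq,
    Real.sqrt_sq (norm_nonneg c)]

theorem ngc_n2_mul_left (a x : A) (ha : star a * a = 1) : n2 τ (a * x) = n2 τ x := by
  unfold n2
  rw [star_mul, mul_assoc, ← mul_assoc (star a), ha, one_mul]

theorem ngc_n2_mul_right (h : TrAlg τ) (a x : A) (ha : a * star a = 1) :
    n2 τ (x * a) = n2 τ x := by
  unfold n2
  rw [star_mul, h.comm, mul_assoc, ← mul_assoc a, ha, one_mul, h.comm]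

/-- `W t` times a finite sum -/
theorem ngc_comm (h : TW D' τ u' W') (t : V') (η : TT) (R : Finset V') (r : V' → ℂ)
    (S : Finset (G' × V')) (k : G' × V' → ℂ)
    (hη : ∀ s ∈ R, ∀ b ∈ S, D'.co t (1, s) + D'.co t b = η) :
    W' t * (ws W' R r * fs u' W' S k) = e η • (ws W' R r * fs u' W' S k * W' t) := by
  have h1 : ∀ s ∈ R, ∀ b ∈ S, W' t * (W' s * (u' b.1 * W' b.2)) =
      e η • (W' s * (u' b.1 * W' b.2) * W' t) := by
    intro s hs b hb
    have e1 := h.W_basis t (1, s)
    simp only [map_one, one_mul] at e1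
    have e2 := h.W_basis t b
    rw [← mul_assoc, e1, smul_mul_assoc, mul_assoc (W' s), e2, mul_smul_comm, smul_smul, ← e_add,
      hη s hs b hb, ← mul_assoc]
  unfold ws fs
  rw [Finset.sum_mul_sum, Finset.mul_sum, Finset.sum_mul, Finset.smul_sum]
  apply Finset.sum_congr rfl
  intro s hs
  rw [Finset.mul_sum, Finset.sum_mul, Finset.smul_sum]
  apply Finset.sum_congr rfl
  intro b hb
  rw [smul_mul_smul_comm, mul_smul_comm, h1 s hs b hb, smul_mul_assoc, smul_comm]

theorem ngc_bound (h : TW D' τ u' W') (t : V') (η : TT) (x a : A)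
    (ha : W' t * a = e η • (a * W' t)) :
    n2 τ (W' t * x * star (W' t) - e η • x) ≤ 2 * n2 τ (x - a) := by
  have h1 : W' t * a * star (W' t) = e η • a := by
    rw [ha, smul_mul_assoc, mul_assoc, h.unit_right, mul_one]
  have h2 : W' t * x * star (W' t) - e η • x =
      W' t * (x - a) * star (W' t) - e η • (x - a) := by
    rw [mul_sub, sub_mul, h1, smul_sub]
    abel
  rw [h2]
  refine (h.tr.n2_sub_le _ _).trans ?_
  rw [ngc_n2_smul h.tr, norm_e, one_mul, ngc_n2_mul_right h.tr, ngc_n2_mul_left]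
  · linarith
  · exact h.unit_left t
  · rw [star_star]
    exact h.unit_left t

end

/-- the class is trivial -/
theorem neg_class (h : TW D T0.τ u W) (p : ℕ) (hN : NotP D T p)
    (hπ : CE.IsTracialUltrapower (fun x => T0.τ x) U π φ)
    (m : I → ℕ) (x : I → Elt N) (hx : ∀ i, x i ∈ unitary (Elt N)) (hxp : π x ^ p = 1)
    (b0 : I → G × V) (S : I → Finset (G × V)) (k : I → G × V → ℂ) (R : I → Finset V)
    (r : I → V → ℂ) (hS : ∀ i, ∀ b ∈ S i, ∀ t ∈ T (m i), D.co t b = D.co t (b0 i))
    (hR : ∀ i, ∀ s ∈ R i, s ∈ T (m i))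
    (hlim : Tendsto (fun i => n2 T0.τ (x i - ws W (R i) (r i) * fs u W (S i) (k i))) U (𝓝 0)) :
    ∀ᶠ i in U, cls D (T (m i)) (1, 0) (b0 i) := by
  classical
  by_contra hcon
  rw [← Ultrafilter.eventually_not] at hcon
  have hmul1 : ∀ (t s : V) (b : G × V), D.co t (b.1, s + b.2) = D.co t (1, s) + D.co t b := by
    intro t s b
    have := co_mul D t 1 b.1 s b.2
    rwa [one_mul] at this
  -- the vectors
  have hex : ∀ i, ∃ s : V, ¬ cls D (T (m i)) (1, 0) (b0 i) →
      (∀ t ∈ R i, ∀ b ∈ S i, D.co s (1, t) + D.co s b = D.co s (b0 i)) ∧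
        1 ≤ ‖e (D.co s (b0 i)) ^ p - 1‖ := by
    intro i
    by_cases hi : cls D (T (m i)) (1, 0) (b0 i)
    · exact ⟨0, fun h => absurd hi h⟩
    · obtain ⟨s, hs1, hs2⟩ := hN (m i) (b0 i)
        (((R i) ×ˢ (S i)).image fun q => (q.2.1, q.1 + q.2.2)) (by
          intro b hb
          rw [Finset.mem_image] at hb
          obtain ⟨⟨s, b'⟩, hq, rfl⟩ := hb
          rw [Finset.mem_product] at hq
          refine ⟨s, hR i s hq.1, ?_⟩
          intro t ht
          dsimp only
          rw [hmul1, hS i b' hq.2 t ht, add_comm]) hi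
      refine ⟨s, fun _ => ⟨?_, hs2⟩⟩
      intro t ht b hb
      rw [← hmul1]
      exact hs1 _ (Finset.mem_image.2 ⟨(t, b), Finset.mem_product.2 ⟨ht, hb⟩, rfl⟩)
  choose s hs using hex
  set η : I → TT := fun i => D.co (s i) (b0 i) with hη
  have bx := bdd_un hx
  have bη : CE.BddFam (fun i => e (η i) • (1 : Elt N)) := by
    refine ⟨‖(1 : Elt N)‖, fun i => ?_⟩
    rw [norm_smul, norm_e, one_mul]
  have bηx : CE.BddFam (fun i => e (η i) • x i) := by
    have := CE.bdd_mul bη bx
    simpa only [smul_mul_assoc, one_mul] using this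
  -- conjugation
  have hconj : Wq π W s * π x * star (Wq π W s) = π (fun i => e (η i) • x i) := by
    rw [pi_Wconj h hπ s x bx, pi_eq_iff hπ _ _
      (CE.bdd_mul (CE.bdd_mul (bdd_un fun i => h.W_mem (s i)) bx)
        (bdd_st (bdd_un fun i => h.W_mem (s i)))) bηx]
    have h2 : Tendsto (fun i => 2 * n2 T0.τ (x i - ws W (R i) (r i) * fs u W (S i) (k i))) U
        (𝓝 0) := by
      have := hlim.const_mul 2
      rwa [mul_zero] at this
    refine squeeze_zero' (Eventually.of_forall fun i => n2_nonneg _ _) ?_ h2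
    filter_upwards [hcon] with i hi
    exact ngc_bound h (s i) (η i) (x i) _ (ngc_comm h (s i) (η i) (R i) (r i) (S i) (k i)
      (hs i hi).1)
  -- the p-th power
  have hunit := Unitary.mem_iff.1 (Wq_mem h hπ s)
  have hpow : ∀ n : ℕ, (Wq π W s * π x * star (Wq π W s)) ^ n =
      Wq π W s * π x ^ n * star (Wq π W s) := by
    intro n
    induction n with
    | zero => rw [pow_zero, pow_zero, mul_one, hunit.2]
    | succ n ih =>
      rw [pow_succ, ih, pow_succ]
      calc Wq π W s * π x ^ n * star (Wq π W s) * (Wq π W s * π x * star (Wq π W s))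
          = Wq π W s * π x ^ n * (star (Wq π W s) * Wq π W s) * π x * star (Wq π W s) := by
            simp only [mul_assoc]
        _ = _ := by rw [hunit.1, mul_one]; simp only [mul_assoc]
  have hLp : (Wq π W s * π x * star (Wq π W s)) ^ p = 1 := by
    rw [hpow, hxp, mul_one, hunit.2]
  have hηun : ∀ i, e (η i) • x i ∈ unitary (Elt N) := by
    intro i
    have h1 : conj (e (η i)) * e (η i) = 1 := by
      rw [← e_neg, ← e_add, neg_add_cancel, e_zero]
    rw [Unitary.mem_iff, star_smul, smul_mul_smul_comm, smul_mul_smul_comm,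
      (Unitary.mem_iff.1 (hx i)).1, (Unitary.mem_iff.1 (hx i)).2, Complex.star_def,
      mul_comm (e (η i)), h1, one_smul]
    exact ⟨rfl, rfl⟩
  have bη' : CE.BddFam (fun i => e (η i) ^ p • (1 : Elt N)) := by
    refine ⟨‖(1 : Elt N)‖, fun i => ?_⟩
    rw [norm_smul, norm_pow, norm_e, one_pow, one_mul]
  have hRp : π (fun i => e (η i) • x i) ^ p = π (fun i => e (η i) ^ p • (1 : Elt N)) := by
    rw [← qla_pow hπ _ hηun]
    have h1 : (fun i => (e (η i) • x i) ^ p) = fun i => (e (η i) ^ p • (1 : Elt N)) * x i ^ p := by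
      funext i
      rw [smul_pow, smul_mul_assoc, one_mul]
    rw [h1, hπ.quot.mul _ _ bη' (bdd_un fun i => pow_mem (hx i) p), qla_pow hπ x hx, hxp, mul_one]
  rw [hconj, hRp, ← hπ.quot.one, pi_eq_iff hπ _ _ bη' (CE.bdd_const 1)] at hLp
  have hn : ∀ i, n2 T0.τ (e (η i) ^ p • (1 : Elt N) - 1) = ‖e (η i) ^ p - 1‖ := by
    intro i
    have h1 : e (η i) ^ p • (1 : Elt N) - 1 = (e (η i) ^ p - 1) • (1 : Elt N) := by
      rw [sub_smul, one_smul]
    have h2 : n2 T0.τ (1 : Elt N) = 1 := by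
      unfold n2
      rw [star_one, mul_one, h.tr.one]
      simp
    rw [h1, ngc_n2_smul h.tr, h2, mul_one]
  simp only [hn] at hLp
  have hev := hLp.eventually (gt_mem_nhds (show (0 : ℝ) < 1 by norm_num))
  obtain ⟨i, hi1, hi2⟩ := (hev.and hcon).exists
  have := (hs i hi2).2
  linarith

end Pool.Agent.H146R2.SD
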