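import Mathlib
import Pool.Agent.H146R2.SD.QL
import Pool.Agent.H146R2.SD.LEMH
import Pool.Agent.H146R2.SD.CF
import Pool.Agent.H146R2.SD.NGA

set_option autoImplicit false
set_option linter.unusedSectionVars false

open scoped ComplexConjugate Topology
open Filter

namespace Pool.Agent.H146R2.SD

open Pool.Agent.Helper278 Pool.Agent.Helper436.SM

universe w

section ngd

variable {A : Type} [Ring A] [StarRing A] [Algebra ℂ A] [StarModule ℂ A] {τ : A →ₗ[ℂ] ℂ}
variable {V G : Type} [AddCommGroup V] [Group G] {D : Dat V G} {u : G →* A} {W : V → A}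

theorem ngd_n2_left {w : A} (hw : star w * w = 1) (y : A) : n2 τ (w * y) = n2 τ y := by
  unfold n2
  have : star (w * y) * (w * y) = star y * y := by
    rw [star_mul]
    calc star y * star w * (w * y) = star y * (star w * w) * y := by noncomm_ring
      _ = star y * y := by rw [hw, mul_one]
  rw [this]

theorem ngd_n2_right (hA : TrAlg τ) {w : A} (hw : w * star w = 1) (y : A) :
    n2 τ (y * w) = n2 τ y := by
  unfold n2
  have : τ (star (y * w) * (y * w)) = τ (star y * y) := by
    rw [star_mul, mul_assoc, hA.comm]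
    congr 1
    calc star y * (y * w) * star w = star y * y * (w * star w) := by noncomm_ring
      _ = star y * y := by rw [hw, mul_one]
  rw [this]

theorem ngd_eq_zero (hA : TrAlg τ) {y : A} (hy : n2 τ y = 0) : y = 0 := by
  apply hA.faithful
  have h1 := hA.n2_sq y
  rw [hy] at h1
  apply Complex.ext
  · rw [← h1]; simp
  · rw [hA.im_zero]; rfl

/-- a unitary commuting with `b` commutes with `star b` -/
theorem ngd_star_comm {y b : A} (hy : y ∈ unitary A) (h : y * b = b * y) :
    y * star b = star b * y := by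
  obtain ⟨h1, h2⟩ := Unitary.mem_iff.1 hy
  have h3 : star b * star y = star y * star b := by
    rw [← star_mul, h, star_mul]
  calc y * star b = y * (star b * (star y * y)) := by rw [h1, mul_one]
    _ = y * (star b * star y) * y := by noncomm_ring
    _ = y * (star y * star b) * y := by rw [h3]
    _ = (y * star y) * (star b * y) := by noncomm_ring
    _ = star b * y := by rw [h2, one_mul]

/-- commutation of `W t` with a finite sum of basis elements of one class -/
theorem ngd_W_fs (h : TW D τ u W) (t : V) (F : Finset (G × V)) (k : G × V → ℂ) (θ : TT)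
    (hF : ∀ b ∈ F, D.co t b = θ) : W t * fs u W F k = e θ • (fs u W F k * W t) := by
  unfold fs
  rw [Finset.mul_sum, Finset.sum_mul, Finset.smul_sum]
  refine Finset.sum_congr rfl fun b hb => ?_
  rw [mul_smul_comm, h.W_basis t b, hF b hb, smul_mul_assoc, smul_comm]

/-- commutation of `W t` with `W s` -/
theorem ngd_W_W (h : TW D τ u W) (s t : V) : W t * W s = e (D.co t (1, s)) • (W s * W t) := by
  have := h.W_basis t ((1 : G), s)
  simp only [map_one, one_mul] at this
  exact this

theorem ngd_W_star (h : TW D τ u W) (s t : V) :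
    star (W s) * W t = e (D.co t (1, s)) • (W t * star (W s)) := by
  have h1 := ngd_W_W h s t
  have h2 : star (W s) * (W t * W s) * star (W s) =
      star (W s) * (e (D.co t (1, s)) • (W s * W t)) * star (W s) := by rw [h1]
  have h3 : star (W s) * (W t * W s) * star (W s) = star (W s) * W t := by
    calc star (W s) * (W t * W s) * star (W s) = star (W s) * W t * (W s * star (W s)) := by
          noncomm_ring
      _ = star (W s) * W t := by rw [h.unit_right, mul_one]
  have h4 : star (W s) * (e (D.co t (1, s)) • (W s * W t)) * star (W s) =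
      e (D.co t (1, s)) • (W t * star (W s)) := by
    rw [mul_smul_comm, smul_mul_assoc]
    congr 1
    calc star (W s) * (W s * W t) * star (W s) = (star (W s) * W s) * W t * star (W s) := by
          noncomm_ring
      _ = W t * star (W s) := by rw [h.unit_left, one_mul]
  rw [← h3, h2, h4]

theorem ngd_e_mul_neg (θ : TT) : e (-θ) * e θ = 1 := by
  unfold e
  rw [← Circle.coe_mul, ← AddCircle.toCircle_add, neg_add_cancel, AddCircle.toCircle_zero]
  rfl

/-- `star (W s) * fs` commutes with the `W t` -/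
theorem ngd_comm (h : TW D τ u W) (s t : V) (F : Finset (G × V)) (k : G × V → ℂ)
    (hF : ∀ b ∈ F, D.co t b = D.co t (1, s)) :
    W t * (star (W s) * fs u W F k) = (star (W s) * fs u W F k) * W t := by
  have h1 := ngd_W_star h s t
  have h2 := ngd_W_fs h t F k _ hF
  have h3 : W t * star (W s) = e (-(D.co t (1, s))) • (star (W s) * W t) := by
    rw [h1, smul_smul, ngd_e_mul_neg, one_smul]
  calc W t * (star (W s) * fs u W F k) = (W t * star (W s)) * fs u W F k := by rw [mul_assoc]
    _ = e (-(D.co t (1, s))) • (star (W s) * (W t * fs u W F k)) := by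
        rw [h3, smul_mul_assoc, mul_assoc]
    _ = (star (W s) * fs u W F k) * W t := by
        rw [h2, mul_smul_comm, smul_smul, ngd_e_mul_neg, one_smul, mul_assoc]

/-- an element that commutes with all `W t`, `t ∈ T`, has no mass off the commutant -/
theorem ngd_mass (h : TW D τ u W) (htor : ∀ v : V, ∃ n : ℕ, 0 < n ∧ n • v = 0)
    (T : AddSubgroup V) (x : A) (hx : ∀ t ∈ T, W t * x = x * W t) :
    mass τ u W (perp D T)ᶜ x = 0 := by
  obtain ⟨t, ht, h1⟩ := h.exists_t htor T x
  rw [hx t ht, sub_self, h.tr.n2_zero] at h1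
  have h2 := TW.mass_nonneg (τ := τ) (u := u) (W := W) (perp D T)ᶜ x
  nlinarith

end ngd

variable {H : Type} [NormedAddCommGroup H] [InnerProductSpace ℂ H] [CompleteSpace H]
variable {N : VonNeumannAlgebra H} {T0 : TracialState N}
variable {V G : Type} [AddCommGroup V] [Group G] {D : Dat V G} {u : G →* Elt N} {W : V → Elt N}
variable {T : ℕ → AddSubgroup V}
variable {I : Type w} {U : Ultrafilter I} {Q : Type w} [Ring Q] [StarRing Q] [Algebra ℂ Q]
variable {π : (I → Elt N) → Q} {φ : Q → ℂ}

/-- the exact case of the truncation -/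
theorem ngd_zero (T0 : TracialState N) (x a b : Elt N) (hx : x ∈ unitary (Elt N))
    (hxa : x = b * a)
    (hind : ∀ c : Elt N, (∀ y ∈ unitary (Elt N), y * b = b * y → y * c = c * y) →
      T0.τ (c * (a * star a)) = T0.τ c) : star b * b = 1 ∧ b * star b = 1 := by
  have hA := trAlg T0
  have hxx : (b * a) * star (b * a) = 1 := by rw [← hxa]; exact (Unitary.mem_iff.1 hx).2
  rw [star_mul] at hxx
  have c1 : ∀ y ∈ unitary (Elt N), y * b = b * y → y * (star b * b) = (star b * b) * y := by
    intro y hy hyb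
    have h1 := ngd_star_comm hy hyb
    rw [← mul_assoc, h1, mul_assoc, hyb, mul_assoc]
  have c2 : ∀ y ∈ unitary (Elt N), y * b = b * y →
      y * ((star b * b) * (star b * b)) = ((star b * b) * (star b * b)) * y := by
    intro y hy hyb
    have h1 := c1 y hy hyb
    calc y * ((star b * b) * (star b * b)) = (y * (star b * b)) * (star b * b) :=
          (mul_assoc y (star b * b) (star b * b)).symm
      _ = ((star b * b) * y) * (star b * b) := by rw [h1]
      _ = (star b * b) * (y * (star b * b)) := mul_assoc (star b * b) y (star b * b)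
      _ = (star b * b) * ((star b * b) * y) := by rw [h1]
      _ = (star b * b) * (star b * b) * y := (mul_assoc (star b * b) (star b * b) y).symm
  have t1 : T0.τ (star b * b) = 1 := by
    rw [← hind _ c1]
    have : (star b * b) * (a * star a) = star b * (b * (a * star a)) := by noncomm_ring
    rw [this, hA.comm]
    have : b * (a * star a) * star b = b * a * (star a * star b) := by noncomm_ring
    rw [this, hxx, hA.one]
  have t1' : T0.τ (b * star b) = 1 := by rw [hA.comm]; exact t1
  have t2 : T0.τ ((star b * b) * (star b * b)) = 1 := by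
    rw [← hind _ c2]
    have : (star b * b) * (star b * b) * (a * star a) =
        star b * (b * star b * b * (a * star a)) := by noncomm_ring
    rw [this, hA.comm]
    have : b * star b * b * (a * star a) * star b = b * star b * (b * a * (star a * star b)) := by
      noncomm_ring
    rw [this, hxx, mul_one]
    exact t1'
  have e1 : star b * b = 1 := by
    have h1 : T0.τ (star (star b * b - 1) * (star b * b - 1)) = 0 := by
      have : star (star b * b - 1) * (star b * b - 1) =
          (star b * b) * (star b * b) - (star b * b) - (star b * b) + 1 := by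
        rw [star_sub, star_mul, star_star, star_one]
        noncomm_ring
      rw [this, map_add, map_sub, map_sub, t1, t2, hA.one]
      ring
    exact sub_eq_zero.1 (hA.faithful _ h1)
  have e2 : b * star b = 1 := by
    have h1 : T0.τ (star (b * star b - 1) * (b * star b - 1)) = 0 := by
      have : star (b * star b - 1) * (b * star b - 1) =
          b * (star b * b) * star b - (b * star b) - (b * star b) + 1 := by
        rw [star_sub, star_mul, star_star, star_one]
        noncomm_ring
      rw [this, e1, mul_one, map_add, map_sub, map_sub, t1', hA.one]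
      ring
    exact sub_eq_zero.1 (hA.faithful _ h1)
  exact ⟨e1, e2⟩

/-- truncation, including the exact case -/
theorem ngd_trunc (T0 : TracialState N) (x a b : Elt N) (hx : x ∈ unitary (Elt N))
    (hε1 : n2 T0.τ (x - b * a) ≤ 1) (ha : n2 T0.τ a = 1) (hb : n2 T0.τ b ≤ 1)
    (hind : ∀ c : Elt N, (∀ y ∈ unitary (Elt N), y * b = b * y → y * c = c * y) →
      T0.τ (c * (a * star a)) = T0.τ c) :
    ∃ r : Elt N, ‖r‖ ≤ 1 ∧ (∀ y ∈ unitary (Elt N), y * b = b * y → y * r = r * y) ∧
      n2 T0.τ (1 - r * star r) ≤ 2 * Real.sqrt (n2 T0.τ (x - b * a)) ∧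
      n2 T0.τ (1 - star r * r) ≤ 2 * Real.sqrt (n2 T0.τ (x - b * a)) ∧
      n2 T0.τ (star r * x - a) ≤ 5 * Real.sqrt (n2 T0.τ (x - b * a)) := by
  have hA := trAlg T0
  rcases (n2_nonneg T0.τ (x - b * a)).eq_or_lt with h0 | h0
  · have hxa : x = b * a := sub_eq_zero.1 (ngd_eq_zero hA h0.symm)
    obtain ⟨e1, e2⟩ := ngd_zero T0 x a b hx hxa hind
    refine ⟨b, norm_unitary_le ⟨b, Unitary.mem_iff.2 ⟨e1, e2⟩⟩, fun y _ hy => hy, ?_, ?_, ?_⟩
    · rw [e2, sub_self, hA.n2_zero]; positivity
    · rw [e1, sub_self, hA.n2_zero]; positivity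
    · have : star b * x - a = 0 := by rw [hxa, ← mul_assoc, e1, one_mul, sub_self]
      rw [this, hA.n2_zero]; positivity
  · exact truncate T0 x a b hx _ h0 hε1 le_rfl ha hb hind

/-- one level -/
theorem ngd_step (h : TW D T0.τ u W) (hL : Lev D T) (C : ℝ) (F : ℕ → Fin 5 → Elt N)
    (hF : GapT T0 u W T C F) (m : ℕ) (x : Elt N) (hx : x ∈ unitary (Elt N))
    (b0 : G × V) (S : Finset (G × V)) (k : G × V → ℂ) (R : Finset V)
    (r : V → ℂ) (hS : ∀ b ∈ S, ∀ t ∈ T m, D.co t b = D.co t b0)
    (hR : ∀ s ∈ R, s ∈ T m) (ha : n2 T0.τ (fs u W S k) = 1)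
    (hb : n2 T0.τ (ws W R r) ≤ 1)
    (hlim : n2 T0.τ (x - ws W R r * fs u W S k) ≤ 1)
    (hcl : cls D (T m) (1, 0) b0) :
    ∃ q : Elt N, ‖q‖ ≤ 1 ∧ (∀ j, q * F m j = F m j * q) ∧
      n2 T0.τ (1 - q * star q) ≤ 2 * Real.sqrt (n2 T0.τ (x - ws W R r * fs u W S k)) ∧
      n2 T0.τ (1 - star q * q) ≤ 2 * Real.sqrt (n2 T0.τ (x - ws W R r * fs u W S k)) ∧
      mass T0.τ u W (perp D (T m))ᶜ (star q * x) ≤
        25 * n2 T0.τ (x - ws W R r * fs u W S k) := by
  have hA := h.tr
  obtain ⟨s, hs, hs'⟩ := hcl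
  have hs2 : ∀ t ∈ T m, D.co t b0 = D.co t (1, s) := by
    intro t ht
    rw [hs' t ht, co_one_zero, zero_add]
  set a := star (W s) * fs u W S k with hadef
  set b := ws W R r * W s with hbdef
  have hba : b * a = ws W R r * fs u W S k := by
    rw [hadef, hbdef]
    calc ws W R r * W s * (star (W s) * fs u W S k)
        = ws W R r * (W s * star (W s)) * fs u W S k := by noncomm_ring
      _ = ws W R r * fs u W S k := by rw [h.unit_right, mul_one]
  have ha1 : n2 T0.τ a = 1 := by
    rw [hadef, ngd_n2_left (by rw [star_star]; exact h.unit_right s), ha]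
  have hb1 : n2 T0.τ b ≤ 1 := by
    rw [hbdef, ngd_n2_right hA (h.unit_right s)]
    exact hb
  have hac : ∀ t ∈ T m, W t * a = a * W t := by
    intro t ht
    exact ngd_comm h s t S k fun b' hb' => by rw [hS b' hb' t ht, hs2 t ht]
  have hac' : ∀ t ∈ T m, W t * star a = star a * W t := fun t ht =>
    ngd_star_comm (h.W_mem t) (hac t ht)
  have hma : mass T0.τ u W (perp D (T m))ᶜ a = 0 := ngd_mass h hL.tors (T m) a hac
  have hmd : mass T0.τ u W (perp D (T m))ᶜ (a * star a) = 0 := by
    apply ngd_mass h hL.tors (T m)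
    intro t ht
    calc W t * (a * star a) = (W t * a) * star a := (mul_assoc (W t) a (star a)).symm
      _ = a * (W t * star a) := by rw [hac t ht, mul_assoc a (W t) (star a)]
      _ = a * star a * W t := by rw [hac' t ht, ← mul_assoc a (star a) (W t)]
  have hFb : ∀ j, F m j * b = b * F m j := by
    intro j
    rw [hbdef, ws, Finset.sum_mul, Finset.sum_mul, Finset.mul_sum]
    refine Finset.sum_congr rfl fun t ht => ?_
    have h1 := hF.comm m j t (hR t ht)
    have h2 := hF.comm m j s hs
    rw [smul_mul_assoc, mul_smul_comm, smul_mul_assoc]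
    congr 1
    rw [← mul_assoc, ← h1, mul_assoc, ← h2, mul_assoc]
  have hind : ∀ c : Elt N, (∀ y ∈ unitary (Elt N), y * b = b * y → y * c = c * y) →
      T0.τ (c * (a * star a)) = T0.τ c := by
    intro c hc
    have h1 : ∀ j, F m j * c = c * F m j := fun j => hc _ (hF.un m j) (hFb j)
    have h2 : mass T0.τ u W (tl (T m))ᶜ c = 0 := by
      have h3 := hF.gap m c
      have h4 : ∑ j, n2 T0.τ (F m j * c - c * F m j) ^ 2 = 0 := by
        apply Finset.sum_eq_zero
        intro j _
        rw [h1 j, sub_self, hA.n2_zero]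
        ring
      rw [h4, mul_zero] at h3
      exact le_antisymm h3 (TW.mass_nonneg _ _)
    rw [h.indep (T m) (hL.nondeg m) c (a * star a) h2 hmd, hA.comm a (star a), hA.eq_sq a, ha1]
    simp
  obtain ⟨q, q1, q2, q3, q4, q5⟩ := ngd_trunc T0 x a b hx (by rw [hba]; exact hlim) ha1 hb1 hind
  rw [hba] at q3 q4 q5
  refine ⟨q, q1, fun j => (q2 _ (hF.un m j) (hFb j)).symm, q3, q4, ?_⟩
  refine (h.mass_le_of_near _ (star q * x) a hma).trans ?_
  have h5 : n2 T0.τ (star q * x - a) ^ 2 ≤
      (5 * Real.sqrt (n2 T0.τ (x - ws W R r * fs u W S k))) ^ 2 :=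
    pow_le_pow_left₀ (n2_nonneg _ _) q5 2
  rw [mul_pow, Real.sq_sqrt (n2_nonneg _ _)] at h5
  linarith

/-- the unitary is a product -/
theorem neg_prod (h : TW D T0.τ u W) (hL : Lev D T) (C : ℝ) (F : ℕ → Fin 5 → Elt N)
    (hF : GapT T0 u W T C F) (hπ : CE.IsTracialUltrapower (fun x => T0.τ x) U π φ)
    (ρ : I → ℕ) (hρ : Tendsto ρ U atTop) (m : I → ℕ) (x : I → Elt N) (hx : ∀ i, x i ∈ unitary (Elt N))
    (b0 : I → G × V) (S : I → Finset (G × V)) (k : I → G × V → ℂ) (R : I → Finset V)
    (r : I → V → ℂ) (hS : ∀ i, ∀ b ∈ S i, ∀ t ∈ T (m i), D.co t b = D.co t (b0 i))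
    (hR : ∀ i, ∀ s ∈ R i, s ∈ T (m i)) (ha : ∀ i, n2 T0.τ (fs u W (S i) (k i)) = 1)
    (hb : ∀ i, n2 T0.τ (ws W (R i) (r i)) ≤ 1)
    (hlim : Tendsto (fun i => n2 T0.τ (x i - ws W (R i) (r i) * fs u W (S i) (k i))) U (𝓝 0))
    (hcl : ∀ᶠ i in U, cls D (T (m i)) (1, 0) (b0 i)) :
    ∃ w ∈ unitary Q, ∃ z ∈ unitary Q, π x = w * z ∧
      (∀ j, z * π (fun i => F (m i) j) = π (fun i => F (m i) j) * z) ∧
      ∀ y, (∀ j, y * π (fun i => F (m i) j) = π (fun i => F (m i) j) * y) → w * y = y * w := by
  have hA := h.tr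
  set ε : I → ℝ := fun i => n2 T0.τ (x i - ws W (R i) (r i) * fs u W (S i) (k i)) with hε
  have hgood : ∀ᶠ i in (U : Filter I), cls D (T (m i)) (1, 0) (b0 i) ∧ ε i ≤ 1 :=
    hcl.and ((hlim.eventually (gt_mem_nhds one_pos)).mono fun i hi => hi.le)
  have hex : ∀ i, ∃ q : Elt N, ‖q‖ ≤ 1 ∧ (∀ j, q * F (m i) j = F (m i) j * q) ∧
      ((cls D (T (m i)) (1, 0) (b0 i) ∧ ε i ≤ 1) →
        n2 T0.τ (1 - q * star q) ≤ 2 * Real.sqrt (ε i) ∧
        n2 T0.τ (1 - star q * q) ≤ 2 * Real.sqrt (ε i) ∧
        mass T0.τ u W (perp D (T (m i)))ᶜ (star q * x i) ≤ 25 * ε i) := by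
    intro i
    by_cases hi : cls D (T (m i)) (1, 0) (b0 i) ∧ ε i ≤ 1
    · obtain ⟨q, q1, q2, q3, q4, q5⟩ := ngd_step h hL C F hF (m i) (x i) (hx i) (b0 i) (S i) (k i)
        (R i) (r i) (hS i) (hR i) (ha i) (hb i) hi.2 hi.1
      exact ⟨q, q1, q2, fun _ => ⟨q3, q4, q5⟩⟩
    · exact ⟨1, norm_unitary_le ⟨1, one_mem _⟩, fun j => by rw [one_mul, mul_one],
        fun h' => absurd h' hi⟩
  choose q q1 q2 q3 using hex
  have bq : CE.BddFam q := ⟨1, q1⟩
  have bx : CE.BddFam x := bdd_un hx
  have bF : ∀ j, CE.BddFam (fun i => F (m i) j) := fun j => bdd_un fun i => hF.un (m i) j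
  have hsq : Tendsto (fun i => 2 * Real.sqrt (ε i)) U (𝓝 0) := by
    have h1 := (Real.continuous_sqrt.tendsto 0).comp hlim
    rw [Real.sqrt_zero] at h1
    have h2 := h1.const_mul 2
    rw [mul_zero] at h2
    exact h2
  have hz1 : star (π q) * π q = 1 := by
    rw [← hπ.quot.star q bq, ← hπ.quot.mul _ _ (bdd_st bq) bq, ← hπ.quot.one]
    rw [pi_eq_iff hπ _ _ (CE.bdd_mul (bdd_st bq) bq) (CE.bdd_const 1)]
    refine squeeze_zero' (Eventually.of_forall fun i => n2_nonneg _ _)
      (hgood.mono fun i hi => ?_) hsq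
    rw [hA.n2_sub_comm]
    exact (q3 i hi).2.1
  have hz2 : π q * star (π q) = 1 := by
    rw [← hπ.quot.star q bq, ← hπ.quot.mul _ _ bq (bdd_st bq), ← hπ.quot.one]
    rw [pi_eq_iff hπ _ _ (CE.bdd_mul bq (bdd_st bq)) (CE.bdd_const 1)]
    refine squeeze_zero' (Eventually.of_forall fun i => n2_nonneg _ _)
      (hgood.mono fun i hi => ?_) hsq
    rw [hA.n2_sub_comm]
    exact (q3 i hi).1
  have hzu : π q ∈ unitary Q := Unitary.mem_iff.2 ⟨hz1, hz2⟩
  have hxu : π x ∈ unitary Q := pi_unitary hπ hx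
  have hw : star (π q) * π x ∈ unitary Q := mul_mem (Unitary.star_mem hzu) hxu
  have hwpi : π (fun i => star (q i) * x i) = star (π q) * π x := by
    rw [hπ.quot.mul _ _ (bdd_st bq) bx, hπ.quot.star q bq]
  have hzF : ∀ j, π q * π (fun i => F (m i) j) = π (fun i => F (m i) j) * π q := by
    intro j
    rw [← hπ.quot.mul _ _ bq (bF j), ← hπ.quot.mul _ _ (bF j) bq]
    congr 1
    funext i
    exact q2 i j
  have hwc : ∀ y, (∀ j, y * π (fun i => F (m i) j) = π (fun i => F (m i) j) * y) →
      (star (π q) * π x) * y = y * (star (π q) * π x) := by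
    intro y hy
    obtain ⟨y, by', rfl⟩ := hπ.quot.surj y
    have h1 := neg_mass h C F hF hπ m y by' hy
    have bw : CE.BddFam (fun i => star (q i) * x i) := CE.bdd_mul (bdd_st bq) bx
    have h2 : InP π W T m (π (fun i => star (q i) * x i)) := by
      rw [inP_iff h hL hπ m _ bw]
      have h3 : Tendsto (fun i => 25 * ε i) U (𝓝 0) := by
        have := hlim.const_mul 25
        rwa [mul_zero] at this
      exact squeeze_zero' (Eventually.of_forall fun i => TW.mass_nonneg _ _)
        (hgood.mono fun i hi => (q3 i hi).2.2) h3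
    have h4 := tail_comm h hL hπ m y (fun i => star (q i) * x i) by' bw h1 h2
    rw [hwpi] at h4
    exact h4.symm
  refine ⟨star (π q) * π x, hw, π q, hzu, ?_, hzF, hwc⟩
  rw [hwc (π q) hzF, ← mul_assoc, hz2, one_mul]

end Pool.Agent.H146R2.SD
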