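import Mathlib
import Pool.Agent.H146R2.SD.QL
import Pool.Agent.H146R2.SD.LEMH
import Pool.Agent.H146R2.SD.CF
import Pool.Agent.H146R2.SD.NGA
import Pool.Agent.H146R2.SD.NGB
import Pool.Agent.H146R2.SD.NGC
import Pool.Agent.H146R2.SD.NGD

set_option autoImplicit false
set_option linter.unusedSectionVars false

open scoped ComplexConjugate Topology
open Filter

namespace Pool.Agent.H146R2.SD

open Pool.Agent.Helper278 Pool.Agent.Helper436.SM

universe w

variable {H : Type} [NormedAddCommGroup H] [InnerProductSpace ℂ H] [CompleteSpace H]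
variable {N : VonNeumannAlgebra H} {T0 : TracialState N}
variable {V G : Type} [AddCommGroup V] [Group G] {D : Dat V G} {u : G →* Elt N} {W : V → Elt N}
variable {T : ℕ → AddSubgroup V}
variable {I : Type w} {U : Ultrafilter I} {Q : Type w} [Ring Q] [StarRing Q] [Algebra ℂ Q]
variable {π : (I → Elt N) → Q} {φ : Q → ℂ}

theorem neg (h : TW D T0.τ u W) (hL : Lev D T) (C : ℝ) (F : ℕ → Fin 5 → Elt N)
    (hF : GapT T0 u W T C F) (p : ℕ) (hN : NotP D T p)
    (hπ : CE.IsTracialUltrapower (fun x => T0.τ x) U π φ) (ρ : I → ℕ) (hρ : Tendsto ρ U atTop) :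
    ¬ PropP p Q := by
  rintro ⟨y, hy⟩
  obtain ⟨m, -, hm⟩ := exists_level h hL hπ ρ hρ (fun _ => 0) y
  have hbF : ∀ j, CE.BddFam (fun i => F (m i) j) := fun j => bdd_un (fun i => hF.un (m i) j)
  obtain ⟨q, hq, hqp, hqn, hqo⟩ := hy (fun j => π (fun i => F (m i) j)) (by
    intro z hz j
    obtain ⟨zi, hzi, rfl⟩ := hπ.quot.surj z
    obtain ⟨yi, hyi, hyi2⟩ := hπ.quot.surj (y j)
    rw [← hyi2]
    exact tail_comm h hL hπ m zi yi hzi hyi (neg_mass h C F hF hπ m zi hzi hz) (by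
      rw [hyi2]; exact hm j))
  obtain ⟨x, hx, rfl⟩ := exists_lift hπ q hq
  obtain ⟨b0, S, k, R, r, h1, h2, h3, h4, h5⟩ := neg_rank h hL C F hF hπ ρ hρ m x hx hqn
  have h6 := neg_class h p hN hπ m x hx hqp b0 S k R r h1 h2 h5
  exact hqo (neg_prod h hL C F hF hπ ρ hρ m x hx b0 S k R r h1 h2 h3 h4 h5 h6)

end Pool.Agent.H146R2.SD
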