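import Mathlib
import Pool.Agent.H146R2.SD.QL

set_option autoImplicit false
set_option linter.unusedSectionVars false

open scoped ComplexConjugate Topology
open Filter

namespace Pool.Agent.H146R2.SD

open Pool.Agent.Helper278 Pool.Agent.Helper436.SM

universe w

variable {H : Type} [NormedAddCommGroup H] [InnerProductSpace ℂ H] [CompleteSpace H]
variable {N : VonNeumannAlgebra H} {T0 : TracialState N}
variable {V G : Type} [AddCommGroup V] [Group G] {D : Dat V G} {u : G →* Elt N} {W : V → Elt N}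
variable {T : ℕ → AddSubgroup V}
variable {I : Type w} {U : Ultrafilter I} {Q : Type w} [Ring Q] [StarRing Q] [Algebra ℂ Q]
variable {π : (I → Elt N) → Q} {φ : Q → ℂ}

theorem pos_bdd (h : TW D T0.τ u W) (s : I → V) : CE.BddFam (fun i => W (s i)) :=
  bdd_un fun i => h.W_mem (s i)

theorem pos_perp_mono {S S' : AddSubgroup V} (hS : S' ≤ S) : perp D S ⊆ perp D S' :=
  fun _ hb t ht => hb t (hS ht)

/-- the conjugations by two sequences that agree on the level of `x` -/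
theorem pos_conj (h : TW D T0.τ u W) (hL : Lev D T)
    (hπ : CE.IsTracialUltrapower (fun x => T0.τ x) U π φ) (m : I → ℕ) (x : Q)
    (hx : InP π W T m x) (s t : I → V)
    (hst : ∀ i, ∀ b ∈ perp D (T (m i)), D.co (s i) b = D.co (t i) b) :
    Wq π W s * x * star (Wq π W s) = Wq π W t * x * star (Wq π W t) := by
  obtain ⟨x, hxb, rfl⟩ := hπ.quot.surj x
  exact conj_eq_conj h hπ x hxb (fun i => perp D (T (m i))) ((inP_iff h hL hπ m x hxb).1 hx) s t hst

/-- the star of an isotropic sequence -/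
theorem pos_star (h : TW D T0.τ u W)
    (hπ : CE.IsTracialUltrapower (fun x => T0.τ x) U π φ) (s : I → V)
    (hs : ∀ i, D.β (s i) (s i) = 0) : star (Wq π W s) = Wq π W (fun i => - s i) := by
  unfold Wq
  rw [← hπ.quot.star _ (pos_bdd h s)]
  congr 1
  funext i
  rw [h.star_W, hs i, e_zero, one_smul]

theorem pos_conj_inv (h : TW D T0.τ u W) (hL : Lev D T)
    (hπ : CE.IsTracialUltrapower (fun x => T0.τ x) U π φ) (m : I → ℕ) (x : Q)
    (hx : InP π W T m x) (s t : I → V)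
    (hs : ∀ i, D.β (s i) (s i) = 0) (ht : ∀ i, D.β (t i) (t i) = 0)
    (hst : ∀ i, ∀ b ∈ perp D (T (m i)), D.co (s i) b = D.co (t i) b) :
    star (Wq π W s) * x * Wq π W s = star (Wq π W t) * x * Wq π W t := by
  have h1 := pos_conj h hL hπ m x hx (fun i => - s i) (fun i => - t i) (fun i b hb => by
    rw [co_neg_left, co_neg_left, hst i b hb])
  rw [← pos_star h hπ s hs, ← pos_star h hπ t ht, star_star, star_star] at h1
  exact h1

/-- commutation of two sequences up to a phase -/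
theorem pos_comm (h : TW D T0.τ u W)
    (hπ : CE.IsTracialUltrapower (fun x => T0.τ x) U π φ) (s t : I → V) (θ : TT)
    (hst : ∀ i, D.co (s i) (1, t i) = θ) :
    Wq π W s * Wq π W t = e θ • (Wq π W t * Wq π W s) := by
  unfold Wq
  rw [← hπ.quot.mul _ _ (pos_bdd h s) (pos_bdd h t), ← hπ.quot.mul _ _ (pos_bdd h t) (pos_bdd h s),
    ← hπ.quot.smul _ _ (CE.bdd_mul (pos_bdd h t) (pos_bdd h s))]
  congr 1
  funext i
  have h1 := h.W_basis (s i) (1, t i)
  rw [map_one, one_mul, hst i] at h1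
  exact h1

theorem pos_comm0 (h : TW D T0.τ u W)
    (hπ : CE.IsTracialUltrapower (fun x => T0.τ x) U π φ) (s t : I → V)
    (hst : ∀ i, D.co (s i) (1, t i) = 0) :
    Wq π W s * Wq π W t = Wq π W t * Wq π W s := by
  have := pos_comm h hπ s t 0 hst
  rw [e_zero, one_smul] at this
  exact this

/-- elements that commute with `u a`, `u b`, `u c` and have level `m'` commute with the sequences
that are trivial on the corresponding set -/
theorem pos_fix (h : TW D T0.τ u W) (hL : Lev D T)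
    (hπ : CE.IsTracialUltrapower (fun x => T0.τ x) U π φ)
    (C : ℝ) (a b c : G) (p : ℕ) (hp : 0 < p)
    (hgap : ∀ x : Elt N, mass T0.τ u W {b' | b'.1 ≠ 1} x ≤
      C * (n2 T0.τ (u a * x - x * u a) ^ 2 + n2 T0.τ (u b * x - x * u b) ^ 2))
    (hc : ∀ v, p • D.χ v (Additive.ofMul c) = 0) (z : Q)
    (ha : z * π (fun _ => u a) = π (fun _ => u a) * z)
    (hb : z * π (fun _ => u b) = π (fun _ => u b) * z)
    (hcz : z * π (fun _ => u c) = π (fun _ => u c) * z)
    (m : I → ℕ) (hz : InP π W T m z) (s : I → V)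
    (hs : ∀ i, ∀ v, D.χ v (Additive.ofMul c) = 0 → (1, v) ∈ perp D (T (m i)) →
      D.co (s i) (1, v) = 0) :
    Wq π W s * z = z * Wq π W s := by
  obtain ⟨z, hzb, rfl⟩ := hπ.quot.surj z
  have h1 := fixed_mass h hπ C a b c p hp hgap hc z hzb ha hb hcz
  have h2 := (inP_iff h hL hπ m z hzb).1 hz
  refine conj_eq_self h hπ z hzb
    (fun i => {b' : G × V | b'.1 = 1 ∧ D.χ b'.2 (Additive.ofMul c) = 0} ∩ perp D (T (m i))) ?_ s ?_
  · have h3 := h1.add h2
    rw [add_zero] at h3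
    refine squeeze_zero (fun i => TW.mass_nonneg _ _) (fun i => ?_) h3
    rw [Set.compl_inter]
    exact h.mass_union_le _ _ _
  · rintro i ⟨g, v⟩ ⟨⟨h3, h4⟩, h5⟩
    dsimp only at h3 h4
    subst h3
    exact hs i v h4 h5

section alg

theorem pos_star_comm {x z : Q} (hz : z ∈ unitary Q) (h : x * z = z * x) :
    x * star z = star z * x := by
  have h1 : star z * z = 1 := (Unitary.mem_iff.1 hz).1
  have h2 : z * star z = 1 := (Unitary.mem_iff.1 hz).2
  calc x * star z = (star z * z) * x * star z := by rw [h1, one_mul]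
    _ = star z * (z * x) * star z := by noncomm_ring
    _ = star z * (x * z) * star z := by rw [h]
    _ = star z * x * (z * star z) := by noncomm_ring
    _ = star z * x := by rw [h2, mul_one]

/-- part (a) as algebra -/
theorem pos_norm {u u' z y : Q} (hu : u ∈ unitary Q) (hu' : u' ∈ unitary Q)
    (hz : z * y = y * z) (hz' : u' * z = z * u') (hy : star u * y * u = star u' * y * u') :
    (u * z * star u) * y = y * (u * z * star u) := by
  have h1 : star u * u = 1 := (Unitary.mem_iff.1 hu).1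
  have h2 : u * star u = 1 := (Unitary.mem_iff.1 hu).2
  have h3 : z * star u' = star u' * z := pos_star_comm hu' hz'.symm
  have h4 : z * (star u * y * u) = (star u * y * u) * z := by
    rw [hy]
    calc z * (star u' * y * u') = (z * star u') * y * u' := by noncomm_ring
      _ = star u' * (z * y) * u' := by rw [h3]; noncomm_ring
      _ = star u' * y * (z * u') := by rw [hz]; noncomm_ring
      _ = star u' * y * u' * z := by rw [← hz']; noncomm_ring
  calc (u * z * star u) * y = u * z * star u * y * (u * star u) := by rw [h2, mul_one]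
    _ = u * (z * (star u * y * u)) * star u := by noncomm_ring
    _ = u * ((star u * y * u) * z) * star u := by rw [h4]
    _ = (u * star u) * y * (u * z * star u) := by noncomm_ring
    _ = y * (u * z * star u) := by rw [h2, one_mul]

/-- part (b) as algebra -/
theorem pos_contra {u₁ u₂ u₁' u₂' w₁ w₂ z₁ z₂ : Q} (c : ℂ)
    (h1 : u₁ ∈ unitary Q) (h2 : u₂ ∈ unitary Q) (h1' : u₁' ∈ unitary Q) (h2' : u₂' ∈ unitary Q)
    (hw1 : w₁ ∈ unitary Q) (hw2 : w₂ ∈ unitary Q) (hz1 : z₁ ∈ unitary Q) (hz2 : z₂ ∈ unitary Q)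
    (e1 : u₁ = w₁ * z₁) (e2 : u₂ = w₂ * z₂)
    (a1 : w₁ * z₂ = z₂ * w₁) (a2 : w₂ * z₁ = z₁ * w₂)
    (c1 : u₁ * w₂ * star u₁ = u₁' * w₂ * star u₁')
    (c2 : u₂ * w₁ * star u₂ = u₂' * w₁ * star u₂')
    (d1 : u₁' * u₂ = u₂ * u₁') (d2 : u₂' * u₁ = c • (u₁ * u₂'))
    (f1 : u₁' * z₂ = z₂ * u₁') (f2 : u₂' * z₁ = z₁ * u₂') : (1 : Q) = c • 1 := by
  have s1 : star u₁ * u₁ = 1 := (Unitary.mem_iff.1 h1).1
  have s2 : star u₂ * u₂ = 1 := (Unitary.mem_iff.1 h2).1
  have s1' : u₁' * star u₁' = 1 := (Unitary.mem_iff.1 h1').2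
  have s2' : u₂' * star u₂' = 1 := (Unitary.mem_iff.1 h2').2
  have t1 : z₁ * star z₁ = 1 := (Unitary.mem_iff.1 hz1).2
  have t2 : z₂ * star z₂ = 1 := (Unitary.mem_iff.1 hz2).2
  have g1 : w₁ = u₁ * star z₁ := by rw [e1, mul_assoc, t1, mul_one]
  have g2 : w₂ = u₂ * star z₂ := by rw [e2, mul_assoc, t2, mul_one]
  have f1' := pos_star_comm hz2 f1
  have f2' := pos_star_comm hz1 f2
  have k1 : u₁' * w₂ = w₂ * u₁' := by
    rw [g2, ← mul_assoc, d1, mul_assoc, f1', mul_assoc]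
  have k2 : u₁ * w₂ = w₂ * u₁ := by
    have : u₁ * w₂ * star u₁ = w₂ := by rw [c1, k1, mul_assoc, s1', mul_one]
    calc u₁ * w₂ = u₁ * w₂ * (star u₁ * u₁) := by rw [s1, mul_one]
      _ = (u₁ * w₂ * star u₁) * u₁ := by noncomm_ring
      _ = w₂ * u₁ := by rw [this]
  have k3 : w₁ * w₂ = w₂ * w₁ := by
    have a2' := pos_star_comm hz1 a2
    rw [g1, mul_assoc, ← a2', ← mul_assoc, k2, mul_assoc]
  have l1 : u₂' * w₁ = c • (w₁ * u₂') := by
    rw [g1, ← mul_assoc, d2, smul_mul_assoc, mul_assoc, f2', mul_assoc]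
  have l2 : u₂ * w₁ = c • (w₁ * u₂) := by
    have : u₂ * w₁ * star u₂ = c • w₁ := by
      rw [c2, l1, smul_mul_assoc, mul_assoc, s2', mul_one]
    calc u₂ * w₁ = u₂ * w₁ * (star u₂ * u₂) := by rw [s2, mul_one]
      _ = (u₂ * w₁ * star u₂) * u₂ := by noncomm_ring
      _ = c • (w₁ * u₂) := by rw [this, smul_mul_assoc]
  have l3 : w₂ * w₁ * z₂ = c • (w₂ * w₁ * z₂) := by
    calc w₂ * w₁ * z₂ = w₂ * z₂ * w₁ := by rw [mul_assoc, a1, mul_assoc]
      _ = c • (w₁ * (w₂ * z₂)) := by rw [← e2, l2]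
      _ = c • (w₂ * w₁ * z₂) := by rw [← mul_assoc, k3]
  have m1 : w₂ * w₁ * z₂ ∈ unitary Q := mul_mem (mul_mem hw2 hw1) hz2
  have m2 := (Unitary.mem_iff.1 m1).2
  calc (1 : Q) = (w₂ * w₁ * z₂) * star (w₂ * w₁ * z₂) := m2.symm
    _ = (c • (w₂ * w₁ * z₂)) * star (w₂ * w₁ * z₂) := by rw [← l3]
    _ = c • 1 := by rw [smul_mul_assoc, m2]

end alg

theorem pos_one_ne (hπ : CE.IsTracialUltrapower (fun x => T0.τ x) U π φ)
    (hτ : TrAlg T0.τ) : (1 : Q) ≠ 0 := by
  intro h0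
  rw [← hπ.quot.one, hπ.quot.ker _ (CE.bdd_const 1)] at h0
  have h1 : (fun _ : I => T0.τ (star (1 : Elt N) * 1)) = fun _ => (1 : ℂ) := by
    funext i
    rw [star_one, one_mul, hτ.one]
  have h2 : Tendsto (fun _ : I => (1 : ℂ)) U (𝓝 0) := by
    rw [← h1]; exact h0
  exact one_ne_zero (tendsto_nhds_unique tendsto_const_nhds h2)

theorem pos (h : TW D T0.τ u W) (hL : Lev D T)
    (hπ : CE.IsTracialUltrapower (fun x => T0.τ x) U π φ) (ρ : I → ℕ) (hρ : Tendsto ρ U atTop)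
    (C : ℝ) (a b c : G) (p : ℕ) (hp : 0 < p)
    (hgap : ∀ x : Elt N, mass T0.τ u W {b' | b'.1 ≠ 1} x ≤
      C * (n2 T0.τ (u a * x - x * u a) ^ 2 + n2 T0.τ (u b * x - x * u b) ^ 2))
    (w δ : ℕ → V) (α γ : G × V → TT) (θ : TT) (hP : HasP D T p c w δ α γ θ) : PropP p Q := by
  refine ⟨![π (fun _ => u a), π (fun _ => u b), π (fun _ => u c)], fun y' hy => ?_⟩
  have hya : ∀ z, (∀ j, z * y' j = y' j * z) → z * π (fun _ => u a) = π (fun _ => u a) * z :=
    fun z hz => hy z hz 0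
  have hyb : ∀ z, (∀ j, z * y' j = y' j * z) → z * π (fun _ => u b) = π (fun _ => u b) * z :=
    fun z hz => hy z hz 1
  have hyc : ∀ z, (∀ j, z * y' j = y' j * z) → z * π (fun _ => u c) = π (fun _ => u c) * z :=
    fun z hz => hy z hz 2
  obtain ⟨m, -, hm⟩ := exists_level h hL hπ ρ hρ (fun _ => 0) y'
  -- elements of the commutant of `y'` are fixed by the sequences `w`, `δ` of a high level
  have fixw : ∀ z, (∀ j, z * y' j = y' j * z) → ∀ m' : I → ℕ, InP π W T m' z →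
      Wq π W (fun i => w (m' i)) * z = z * Wq π W (fun i => w (m' i)) := by
    intro z hz m' hm'
    refine pos_fix h hL hπ C a b c p hp hgap hP.c_tors z (hya z hz) (hyb z hz) (hyc z hz) m' hm' _ ?_
    intro i v _ hv2
    rw [hP.co_w _ _ hv2, hP.α_one]
  have fixd : ∀ z, (∀ j, z * y' j = y' j * z) → ∀ m' : I → ℕ, InP π W T m' z →
      Wq π W (fun i => δ (m' i)) * z = z * Wq π W (fun i => δ (m' i)) := by
    intro z hz m' hm'
    refine pos_fix h hL hπ C a b c p hp hgap hP.c_tors z (hya z hz) (hyb z hz) (hyc z hz) m' hm' _ ?_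
    intro i v hv hv2
    rw [hP.co_δ _ _ hv2, hP.γ_one v hv]
  have cow : ∀ m' : I → ℕ, (∀ i, m i ≤ m' i) → ∀ i, ∀ b ∈ perp D (T (m i)),
      D.co (w (m i)) b = D.co (w (m' i)) b := by
    intro m' hm' i b hb
    rw [hP.co_w _ _ hb, hP.co_w _ _ (pos_perp_mono (hL.anti (hm' i)) hb)]
  have cod : ∀ m' : I → ℕ, (∀ i, m i ≤ m' i) → ∀ i, ∀ b ∈ perp D (T (m i)),
      D.co (δ (m i)) b = D.co (δ (m' i)) b := by
    intro m' hm' i b hb
    rw [hP.co_δ _ _ hb, hP.co_δ _ _ (pos_perp_mono (hL.anti (hm' i)) hb)]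
  have memw : ∀ m' : I → ℕ, Wq π W (fun i => w (m' i)) ∈ unitary Q := fun m' => Wq_mem h hπ _
  have memd : ∀ m' : I → ℕ, Wq π W (fun i => δ (m' i)) ∈ unitary Q := fun m' => Wq_mem h hπ _
  have poww : Wq π W (fun i => w (m i)) ^ p = 1 :=
    Wq_pow h hπ _ (fun i => hP.w_iso _) p (fun i => hP.w_tors _)
  have powd : Wq π W (fun i => δ (m i)) ^ p = 1 :=
    Wq_pow h hπ _ (fun i => hP.δ_iso _) p (fun i => hP.δ_tors _)
  -- normalization
  have normw : ∀ z, (∀ j, z * y' j = y' j * z) → ∀ j,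
      (Wq π W (fun i => w (m i)) * z * star (Wq π W (fun i => w (m i)))) * y' j =
        y' j * (Wq π W (fun i => w (m i)) * z * star (Wq π W (fun i => w (m i)))) := by
    intro z hz j
    obtain ⟨m', hm', hz'⟩ := exists_level h hL hπ ρ hρ m (fun _ : Fin 1 => z)
    exact pos_norm (memw m) (memw m') (hz j) (fixw z hz m' (hz' 0))
      (pos_conj_inv h hL hπ m (y' j) (hm j) _ _ (fun i => hP.w_iso _) (fun i => hP.w_iso _)
        (cow m' hm'))
  have normd : ∀ z, (∀ j, z * y' j = y' j * z) → ∀ j,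
      (Wq π W (fun i => δ (m i)) * z * star (Wq π W (fun i => δ (m i)))) * y' j =
        y' j * (Wq π W (fun i => δ (m i)) * z * star (Wq π W (fun i => δ (m i)))) := by
    intro z hz j
    obtain ⟨m', hm', hz'⟩ := exists_level h hL hπ ρ hρ m (fun _ : Fin 1 => z)
    exact pos_norm (memd m) (memd m') (hz j) (fixd z hz m' (hz' 0))
      (pos_conj_inv h hL hπ m (y' j) (hm j) _ _ (fun i => hP.δ_iso _) (fun i => hP.δ_iso _)
        (cod m' hm'))
  by_cases hcase : ∃ w' ∈ unitary Q, ∃ z ∈ unitary Q, Wq π W (fun i => w (m i)) = w' * z ∧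
      (∀ j, z * y' j = y' j * z) ∧ ∀ x, (∀ j, x * y' j = y' j * x) → w' * x = x * w'
  · refine ⟨Wq π W (fun i => δ (m i)), memd m, powd, normd, ?_⟩
    rintro ⟨w₂, hw2, z₂, hz2, e2, hz2y, hw2c⟩
    obtain ⟨w₁, hw1, z₁, hz1, e1, hz1y, hw1c⟩ := hcase
    have tailc : ∀ t : I → V, (∀ i, t i ∈ T (m i)) → ∀ j, Wq π W t * y' j = y' j * Wq π W t :=
      fun t ht j => hm j t ht
    have lw1 : InP π W T m w₁ := fun t ht => (hw1c _ (tailc t ht)).symm
    have lw2 : InP π W T m w₂ := fun t ht => (hw2c _ (tailc t ht)).symm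
    choose M1 hM1 using fun i => hL.exh (1, w (m i))
    choose M2 hM2 using fun i => hL.exh (1, δ (m i))
    obtain ⟨m', hm', hz'⟩ := exists_level h hL hπ ρ hρ (fun i => max (m i) (max (M1 i) (M2 i)))
      ![z₁, z₂]
    have hmm : ∀ i, m i ≤ m' i := fun i => (le_max_left _ _).trans (hm' i)
    have hz'1 : InP π W T m' z₁ := hz' 0
    have hz'2 : InP π W T m' z₂ := hz' 1
    have p1 : ∀ i, ((1 : G), w (m i)) ∈ perp D (T (m' i)) := fun i t ht =>
      hM1 i t (hL.anti (((le_max_left _ _).trans (le_max_right _ _)).trans (hm' i)) ht)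
    have p2 : ∀ i, ((1 : G), δ (m i)) ∈ perp D (T (m' i)) := fun i t ht =>
      hM2 i t (hL.anti (((le_max_right _ _).trans (le_max_right _ _)).trans (hm' i)) ht)
    have d1 : Wq π W (fun i => w (m' i)) * Wq π W (fun i => δ (m i)) =
        Wq π W (fun i => δ (m i)) * Wq π W (fun i => w (m' i)) :=
      pos_comm0 h hπ _ _ fun i => by rw [hP.co_w _ _ (p2 i), hP.α_one]
    have d2 : Wq π W (fun i => δ (m' i)) * Wq π W (fun i => w (m i)) =
        e θ • (Wq π W (fun i => w (m i)) * Wq π W (fun i => δ (m' i))) :=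
      pos_comm h hπ _ _ θ fun i => by rw [hP.co_δ _ _ (p1 i), hP.γ_w]
    have key := pos_contra (e θ) (memw m) (memd m) (memw m') (memd m') hw1 hw2 hz1 hz2 e1 e2
      (hw1c z₂ hz2y) (hw2c z₁ hz1y)
      (pos_conj h hL hπ m w₂ lw2 _ _ (cow m' hmm)) (pos_conj h hL hπ m w₁ lw1 _ _ (cod m' hmm))
      d1 d2 (fixw z₂ hz2y m' hz'2) (fixd z₁ hz1y m' hz'1)
    have hne : e θ ≠ 1 := fun hh => hP.θ_ne ((e_eq_one_iff θ).1 hh)
    have h0 : (1 - e θ) • (1 : Q) = 0 := by rw [sub_smul, one_smul, ← key, sub_self]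
    have h1 : (1 : Q) = 0 := by
      have hne' : (1 - e θ) ≠ 0 := sub_ne_zero.2 (Ne.symm hne)
      calc (1 : Q) = ((1 - e θ)⁻¹ * (1 - e θ)) • (1 : Q) := by rw [inv_mul_cancel₀ hne', one_smul]
        _ = 0 := by rw [mul_smul, h0, smul_zero]
    exact pos_one_ne hπ h.tr h1
  · exact ⟨Wq π W (fun i => w (m i)), memw m, poww, normw, hcase⟩

end Pool.Agent.H146R2.SD
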