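import Mathlib
import Pool.Agent.H146R2.SD.Defs
import Pool.Agent.Helper436.SM.Transfer
import Pool.Agent.Helper436.SM.Main

set_option autoImplicit false
set_option linter.unusedSectionVars false

open scoped ComplexConjugate Topology
open Filter

namespace Pool.Agent.H146R2.SD

open Pool.Agent.Helper278 Pool.Agent.Helper436.SM

universe w

variable {H K : Type} [NormedAddCommGroup H] [InnerProductSpace ℂ H] [CompleteSpace H]
  [NormedAddCommGroup K] [InnerProductSpace ℂ K] [CompleteSpace K]
variable {N : VonNeumannAlgebra H} {T0 : TracialState N} {M : VonNeumannAlgebra K}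
  {S0 : TracialState M}

/-! ### the ultrapower over a discrete index set -/

section rda

open scoped BoundedContinuousFunction InnerProductSpace ComplexOrder

variable {I : Type w} [TopologicalSpace I] [DiscreteTopology I]

/-- The congruence of bounded families that agree in the limit. -/
noncomputable def rdaCon (T : TracialState N) (U : Ultrafilter I) : RingCon (I →ᵇ Elt N) where
  r x y := Tendsto (fun n => n2 T.τ (x n - y n)) U (𝓝 0)
  iseqv := by
    have hA := trAlg T
    refine ⟨?_, ?_, ?_⟩
    · intro x
      have : (fun n => n2 T.τ (x n - x n)) = fun _ => 0 := by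
        funext n
        rw [sub_self, hA.n2_zero]
      rw [this]
      exact tendsto_const_nhds
    · intro x y h
      refine h.congr fun n => ?_
      rw [hA.n2_sub_comm]
    · intro x y z h1 h2
      have h3 := h1.add h2
      rw [add_zero] at h3
      exact squeeze_zero (fun n => n2_nonneg _ _) (fun n => hA.n2_tri _ _ _) h3
  mul' := by
    intro w x y z h1 h2
    have hA := trAlg T
    have h3 := (h1.const_mul ‖y‖).add (h2.const_mul ‖x‖)
    rw [mul_zero, mul_zero, add_zero] at h3
    refine squeeze_zero (fun n => n2_nonneg _ _) (fun n => ?_) h3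
    have e : (w * y) n - (x * z) n = (w n - x n) * y n + x n * (y n - z n) := by
      rw [BoundedContinuousFunction.mul_apply, BoundedContinuousFunction.mul_apply]
      noncomm_ring
    rw [e]
    refine (hA.n2_add_le _ _).trans (add_le_add ?_ ?_)
    · refine (n2_mul_le' T _ _).trans ?_
      exact mul_le_mul_of_nonneg_right (y.norm_coe_le_norm n) (n2_nonneg _ _)
    · refine (n2_mul_le T _ _).trans ?_
      exact mul_le_mul_of_nonneg_right (x.norm_coe_le_norm n) (n2_nonneg _ _)
  add' := by
    intro w x y z h1 h2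
    have hA := trAlg T
    have h3 := h1.add h2
    rw [add_zero] at h3
    refine squeeze_zero (fun n => n2_nonneg _ _) (fun n => ?_) h3
    have e : (w + y) n - (x + z) n = (w n - x n) + (y n - z n) := by
      rw [BoundedContinuousFunction.add_apply, BoundedContinuousFunction.add_apply]
      abel
    rw [e]
    exact hA.n2_add_le _ _

theorem rdaCon_star (T : TracialState N) (U : Ultrafilter I) (x y : I →ᵇ Elt N)
    (h : rdaCon T U x y) : rdaCon T U (star x) (star y) := by
  have hA := trAlg T
  have h' : Tendsto (fun n => n2 T.τ (x n - y n)) U (𝓝 0) := h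
  show Tendsto (fun n => n2 T.τ ((star x) n - (star y) n)) U (𝓝 0)
  refine h'.congr fun n => ?_
  show _ = n2 T.τ (star (x n) - star (y n))
  rw [← star_sub, hA.n2_star]

/-- The limit of the traces exists. -/
theorem rda_exists_lim (T : TracialState N) (U : Ultrafilter I) (x : I →ᵇ Elt N) :
    ∃ c : ℂ, Tendsto (fun n => T.τ (x n)) U (𝓝 c) := by
  have hA := trAlg T
  have hc : IsCompact (Metric.closedBall (0 : ℂ) ‖x‖) := isCompact_closedBall _ _
  have h1 : (U.map (fun n => T.τ (x n)) : Ultrafilter ℂ) ≤ 𝓟 (Metric.closedBall (0 : ℂ) ‖x‖) := by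
    rw [Ultrafilter.coe_map, le_principal_iff, mem_map]
    refine Filter.Eventually.of_forall fun n => ?_
    show T.τ (x n) ∈ _
    rw [mem_closedBall_zero_iff]
    refine (hA.norm_le _).trans ?_
    have h2 := n2_mul_le T (x n) 1
    rw [mul_one, hA.n2_one, mul_one] at h2
    exact h2.trans (x.norm_coe_le_norm n)
  obtain ⟨c, _, hc2⟩ := (isCompact_iff_ultrafilter_le_nhds.1 hc) _ h1
  exact ⟨c, hc2⟩

/-- Tracial ultrapowers exist (bounded functions on a discrete index set). -/
theorem rda_exists (T : TracialState N) (U : Ultrafilter I) :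
    ∃ (Q : Type w) (_ : Ring Q) (_ : StarRing Q) (_ : Algebra ℂ Q) (_ : StarModule ℂ Q)
      (π : (I →ᵇ Elt N) →⋆ₐ[ℂ] Q) (σ : Q → ℂ), Function.Surjective π ∧
      (∀ x, π x = 0 ↔ Tendsto (fun n => T.τ (star (x n) * x n)) U (𝓝 0)) ∧
      (∀ x, Tendsto (fun n => T.τ (x n)) U (𝓝 (σ (π x)))) := by
  classical
  have hA := trAlg T
  let c := rdaCon T U
  let Q : Type w := c.Quotient
  let st : Q → Q := Quotient.map' star (fun x y h => rdaCon_star T U x y h)
  have hst : ∀ x : I →ᵇ Elt N, st (x : c.Quotient) = ((star x : I →ᵇ Elt N) : c.Quotient) :=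
    fun x => rfl
  let sr : StarRing Q :=
    { star := st
      star_involutive := by
        intro q
        induction q using Quotient.inductionOn' with
        | h x =>
          show st (st (x : c.Quotient)) = (x : c.Quotient)
          rw [hst, hst, star_star]
      star_mul := by
        intro p q
        induction p using Quotient.inductionOn' with
        | h x =>
          induction q using Quotient.inductionOn' with
          | h y =>
            show st ((x : c.Quotient) * (y : c.Quotient)) = st (y : c.Quotient) * st (x : c.Quotient)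
            rw [hst, hst, ← RingCon.coe_mul, ← RingCon.coe_mul, hst]
            exact congrArg (fun z : I →ᵇ Elt N => (z : c.Quotient)) (StarMul.star_mul x y)
      star_add := by
        intro p q
        induction p using Quotient.inductionOn' with
        | h x =>
          induction q using Quotient.inductionOn' with
          | h y =>
            show st ((x : c.Quotient) + (y : c.Quotient)) = st (x : c.Quotient) + st (y : c.Quotient)
            rw [hst, hst, ← RingCon.coe_add, ← RingCon.coe_add, hst, star_add] }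
  let sm : StarModule ℂ Q :=
    { star_smul := by
        intro r q
        induction q using Quotient.inductionOn' with
        | h x =>
          show st (r • (x : c.Quotient)) = star r • st (x : c.Quotient)
          rw [hst, ← RingCon.coe_smul, ← RingCon.coe_smul, hst, star_smul] }
  let π : (I →ᵇ Elt N) →⋆ₐ[ℂ] Q :=
    { toFun := fun x => (x : c.Quotient)
      map_one' := rfl
      map_mul' := fun _ _ => rfl
      map_zero' := rfl
      map_add' := fun _ _ => rfl
      commutes' := fun _ => rfl
      map_star' := fun _ => rfl }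
  have hπ : ∀ x y : I →ᵇ Elt N, π x = π y ↔ Tendsto (fun n => n2 T.τ (x n - y n)) U (𝓝 0) :=
    fun x y => RingCon.eq c
  choose L hL using rda_exists_lim T U
  have hLw : ∀ x y : I →ᵇ Elt N, c x y → L x = L y := by
    intro x y hxy
    have h1 : Tendsto (fun n => n2 T.τ (x n - y n)) U (𝓝 0) := hxy
    have h2 : Tendsto (fun n => T.τ (x n) - T.τ (y n)) U (𝓝 0) := by
      rw [tendsto_zero_iff_norm_tendsto_zero]
      refine squeeze_zero (fun n => norm_nonneg _) (fun n => ?_) h1
      rw [← map_sub]
      exact hA.norm_le _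
    have h3 := (hL x).sub (hL y)
    exact sub_eq_zero.1 (tendsto_nhds_unique h3 h2)
  let σ : Q → ℂ := Quotient.lift L hLw
  refine ⟨Q, inferInstance, sr, inferInstance, sm, π, σ, ?_, ?_, ?_⟩
  · intro q
    induction q using Quotient.inductionOn' with
    | h x => exact ⟨x, rfl⟩
  · intro x
    have h0 : π x = 0 ↔ π x = π 0 := by rw [map_zero]
    rw [h0, hπ]
    have h1 : (fun n => n2 T.τ (x n - (0 : I →ᵇ Elt N) n)) = fun n => n2 T.τ (x n) := by
      funext n
      rw [BoundedContinuousFunction.coe_zero, Pi.zero_apply, sub_zero]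
    rw [h1]
    exact (hA.tendsto_iff _ _).symm
  · intro x
    exact hL x

/-- a bounded family as a bounded continuous function -/
noncomputable def rdaB (x : I → Elt N) (h : CE.BddFam x) : I →ᵇ Elt N :=
  BoundedContinuousFunction.ofNormedAddCommGroupDiscrete x h.choose h.choose_spec

variable {P : Type w} [Ring P] [StarRing P] [Algebra ℂ P]

open Classical in
/-- the map on arbitrary families -/
noncomputable def rdaPlain (θ : (I →ᵇ Elt N) →⋆ₐ[ℂ] P) (x : I → Elt N) : P :=
  if h : CE.BddFam x then θ (rdaB x h) else 0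

theorem rdaPlain_of (θ : (I →ᵇ Elt N) →⋆ₐ[ℂ] P) (x : I → Elt N) (y : I →ᵇ Elt N)
    (h : ∀ n, y n = x n) : rdaPlain θ x = θ y := by
  have hb : CE.BddFam x := ⟨‖y‖, fun n => by rw [← h n]; exact y.norm_coe_le_norm n⟩
  unfold rdaPlain
  rw [dif_pos hb]
  congr 1
  ext1 n
  exact (h n).symm

theorem rdaPlain_tracial {T : TracialState N} {V : Ultrafilter I} {θ : (I →ᵇ Elt N) →⋆ₐ[ℂ] P}
    {ψ : P → ℂ} (hs : Function.Surjective θ)
    (hk : ∀ x, θ x = 0 ↔ Tendsto (fun n => T.τ (star (x n) * x n)) V (𝓝 0))
    (ht : ∀ x, Tendsto (fun n => T.τ (x n)) V (𝓝 (ψ (θ x)))) :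
    CE.IsTracialUltrapower (fun x => T.τ x) V (rdaPlain θ) ψ := by
  refine ⟨⟨?_, ?_, ?_, ?_, ?_, ?_, ?_⟩, ?_⟩
  · have h1 : rdaPlain θ (fun _ => (1 : Elt N)) = θ 1 := rdaPlain_of θ _ 1 (fun n => rfl)
    rw [h1, map_one]
  · intro x y hx hy
    rw [rdaPlain_of θ x (rdaB x hx) (fun n => rfl), rdaPlain_of θ y (rdaB y hy) (fun n => rfl),
      ← map_add]
    exact rdaPlain_of θ _ (rdaB x hx + rdaB y hy) (fun n => rfl)
  · intro x y hx hy
    rw [rdaPlain_of θ x (rdaB x hx) (fun n => rfl), rdaPlain_of θ y (rdaB y hy) (fun n => rfl),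
      ← map_mul]
    exact rdaPlain_of θ _ (rdaB x hx * rdaB y hy) (fun n => rfl)
  · intro c x hx
    rw [rdaPlain_of θ x (rdaB x hx) (fun n => rfl), ← map_smul]
    exact rdaPlain_of θ _ (c • rdaB x hx) (fun n => rfl)
  · intro x hx
    rw [rdaPlain_of θ x (rdaB x hx) (fun n => rfl), ← map_star]
    exact rdaPlain_of θ _ (star (rdaB x hx)) (fun n => rfl)
  · intro q
    obtain ⟨y, rfl⟩ := hs q
    exact ⟨fun n => y n, ⟨‖y‖, fun n => y.norm_coe_le_norm n⟩,
      rdaPlain_of θ _ y (fun n => rfl)⟩
  · intro x hx
    rw [rdaPlain_of θ x (rdaB x hx) (fun n => rfl), hk]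
    rfl
  · intro x hx
    rw [rdaPlain_of θ x (rdaB x hx) (fun n => rfl)]
    exact ht (rdaB x hx)

end rda

/-- tracial ultrapowers exist, for all ultrafilters on all index sets -/
theorem exists_tup (T0 : TracialState N) (I : Type w) (U : Ultrafilter I) :
    ∃ (Q : Type w) (_ : Ring Q) (_ : StarRing Q) (_ : Algebra ℂ Q) (π : (I → Elt N) → Q)
      (φ : Q → ℂ), CE.IsTracialUltrapower (fun x => T0.τ x) U π φ := by
  let _ : TopologicalSpace I := ⊥
  have _ : DiscreteTopology I := ⟨rfl⟩
  obtain ⟨Q, _, _, _, _, π, σ, hs, hk, ht⟩ := rda_exists T0 U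
  exact ⟨Q, inferInstance, inferInstance, inferInstance, rdaPlain π, σ,
    rdaPlain_tracial hs hk ht⟩

end Pool.Agent.H146R2.SD
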