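import Mathlib
import Pool.Agent.H146R2.SD.Defs
import Pool.Agent.Helper436.SM.Transfer
import Pool.Agent.Helper436.SM.Main

set_option autoImplicit false
set_option linter.unusedSectionVars false

open scoped ComplexConjugate Topology
open Filter

namespace Pool.Agent.H146R2.SD

open Pool.Agent.Helper278 Pool.Agent.Helper436.SM

universe w

variable {H K : Type} [NormedAddCommGroup H] [InnerProductSpace ℂ H] [CompleteSpace H]
  [NormedAddCommGroup K] [InnerProductSpace ℂ K] [CompleteSpace K]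
variable {N : VonNeumannAlgebra H} {T0 : TracialState N} {M : VonNeumannAlgebra K}
  {S0 : TracialState M}

/-- the iterated ultrafilter on `ℕ × I` -/
noncomputable def itW {I : Type w} (V0 : Ultrafilter ℕ) (U : Ultrafilter I) : Ultrafilter (ℕ × I) :=
  V0.bind fun n => U.map fun i => (n, i)

theorem rdb_eventually_itW {I : Type w} (V0 : Ultrafilter ℕ) (U : Ultrafilter I)
    (p : ℕ × I → Prop) :
    (∀ᶠ z in (itW V0 U : Filter (ℕ × I)), p z) ↔
      ∀ᶠ m in (V0 : Filter ℕ), ∀ᶠ n in (U : Filter I), p (m, n) := by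
  rfl

/-- limits along the iterated ultrafilter -/
theorem tendsto_itW {I : Type w} (V0 : Ultrafilter ℕ) (U : Ultrafilter I) (f : ℕ × I → ℂ)
    (c : ℕ → ℂ) (L : ℂ) (h1 : ∀ n, Tendsto (fun i => f (n, i)) U (𝓝 (c n)))
    (h2 : Tendsto c V0 (𝓝 L)) : Tendsto f (itW V0 U) (𝓝 L) := by
  rw [Metric.tendsto_nhds] at h2 ⊢
  intro ε hε
  rw [rdb_eventually_itW]
  refine (h2 (ε / 2) (by positivity)).mono fun m hm => ?_
  have h3 := (Metric.tendsto_nhds.1 (h1 m)) (ε / 2) (by positivity)
  refine h3.mono fun n hn => ?_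
  have := dist_triangle (f (m, n)) (c m) L
  linarith

theorem tendsto_fst_itW {I : Type w} (V0 : Ultrafilter ℕ) (hV : (V0 : Filter ℕ) ≤ atTop)
    (U : Ultrafilter I) : Tendsto (fun i : ℕ × I => i.1) (itW V0 U) atTop := by
  rw [tendsto_atTop]
  intro b
  rw [rdb_eventually_itW]
  have h3 : ∀ᶠ n in (V0 : Filter ℕ), b ≤ n := hV (eventually_ge_atTop b)
  exact h3.mono fun n hn => Eventually.of_forall fun i => hn

end Pool.Agent.H146R2.SD
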