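import Mathlib
import Pool.Agent.H146R2.SD.Defs
import Pool.Agent.Helper436.SM.Transfer
import Pool.Agent.Helper436.SM.Main
import Pool.Agent.H146R2.SD.RDB

set_option autoImplicit false
set_option linter.unusedSectionVars false

open scoped ComplexConjugate Topology
open Filter

namespace Pool.Agent.H146R2.SD

open Pool.Agent.Helper278 Pool.Agent.Helper436.SM

universe w

/-- every element is a combination of four unitaries, with constant coefficients -/
theorem rdc_four {A : Type*} [CStarAlgebra A] (x : A) (C : ℝ) (hC : 0 < C) (hx : ‖x‖ ≤ C) :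
    ∃ u ∈ unitary A, ∃ v ∈ unitary A,
      x = ((C / 2 : ℝ) : ℂ) • ((u + star u) + Complex.I • (v + star v)) := by
  let _ := CStarAlgebra.spectralOrder A
  let _ := CStarAlgebra.spectralOrderedRing A
  have h1 : ‖(C⁻¹ : ℝ) • x‖ ≤ 1 := by
    rw [norm_smul, Real.norm_of_nonneg (inv_nonneg.2 hC.le), inv_mul_le_one₀ hC]
    exact hx
  let u := selfAdjoint.unitarySelfAddISMul (realPart ((C⁻¹ : ℝ) • x))
    ((realPart.norm_le _).trans h1)
  let v := selfAdjoint.unitarySelfAddISMul (imaginaryPart ((C⁻¹ : ℝ) • x))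
    ((imaginaryPart.norm_le _).trans h1)
  refine ⟨u, u.2, v, v.2, ?_⟩
  have e1 : ((realPart ((C⁻¹ : ℝ) • x) : selfAdjoint A) : A) =
      (2 : ℝ)⁻¹ • ((u : A) + star (u : A)) := by
    rw [← realPart_apply_coe, selfAdjoint.realPart_unitarySelfAddISMul]
  have e2 : ((imaginaryPart ((C⁻¹ : ℝ) • x) : selfAdjoint A) : A) =
      (2 : ℝ)⁻¹ • ((v : A) + star (v : A)) := by
    rw [← realPart_apply_coe, selfAdjoint.realPart_unitarySelfAddISMul]
  have e3 := realPart_add_I_smul_imaginaryPart ((C⁻¹ : ℝ) • x)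
  rw [e1, e2] at e3
  have e4 : x = C • ((C⁻¹ : ℝ) • x) := by rw [smul_smul, mul_inv_cancel₀ hC.ne', one_smul]
  rw [e4, ← e3, smul_comm Complex.I, ← smul_add, smul_smul]
  rw [← Complex.coe_smul]
  rfl

variable {H K : Type} [NormedAddCommGroup H] [InnerProductSpace ℂ H] [CompleteSpace H]
  [NormedAddCommGroup K] [InnerProductSpace ℂ K] [CompleteSpace K]
variable {N : VonNeumannAlgebra H} {T0 : TracialState N} {M : VonNeumannAlgebra K}
  {S0 : TracialState M}

/-- bounded lifting along a star isomorphism of ultrapowers -/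
theorem rdc_lift {I J : Type w} {U : Ultrafilter I} {V : Ultrafilter J} {P P' : Type w} [Ring P]
    [StarRing P] [Algebra ℂ P] [Ring P'] [StarRing P'] [Algebra ℂ P']
    {π : (I → Elt N) → P} {φ : P → ℂ} {ρ : (J → Elt M) → P'} {ψ : P' → ℂ}
    (h1 : CE.IsTracialUltrapower (fun x => T0.τ x) U π φ)
    (h2 : CE.IsTracialUltrapower (fun x => S0.τ x) V ρ ψ) (f : P' ≃⋆ₐ[ℂ] P) (C : ℝ) (hC : 0 < C)
    (y : J → Elt M) (hy : ∀ j, ‖y j‖ ≤ C) :
    ∃ x : I → Elt N, (∀ i, ‖x i‖ ≤ 2 * C) ∧ π x = f (ρ y) := by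
  choose u hu v hv huv using fun j => rdc_four (y j) C hC (hy j)
  have key : ∀ w : J → Elt M, (∀ j, w j ∈ unitary (Elt M)) →
      ∃ w' : I → Elt N, (∀ i, w' i ∈ unitary (Elt N)) ∧ π w' = f (ρ w) := by
    intro w hw
    exact exists_lift h1 (f (ρ w)) ((un_map f _).2 (pi_unitary h2 hw))
  obtain ⟨u', hu', eu⟩ := key u hu
  obtain ⟨v', hv', ev⟩ := key v hv
  have bu := bdd_un hu
  have bv := bdd_un hv
  have bu' := bdd_un hu'
  have bv' := bdd_un hv'
  have q1 := CE.bdd_add bu (bdd_st bu)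
  have q2 := CE.bdd_add bv (bdd_st bv)
  have q1' := CE.bdd_add bu' (bdd_st bu')
  have q2' := CE.bdd_add bv' (bdd_st bv')
  refine ⟨fun i => ((C / 2 : ℝ) : ℂ) • ((u' i + star (u' i)) +
    Complex.I • (v' i + star (v' i))), ?_, ?_⟩
  · intro i
    have n1 : ‖u' i‖ ≤ 1 := norm_unitary_le ⟨u' i, hu' i⟩
    have n2 : ‖v' i‖ ≤ 1 := norm_unitary_le ⟨v' i, hv' i⟩
    have n3 : ‖u' i + star (u' i)‖ ≤ 2 := (norm_add_le _ _).trans (by rw [norm_star]; linarith)
    have n4 : ‖v' i + star (v' i)‖ ≤ 2 := (norm_add_le _ _).trans (by rw [norm_star]; linarith)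
    have n5 : ‖(u' i + star (u' i)) + Complex.I • (v' i + star (v' i))‖ ≤ 4 := by
      refine (norm_add_le _ _).trans ?_
      have := norm_smul_le Complex.I (v' i + star (v' i))
      rw [Complex.norm_I, one_mul] at this
      linarith
    refine (norm_smul_le _ _).trans ?_
    rw [Complex.norm_real, Real.norm_of_nonneg (by positivity)]
    nlinarith
  · rw [h1.quot.smul _ _ (CE.bdd_add q1' (CE.bdd_smul _ q2')),
      h1.quot.add _ _ q1' (CE.bdd_smul _ q2'), h1.quot.smul _ _ q2',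
      h1.quot.add _ _ bu' (bdd_st bu'), h1.quot.add _ _ bv' (bdd_st bv'),
      h1.quot.star _ bu', h1.quot.star _ bv', eu, ev]
    have e : y = fun j => ((C / 2 : ℝ) : ℂ) • ((u j + star (u j)) +
        Complex.I • (v j + star (v j))) := funext huv
    conv_rhs => rw [e]
    rw [h2.quot.smul _ _ (CE.bdd_add q1 (CE.bdd_smul _ q2)),
      h2.quot.add _ _ q1 (CE.bdd_smul _ q2), h2.quot.smul _ _ q2,
      h2.quot.add _ _ bu (bdd_st bu), h2.quot.add _ _ bv (bdd_st bv),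
      h2.quot.star _ bu, h2.quot.star _ bv]
    simp only [map_smul, map_add, map_star]

theorem rdc_ev {I : Type w} (V0 : Ultrafilter ℕ) (U : Ultrafilter I) (p : ℕ × I → Prop) :
    (∀ᶠ z in (itW V0 U : Filter (ℕ × I)), p z) ↔
      ∀ᶠ n in (V0 : Filter ℕ), ∀ᶠ i in (U : Filter I), p (n, i) := by
  rfl

theorem rdc_lim {I : Type w} (V0 : Ultrafilter ℕ) (U : Ultrafilter I) (f : ℕ × I → ℂ)
    (c : ℕ → ℂ) (L : ℂ) (h : ∀ n, Tendsto (fun i => f (n, i)) U (𝓝 (c n)))
    (hf : Tendsto f (itW V0 U) (𝓝 L)) : Tendsto c V0 (𝓝 L) := by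
  rw [Metric.tendsto_nhds] at hf ⊢
  intro ε hε
  have h1 := hf (ε / 2) (by positivity)
  rw [rdc_ev] at h1
  refine h1.mono fun m hm => ?_
  have h2 : dist (c m) L ≤ ε / 2 := by
    refine le_of_tendsto ((h m).dist tendsto_const_nhds) (hm.mono fun n hn => le_of_lt hn)
  linarith

/-- transport of an iterated ultrapower along an isomorphism of ultrapowers -/
theorem transport {I J : Type w} {U : Ultrafilter I} {V : Ultrafilter J} {P P' : Type w} [Ring P]
    [StarRing P] [Algebra ℂ P] [Ring P'] [StarRing P'] [Algebra ℂ P']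
    {π : (I → Elt N) → P} {φ : P → ℂ} {ρ : (J → Elt M) → P'} {ψ : P' → ℂ}
    (h1 : CE.IsTracialUltrapower (fun x => T0.τ x) U π φ)
    (h2 : CE.IsTracialUltrapower (fun x => S0.τ x) V ρ ψ) (e0 : P ≃⋆ₐ[ℂ] P')
    (he : ∀ x, ψ (e0 x) = φ x) (V0 : Ultrafilter ℕ) {Q : Type w} [Ring Q] [StarRing Q]
    [Algebra ℂ Q] {π' : (ℕ × I → Elt N) → Q} {φ' : Q → ℂ}
    (h3 : CE.IsTracialUltrapower (fun x => T0.τ x) (itW V0 U) π' φ') :
    ∃ ρ' : (ℕ × J → Elt M) → Q,
      CE.IsTracialUltrapower (fun x => S0.τ x) (itW V0 V) ρ' φ' := by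
  classical
  -- `x` is a bounded lift of `y`
  let R : (ℕ × J → Elt M) → (ℕ × I → Elt N) → Prop := fun y x => CE.BddFam x ∧
    ∀ n, e0 (π fun i => x (n, i)) = ρ fun j => y (n, j)
  have bN : ∀ {x : ℕ × I → Elt N}, CE.BddFam x → ∀ n, CE.BddFam fun i => x (n, i) := by
    rintro x ⟨C, hC⟩ n
    exact ⟨C, fun i => hC _⟩
  have bM : ∀ {y : ℕ × J → Elt M}, CE.BddFam y → ∀ n, CE.BddFam fun i => y (n, i) := by
    rintro x ⟨C, hC⟩ n
    exact ⟨C, fun i => hC _⟩
  -- existence of bounded lifts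
  have hex : ∀ y, CE.BddFam y → ∃ x, R y x := by
    rintro y ⟨C, hC⟩
    have hC' : ∀ z, ‖y z‖ ≤ |C| + 1 := fun z =>
      (hC z).trans ((le_abs_self C).trans (le_add_of_nonneg_right zero_le_one))
    choose x hx hxy using fun n => rdc_lift h1 h2 e0.symm (|C| + 1) (by positivity)
      (fun j => y (n, j)) (fun j => hC' _)
    refine ⟨fun z => x z.1 z.2, ⟨2 * (|C| + 1), fun z => hx _ _⟩, fun n => ?_⟩
    have : (fun i => x n i) = x n := rfl
    simp only
    rw [this, hxy n, StarAlgEquiv.apply_symm_apply]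
  have hex' : ∀ x, CE.BddFam x → ∃ y, CE.BddFam y ∧ R y x := by
    rintro x ⟨C, hC⟩
    have hC' : ∀ z, ‖x z‖ ≤ |C| + 1 := fun z =>
      (hC z).trans ((le_abs_self C).trans (le_add_of_nonneg_right zero_le_one))
    choose y hy hxy using fun n => rdc_lift h2 h1 e0 (|C| + 1) (by positivity)
      (fun j => x (n, j)) (fun j => hC' _)
    refine ⟨fun z => y z.1 z.2, ⟨2 * (|C| + 1), fun z => hy _ _⟩, ⟨C, hC⟩, fun n => ?_⟩
    have : (fun i => y n i) = y n := rfl
    simp only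
    rw [this, hxy n]
  -- uniqueness
  have huniq : ∀ y x x', R y x → R y x' → π' x = π' x' := by
    rintro y x x' ⟨bx, hx⟩ ⟨bx', hx'⟩
    rw [h3.quot.eq_iff bx bx']
    refine tendsto_itW V0 U _ (fun _ => 0) 0 (fun n => ?_) tendsto_const_nhds
    have e1 : π (fun i => x (n, i)) = π (fun i => x' (n, i)) :=
      e0.injective ((hx n).trans (hx' n).symm)
    exact (h1.quot.eq_iff (bN bx n) (bN bx' n)).1 e1
  let ρ' : (ℕ × J → Elt M) → Q := fun y => if h : ∃ x, R y x then π' h.choose else 0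
  have hρ : ∀ y x, R y x → ρ' y = π' x := by
    intro y x hx
    have h : ∃ x, R y x := ⟨x, hx⟩
    have : ρ' y = π' h.choose := dif_pos h
    rw [this]
    exact huniq y _ _ h.choose_spec hx
  -- operations
  have Rone : R (fun _ => 1) (fun _ => 1) := by
    refine ⟨CE.bdd_const 1, fun n => ?_⟩
    rw [h1.quot.one, h2.quot.one, map_one]
  have Radd : ∀ {y x y' x'}, CE.BddFam y → CE.BddFam y' → R y x → R y' x' →
      R (fun i => y i + y' i) (fun i => x i + x' i) := by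
    rintro y x y' x' hy hy' ⟨bx, hx⟩ ⟨bx', hx'⟩
    refine ⟨CE.bdd_add bx bx', fun n => ?_⟩
    simp only
    rw [h1.quot.add _ _ (bN bx n) (bN bx' n), h2.quot.add _ _ (bM hy n) (bM hy' n), map_add,
      hx, hx']
  have Rmul : ∀ {y x y' x'}, CE.BddFam y → CE.BddFam y' → R y x → R y' x' →
      R (fun i => y i * y' i) (fun i => x i * x' i) := by
    rintro y x y' x' hy hy' ⟨bx, hx⟩ ⟨bx', hx'⟩
    refine ⟨CE.bdd_mul bx bx', fun n => ?_⟩
    simp only
    rw [h1.quot.mul _ _ (bN bx n) (bN bx' n), h2.quot.mul _ _ (bM hy n) (bM hy' n), map_mul,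
      hx, hx']
  have Rsmul : ∀ (c : ℂ) {y x}, CE.BddFam y → R y x →
      R (fun i => c • y i) (fun i => c • x i) := by
    rintro c y x hy ⟨bx, hx⟩
    refine ⟨CE.bdd_smul c bx, fun n => ?_⟩
    simp only
    rw [h1.quot.smul _ _ (bN bx n), h2.quot.smul _ _ (bM hy n), map_smul, hx]
  have Rstar : ∀ {y x}, CE.BddFam y → R y x → R (fun i => star (y i)) (fun i => star (x i)) := by
    rintro y x hy ⟨bx, hx⟩
    refine ⟨bdd_st bx, fun n => ?_⟩
    simp only
    rw [h1.quot.star _ (bN bx n), h2.quot.star _ (bM hy n), map_star, hx]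
  -- traces
  have Rtr : ∀ {y x}, CE.BddFam y → R y x →
      Tendsto (fun z => S0.τ (y z)) (itW V0 V) (𝓝 (φ' (π' x))) := by
    rintro y x hy ⟨bx, hx⟩
    have t1 : ∀ n, Tendsto (fun i => T0.τ (x (n, i))) U (𝓝 (φ (π fun i => x (n, i)))) :=
      fun n => h1.trace _ (bN bx n)
    have t2 := rdc_lim V0 U (fun z => T0.τ (x z)) _ _ t1 (h3.trace x bx)
    refine tendsto_itW V0 V _ (fun n => φ (π fun i => x (n, i))) _ (fun n => ?_) t2
    have t3 := h2.trace _ (bM hy n)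
    rw [← hx n, he] at t3
    exact t3
  refine ⟨ρ', ⟨⟨?_, ?_, ?_, ?_, ?_, ?_, ?_⟩, ?_⟩⟩
  · exact (hρ (fun _ => 1) (fun _ => 1) Rone).trans h3.quot.one
  · intro y y' hy hy'
    obtain ⟨x, hx⟩ := hex y hy
    obtain ⟨x', hx'⟩ := hex y' hy'
    rw [hρ (fun i => y i + y' i) (fun i => x i + x' i) (Radd hy hy' hx hx'), hρ _ _ hx, hρ _ _ hx', h3.quot.add _ _ hx.1 hx'.1]
  · intro y y' hy hy'
    obtain ⟨x, hx⟩ := hex y hy
    obtain ⟨x', hx'⟩ := hex y' hy'
    rw [hρ (fun i => y i * y' i) (fun i => x i * x' i) (Rmul hy hy' hx hx'), hρ _ _ hx, hρ _ _ hx', h3.quot.mul _ _ hx.1 hx'.1]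
  · intro c y hy
    obtain ⟨x, hx⟩ := hex y hy
    rw [hρ (fun i => c • y i) (fun i => c • x i) (Rsmul c hy hx), hρ _ _ hx, h3.quot.smul _ _ hx.1]
  · intro y hy
    obtain ⟨x, hx⟩ := hex y hy
    rw [hρ (fun i => star (y i)) (fun i => star (x i)) (Rstar hy hx), hρ _ _ hx, h3.quot.star _ hx.1]
  · intro q
    obtain ⟨x, bx, rfl⟩ := h3.quot.surj q
    obtain ⟨y, hy, hR⟩ := hex' x bx
    exact ⟨y, hy, hρ _ _ hR⟩
  · intro y hy
    obtain ⟨x, hx⟩ := hex y hy
    rw [hρ _ _ hx, h3.quot.ker _ hx.1]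
    have hS := Rmul (bdd_st hy) hy (Rstar hy hx) hx
    have t1 := Rtr (CE.bdd_mul (bdd_st hy) hy) hS
    have t2 := h3.trace _ hS.1
    constructor
    · intro h
      rwa [tendsto_nhds_unique t2 h] at t1
    · intro h
      rwa [tendsto_nhds_unique t1 h] at t2
  · intro y hy
    obtain ⟨x, hx⟩ := hex y hy
    rw [hρ _ _ hx]
    exact Rtr hy hx

end Pool.Agent.H146R2.SD
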