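import Mathlib
import Pool.Agent.H146R2.SD.Defs
import Pool.Agent.Helper436.SM.Transfer
import Pool.Agent.Helper436.SM.Main
import Pool.Agent.H146R2.SD.RDA
import Pool.Agent.H146R2.SD.RDB
import Pool.Agent.H146R2.SD.RDC

set_option autoImplicit false
set_option linter.unusedSectionVars false

open scoped ComplexConjugate Topology
open Filter

namespace Pool.Agent.H146R2.SD

open Pool.Agent.Helper278 Pool.Agent.Helper436.SM

universe w

variable {H K : Type} [NormedAddCommGroup H] [InnerProductSpace ℂ H] [CompleteSpace H]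
  [NormedAddCommGroup K] [InnerProductSpace ℂ K] [CompleteSpace K]
variable {N : VonNeumannAlgebra H} {T0 : TracialState N} {M : VonNeumannAlgebra K}
  {S0 : TracialState M}

/-- elementarily equivalent factors have a common ultrapower along ultrafilters that are not
countably complete -/
theorem common (hN : HasTrivialCenter N) (hinf : ¬ FiniteDimensional ℂ (Elt N))
    (hE : ElemEquiv.{w} (fun x : Elt N => T0.τ x) (fun x : Elt M => S0.τ x)) :
    ∃ (I J : Type w) (U : Ultrafilter I) (V : Ultrafilter J) (ρ : I → ℕ) (ρ' : J → ℕ)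
      (Q : Type w) (_ : Ring Q) (_ : StarRing Q) (_ : Algebra ℂ Q) (π : (I → Elt N) → Q)
      (π' : (J → Elt M) → Q) (φ : Q → ℂ), Tendsto ρ U atTop ∧ Tendsto ρ' V atTop ∧
      CE.IsTracialUltrapower (fun x => T0.τ x) U π φ ∧
      CE.IsTracialUltrapower (fun x => S0.τ x) V π' φ := by
  obtain ⟨I, J, U, V, P, P', _, _, _, _, _, _, π, φ, ρ, ψ, h1, h2, ⟨e0⟩⟩ := hE
  have he := iso_trace hN hinf h1 h2 e0
  obtain ⟨V0, hV0⟩ : ∃ V0 : Ultrafilter ℕ, (V0 : Filter ℕ) ≤ atTop :=
    ⟨Ultrafilter.of atTop, Ultrafilter.of_le atTop⟩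
  obtain ⟨Q, _, _, _, π', φ', h3⟩ := exists_tup T0 (ℕ × I) (itW V0 U)
  obtain ⟨ρ', h4⟩ := transport h1 h2 e0 he V0 h3
  exact ⟨ℕ × I, ℕ × J, itW V0 U, itW V0 V, fun i => i.1, fun i => i.1, Q, _, _, _, π', ρ', φ',
    tendsto_fst_itW V0 hV0 U, tendsto_fst_itW V0 hV0 V, h3, h4⟩

end Pool.Agent.H146R2.SD
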