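import Mathlib
import Pool.Agent.H146R2.SD.BAS
import Pool.Agent.Helper436.SN.StmtG

set_option autoImplicit false
set_option linter.unusedSectionVars false

open scoped ComplexConjugate Topology
open Filter

namespace Pool.Agent.H146R2.SD

open Pool.Agent.Helper278 Pool.Agent.Helper436.SM

section

variable {A : Type} [Ring A] [StarRing A] [Algebra ℂ A] [StarModule ℂ A] {τ : A →ₗ[ℂ] ℂ}
variable {V G : Type} [AddCommGroup V] [Group G] {D : Dat V G} {u : G →* A} {W : V → A}

theorem sep_n2_smul (h : TrAlg τ) (c : ℂ) (x : A) : n2 τ (c • x) = ‖c‖ * n2 τ x := by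
  unfold n2
  rw [star_smul, smul_mul_smul_comm, map_smul, Complex.star_def, smul_eq_mul,
    ← Complex.normSq_eq_conj_mul_self, Complex.re_ofReal_mul,
    Real.sqrt_mul (Complex.normSq_nonneg c), Complex.normSq_eq_norm_sq,
    Real.sqrt_sq (norm_nonneg c)]

theorem sep_n2_sum (h : TrAlg τ) {ι : Type} (S : Finset ι) (f : ι → A) :
    n2 τ (∑ i ∈ S, f i) ≤ ∑ i ∈ S, n2 τ (f i) := by
  classical
  induction S using Finset.induction_on with
  | empty => simp [h.n2_zero]
  | insert a s ha ih =>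
    rw [Finset.sum_insert ha, Finset.sum_insert ha]
    exact (h.n2_add_le _ _).trans (by linarith)

theorem sep_n2_unit (h : TrAlg τ) (x : A) (hx : x ∈ unitary A) : n2 τ x = 1 := by
  unfold n2
  rw [Unitary.star_mul_self_of_mem hx, h.one]
  simp

/-- the algebra is separable in the 2-norm -/
theorem TW.separable [Countable V] [Countable G] (h : TW D τ u W) :
    Pool.Agent.Helper436.SN.IsSeparable (fun x : A => τ x) := by
  classical
  obtain ⟨D0, hD0c, hD0⟩ := TopologicalSpace.exists_countable_dense ℂ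
  have : Countable D0 := hD0c.to_subtype
  let g : Finset ((G × V) × D0) → A := fun F => ∑ p ∈ F, (p.2 : ℂ) • (u p.1.1 * W p.1.2)
  refine ⟨Set.range g, Set.countable_range g, fun x ε hε => ?_⟩
  obtain ⟨F, hF⟩ := h.exists_finset_mass x ((ε / 2) ^ 2) (by positivity)
  have hap := h.exists_approx x F
  have h1 : n2 τ (x - ∑ b ∈ F, hat τ u W x b • (u b.1 * W b.2)) < ε / 2 := by
    rw [← hap] at hF
    exact lt_of_pow_lt_pow_left₀ 2 (by positivity) hF
  have h2 : ∀ b : G × V, ∃ q : D0, ‖hat τ u W x b - (q : ℂ)‖ < ε / (2 * (F.card + 1)) := by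
    intro b
    obtain ⟨q, hq, hq2⟩ := hD0.exists_dist_lt (hat τ u W x b)
      (ε := ε / (2 * (F.card + 1))) (by positivity)
    exact ⟨⟨q, hq⟩, by rwa [dist_eq_norm] at hq2⟩
  choose q hq using h2
  refine ⟨g (F.image fun b => (b, q b)), ⟨_, rfl⟩, ?_⟩
  have h3 : g (F.image fun b => (b, q b)) = ∑ b ∈ F, (q b : ℂ) • (u b.1 * W b.2) := by
    show ∑ p ∈ F.image (fun b => (b, q b)), (p.2 : ℂ) • (u p.1.1 * W p.1.2) = _
    rw [Finset.sum_image]
    intro a _ b _ hab
    exact congrArg Prod.fst hab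
  have h4 : n2 τ (∑ b ∈ F, hat τ u W x b • (u b.1 * W b.2) -
      ∑ b ∈ F, (q b : ℂ) • (u b.1 * W b.2)) ≤ ε / 2 := by
    rw [← Finset.sum_sub_distrib]
    refine (sep_n2_sum h.tr _ _).trans ?_
    have h5 : ∀ b ∈ F, n2 τ (hat τ u W x b • (u b.1 * W b.2) - (q b : ℂ) • (u b.1 * W b.2)) ≤
        ε / (2 * (F.card + 1)) := by
      intro b _
      rw [← sub_smul, sep_n2_smul h.tr, sep_n2_unit h.tr _ (h.uW_mem _ _), mul_one]
      exact (hq b).le
    refine (Finset.sum_le_sum h5).trans ?_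
    rw [Finset.sum_const, nsmul_eq_mul]
    rw [mul_div_assoc', div_le_div_iff₀ (by positivity) (by norm_num)]
    nlinarith
  show n2 τ (x - g _) < ε
  rw [h3]
  exact lt_of_le_of_lt (h.tr.n2_tri _ _ _) (by linarith)

end

end Pool.Agent.H146R2.SD
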