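import Mathlib
import Pool.Agent.H146R2.SD.AVG
import Pool.Agent.Helper436.SM.Pack

set_option autoImplicit false
set_option linter.unusedSectionVars false

open scoped ComplexConjugate Topology
open Filter

namespace Pool.Agent.H146R2.SD

open Pool.Agent.Helper278 Pool.Agent.Helper436.SM

variable {H : Type} [NormedAddCommGroup H] [InnerProductSpace ℂ H] [CompleteSpace H]
variable {N : VonNeumannAlgebra H} {T0 : TracialState N}
variable {V G : Type} [AddCommGroup V] [Group G] {D : Dat V G} {u : G →* Elt N} {W : V → Elt N}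
variable {T : ℕ → AddSubgroup V}

theorem spa_out (hL : Lev D T) (t : V) (ht : t ≠ 0) : ∃ m, t ∉ T m := by
  obtain ⟨m, hm⟩ := hL.exh (1, t)
  exact ⟨m, fun h => ht (hL.nondeg m t h hm)⟩

/-- there are infinitely many vectors in every tail -/
theorem Lev.infinite (hL : Lev D T) (m : ℕ) : Set.Infinite (T m : Set V) := by
  intro hfin
  have h1 : ∀ t : V, ∃ m', t ≠ 0 → t ∉ T m' := by
    intro t
    by_cases ht : t = 0
    · exact ⟨0, fun h => absurd ht h⟩
    · obtain ⟨m', hm'⟩ := spa_out hL t ht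
      exact ⟨m', fun _ => hm'⟩
  choose f hf using h1
  obtain ⟨t, ht, ht0⟩ := hL.ne (max m (hfin.toFinset.sup f))
  have h2 : t ∈ T m := hL.anti (le_max_left _ _) ht
  have h3 : f t ≤ hfin.toFinset.sup f := Finset.le_sup (hfin.mem_toFinset.2 h2)
  exact hf t ht0 (hL.anti (h3.trans (le_max_right _ _)) ht)

/-- an element without Fourier coefficients is zero -/
theorem spa_eq_zero (h : TW D T0.τ u W) (x : Elt N) (hx : ∀ b, hat T0.τ u W x b = 0) : x = 0 := by
  have h1 : mass T0.τ u W Set.univ x = 0 := (h.mass_eq_zero_iff _ _).2 fun b _ => hx b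
  rw [h.mass_univ] at h1
  have h2 := h.tr.n2_sq x
  rw [h1] at h2
  have h3 := h.tr.im_zero x
  exact h.tr.faithful x (Complex.ext (by rw [← h2]; rfl) (by rw [h3]; rfl))

theorem spa_center (h : TW D T0.τ u W) (hL : Lev D T) (C : ℝ) (F : ℕ → Fin 5 → Elt N)
    (hF : GapT T0 u W T C F) (z : Elt N) (hz : ∀ x : Elt N, z * x = x * z) :
    z = T0.τ z • (1 : Elt N) := by
  classical
  have h1 : ∀ m, mass T0.τ u W (tl (T m))ᶜ z = 0 := by
    intro m
    have h2 := hF.gap m z
    have h3 : ∑ j, n2 T0.τ (F m j * z - z * F m j) ^ 2 = 0 := by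
      refine Finset.sum_eq_zero fun j _ => ?_
      rw [hz (F m j), sub_self, h.tr.n2_zero]
      norm_num
    rw [h3, mul_zero] at h2
    exact le_antisymm h2 (TW.mass_nonneg _ _)
  have h2 : ∀ b : G × V, b ≠ (1, 0) → hat T0.τ u W z b = 0 := by
    intro b hb
    have h3 : ∃ m, b ∉ tl (T m) := by
      by_cases hb1 : b.1 = 1
      · have hb2 : b.2 ≠ 0 := fun h' => hb (Prod.ext hb1 h')
        obtain ⟨m, hm⟩ := spa_out hL b.2 hb2
        exact ⟨m, fun h' => hm h'.2⟩
      · exact ⟨0, fun h' => hb1 h'.1⟩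
    obtain ⟨m, hm⟩ := h3
    exact (h.mass_eq_zero_iff _ _).1 (h1 m) b hm
  rw [← sub_eq_zero]
  apply spa_eq_zero h
  intro b
  have hone : (1 : Elt N) = u 1 * W 0 := by rw [map_one, h.zero, one_mul]
  have h4 : hat T0.τ u W (1 : Elt N) b = if b = (1, 0) then 1 else 0 := by
    conv_lhs => rw [hone]
    exact h.hat_basis b (1, 0)
  rw [TW.hat_sub, TW.hat_smul, h4]
  by_cases hb : b = (1, 0)
  · rw [if_pos hb, hb, h.hat_one_zero, mul_one, sub_self]
  · rw [if_neg hb, h2 b hb, mul_zero, sub_zero]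

theorem spa_infinite (h : TW D T0.τ u W) (hL : Lev D T) : ¬ FiniteDimensional ℂ (Elt N) := by
  classical
  intro hfin
  have hW : ∀ v : V, W v = u 1 * W v := fun v => by rw [map_one, one_mul]
  have hli : LinearIndependent ℂ W := by
    rw [linearIndependent_iff']
    intro s c hs j hj
    have h1 := congrArg (fun x => hat T0.τ u W x (1, j)) hs
    simp only [TW.hat_sum, TW.hat_smul] at h1
    rw [Finset.sum_eq_single j] at h1
    · rw [hW j, h.hat_basis (1, j) (1, j), if_pos rfl, mul_one] at h1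
      rw [h1]
      have := TW.hat_smul (τ := T0.τ) (u := u) (W := W) 0 (1 : Elt N) (1, j)
      rw [zero_smul, zero_mul] at this
      exact this
    · intro b _ hb
      rw [hW b, h.hat_basis (1, j) (1, b), if_neg, mul_zero]
      intro h'
      exact hb (Prod.ext_iff.1 h').2.symm
    · intro hj'
      exact absurd hj hj'
  have h1 : Finite V := hli.finite
  exact hL.infinite 0 (Set.toFinite _)

theorem is_factor (h : TW D T0.τ u W) (hL : Lev D T) (C : ℝ) (F : ℕ → Fin 5 → Elt N)
    (hF : GapT T0 u W T C F) : IsIIOneFactor N (fun x => T0.τ x) := by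
  refine ⟨?_, spa_infinite h hL, ⟨T0.map_one, T0.tracial, T0.faithful⟩, T0.normal⟩
  intro z hz hcom
  have := spa_center h hL C F hF (⟨z, hz⟩ : Elt N) (fun x => Subtype.ext (hcom x x.2))
  exact ⟨_, congrArg Subtype.val this⟩

end Pool.Agent.H146R2.SD
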