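import Mathlib
import Pool.Agent.H146R2.SD.AVG
import Pool.Agent.Helper436.SM.Pack
import Pool.Agent.H146R2.SD.SPA

set_option autoImplicit false
set_option linter.unusedSectionVars false

open scoped ComplexConjugate Topology
open Filter

namespace Pool.Agent.H146R2.SD

open Pool.Agent.Helper278 Pool.Agent.Helper436.SM

variable {H : Type} [NormedAddCommGroup H] [InnerProductSpace ℂ H] [CompleteSpace H]
variable {N : VonNeumannAlgebra H} {T0 : TracialState N}
variable {V G : Type} [AddCommGroup V] [Group G] {D : Dat V G} {u : G →* Elt N} {W : V → Elt N}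
variable {T : ℕ → AddSubgroup V}

section

variable {A : Type} [Ring A] [StarRing A] [Algebra ℂ A] [StarModule ℂ A] {τ : A →ₗ[ℂ] ℂ}
variable {D' : Dat V G} {u' : G →* A} {W' : V → A}

theorem spb_n2_smul (c : ℂ) (x : A) : n2 τ (c • x) = ‖c‖ * n2 τ x := by
  unfold n2
  rw [star_smul, smul_mul_smul_comm, map_smul, Complex.star_def, smul_eq_mul,
    ← Complex.normSq_eq_conj_mul_self, Complex.re_ofReal_mul,
    Real.sqrt_mul (Complex.normSq_nonneg c), Complex.normSq_eq_norm_sq,
    Real.sqrt_sq (norm_nonneg c)]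

theorem spb_basis_one (h : TW D' τ u' W') (v : V) : u' 1 * W' v = W' v := by
  rw [map_one, one_mul]

theorem spb_hat_one (h : TW D' τ u' W') (b : G × V) (hb : b ≠ (1, 0)) :
    hat τ u' W' 1 b = 0 := by
  classical
  have h1 := h.hat_basis b ((1 : G), (0 : V))
  rw [if_neg hb] at h1
  have h2 : u' ((1 : G), (0 : V)).1 * W' ((1 : G), (0 : V)).2 = 1 := by
    show u' 1 * W' 0 = 1
    rw [map_one, one_mul, h.zero]
  rw [h2] at h1
  exact h1

theorem spb_orth (h : TW D' τ u' W') (v w : V) (hvw : v ≠ w) :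
    τ (star (W' v) * W' w) = 0 := by
  classical
  have h1 := h.hat_basis ((1 : G), v) ((1 : G), w)
  have h0 : ((1 : G), v) ≠ ((1 : G), w) := fun hc => hvw (Prod.ext_iff.1 hc).2
  rw [if_neg h0] at h1
  have h2 : hat τ u' W' (u' ((1 : G), w).1 * W' ((1 : G), w).2) ((1 : G), v) =
      τ (star (u' 1 * W' v) * (u' 1 * W' w)) := rfl
  rw [h2, map_one, one_mul, one_mul] at h1
  exact h1

theorem spb_dist (h : TW D' τ u' W') (x : A) :
    n2 τ (x - τ x • 1) ^ 2 = mass τ u' W' ({((1 : G), (0 : V))} : Set (G × V))ᶜ x := by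
  rw [← h.mass_univ]
  unfold mass
  congr 1
  funext b
  rw [Set.indicator_of_mem (Set.mem_univ b), TW.hat_sub, TW.hat_smul]
  by_cases hb : b = (1, 0)
  · rw [Set.indicator_of_notMem (show b ∉ ({((1 : G), (0 : V))} : Set (G × V))ᶜ from
      fun hc => hc hb), hb, h.hat_one_zero, h.hat_one_zero, h.tr.one,
      mul_one, sub_self, norm_zero, zero_pow two_ne_zero]
  · rw [Set.indicator_of_mem (show b ∈ ({((1 : G), (0 : V))} : Set (G × V))ᶜ from hb),
      spb_hat_one h b hb, mul_zero, sub_zero]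

/-- the mass off the commutant of `T m` tends to zero -/
theorem spb_mass (h : TW D' τ u' W') (hL : Lev D' T) (x : A) (ε : ℝ) (hε : 0 < ε) :
    ∃ M : ℕ, ∀ m, M ≤ m → mass τ u' W' (perp D' (T m))ᶜ x < ε := by
  classical
  obtain ⟨F, hF⟩ := h.exists_finset_mass x ε hε
  choose k hk using hL.exh
  refine ⟨F.sup k, fun m hm => lt_of_le_of_lt (h.mass_mono ?_ x) hF⟩
  intro b hb hbF
  apply hb
  intro t ht
  exact hk b t (hL.anti ((Finset.le_sup (f := k) hbF).trans hm) ht)

end

section ultra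

open scoped BoundedContinuousFunction

variable {Q : Type} [Ring Q] [StarRing Q] [Algebra ℂ Q] [StarModule ℂ Q]
variable {U : Ultrafilter ℕ} {π : (ℕ →ᵇ Elt N) →⋆ₐ[ℂ] Q} {σ : Q → ℂ}

theorem spb_sqrt {f : ℕ → ℝ} (hf : ∀ n, 0 ≤ f n) (h : Tendsto (fun n => f n ^ 2) U (𝓝 0)) :
    Tendsto f U (𝓝 0) := by
  have h1 := (Real.continuous_sqrt.tendsto 0).comp h
  rw [Real.sqrt_zero] at h1
  refine h1.congr fun n => ?_
  exact Real.sqrt_sq (hf n)

/-- sequences of vectors in the tails are central -/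
theorem spb_seq_comm (h : TW D T0.τ u W) (hL : Lev D T) (hπ : IsTracialUltrapower T0.τ U π σ)
    (y : ℕ →ᵇ Elt N) (k : ℕ → ℕ) (w : ℕ → V) (hk : ∀ m, ∀ᶠ n in (U : Filter ℕ), m ≤ k n)
    (hw : ∀ n, w n ∈ T (k n)) (hy : ∀ n, y n = W (w n)) (a : Elt N) :
    π y * π (BoundedContinuousFunction.const ℕ a) =
      π (BoundedContinuousFunction.const ℕ a) * π y := by
  rw [← map_mul, ← map_mul, pi_eq_iff hπ]
  refine spb_sqrt (fun n => n2_nonneg _ _) ?_
  rw [Metric.tendsto_nhds]
  intro ε hε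
  obtain ⟨M, hM⟩ := spb_mass h hL a (ε / 4) (by positivity)
  refine (hk M).mono fun n hn => ?_
  rw [Real.dist_eq, sub_zero, abs_of_nonneg (sq_nonneg _)]
  have e1 : (y * BoundedContinuousFunction.const ℕ a) n - (BoundedContinuousFunction.const ℕ a * y) n
      = W (w n) * a - a * W (w n) := by
    rw [← hy]
    rfl
  rw [e1]
  have h1 := h.comm_perp_le (T (k n)) (w n) (hw n) a
  have h2 := hM (k n) hn
  linarith

theorem spb_cof (hU : ∀ n, {n} ∉ U) : ∀ m : ℕ, ∀ᶠ n in (U : Filter ℕ), m ≤ n := by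
  intro J
  rcases Ultrafilter.le_cofinite_or_eq_pure U with h1 | ⟨n, hn⟩
  · rw [Nat.cofinite_eq_atTop] at h1
    exact h1 (eventually_ge_atTop J)
  · exfalso
    apply hU n
    rw [hn]
    exact Ultrafilter.mem_pure.2 rfl

theorem spb_center (h : TW D T0.τ u W) (hL : Lev D T) (C : ℝ) (F : ℕ → Fin 5 → Elt N)
    (hF : GapT T0 u W T C F) (hU : ∀ n, {n} ∉ U)
    (hπ : IsTracialUltrapower T0.τ U π σ) (z : Q)
    (hz : ∀ a : Elt N, z * π (BoundedContinuousFunction.const ℕ a) =
        π (BoundedContinuousFunction.const ℕ a) * z)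
    (hz2 : ∀ y : Q, (∀ a : Elt N, y * π (BoundedContinuousFunction.const ℕ a) =
        π (BoundedContinuousFunction.const ℕ a) * y) → z * y = y * z) :
    ∃ c : ℂ, z = c • (1 : Q) := by
  obtain ⟨x, rfl⟩ := hπ.surj z
  have hcomm : ∀ a : Elt N, Tendsto (fun n => n2 T0.τ (a * x n - x n * a)) U (𝓝 0) := by
    intro a
    have h1 := hz a
    rw [← map_mul, ← map_mul, pi_eq_iff hπ] at h1
    refine h1.congr fun n => ?_
    rw [h.tr.n2_sub_comm]
    rfl
  have hB : ∀ m, Tendsto (fun n => mass T0.τ u W (tl (T m))ᶜ (x n)) U (𝓝 0) := by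
    intro m
    have h1 : Tendsto (fun n => C * ∑ j, n2 T0.τ (F m j * x n - x n * F m j) ^ 2) U (𝓝 0) := by
      have h2 := (tendsto_finsetSum (Finset.univ : Finset (Fin 5))
        (fun j _ => (hcomm (F m j)).pow 2)).const_mul C
      simpa using h2
    exact squeeze_zero (fun n => TW.mass_nonneg _ _) (fun n => hF.gap m (x n)) h1
  have hcof := spb_cof hU
  -- the diagonal choice
  classical
  let P : ℕ → ℕ → Prop := fun n k => mass T0.τ u W (tl (T k))ᶜ (x n) ≤ 1 / ((k : ℝ) + 1)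
  let k : ℕ → ℕ := fun n => Nat.findGreatest (P n) n
  have hP : ∀ m, ∀ᶠ n in (U : Filter ℕ), P n m := by
    intro m
    have h1 : (0 : ℝ) < 1 / ((m : ℝ) + 1) := by positivity
    exact ((hB m).eventually (gt_mem_nhds h1)).mono fun n hn => hn.le
  have hkm : ∀ m, ∀ᶠ n in (U : Filter ℕ), m ≤ k n := by
    intro m
    filter_upwards [hP m, hcof m] with n h1 h2
    exact Nat.le_findGreatest h2 h1
  have hPk : ∀ᶠ n in (U : Filter ℕ), P n (k n) := by
    filter_upwards [hP 0] with n h1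
    exact Nat.findGreatest_spec (P := P n) (Nat.zero_le n) h1
  have hBk : Tendsto (fun n => mass T0.τ u W (tl (T (k n)))ᶜ (x n)) U (𝓝 0) := by
    rw [Metric.tendsto_nhds]
    intro ε hε
    obtain ⟨m, hm⟩ := exists_nat_gt (1 / ε)
    filter_upwards [hPk, hkm m] with n h1 h2
    rw [Real.dist_eq, sub_zero, abs_of_nonneg (TW.mass_nonneg _ _)]
    refine lt_of_le_of_lt h1 ?_
    have h3 : (m : ℝ) ≤ k n := by exact_mod_cast h2
    rw [div_lt_iff₀ (by positivity)]
    rw [div_lt_iff₀ hε] at hm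
    nlinarith
  -- the far part
  choose w hw1 hw2 using fun n => h.exists_t hL.tors (T (k n)) (x n)
  let y : ℕ →ᵇ Elt N := mkB fun n => ⟨W (w n), h.W_mem (w n)⟩
  have hy : ∀ n, y n = W (w n) := fun n => rfl
  have hycomm := fun a : Elt N => spb_seq_comm h hL hπ y k w hkm hw1 hy a
  have hxy := hz2 (π y) hycomm
  rw [← map_mul, ← map_mul, pi_eq_iff hπ] at hxy
  have hfar : Tendsto (fun n => mass T0.τ u W (perp D (T (k n)))ᶜ (x n)) U (𝓝 0) := by
    have hxy2 := hxy.pow 2
    rw [zero_pow two_ne_zero] at hxy2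
    refine squeeze_zero (fun n => TW.mass_nonneg _ _) (fun n => ?_) hxy2
    refine (hw2 n).trans (le_of_eq ?_)
    rw [h.tr.n2_sub_comm]
    rfl
  -- conclusion
  have hall : Tendsto (fun n => n2 T0.τ (x n - T0.τ (x n) • 1)) U (𝓝 0) := by
    have h1 := hBk.add hfar
    rw [add_zero] at h1
    refine spb_sqrt (fun n => n2_nonneg _ _) ?_
    refine squeeze_zero (fun n => sq_nonneg _) (fun n => ?_) h1
    rw [spb_dist h]
    refine (h.mass_mono ?_ _).trans (h.mass_union_le _ _ _)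
    intro b hb
    by_contra hn
    rw [Set.mem_union, not_or, Set.notMem_compl_iff, Set.notMem_compl_iff] at hn
    obtain ⟨⟨hn1, hn2⟩, hn3⟩ := hn
    apply hb
    have hb2 : b = (1, b.2) := Prod.ext hn1 rfl
    have h0 := hL.nondeg (k n) b.2 hn2 (fun s hs => by rw [← hb2]; exact hn3 s hs)
    exact Prod.ext hn1 h0
  refine ⟨σ (π x), ?_⟩
  have h1 : π x = π (BoundedContinuousFunction.const ℕ (σ (π x) • (1 : Elt N))) := by
    rw [pi_eq_iff hπ]
    have h2 : Tendsto (fun n => ‖T0.τ (x n) - σ (π x)‖) U (𝓝 0) := by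
      have h3 := (hπ.trace x).sub_const (σ (π x))
      rw [sub_self] at h3
      simpa using h3.norm
    have h3 := hall.add h2
    rw [add_zero] at h3
    refine squeeze_zero (fun n => n2_nonneg _ _) (fun n => ?_) h3
    show n2 T0.τ (x n - σ (π x) • 1) ≤ _
    have h4 : x n - σ (π x) • (1 : Elt N) = (x n - T0.τ (x n) • 1) +
        (T0.τ (x n) - σ (π x)) • 1 := by
      rw [sub_smul]; abel
    rw [h4]
    refine (h.tr.n2_add_le _ _).trans (add_le_add le_rfl ?_)
    rw [spb_n2_smul]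
    have h5 : n2 T0.τ (1 : Elt N) = 1 := by
      unfold n2
      rw [star_one, one_mul, h.tr.one]
      simp
    rw [h5, mul_one]
  refine h1.trans ?_
  have h2 : BoundedContinuousFunction.const ℕ (σ (π x) • (1 : Elt N)) =
      σ (π x) • (1 : ℕ →ᵇ Elt N) := by
    ext n
    rfl
  rw [h2, map_smul, map_one]

theorem spb_infinite (h : TW D T0.τ u W) (hL : Lev D T) (hU : ∀ n, {n} ∉ U)
    (hπ : IsTracialUltrapower T0.τ U π σ) :
    ∃ y : ℕ → Q, LinearIndependent ℂ y ∧ ∀ (n : ℕ) (a : Elt N),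
      y n * π (BoundedContinuousFunction.const ℕ a) =
        π (BoundedContinuousFunction.const ℕ a) * y n := by
  classical
  let x : ℕ → ℕ → V := fun m n =>
    (Set.Infinite.natEmbedding (T n : Set V) (hL.infinite n) m).1
  have hxm : ∀ m n, x m n ∈ T n := fun m n =>
    (Set.Infinite.natEmbedding (T n : Set V) (hL.infinite n) m).2
  let Y : ℕ → (ℕ →ᵇ Elt N) := fun m => mkB fun n => ⟨W (x m n), h.W_mem _⟩
  have hY : ∀ m n, Y m n = W (x m n) := fun m n => rfl
  have hx : ∀ m l n, m ≠ l → x m n ≠ x l n := by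
    intro m l n hml hc
    exact hml ((Set.Infinite.natEmbedding (T n : Set V) (hL.infinite n)).injective
      (Subtype.ext hc))
  have horth : ∀ m l, sigmaL hπ (star (π (Y m)) * π (Y l)) = if m = l then 1 else 0 := by
    intro m l
    rw [← map_star, ← map_mul]
    have h1 := hπ.trace (star (Y m) * Y l)
    have h2 : Tendsto (fun n => T0.τ ((star (Y m) * Y l : ℕ →ᵇ Elt N) n)) U
        (𝓝 (if m = l then 1 else 0)) := by
      refine tendsto_const_nhds.congr fun n => ?_
      have e1 : (star (Y m) * Y l : ℕ →ᵇ Elt N) n = star (W (x m n)) * W (x l n) := rfl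
      rw [e1]
      by_cases hml : m = l
      · rw [if_pos hml, hml, h.unit_left, h.tr.one]
      · rw [if_neg hml, spb_orth h _ _ (hx m l n hml)]
    exact tendsto_nhds_unique h1 h2
  refine ⟨fun m => π (Y m), ?_, ?_⟩
  · rw [linearIndependent_iff']
    intro s g hg i hi
    have h1 : sigmaL hπ (star (π (Y i)) * ∑ j ∈ s, g j • π (Y j)) = g i := by
      rw [Finset.mul_sum, map_sum]
      rw [Finset.sum_eq_single i]
      · rw [mul_smul_comm, map_smul, horth, if_pos rfl, smul_eq_mul, mul_one]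
      · intro j _ hj
        rw [mul_smul_comm, map_smul, horth, if_neg (Ne.symm hj), smul_zero]
      · intro hc
        exact absurd hi hc
    rw [hg, mul_zero, map_zero] at h1
    exact h1.symm
  · intro m a
    exact spb_seq_comm h hL hπ (Y m) (fun n => n) (x m) (spb_cof hU) (hxm m) (hY m) a

end ultra

theorem super_mcduff (h : TW D T0.τ u W) (hL : Lev D T) (C : ℝ) (F : ℕ → Fin 5 → Elt N)
    (hF : GapT T0 u W T C F) (U : Ultrafilter ℕ) (hU : ∀ n, {n} ∉ U) :
    SuperMcDuff U (fun x : Elt N => T0.τ x) := by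
  obtain ⟨Q, _, _, _, _, π, σ, hπ⟩ := exists_ultrapower T0 U
  exact Pack.superMcDuff_of hU hπ (fun z hz hz2 => spb_center h hL C F hF hU hπ z hz hz2)
    (spb_infinite h hL hU hπ)

end Pool.Agent.H146R2.SD
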