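import Mathlib
import Pool.Agent.H146R2.SD.AVG
import Pool.Agent.Helper436.SM.Pack
import Pool.Agent.H146R2.SD.SPA
import Pool.Agent.H146R2.SD.SPB

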