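import Mathlib
import Pool.Agent.H146R2.SD.POS
import Pool.Agent.H146R2.SD.NEG
import Pool.Agent.H146R2.SD.FM
import Pool.Agent.H146R2.SD.SUP
import Pool.Agent.H146R2.SD.RED
import Pool.Agent.H146R2.SD.EXM
import Pool.Agent.H146R2.SD.SEP
import Pool.Agent.Helper159.GM.Stmt

set_option autoImplicit false
set_option linter.unusedSectionVars false

open scoped ComplexConjugate Topology
open Filter

namespace Pool.Agent.H146R2.SD

open Pool.Agent.Helper278 Pool.Agent.Helper436.SM Pool.Agent.Helper159.GM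

universe w

/-- the gap of the letters `a` and `b` -/
theorem gap_letters {A : Type} [Ring A] [StarRing A] [Algebra ℂ A] [StarModule ℂ A]
    {τ : A →ₗ[ℂ] ℂ} (S : Set ℕ) {u : GF →* A} {W : VP → A} (h : TW (DP S) τ u W) (x : A) :
    mass τ u W {b' | b'.1 ≠ 1} x ≤
      1000 * (n2 τ (u la * x - x * u la) ^ 2 + n2 τ (u lb * x - x * u lb) ^ 2) := by
  have h0 : ∀ n : ℕ, piG (FreeGroup.of (Sum.inl n)) = 1 := fun n => by
    rw [piG, FreeGroup.lift_apply_of]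
    rfl
  refine h.gap_ab (Sum.inl 0) (Sum.inl 1) (by simp) (fun v => ?_) (fun v => ?_) x
  · refine chiP_eq_zero S v _ fun k _ => Or.inr ?_
    rw [h0]
    rfl
  · refine chiP_eq_zero S v _ fun k _ => Or.inr ?_
    rw [h0]
    rfl

/-- two of the factors are not elementarily equivalent -/
theorem not_equiv {H K : Type} [NormedAddCommGroup H] [InnerProductSpace ℂ H] [CompleteSpace H]
    [NormedAddCommGroup K] [InnerProductSpace ℂ K] [CompleteSpace K]
    {N : VonNeumannAlgebra H} {T0 : TracialState N} {M : VonNeumannAlgebra K}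
    {S0 : TracialState M} (S S' : Set ℕ) {u : GF →* Elt N} {W : VP → Elt N}
    {u' : GF →* Elt M} {W' : VP → Elt M} (h : TW (DP S) T0.τ u W) (h' : TW (DP S') S0.τ u' W')
    (k : ℕ) (hk : k ∈ S) (hk' : k ∉ S') :
    ¬ ElemEquiv.{w} (fun x : Elt N => T0.τ x) (fun x : Elt M => S0.τ x) := by
  intro hE
  obtain ⟨C, F, hF⟩ := exists_F S h
  obtain ⟨C', F', hF'⟩ := exists_F S' h'
  have hfac := is_factor h (lev S) C F hF
  obtain ⟨I, J, U, V, ρ, ρ', Q, _, _, _, π, π', φ, hρ, hρ', h1, h2⟩ :=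
    common hfac.center hfac.infinite hE
  obtain ⟨w, δ, α, γ, θ, hP⟩ := hasP S k hk
  have k1 : PropP (pk k) Q := pos h (lev S) h1 ρ hρ 1000 la lb _ (pk k) (pk_prime k).pos
    (gap_letters S h) w δ α γ θ hP
  exact neg h' (lev S') C' F' hF' (pk k) (notP S' k hk') h2 ρ' hρ' k1

theorem ElemEquiv.symm' {A B : Type} [CStarAlgebra A] [CStarAlgebra B] {τ : A → ℂ} {σ : B → ℂ}
    (h : ElemEquiv.{w} τ σ) : ElemEquiv.{w} σ τ := by
  obtain ⟨I, J, U, V, P, Q, i1, i2, i3, i4, i5, i6, π, φ, ρ, ψ, h1, h2, ⟨e0⟩⟩ := h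
  exact ⟨J, I, V, U, Q, P, i4, i5, i6, i1, i2, i3, ρ, ψ, π, φ, h2, h1, ⟨e0.symm⟩⟩

theorem exists_family (U : Ultrafilter ℕ) (hU : ∀ n, {n} ∉ U) :
    ∃ N : ℝ → VNA, (∀ t, IsIIOneFactor (N t).N (N t).τ ∧
      Pool.Agent.Helper436.SN.IsSeparable (N t).τ ∧ ConnesEmbeddable U (N t).τ ∧
      SuperMcDuff U (N t).τ) ∧ ∀ s t, s ≠ t → ¬ ElemEquiv.{w} (N s).τ (N t).τ := by
  obtain ⟨f⟩ : Nonempty (ℝ ↪ Set ℕ) := by
    rw [← Cardinal.le_def]
    simp [Cardinal.mk_real]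
  have hVP : Countable VP := inferInstance
  have hGF : Countable GF := inferInstance
  have key : ∀ S : Set ℕ, ∃ M : VNA, IsIIOneFactor M.N M.τ ∧
      Pool.Agent.Helper436.SN.IsSeparable M.τ ∧ ConnesEmbeddable U M.τ ∧
      SuperMcDuff U M.τ ∧ ∃ (T0 : TracialState M.N) (u : GF →* Elt M.N) (W : VP → Elt M.N),
        (M.τ = fun x => T0.τ x) ∧ TW (DP S) T0.τ u W := by
    intro S
    obtain ⟨K, _, _, _, M, S0, u, W, h, hc⟩ := exists_MS S U hU
    obtain ⟨C, F, hF⟩ := exists_F S h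
    exact ⟨⟨K, M, fun x => S0.τ x⟩, is_factor h (lev S) C F hF, h.separable, hc,
      super_mcduff h (lev S) C F hF U hU, S0, u, W, rfl, h⟩
  choose M hM1 hM0 hM2 hM3 T0 u W hτ hTW using key
  refine ⟨fun t => M (f t), fun t => ⟨hM1 _, hM0 _, hM2 _, hM3 _⟩, fun s t hst hE => ?_⟩
  have hne : f s ≠ f t := fun h => hst (f.injective h)
  rw [hτ, hτ] at hE
  obtain ⟨k, hk⟩ : ∃ k, ¬ (k ∈ f s ↔ k ∈ f t) := by
    by_contra hcon
    push_neg at hcon
    exact hne (Set.ext hcon)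
  by_cases h1 : k ∈ f s
  · exact not_equiv (f s) (f t) (hTW _) (hTW _) k h1 (fun h2 => hk ⟨fun _ => h2, fun _ => h1⟩) hE
  · have h2 : k ∈ f t := by
      by_contra h2
      exact hk ⟨fun h => absurd h h1, fun h => absurd h h2⟩
    exact not_equiv (f t) (f s) (hTW _) (hTW _) k h2 h1 (ElemEquiv.symm' hE)

end Pool.Agent.H146R2.SD
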